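import Pool.Agent.LibRC91.Q6

/-!
# [RC91 Q7] the sum over `A`
PLAN: for `A` square free, `A ≠ 1`, `|A| ≤ T` (`T` natural, `T ≥ 1`): `QA A ⊆ QS T`: if `a = 0` then `u^2 = A v^2` with
`v ≠ 0` makes `A` the square of an integer (`v ∣ u`: `Int.pow_dvd_pow_iff`), so `A = 1` (square free: `A = n^2`,
`n * n ∣ A` so `n` is a unit): impossible; the rest is immediate (`u^2 - 4a^3 = A v^2`).
For different `A` the sets `QA A` are disjoint (`A v^2 = u^2 - 4a^3`, `v ≠ 0`). So the sum of the cardinalities is the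
cardinality of the union (`Finset.induction`, `Set.ncard_union_eq`, or `Set.Finite.toFinset` and
`Finset.card_biUnion`) `≤ #QS T` (Q6). `QI_fin`: take `T = A.natAbs` (`≥ 1`).
-/
set_option autoImplicit false
namespace RC91

theorem Q7_sub (A : ℤ) (hA : Squarefree A) (h1 : A ≠ 1) (T : ℕ) (hT : |A| ≤ T) : QA A ⊆ QS T := by
  rintro ⟨u, v, a⟩ ⟨hv, he, hv4, ha2, hP⟩
  simp only at hv he hv4 ha2 hP
  have hA' : u ^ 2 - 4 * a ^ 3 = A * v ^ 2 := by linarith
  refine ⟨hv, ?_, ?_, ?_, ?_, ?_, hP⟩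
  · intro ha0
    simp only at ha0
    rw [ha0] at hA'
    have h2 : u ^ 2 = A * v ^ 2 := by linarith
    have h3 : v ∣ u := by
      have h4 : v ^ 2 ∣ u ^ 2 := ⟨A, by rw [h2]; ring⟩
      exact (Int.pow_dvd_pow_iff two_ne_zero).mp h4
    obtain ⟨w, hw⟩ := h3
    have h5 : A = w * w := by
      have h6 : v ^ 2 * A = v ^ 2 * (w * w) := by
        calc v ^ 2 * A = u ^ 2 := by rw [h2]; ring
          _ = v ^ 2 * (w * w) := by rw [hw]; ring
      exact mul_left_cancel₀ (pow_ne_zero 2 hv) h6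
    have h7 := hA w ⟨1, by rw [h5]; ring⟩
    rcases Int.isUnit_iff.mp h7 with h | h
    · exact h1 (by rw [h5, h]; rfl)
    · exact h1 (by rw [h5, h]; rfl)
  · exact ⟨A, by rw [hA']; ring⟩
  · simp only
    rw [hA', abs_mul, abs_of_nonneg (sq_nonneg v)]
    exact mul_le_mul_of_nonneg_right hT (sq_nonneg v)
  · simp only
    refine hv4.trans ?_
    exact mul_le_mul_of_nonneg_left hT (by norm_num)
  · simp only
    refine ha2.trans ?_
    exact mul_le_mul_of_nonneg_left hT (by norm_num)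

theorem Q7_fin (A : ℤ) (hA : Squarefree A) (h1 : A ≠ 1) : (QA A).Finite := by
  have h2 : 1 ≤ A.natAbs := Nat.one_le_iff_ne_zero.mpr (Int.natAbs_ne_zero.mpr hA.ne_zero)
  exact (Q6 A.natAbs h2).1.subset (Q7_sub A hA h1 A.natAbs (by rw [Int.abs_eq_natAbs]))

theorem Q7 (T : ℕ) (hT : 1 ≤ T) (S : Finset ℤ)
    (hS : ∀ A ∈ S, Squarefree A ∧ A ≠ 1 ∧ |A| ≤ T) :
    ∑ A ∈ S, ((QA A).ncard : ℝ) ≤ 20000 * (T : ℝ) * (1 + Real.log T) := by
  classical
  obtain ⟨hfin, hcard⟩ := Q6 T hT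
  refine le_trans ?_ hcard
  have hsub : ∀ A ∈ S, QA A ⊆ QS T := fun A hA => Q7_sub A (hS A hA).1 (hS A hA).2.1 T (hS A hA).2.2
  set F : ℤ → Finset (ℤ × ℤ × ℤ) := fun A => hfin.toFinset.filter (fun q => q ∈ QA A) with hF
  have h1 : ∀ A ∈ S, (QA A).ncard = (F A).card := by
    intro A hA
    rw [← Set.ncard_coe_finset]
    congr 1
    ext q
    rw [hF, Finset.mem_coe, Finset.mem_filter, Set.Finite.mem_toFinset]
    exact ⟨fun h => ⟨hsub A hA h, h⟩, fun h => h.2⟩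
  have hdisj : (S : Set ℤ).PairwiseDisjoint F := by
    intro A _ B _ hAB
    change Disjoint (F A) (F B)
    rw [Finset.disjoint_left]
    intro q hqA hqB
    apply hAB
    have h2 : q ∈ QA A := (Finset.mem_filter.mp hqA).2
    have h3 : q ∈ QA B := (Finset.mem_filter.mp hqB).2
    have h4 := h2.2.1
    have h5 := h3.2.1
    have h6 : q.2.1 ^ 2 * A = q.2.1 ^ 2 * B := by linarith
    exact mul_left_cancel₀ (pow_ne_zero 2 h2.1) h6
  have h7 : ∑ A ∈ S, (QA A).ncard ≤ (QS T).ncard := by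
    rw [Finset.sum_congr rfl h1, ← Finset.card_biUnion hdisj, Set.ncard_eq_toFinset_card _ hfin]
    apply Finset.card_le_card
    intro q hq
    obtain ⟨A, _, hqA⟩ := Finset.mem_biUnion.mp hq
    exact (Finset.mem_filter.mp hqA).1
  exact_mod_cast h7

end RC91
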