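import Pool.Agent.LibRC91.L0

/-!
# [RC91 L2] the two patterns at a prime `p | c`
PLAN of `L2_arith`: `v_p(A m^2) = 2 v_p(m)` is even and `< 6` (no sixth power), so `j = v_p(m) ∈ {1, 2}`.
`j = 1`: `p ∣ x` gives `p ∣ y` (`y^2 = x^3 + A m^2`), `y = p y1`, `x = p x1`, `m = p m1`, `p ∤ m1`, and
`y1^2 - A m1^2 = p x1^3`; `p ∤ y1` since `p ∤ A m1^2`.
`j = 2`: `p^4 ∣∣ y^2 - x^3`. `p ∣ y`. If `p ∤ x/p`, i.e. `v(x) = 1`: `v(x^3) = 3` and `v(y^2)` even, so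
`v(y^2 - x^3) ≤ 3`, impossible. So `p^2 ∣ x`, `v(x^3) ≥ 6`, `v(y^2) = 4`: `y = p^2 y1`, `x = p^2 x1`, `m = p^2 m1`,
`y1^2 - A m1^2 = p^2 x1^3`, `p ∤ m1`, `p ∤ y1`.
PLAN of `L2_ndvd`: `al h y m = p^j * al h y1 m1`, `α' = al h y1 m1`, `β' = conj α'`, `α' β' = p^j x1^3`; `α' + β' = 2 y1`
has valuation 0, so one of `vl α'`, `vl β'` is 0 (both are ≥ 0). With `e = vl p ∈ {1,2}` (L0_e):
`vl α = e j + vl α'` and `vl α' ∈ {0, e j + 3 vl x1}`: `vl α ≡ e j` or `2 e j` mod 3, never 0.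
PLAN of `L2_sum`: L0_pair: `vl w α = vl v (conj α)`, so the sum is `vl v (x^3) = 3 vl v x`.
-/
set_option autoImplicit false
open NumberField nonZeroDivisors IsDedekindDomain
namespace RC91

theorem L2_arith (A : ℤ) (hA : Squarefree A) (p : ℕ) (hp : p.Prime) (x y m : ℤ)
    (e : y ^ 2 - A * m ^ 2 = x ^ 3) (h6 : ¬ ((p : ℤ) ^ 6 ∣ A * m ^ 2)) (hA' : A * m ^ 2 ≠ 0)
    (hpm : (p : ℤ) ∣ m) (hpA : ¬ ((p : ℤ) ∣ A)) (hpx : (p : ℤ) ∣ x) :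
    ∃ j : ℕ, (j = 1 ∨ j = 2) ∧ ∃ x1 y1 m1 : ℤ, x = (p : ℤ) ^ j * x1 ∧ y = (p : ℤ) ^ j * y1 ∧
      m = (p : ℤ) ^ j * m1 ∧ ¬ ((p : ℤ) ∣ m1) ∧ ¬ ((p : ℤ) ∣ y1) ∧
      y1 ^ 2 - A * m1 ^ 2 = (p : ℤ) ^ j * x1 ^ 3 := by
  have hpz : Prime (p : ℤ) := Nat.prime_iff_prime_int.1 hp
  have hp0 : (p : ℤ) ≠ 0 := hpz.ne_zero
  obtain ⟨m1, rfl⟩ := hpm
  obtain ⟨x1, rfl⟩ := hpx
  have hy : (p : ℤ) ∣ y := by
    refine hpz.dvd_of_dvd_pow (n := 2) ⟨p ^ 2 * x1 ^ 3 + A * p * m1 ^ 2, ?_⟩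
    linear_combination e
  obtain ⟨y1, rfl⟩ := hy
  by_cases hm1 : (p : ℤ) ∣ m1
  · obtain ⟨m2, rfl⟩ := hm1
    have e1 : y1 ^ 2 = p * x1 ^ 3 + A * p ^ 2 * m2 ^ 2 := by
      refine mul_left_cancel₀ (pow_ne_zero 2 hp0) ?_
      linear_combination e
    have hy1 : (p : ℤ) ∣ y1 := by
      refine hpz.dvd_of_dvd_pow (n := 2) ⟨x1 ^ 3 + A * p * m2 ^ 2, ?_⟩
      linear_combination e1
    obtain ⟨y2, rfl⟩ := hy1
    have e2 : p * y2 ^ 2 = x1 ^ 3 + A * p * m2 ^ 2 := by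
      refine mul_left_cancel₀ hp0 ?_
      linear_combination e1
    have hx1 : (p : ℤ) ∣ x1 := by
      refine hpz.dvd_of_dvd_pow (n := 3) ⟨y2 ^ 2 - A * m2 ^ 2, ?_⟩
      linear_combination -e2
    obtain ⟨x2, rfl⟩ := hx1
    have e3 : y2 ^ 2 - A * m2 ^ 2 = p ^ 2 * x2 ^ 3 := by
      refine mul_left_cancel₀ hp0 ?_
      linear_combination e2
    have hm2 : ¬ ((p : ℤ) ∣ m2) := by
      rintro ⟨m3, rfl⟩
      exact h6 ⟨A * m3 ^ 2, by ring⟩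
    refine ⟨2, Or.inr rfl, x2, y2, m2, by ring, by ring, by ring, hm2, ?_, e3⟩
    intro hd
    have h1 : (p : ℤ) ∣ A * m2 ^ 2 := by
      obtain ⟨y3, rfl⟩ := hd
      exact ⟨p * y3 ^ 2 - p * x2 ^ 3, by linear_combination -e3⟩
    rcases hpz.dvd_or_dvd h1 with h2 | h2
    · exact hpA h2
    · exact hm2 (hpz.dvd_of_dvd_pow h2)
  · have e3 : y1 ^ 2 - A * m1 ^ 2 = p * x1 ^ 3 := by
      refine mul_left_cancel₀ (pow_ne_zero 2 hp0) ?_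
      linear_combination e
    refine ⟨1, Or.inl rfl, x1, y1, m1, by ring, by ring, by ring, hm1, ?_, by rw [e3]; ring⟩
    intro hd
    have h1 : (p : ℤ) ∣ A * m1 ^ 2 := by
      obtain ⟨y3, rfl⟩ := hd
      exact ⟨p * y3 ^ 2 - x1 ^ 3, by linear_combination -e3⟩
    rcases hpz.dvd_or_dvd h1 with h2 | h2
    · exact hpA h2
    · exact hm1 (hpz.dvd_of_dvd_pow h2)

variable {A : ℤ} {K : Type} [Field K] [NumberField K] (h : QF A K)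

theorem L2_ndvd (hA : Squarefree A) (v : HeightOneSpectrum (𝓞 K)) (p : ℕ) (hp : p.Prime)
    (hp3 : 3 < p) (hv : (p : 𝓞 K) ∈ v.asIdeal) (x y m : ℤ) (hx : x ≠ 0) (hm : m ≠ 0)
    (e : y ^ 2 - A * m ^ 2 = x ^ 3) (h6 : ¬ ((p : ℤ) ^ 6 ∣ A * m ^ 2))
    (hpm : (p : ℤ) ∣ m) (hpA : ¬ ((p : ℤ) ∣ A)) (hpx : (p : ℤ) ∣ x) :
    ¬ ((3 : ℤ) ∣ vl v (al h y m)) := by
  have := Fact.mk hp
  have hpz : Prime (p : ℤ) := Nat.prime_iff_prime_int.1 hp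
  obtain ⟨j, hj, x1, y1, m1, hx1, hy1, hm1, hpm1, hpy1, e1⟩ := L2_arith A hA p hp x y m e h6
    (mul_ne_zero hA.ne_zero (pow_ne_zero 2 hm)) hpm hpA hpx
  have hx10 : x1 ≠ 0 := by
    rintro rfl
    exact hx (by rw [hx1]; ring)
  have hx1K : (x1 : K) ≠ 0 := by exact_mod_cast hx10
  have hpK : (p : K) ≠ 0 := by exact_mod_cast hp.ne_zero
  set α : K := al h y1 m1 with hα
  set β : K := al h y1 (-m1) with hβ
  have hprod : α * β = (p : K) ^ j * (x1 : K) ^ 3 := by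
    have h1 : α * β = (y1 : K) ^ 2 - (m1 : K) ^ 2 * h.rho ^ 2 := by
      rw [hα, hβ, al, al]
      push_cast
      ring
    rw [h1, h.sq]
    have h2 : ((y1 ^ 2 - A * m1 ^ 2 : ℤ) : K) = (((p : ℤ) ^ j * x1 ^ 3 : ℤ) : K) := by rw [e1]
    push_cast at h2
    linear_combination h2
  have hprod0 : α * β ≠ 0 := by
    rw [hprod]
    exact mul_ne_zero (pow_ne_zero _ hpK) (pow_ne_zero _ hx1K)
  have hα0 : α ≠ 0 := left_ne_zero_of_mul hprod0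
  have hβ0 : β ≠ 0 := right_ne_zero_of_mul hprod0
  have hfac : al h y m = (p : K) ^ j * α := by
    rw [hα, al, al, hy1, hm1]
    push_cast
    ring
  have hv1 : vl v (al h y m) = j * vl v (p : K) + vl v α := by
    rw [hfac, V1_mul v _ _ (pow_ne_zero _ hpK) hα0, V1_pow]
  have hs : vl v α + vl v β = j * vl v (p : K) + 3 * vl v (x1 : K) := by
    rw [← V1_mul v α β hα0 hβ0, hprod, V1_mul v _ _ (pow_ne_zero _ hpK) (pow_ne_zero _ hx1K),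
      V1_pow, V1_pow]
    push_cast
    ring
  have ha : 0 ≤ vl v α := V1_int v α (K2_alint h y1 m1)
  have hb : 0 ≤ vl v β := V1_int v β (K2_alint h y1 (-m1))
  have h2y : ¬ ((p : ℤ) ∣ 2 * y1) := by
    intro hd
    rcases hpz.dvd_or_dvd hd with hd | hd
    · have hd2 : p ∣ 2 := by exact_mod_cast hd
      have := Nat.le_of_dvd (by norm_num) hd2
      omega
    · exact hpy1 hd
  have h2y0 : (2 * y1 : ℤ) ≠ 0 := fun h0 => h2y (h0 ▸ dvd_zero _)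
  have hsum : α + β = ((2 * y1 : ℤ) : K) := by
    rw [hα, hβ, al, al]
    push_cast
    ring
  have hsv : vl v (α + β) = 0 := by
    rw [hsum, V1_nat v p hp hv _ h2y0, padicValInt.eq_zero_of_not_dvd h2y]
    simp
  have hmin := V1_add v α β hα0 hβ0 (by rw [hsum]; exact_mod_cast h2y0)
  rw [hsv] at hmin
  obtain ⟨he1, he2⟩ := L0_e h v p hp hv
  have he : vl v (p : K) = 1 ∨ vl v (p : K) = 2 := by omega
  rcases min_le_iff.1 hmin with h1 | h1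
  · have h0 : vl v α = 0 := le_antisymm h1 ha
    rw [hv1, h0]
    rcases hj with rfl | rfl <;> rcases he with he | he <;> rw [he] <;> norm_num
  · have h0 : vl v β = 0 := le_antisymm h1 hb
    rw [h0, add_zero] at hs
    rw [hv1, hs]
    rcases hj with rfl | rfl <;> rcases he with he | he <;> rw [he] <;> push_cast <;> omega

theorem L2_sum (v w : HeightOneSpectrum (𝓞 K)) (p : ℕ) (hp : p.Prime)
    (hv : (p : 𝓞 K) ∈ v.asIdeal) (hw : (p : 𝓞 K) ∈ w.asIdeal) (hne : w ≠ v)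
    (x y m : ℤ) (hx : x ≠ 0) (e : y ^ 2 - A * m ^ 2 = x ^ 3) :
    (3 : ℤ) ∣ vl v (al h y m) + vl w (al h y m) := by
  have h0 : al h y m ≠ 0 := K2_alne h x y m hx e
  have h1 : h.conj (al h y m) ≠ 0 := (map_ne_zero h.conj).2 h0
  rw [L0_pair h p hp v w hv hw hne _ h0, ← V1_mul v _ _ h0 h1, K2_al h x y m e, V1_pow]
  exact dvd_mul_right _ _

end RC91
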