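import Pool.Agent.LibRC91.Defs

/-!
# [RC91 K2] simple facts about a quadratic field `QF A K`
PLAN: `K2_nsq`: if `rho ∈ ℚ` then `K = ℚ` by `span`, against `rank`. `K2_fix`: `z = r + s rho`, `conj z = r - s rho`
(`conj` is the identity on ℚ: `map_ratCast`), so `conj z = z` gives `s rho = 0`, `s = 0`.
`K2_inv`: on `r + s rho`. `K2_anti`: `z = s rho`, `z^2 = s^2 A` is a rational number and integral, so it is an
integer `n ≠ 0` (`IsIntegrallyClosed ℤ`), `‖emb z‖^2 = |n| ≥ 1`. `K2_int`: `conj` maps integral elements to integral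
elements (`IsIntegral.map` with the ring hom `conj` as a `ℤ`-algebra hom). `K2_norm`: `z * conj z` is fixed by
`conj`, hence rational; integral if `z` is.
`K2_al`: `al * conj al = y^2 - A m^2`.
`K2_cube`: rational numbers with the same cube are equal.
-/
set_option autoImplicit false
open NumberField
namespace RC91

variable {A : ℤ} {K : Type} [Field K] [NumberField K] (h : QF A K)

include h in
theorem K2_nsq (q : ℚ) : (q : K) ≠ h.rho := by
  intro hq
  have hsurj : Function.Surjective (algebraMap ℚ K) := by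
    intro z
    obtain ⟨r, s, hz⟩ := h.span z
    refine ⟨r + s * q, ?_⟩
    rw [hz, ← hq]
    push_cast
    simp
  have h1 : Module.finrank ℚ K = 1 := by
    have hbot : (⊥ : Subalgebra ℚ K) = ⊤ := by
      rw [eq_top_iff]
      intro z _
      obtain ⟨r, hr⟩ := hsurj z
      exact Algebra.mem_bot.2 ⟨r, hr⟩
    exact Subalgebra.bot_eq_top_iff_finrank_eq_one.1 hbot
  have h2 := h.rank
  rw [h1] at h2
  norm_num at h2

private theorem K2_rho0 : h.rho ≠ 0 := by
  intro h0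
  apply K2_nsq h 0
  rw [h0]
  simp

theorem K2_rat (q : ℚ) : h.conj (q : K) = (q : K) := map_ratCast _ _

private theorem K2_conj (r s : ℚ) : h.conj ((r : K) + (s : K) * h.rho) = (r : K) - (s : K) * h.rho := by
  rw [map_add, map_mul, K2_rat, K2_rat, h.conj_rho]
  ring

private theorem K2_ratint (q : ℚ) (hq : IsIntegral ℤ (q : K)) : ∃ n : ℤ, q = (n : ℚ) := by
  have h1 : IsIntegral ℤ q := by
    have h2 : IsIntegral ℤ (algebraMap ℚ K q) := by simpa using hq
    exact (isIntegral_algebraMap_iff (algebraMap ℚ K).injective).1 h2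
  obtain ⟨t, ht⟩ := IsIntegrallyClosed.isIntegral_iff.1 h1
  exact ⟨t, by simpa using ht.symm⟩

theorem K2_fix (z : K) (hz : h.conj z = z) : ∃ q : ℚ, z = (q : K) := by
  obtain ⟨r, s, hz1⟩ := h.span z
  rw [hz1, K2_conj] at hz
  have h1 : (2 : K) * ((s : K) * h.rho) = 0 := by linear_combination -hz
  have h2 : (s : K) * h.rho = 0 := by
    rcases mul_eq_zero.1 h1 with h3 | h3
    · exact absurd h3 (by norm_num)
    · exact h3
  exact ⟨r, by rw [hz1, h2, add_zero]⟩

theorem K2_inv (z : K) : h.conj (h.conj z) = z := by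
  obtain ⟨r, s, hz1⟩ := h.span z
  rw [hz1, K2_conj, map_sub, map_mul, K2_rat, K2_rat, h.conj_rho]
  ring

theorem K2_int (z : K) (hz : IsIntegral ℤ z) : IsIntegral ℤ (h.conj z) :=
  hz.map h.conj.toIntAlgHom

theorem K2_anti (z : K) (hz : IsIntegral ℤ z) (hc : h.conj z = -z) (h0 : z ≠ 0) :
    1 ≤ ‖h.emb z‖ := by
  obtain ⟨r, s, hz1⟩ := h.span z
  have h1 : (r : K) = 0 := by
    rw [hz1, K2_conj] at hc
    have h2 : (2 : K) * (r : K) = 0 := by linear_combination hc
    rcases mul_eq_zero.1 h2 with h3 | h3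
    · exact absurd h3 (by norm_num)
    · exact h3
  have h2 : z ^ 2 = ((s ^ 2 * A : ℚ) : K) := by
    rw [hz1, h1, zero_add, mul_pow, h.sq]
    push_cast
    ring
  obtain ⟨n, hn⟩ := K2_ratint (K := K) (s ^ 2 * A) (by rw [← h2]; exact hz.pow 2)
  have h3 : z ^ 2 = (n : K) := by rw [h2, hn]; simp
  have hn0 : n ≠ 0 := by
    intro hn0
    rw [hn0] at h3
    apply h0
    have : z ^ 2 = 0 := by rw [h3]; simp
    exact pow_eq_zero_iff (two_ne_zero) |>.1 this
  have h4 : ‖h.emb z‖ ^ 2 = |(n : ℝ)| := by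
    rw [← norm_pow, ← map_pow, h3, map_intCast]
    simp
  have h5 : (1 : ℝ) ≤ |(n : ℝ)| := by
    have := Int.one_le_abs hn0
    exact_mod_cast this
  have h6 : (1 : ℝ) ≤ ‖h.emb z‖ ^ 2 := by rw [h4]; exact h5
  nlinarith [norm_nonneg (h.emb z)]

theorem K2_norm (z : K) (hz : IsIntegral ℤ z) : ∃ n : ℤ, z * h.conj z = (n : K) := by
  obtain ⟨q, hq⟩ := K2_fix h (z * h.conj z) (by rw [map_mul, K2_inv]; ring)
  obtain ⟨n, hn⟩ := K2_ratint (K := K) q (by rw [← hq]; exact hz.mul (K2_int h z hz))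
  exact ⟨n, by rw [hq, hn]; simp⟩

theorem K2_alint (y m : ℤ) : IsIntegral ℤ (al h y m) := by
  have h1 : IsIntegral ℤ h.rho := by
    refine IsIntegral.of_pow (n := 2) (by norm_num) ?_
    rw [h.sq]
    exact isIntegral_algebraMap (R := ℤ) (A := K) (x := A)
  have h2 : ∀ n : ℤ, IsIntegral ℤ (n : K) := fun n => isIntegral_algebraMap (R := ℤ) (A := K) (x := n)
  exact (h2 y).add ((h2 m).mul h1)

theorem K2_conjal (y m : ℤ) : h.conj (al h y m) = al h y (-m) := by
  unfold al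
  rw [map_add, map_mul, map_intCast, map_intCast, h.conj_rho]
  push_cast
  ring

theorem K2_al (x y m : ℤ) (e : y ^ 2 - A * m ^ 2 = x ^ 3) :
    al h y m * h.conj (al h y m) = (x : K) ^ 3 := by
  rw [K2_conjal]
  unfold al
  have e' : (y : K) ^ 2 - (A : K) * (m : K) ^ 2 = (x : K) ^ 3 := by exact_mod_cast congrArg (Int.cast : ℤ → K) e
  rw [← e', ← h.sq]
  push_cast
  ring

theorem K2_alne (x y m : ℤ) (hx : x ≠ 0) (e : y ^ 2 - A * m ^ 2 = x ^ 3) :
    al h y m ≠ 0 := by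
  intro h0
  have h1 := K2_al h x y m e
  rw [h0, zero_mul] at h1
  have h2 : (x : K) = 0 := by
    exact pow_eq_zero_iff (three_ne_zero) |>.1 h1.symm
  exact hx (by exact_mod_cast h2)

/-- the quotient of two points of one class has norm `x2 / x1` -/
theorem K2_gnorm (x1 y1 m1 x2 y2 m2 : ℤ) (hx1 : x1 ≠ 0) (hx2 : x2 ≠ 0)
    (e1 : y1 ^ 2 - A * m1 ^ 2 = x1 ^ 3) (e2 : y2 ^ 2 - A * m2 ^ 2 = x2 ^ 3)
    (g : K) (hg : al h y2 m2 = al h y1 m1 * g ^ 3) :
    (x1 : K) * (g * h.conj g) = (x2 : K) ∧ IsIntegral ℤ ((x1 : K) * g) := by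
  have h1 := K2_al h x1 y1 m1 e1
  have h2 := K2_al h x2 y2 m2 e2
  obtain ⟨q, hq⟩ := K2_fix h (g * h.conj g) (by rw [map_mul, K2_inv]; ring)
  have hcube : ((x1 : K) * (g * h.conj g)) ^ 3 = (x2 : K) ^ 3 := by
    rw [← h2, hg, map_mul, map_pow]
    calc ((x1 : K) * (g * h.conj g)) ^ 3 = (x1 : K) ^ 3 * (g ^ 3 * h.conj g ^ 3) := by ring
      _ = al h y1 m1 * g ^ 3 * (h.conj (al h y1 m1) * h.conj g ^ 3) := by rw [← h1]; ring
  constructor
  · rw [hq] at hcube ⊢
    have h3 : ((x1 : ℚ) * q) ^ 3 = (x2 : ℚ) ^ 3 := by exact_mod_cast hcube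
    have h4 : (x1 : ℚ) * q = (x2 : ℚ) := by
      have hodd : Odd 3 := by decide
      exact hodd.strictMono_pow.injective h3
    exact_mod_cast congrArg (Rat.cast : ℚ → K) h4
  · -- (x1 g)^3 = al2 * conj al1
    refine IsIntegral.of_pow (n := 3) (by norm_num) ?_
    have h5 : ((x1 : K) * g) ^ 3 = al h y2 m2 * h.conj (al h y1 m1) := by
      rw [hg, mul_pow, ← h1]
      ring
    rw [h5]
    exact (K2_alint h y2 m2).mul (K2_int h _ (K2_alint h y1 m1))

end RC91
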