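import Pool.Agent.LibRC91.V1
import Pool.Agent.LibRC91.K2

/-!
# [RC91 L0] primes of a quadratic field over a rational prime
PLAN: `∑ e f = 2` (Mathlib `Ideal.sum_ramification_inertia`, with `finrank ℚ K = 2`), so `e ≤ 2` and at most
2 primes lie over `p`; `vl v (p : K)` is the ramification index (`count` of `v` in `span {p}`).
`L0_pair`: `K/ℚ` is Galois (normal of degree 2; `conj` is a nontrivial automorphism), the Galois group
`{1, conj}` acts transitively on the primes over `p` (Mathlib: `Ideal.exists_map_eq_of_isGalois` /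
`Algebra.IsInvariant.exists_smul_of_under_eq` / `Ideal.Quotient...isPretransitive`); or by hand: if `w ≠ v` and
`w ≠ conj v` (`conj v = {z | conj z ∈ v}`) there is `z ∈ w`, `z ∉ v`, `z ∉ conj v` (prime avoidance / coprime
maximal ideals); `z * conj z` is a rational integer in `w`, so divisible by `p`, so in `v`: contradiction.
Then `z ↦ vl w z` and `z ↦ vl v (conj z)` agree (transport of the prime factorization by the automorphism of
`𝓞 K` induced by `conj`).
-/
set_option autoImplicit false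
open NumberField nonZeroDivisors IsDedekindDomain
namespace RC91

/-- `n ≤ vl v a` in terms of powers of the prime ideal -/
private theorem L0_mem {K : Type} [Field K] [NumberField K] (v : HeightOneSpectrum (𝓞 K))
    (a : 𝓞 K) (ha : a ≠ 0) (n : ℕ) :
    a ∈ v.asIdeal ^ n ↔ (n : ℤ) ≤ vl v (algebraMap (𝓞 K) K a) := by
  classical
  have h0 : Ideal.span {a} ≠ 0 := by
    intro h
    exact ha (Ideal.span_singleton_eq_bot.1 h)
  rw [vl, ← FractionalIdeal.coeIdeal_span_singleton, FractionalIdeal.count_coe K v h0,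
    Nat.cast_le, ← Associates.prime_pow_dvd_iff_le (Associates.mk_ne_zero.2 h0)
      v.associates_irreducible, ← Associates.mk_pow, Associates.mk_le_mk_iff_dvd,
    Ideal.dvd_iff_le, Ideal.span_singleton_le_iff_mem]

private theorem L0_norm {K : Type} [Field K] [NumberField K] (hK : Module.finrank ℚ K = 2)
    (p : ℕ) : Ideal.absNorm (Ideal.span {(p : 𝓞 K)}) = p ^ 2 := by
  rw [Ideal.absNorm_span_singleton]
  have h1 : (p : 𝓞 K) = algebraMap ℤ (𝓞 K) (p : ℤ) := by simp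
  rw [h1, Algebra.norm_algebraMap, RingOfIntegers.rank, hK]
  simp

private theorem L0_norm_prime {K : Type} [Field K] [NumberField K]
    (v : HeightOneSpectrum (𝓞 K)) (p : ℕ) (hp : p.Prime) (hK : Module.finrank ℚ K = 2)
    (hv : (p : 𝓞 K) ∈ v.asIdeal) : p ∣ Ideal.absNorm v.asIdeal := by
  have h1 : Ideal.absNorm v.asIdeal ∣ p ^ 2 := by
    rw [← L0_norm hK p]
    exact Ideal.absNorm_dvd_absNorm_of_le ((Ideal.span_singleton_le_iff_mem _).2 hv)
  obtain ⟨k, hk, hk2⟩ := (Nat.dvd_prime_pow hp).1 h1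
  rcases Nat.eq_zero_or_pos k with h0 | h0
  · rw [h0, pow_zero] at hk2
    exact absurd (Ideal.absNorm_eq_one_iff.1 hk2) v.isPrime.ne_top
  · rw [hk2]
    exact dvd_pow_self p h0.ne'

variable {A : ℤ} {K : Type} [Field K] [NumberField K] (h : QF A K)

include h in
theorem L0_e (v : HeightOneSpectrum (𝓞 K)) (p : ℕ) (hp : p.Prime)
    (hv : (p : 𝓞 K) ∈ v.asIdeal) : 1 ≤ vl v (p : K) ∧ vl v (p : K) ≤ 2 := by
  have hp0 : (p : 𝓞 K) ≠ 0 := by exact_mod_cast hp.ne_zero
  have hm : ∀ n : ℕ, (p : 𝓞 K) ∈ v.asIdeal ^ n ↔ (n : ℤ) ≤ vl v (p : K) := by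
    intro n
    rw [L0_mem v _ hp0 n, map_natCast]
  refine ⟨by simpa using (hm 1).1 (by simpa using hv), ?_⟩
  by_contra hc
  have h3 : (p : 𝓞 K) ∈ v.asIdeal ^ 3 := (hm 3).2 (by push_cast; omega)
  have h4 : Ideal.absNorm (v.asIdeal ^ 3) ∣ p ^ 2 := by
    rw [← L0_norm h.rank p]
    exact Ideal.absNorm_dvd_absNorm_of_le ((Ideal.span_singleton_le_iff_mem _).2 h3)
  rw [map_pow] at h4
  have h5 : p ^ 3 ∣ p ^ 2 := (pow_dvd_pow_of_dvd (L0_norm_prime v p hp h.rank hv) 3).trans h4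
  have h6 := Nat.le_of_dvd (pow_pos hp.pos 2) h5
  have h7 := Nat.pow_lt_pow_right hp.one_lt (show 2 < 3 by norm_num)
  omega

include h in
theorem L0_count (p : ℕ) (hp : p.Prime) :
    {v : HeightOneSpectrum (𝓞 K) | (p : 𝓞 K) ∈ v.asIdeal}.Finite ∧
    {v : HeightOneSpectrum (𝓞 K) | (p : 𝓞 K) ∈ v.asIdeal}.ncard ≤ 2 ∧
    {v : HeightOneSpectrum (𝓞 K) | (p : 𝓞 K) ∈ v.asIdeal}.Nonempty := by
  have hp0 : (p : 𝓞 K) ≠ 0 := by exact_mod_cast hp.ne_zero
  have h0 : Ideal.span {(p : 𝓞 K)} ≠ 0 := by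
    intro h
    exact hp0 (Ideal.span_singleton_eq_bot.1 h)
  have hfin : {v : HeightOneSpectrum (𝓞 K) | (p : 𝓞 K) ∈ v.asIdeal}.Finite := by
    refine (Ideal.finite_factors h0).subset fun v hv => ?_
    exact Ideal.dvd_iff_le.2 ((Ideal.span_singleton_le_iff_mem _).2 hv)
  refine ⟨hfin, ?_, ?_⟩
  · by_contra hc
    push Not at hc
    obtain ⟨a, ha, b, hb, c, hc', hab, hac, hbc⟩ := (Set.two_lt_ncard hfin).1 hc
    have hda : a.asIdeal ∣ Ideal.span {(p : 𝓞 K)} :=
      Ideal.dvd_iff_le.2 ((Ideal.span_singleton_le_iff_mem _).2 ha)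
    have hdb : b.asIdeal ∣ Ideal.span {(p : 𝓞 K)} :=
      Ideal.dvd_iff_le.2 ((Ideal.span_singleton_le_iff_mem _).2 hb)
    have hdc : c.asIdeal ∣ Ideal.span {(p : 𝓞 K)} :=
      Ideal.dvd_iff_le.2 ((Ideal.span_singleton_le_iff_mem _).2 hc')
    have hcop : ∀ u w : HeightOneSpectrum (𝓞 K), u ≠ w → IsCoprime u.asIdeal w.asIdeal := by
      intro u w huw
      have := u.isMaximal
      have := w.isMaximal
      exact Ideal.isCoprime_of_isMaximal fun e => huw (HeightOneSpectrum.ext e)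
    have h1 : a.asIdeal * b.asIdeal * c.asIdeal ∣ Ideal.span {(p : 𝓞 K)} :=
      IsCoprime.mul_dvd (IsCoprime.mul_left (hcop a c hac) (hcop b c hbc))
        (IsCoprime.mul_dvd (hcop a b hab) hda hdb) hdc
    have h2 : Ideal.absNorm (a.asIdeal * b.asIdeal * c.asIdeal) ∣ p ^ 2 := by
      rw [← L0_norm h.rank p]
      exact Ideal.absNorm_dvd_absNorm_of_le (Ideal.dvd_iff_le.1 h1)
    rw [map_mul, map_mul] at h2
    have h5 : p * p * p ∣ p ^ 2 :=
      (mul_dvd_mul (mul_dvd_mul (L0_norm_prime a p hp h.rank ha)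
        (L0_norm_prime b p hp h.rank hb)) (L0_norm_prime c p hp h.rank hc')).trans h2
    have h6 := Nat.le_of_dvd (pow_pos hp.pos 2) h5
    have h7 := Nat.pow_lt_pow_right hp.one_lt (show 2 < 3 by norm_num)
    have h8 : p * p * p = p ^ 3 := by ring
    omega
  · have hne : Ideal.span {(p : 𝓞 K)} ≠ ⊤ := by
      intro e
      have h1 := L0_norm (K := K) h.rank p
      rw [e, Ideal.absNorm_top] at h1
      have h2 := Nat.one_lt_pow (two_ne_zero) hp.one_lt
      omega
    obtain ⟨M, hM, hle⟩ := Ideal.exists_le_maximal _ hne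
    have hpM : (p : 𝓞 K) ∈ M := hle (Ideal.mem_span_singleton_self _)
    refine ⟨⟨M, hM.isPrime, ?_⟩, hpM⟩
    rintro rfl
    exact hp0 (by simpa using hpM)

theorem L0_pair (p : ℕ) (hp : p.Prime) (v w : HeightOneSpectrum (𝓞 K))
    (hv : (p : 𝓞 K) ∈ v.asIdeal) (hw : (p : 𝓞 K) ∈ w.asIdeal) (hne : w ≠ v) (z : K) (hz : z ≠ 0) :
    vl w z = vl v (h.conj z) := by
  classical
  let e : K ≃+* K := RingEquiv.ofRingHom h.conj h.conj
    (RingHom.ext fun x => K2_inv h x) (RingHom.ext fun x => K2_inv h x)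
  let σ : 𝓞 K ≃+* 𝓞 K := RingOfIntegers.mapRingEquiv e
  have hσ : ∀ a : 𝓞 K, (algebraMap (𝓞 K) K (σ a)) = h.conj (algebraMap (𝓞 K) K a) := fun a => rfl
  have hcharv : ∀ n : ℤ, (n : 𝓞 K) ∈ w.asIdeal → (n : 𝓞 K) ∈ v.asIdeal := by
    intro n hn
    obtain ⟨q, hq, hq2⟩ := V1_char w
    have h1 : (q : ℤ) ∣ (p : ℤ) := (hq2 p).1 (by simpa using hw)
    have h2 : q = p := (Nat.prime_dvd_prime_iff_eq hq hp).1 (Int.natCast_dvd_natCast.1 h1)
    subst h2
    obtain ⟨m, hm⟩ := (hq2 n).1 hn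
    rw [hm]
    push_cast
    exact Ideal.mul_mem_right _ _ hv
  have hwv : w.asIdeal = Ideal.map σ.symm v.asIdeal := by
    have hcm : ∀ x : 𝓞 K, x ∈ Ideal.map σ.symm v.asIdeal ↔ σ x ∈ v.asIdeal := by
      intro x
      rw [Ideal.mem_map_of_equiv]
      constructor
      · rintro ⟨y, hy, rfl⟩
        simpa using hy
      · intro hx
        exact ⟨σ x, hx, by simp⟩
    have h1 : (w.asIdeal : Set (𝓞 K)) ⊆ v.asIdeal ∪ (Ideal.map σ.symm v.asIdeal : Ideal (𝓞 K)) := by
      intro x hx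
      rcases eq_or_ne x 0 with rfl | hx0
      · exact Or.inl v.asIdeal.zero_mem
      obtain ⟨n, hn⟩ := K2_norm h (algebraMap (𝓞 K) K x) x.isIntegral_coe
      have h2 : x * σ x = (n : 𝓞 K) := by
        apply IsFractionRing.injective (𝓞 K) K
        rw [map_mul, hσ, hn, map_intCast]
      have h3 : (n : 𝓞 K) ∈ w.asIdeal := by
        rw [← h2]
        exact Ideal.mul_mem_right _ _ hx
      have h4 := hcharv n h3
      rw [← h2] at h4
      rcases v.isPrime.mem_or_mem h4 with h5 | h5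
      · exact Or.inl h5
      · exact Or.inr ((hcm x).2 h5)
    rcases Ideal.subset_union.1 h1 with h2 | h2
    · exact absurd (HeightOneSpectrum.ext (w.isMaximal.eq_of_le v.isPrime.ne_top h2)) hne
    · refine w.isMaximal.eq_of_le ?_ h2
      intro ht
      have h3 : (1 : 𝓞 K) ∈ Ideal.map σ.symm v.asIdeal := ht ▸ Submodule.mem_top
      rw [hcm, map_one] at h3
      exact v.isPrime.ne_top ((Ideal.eq_top_iff_one _).2 h3)
  have hint : ∀ a : 𝓞 K, a ≠ 0 → vl w (algebraMap (𝓞 K) K a) =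
      vl v (h.conj (algebraMap (𝓞 K) K a)) := by
    intro a ha
    have hb : σ a ≠ 0 := by
      intro hc
      exact ha (by simpa using hc)
    have h1 : ∀ n : ℕ, (n : ℤ) ≤ vl w (algebraMap (𝓞 K) K a) ↔
        (n : ℤ) ≤ vl v (h.conj (algebraMap (𝓞 K) K a)) := by
      intro n
      rw [← L0_mem w a ha n, ← hσ, ← L0_mem v (σ a) hb n, hwv, ← Ideal.map_pow,
        Ideal.mem_map_of_equiv]
      constructor
      · rintro ⟨y, hy, rfl⟩
        simpa using hy
      · intro hx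
        exact ⟨σ a, hx, by simp⟩
    have h2 := V1_int w _ a.isIntegral_coe
    have h3 := V1_int v _ (K2_int h _ a.isIntegral_coe)
    obtain ⟨m, hm⟩ := Int.eq_ofNat_of_zero_le h2
    obtain ⟨m', hm'⟩ := Int.eq_ofNat_of_zero_le h3
    have h4 := (h1 m).1 (by rw [← hm])
    have h5 := (h1 m').2 (by rw [← hm'])
    rw [hm] at h5 ⊢
    rw [hm'] at h4 ⊢
    exact le_antisymm h4 h5
  obtain ⟨a, b, hb, rfl⟩ := IsFractionRing.div_surjective (𝓞 K) z
  have hb0 : b ≠ 0 := nonZeroDivisors.ne_zero hb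
  have hinj : Function.Injective (algebraMap (𝓞 K) K) := IsFractionRing.injective _ _
  have hb1 : algebraMap (𝓞 K) K b ≠ 0 := by
    intro hc
    exact hb0 (hinj (by rw [hc, map_zero]))
  have ha0 : a ≠ 0 := by
    rintro rfl
    apply hz
    rw [map_zero, zero_div]
  have h1 := V1_mul w _ _ hz hb1
  have hcz : h.conj (algebraMap (𝓞 K) K a / algebraMap (𝓞 K) K b) ≠ 0 := by
    intro hc
    exact hz (h.conj.injective (by rw [hc, map_zero]))
  have hcb : h.conj (algebraMap (𝓞 K) K b) ≠ 0 := by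
    intro hc
    exact hb1 (h.conj.injective (by rw [hc, map_zero]))
  have h2 := V1_mul v _ _ hcz hcb
  rw [div_mul_cancel₀ _ hb1, hint a ha0, hint b hb0] at h1
  rw [← map_mul, div_mul_cancel₀ _ hb1] at h2
  linarith

end RC91
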