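import Pool.Agent.LibRC91.K2

/-!
# [RC91 M4] integral elements and the norm in a quadratic field
PLAN. `M4_half`: `z = r + s rho` (`h.span`), `conj z = r - s rho` (K2_rat, conj_rho). `z + conj z = 2r` is integral (K2_int) and
rational, so an integer `u`. `(z - conj z)^2 = (2s)^2 A` is integral and rational, an integer. With `w = 2s = b/c` in
lowest terms: `c^2 ∣ b^2 A`, so `c^2 ∣ A`, `A` square free, `c = 1`. So `w` is an integer, `2 z = u + w rho`.
`M4_norm`: the matrix of the multiplication by `z = r + s rho` in the basis `1, rho` is `[[r, s A], [s, r]]`, with determinant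
`r^2 - s^2 A = z * conj z` (`Algebra.norm_eq_matrix_det`; basis from K2_nsq and `h.rank`).
Or: `Algebra.norm_eq_prod_embeddings` over `ℂ` with the two embeddings `h.emb`, `h.emb.comp h.conj`.
`M4_zero`: `w = 0`: `z = u/2` is rational, `conj z = z`, `z^2 = a^3`, `a ≠ 0`, so `z = (z / a)^3`.
-/
set_option autoImplicit false
open NumberField nonZeroDivisors IsDedekindDomain
namespace RC91

/-- a rational number which is integral in `K` is an integer -/
theorem M4_rat {K : Type} [Field K] [NumberField K] (q : ℚ) (hq : IsIntegral ℤ (q : K)) :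
    ∃ n : ℤ, q = n := by
  have h1 : IsIntegral ℤ (algebraMap ℚ K q) := by
    rw [eq_ratCast]; exact hq
  have h2 : IsIntegral ℤ q := (isIntegral_algebraMap_iff (algebraMap ℚ K).injective).1 h1
  obtain ⟨n, hn⟩ := IsIntegrallyClosed.isIntegral_iff.1 h2
  exact ⟨n, by rw [← hn]; simp⟩

theorem M4_sqf {A : ℤ} (hA : Squarefree A) (w : ℚ) (N : ℤ) (h : w ^ 2 * A = N) : ∃ n : ℤ, w = n := by
  have h1 : w.num ^ 2 * A = N * (w.den : ℤ) ^ 2 := by
    have h2 : (w.den : ℚ) ≠ 0 := by exact_mod_cast w.den_ne_zero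
    have h3 : (w.num : ℚ) = w * w.den := by
      rw [eq_comm]; exact Rat.mul_den_eq_num w
    have h4 : ((w.num ^ 2 * A : ℤ) : ℚ) = ((N * (w.den : ℤ) ^ 2 : ℤ) : ℚ) := by
      push_cast
      rw [h3, ← h]
      ring
    exact_mod_cast h4
  have hc : IsCoprime ((w.den : ℤ) ^ 2) (w.num ^ 2) := by
    apply IsCoprime.pow
    rw [isCoprime_comm, Int.isCoprime_iff_nat_coprime]
    simpa using w.reduced
  have h2 : (w.den : ℤ) ^ 2 ∣ A := by
    apply hc.dvd_of_dvd_mul_left
    exact ⟨N, by rw [h1]; ring⟩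
  rw [sq] at h2
  have h3 := hA _ h2
  have h4 : w.den = 1 := by
    have := Int.isUnit_iff_natAbs_eq.1 h3
    simpa using this
  exact ⟨w.num, ((Rat.den_eq_one_iff w).1 h4).symm⟩

variable {A : ℤ} {K : Type} [Field K] [NumberField K] (h : QF A K)

theorem M4_conj (r s : ℚ) : h.conj ((r : K) + (s : K) * h.rho) = (r : K) - (s : K) * h.rho := by
  rw [map_add, map_mul, K2_rat, K2_rat, h.conj_rho]
  ring

theorem M4_half (hA : Squarefree A) (z : K) (hz : IsIntegral ℤ z) :
    ∃ u w : ℤ, 2 * z = (u : K) + (w : K) * h.rho := by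
  obtain ⟨r, s, hrs⟩ := h.span z
  have hc : h.conj z = (r : K) - (s : K) * h.rho := by rw [hrs, M4_conj]
  obtain ⟨u, hu⟩ := M4_rat (K := K) (2 * r) (by
    have h1 := hz.add (K2_int h z hz)
    have h2 : z + h.conj z = ((2 * r : ℚ) : K) := by
      rw [hc, hrs]; push_cast; ring
    rwa [h2] at h1)
  obtain ⟨n, hn⟩ := K2_norm h z hz
  have h3 : ((r ^ 2 - s ^ 2 * A : ℚ) : K) = ((n : ℚ) : K) := by
    have h4 := hn
    rw [hc] at h4
    conv_lhs at h4 => rw [hrs]
    push_cast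
    rw [← h4, ← h.sq]
    ring
  have h4 : r ^ 2 - s ^ 2 * A = (n : ℚ) := Rat.cast_injective h3
  obtain ⟨w, hw⟩ := M4_sqf hA (2 * s) (u ^ 2 - 4 * n) (by
    push_cast
    rw [← hu, ← h4]
    ring)
  refine ⟨u, w, ?_⟩
  have e1 : (u : K) = ((2 * r : ℚ) : K) := by rw [hu]; simp
  have e2 : (w : K) = ((2 * s : ℚ) : K) := by rw [hw]; simp
  rw [e1, e2, hrs]
  push_cast
  ring

theorem M4_norm (z : K) : ((Algebra.norm ℚ z : ℚ) : K) = z * h.conj z := by
  classical
  set σ1 : K →ₐ[ℚ] ℂ := h.emb.toRatAlgHom with h1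
  set σ2 : K →ₐ[ℚ] ℂ := (h.emb.comp h.conj).toRatAlgHom with h2
  have hrho : h.rho ≠ 0 := by
    intro h0
    exact K2_nsq h 0 (by rw [h0]; simp)
  have hne : σ1 ≠ σ2 := by
    intro he
    have h3 : h.emb h.rho = h.emb (h.conj h.rho) := by
      have := congrArg (fun f : K →ₐ[ℚ] ℂ => f h.rho) he
      exact this
    have h4 := h.emb.injective h3
    rw [h.conj_rho] at h4
    have h5 : (2 : K) * h.rho = 0 := by linear_combination h4
    exact hrho ((mul_eq_zero.1 h5).resolve_left two_ne_zero)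
  have hcard : Fintype.card (K →ₐ[ℚ] ℂ) = 2 := by
    rw [AlgHom.card ℚ K ℂ, h.rank]
  have huniv : (Finset.univ : Finset (K →ₐ[ℚ] ℂ)) = {σ1, σ2} := by
    symm
    apply Finset.eq_of_subset_of_card_le (Finset.subset_univ _)
    rw [Finset.card_univ, hcard, Finset.card_pair hne]
  have h3 := Algebra.norm_eq_prod_embeddings ℚ ℂ z
  rw [huniv, Finset.prod_pair hne] at h3
  apply h.emb.injective
  rw [map_mul, map_ratCast]
  have h4 : (algebraMap ℚ ℂ) (Algebra.norm ℚ z) = ((Algebra.norm ℚ z : ℚ) : ℂ) := eq_ratCast _ _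
  rw [← h4, h3]
  rfl

theorem M4_zero (z : K) (hz : z ≠ 0) (u w a : ℤ) (huw : 2 * z = (u : K) + (w : K) * h.rho)
    (ha : z * h.conj z = (a : K) ^ 3) (hw : w = 0) : ∃ c : K, c ≠ 0 ∧ z = c ^ 3 := by
  subst hw
  have h1 : z = ((u / 2 : ℚ) : K) := by
    push_cast
    rw [eq_div_iff two_ne_zero, mul_comm, huw]
    simp
  have h2 : h.conj z = z := by rw [h1, K2_rat]
  rw [h2] at ha
  have ha0 : (a : K) ≠ 0 := by
    intro h0
    rw [h0] at ha
    have : z * z = 0 := by rw [ha]; norm_num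
    exact hz (mul_self_eq_zero.1 this)
  refine ⟨z / a, div_ne_zero hz ha0, ?_⟩
  rw [div_pow, ← ha]
  field_simp

theorem M4_eq (z : K) (u w a : ℤ) (huw : 2 * z = (u : K) + (w : K) * h.rho)
    (ha : z * h.conj z = (a : K) ^ 3) : u ^ 2 - A * w ^ 2 = 4 * a ^ 3 := by
  have h1 : 2 * h.conj z = (u : K) - (w : K) * h.rho := by
    have h2 := congrArg h.conj huw
    rw [map_mul, map_add, map_mul, map_intCast, map_intCast, h.conj_rho, map_ofNat] at h2
    rw [h2]
    ring
  have h3 : ((u ^ 2 - A * w ^ 2 : ℤ) : K) = ((4 * a ^ 3 : ℤ) : K) := by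
    push_cast
    rw [← ha, ← h.sq]
    linear_combination (-(2 * h.conj z)) * huw - ((u : K) + (w : K) * h.rho) * h1
  exact Int.cast_injective h3

end RC91
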