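import Pool.Agent.LibRC91.V1

/-!
# [RC91 M6] integrality from the valuations
PLAN. `spanSingleton z` is a product of nonnegative powers of primes, so it is `≤ 1`, `z ∈ 𝓞 K`; e.g. with
`HeightOneSpectrum.mem_integers_of_valuation_le_one` after comparing `vl` with `v.valuation K` (prove
`v.valuation K z = exp (- vl v z)`: for `z = a / b` with integers `a, b ≠ 0`, `HeightOneSpectrum.valuation_of_algebraMap`,
`intValuation_eq..`, `FractionalIdeal.count_coe`, `V1_mul`), or with
`FractionalIdeal.finprod_heightOneSpectrum_factorization'` (a finprod of powers with exponents `≥ 0` is the coercion of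
an integral ideal, so `≤ 1`), or: `I = spanSingleton z`, `I = a⁻¹ J` with integral `J`; `count ≥ 0` for all `v` says
`span {a} ∣ J`.
-/
set_option autoImplicit false
open NumberField nonZeroDivisors IsDedekindDomain
namespace RC91

theorem M6_le_one {K : Type} [Field K] [NumberField K] (z : K) (hz : z ≠ 0)
    (hv : ∀ v : HeightOneSpectrum (𝓞 K), 0 ≤ vl v z) :
    FractionalIdeal.spanSingleton (𝓞 K)⁰ z ≤ 1 := by
  have h0 : FractionalIdeal.spanSingleton (𝓞 K)⁰ z ≠ 0 := by
    rwa [Ne, FractionalIdeal.spanSingleton_eq_zero_iff]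
  rw [← FractionalIdeal.finprod_heightOneSpectrum_factorization' (R := 𝓞 K) (K := K) h0]
  refine finprod_induction (fun I : FractionalIdeal (𝓞 K)⁰ K => I ≤ 1) le_rfl ?_ ?_
  · intro x y hx hy
    calc x * y ≤ 1 * 1 := mul_le_mul' hx hy
      _ = 1 := one_mul 1
  · intro v
    obtain ⟨n, hn⟩ := Int.eq_ofNat_of_zero_le (hv v)
    have h1 : FractionalIdeal.count K v (FractionalIdeal.spanSingleton (𝓞 K)⁰ z) = (n : ℤ) := hn
    rw [h1, zpow_natCast, ← FractionalIdeal.coeIdeal_pow]
    exact FractionalIdeal.coeIdeal_le_one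

theorem M6 {K : Type} [Field K] [NumberField K] (z : K) (hz : z ≠ 0)
    (hv : ∀ v : HeightOneSpectrum (𝓞 K), 0 ≤ vl v z) : IsIntegral ℤ z := by
  have h1 : z ∈ (1 : FractionalIdeal (𝓞 K)⁰ K) :=
    M6_le_one z hz hv (FractionalIdeal.mem_spanSingleton_self _ z)
  rw [FractionalIdeal.mem_one_iff] at h1
  obtain ⟨x, rfl⟩ := h1
  exact x.2

end RC91
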