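import Pool.Agent.LibRC91.V1

/-!
# [RC91 V2] all valuations divisible by 3: the ideal is a cube
PLAN: `FractionalIdeal.finprod_heightOneSpectrum_factorization'` writes `I = spanSingleton g` as
`∏ᶠ v, v.asIdeal ^ count v I`; the counts are `3 * e v` with `e v = 0` for almost all `v`
(`FractionalIdeal.finite_factors`); put `J = ∏ᶠ v, v.asIdeal ^ e v` (a unit: nonzero fractional ideal of a
Dedekind domain) and use `finprod_pow` / multiplicativity; or compare counts of `J^3` and `I`
(`count_finprod`) and the uniqueness of the factorization.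
-/
set_option autoImplicit false
open NumberField nonZeroDivisors IsDedekindDomain
namespace RC91

theorem V2 {K : Type} [Field K] [NumberField K] (g : K) (hg : g ≠ 0)
    (h : ∀ v : HeightOneSpectrum (𝓞 K), (3 : ℤ) ∣ vl v g) :
    ∃ J : (FractionalIdeal (𝓞 K)⁰ K)ˣ,
      FractionalIdeal.spanSingleton (𝓞 K)⁰ g = (J : FractionalIdeal (𝓞 K)⁰ K) ^ 3 := by
  classical
  set I : FractionalIdeal (𝓞 K)⁰ K := FractionalIdeal.spanSingleton (𝓞 K)⁰ g with hI
  have hI0 : I ≠ 0 := by
    rw [hI]
    exact FractionalIdeal.spanSingleton_ne_zero_iff.mpr hg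
  have h' : ∀ v : HeightOneSpectrum (𝓞 K), ∃ e : ℤ, FractionalIdeal.count K v I = 3 * e := by
    intro v
    exact h v
  choose e he using h'
  have hfin : {v : HeightOneSpectrum (𝓞 K) | ¬ FractionalIdeal.count K v I = 0}.Finite :=
    Filter.eventually_cofinite.mp (FractionalIdeal.finite_factors I)
  have hms : Function.HasFiniteMulSupport (fun v : HeightOneSpectrum (𝓞 K) =>
      (v.asIdeal : FractionalIdeal (𝓞 K)⁰ K) ^ e v) := by
    refine hfin.subset ?_
    intro v hv
    rw [Function.mem_mulSupport] at hv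
    intro h0
    apply hv
    have : e v = 0 := by
      have := he v
      rw [h0] at this
      omega
    rw [this, zpow_zero]
  have hpow : (∏ᶠ v : HeightOneSpectrum (𝓞 K),
      (v.asIdeal : FractionalIdeal (𝓞 K)⁰ K) ^ e v) ^ 3 = I := by
    rw [finprod_pow hms 3]
    conv_rhs => rw [← FractionalIdeal.finprod_heightOneSpectrum_factorization' K hI0]
    apply finprod_congr
    intro v
    rw [he v, mul_comm, zpow_mul]
    norm_cast
  have hJ0 : (∏ᶠ v : HeightOneSpectrum (𝓞 K),
      (v.asIdeal : FractionalIdeal (𝓞 K)⁰ K) ^ e v) ≠ 0 := by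
    intro h0
    rw [h0, zero_pow (by norm_num)] at hpow
    exact hI0 hpow.symm
  exact ⟨Units.mk0 _ hJ0, by rw [Units.val_mk0, hpow]⟩

end RC91
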