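import Pool.Agent.LibRC91.M3
import Pool.Agent.LibRC91.M4
import Pool.Agent.LibRC91.M6
import Pool.Agent.LibRC91.V2
import Pool.Agent.LibRC91.L0

/-!
# [RC91 M7] primitive choice
PLAN. V2 and M3 give one `δ`. Among all `δ ≠ 0` with `g δ^3` integral and the bounds choose one with
`n(δ) = |norm (g δ^3)|` minimal (`z conj z = n` is an integer: K2_norm; use `Int.natAbs` and well-foundedness of ℕ, e.g.
`WellFounded.has_min` or `Nat.find` on `{n | ∃ δ, ..., z * conj z = ±n}`). Suppose that for some prime `p` all `v` over `p` have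
`3 vl v p ≤ vl v z`. Then `δ' = δ / p`, `z' = z / p^3`: `vl v z' = vl v z - 3 vl v p` (V1_mul, V1_pow), which is `≥ 0` for `v` over
`p`; for the other `v`: `vl v p = 0` (V1_mem: not `> 0`; V1_int: `≥ 0`), so it is `vl v z ≥ 0` (V1_int). M6: `z'` is integral.
`w z' = w z / p^3 ≤ w z`. `z' conj z' = z conj z / p^6`: smaller, contradiction (`z conj z ≠ 0`).
-/
set_option autoImplicit false
open NumberField nonZeroDivisors IsDedekindDomain
namespace RC91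

theorem M7 {A : ℤ} {K : Type} [Field K] [NumberField K] (h : QF A K) (hA : A ≠ 0)
    (g : K) (hg : g ≠ 0) (hv : ∀ v : HeightOneSpectrum (𝓞 K), (3 : ℤ) ∣ vl v g) :
    ∃ δ : K, δ ≠ 0 ∧ IsIntegral ℤ (g * δ ^ 3) ∧
      (∀ w : InfinitePlace K, (w (g * δ ^ 3)) ^ 4 ≤ 4096 * (|A| : ℝ) ^ 3) ∧
      (∀ v : HeightOneSpectrum (𝓞 K), (3 : ℤ) ∣ vl v (g * δ ^ 3)) ∧
      ∀ p : ℕ, p.Prime → ∃ v : HeightOneSpectrum (𝓞 K), (p : 𝓞 K) ∈ v.asIdeal ∧
        vl v (g * δ ^ 3) < 3 * vl v (p : K) := by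
  classical
  obtain ⟨J, hJ⟩ := V2 g hg hv
  obtain ⟨δ0, h0, hi0, hb0⟩ := M3 h hA g hg J hJ
  -- the minimal choice
  have hex : ∃ n : ℕ, ∃ δ : K, δ ≠ 0 ∧ IsIntegral ℤ (g * δ ^ 3) ∧
      (∀ w : InfinitePlace K, (w (g * δ ^ 3)) ^ 4 ≤ 4096 * (|A| : ℝ) ^ 3) ∧
      ∃ m : ℤ, m.natAbs = n ∧ g * δ ^ 3 * h.conj (g * δ ^ 3) = (m : K) := by
    obtain ⟨m, hm⟩ := K2_norm h _ hi0
    exact ⟨m.natAbs, δ0, h0, hi0, hb0, m, rfl, hm⟩
  obtain ⟨δ, hδ0, hδi, hδb, m, hmn, hm⟩ := Nat.find_spec hex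
  have hmin : ∀ δ' : K, δ' ≠ 0 → IsIntegral ℤ (g * δ' ^ 3) →
      (∀ w : InfinitePlace K, (w (g * δ' ^ 3)) ^ 4 ≤ 4096 * (|A| : ℝ) ^ 3) →
      ∀ m' : ℤ, g * δ' ^ 3 * h.conj (g * δ' ^ 3) = (m' : K) → m.natAbs ≤ m'.natAbs := by
    intro δ' a1 a2 a3 m' a4
    rw [hmn]
    exact Nat.find_min' hex ⟨δ', a1, a2, a3, m', rfl, a4⟩
  have hδ3 : δ ^ 3 ≠ 0 := pow_ne_zero _ hδ0
  refine ⟨δ, hδ0, hδi, hδb, ?_, ?_⟩
  · intro v
    rw [V1_mul v g (δ ^ 3) hg hδ3, V1_pow]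
    obtain ⟨t, ht⟩ := hv v
    exact ⟨t + vl v δ, by rw [ht]; push_cast; ring⟩
  · intro p hp
    by_contra hcon
    push Not at hcon
    have hpK : (p : K) ≠ 0 := by exact_mod_cast hp.ne_zero
    have hzne : g * δ ^ 3 ≠ 0 := mul_ne_zero hg hδ3
    have hδ'0 : δ / (p : K) ≠ 0 := div_ne_zero hδ0 hpK
    have hz'ne : g * (δ / (p : K)) ^ 3 ≠ 0 := mul_ne_zero hg (pow_ne_zero _ hδ'0)
    have hzz : g * δ ^ 3 = g * (δ / (p : K)) ^ 3 * (p : K) ^ 3 := by
      field_simp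
    have hval : ∀ v : HeightOneSpectrum (𝓞 K), 0 ≤ vl v (g * (δ / (p : K)) ^ 3) := by
      intro v
      have h1 : vl v (g * δ ^ 3) = vl v (g * (δ / (p : K)) ^ 3) + 3 * vl v (p : K) := by
        rw [hzz, V1_mul v _ _ hz'ne (pow_ne_zero _ hpK), V1_pow]
        push_cast
        ring
      by_cases hvp : (p : 𝓞 K) ∈ v.asIdeal
      · have h2 := hcon v hvp
        linarith
      · have h2 : ¬ 0 < vl v (p : K) := by
          intro h3
          apply hvp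
          have h4 := (V1_mem v (p : ℤ) (by exact_mod_cast hp.ne_zero)).mpr (by
            rw [Int.cast_natCast]; exact h3)
          rwa [Int.cast_natCast] at h4
        have h3 : 0 ≤ vl v (p : K) := V1_int v _ (isIntegral_natCast (R := ℤ) p)
        have h4 : vl v (p : K) = 0 := le_antisymm (not_lt.mp h2) h3
        have h5 : 0 ≤ vl v (g * δ ^ 3) := V1_int v _ hδi
        rw [h4] at h1
        linarith
    have hint := M6 _ hz'ne hval
    have hp1 : (1 : ℝ) ≤ (p : ℝ) := by exact_mod_cast hp.one_lt.le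
    have hw : ∀ w : InfinitePlace K, w (g * (δ / (p : K)) ^ 3) ≤ w (g * δ ^ 3) := by
      intro w
      have h1 : w (p : K) = (p : ℝ) := by
        have h2 := InfinitePlace.norm_embedding_eq w (p : K)
        rw [map_natCast, Complex.norm_natCast] at h2
        exact h2.symm
      have h5 : w (g * δ ^ 3) = w (g * (δ / (p : K)) ^ 3) * (p : ℝ) ^ 3 := by
        rw [hzz, map_mul w (g * (δ / (p : K)) ^ 3) ((p : K) ^ 3), map_pow w (p : K) 3, h1]
      rw [h5]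
      have h3 : (1 : ℝ) ≤ (p : ℝ) ^ 3 := one_le_pow₀ hp1
      have h4 : 0 ≤ w (g * (δ / (p : K)) ^ 3) := apply_nonneg w _
      nlinarith
    have hb' : ∀ w : InfinitePlace K,
        (w (g * (δ / (p : K)) ^ 3)) ^ 4 ≤ 4096 * (|A| : ℝ) ^ 3 := by
      intro w
      exact (pow_le_pow_left₀ (apply_nonneg w _) (hw w) 4).trans (hδb w)
    obtain ⟨m', hm'⟩ := K2_norm h _ hint
    have hle := hmin _ hδ'0 hint hb' m' hm'
    -- the norm of `z`
    have hmm : m = m' * (p : ℤ) ^ 6 := by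
      have h1 : (m : K) = ((m' * (p : ℤ) ^ 6 : ℤ) : K) := by
        rw [← hm, hzz, map_mul h.conj, map_pow, map_natCast]
        push_cast
        rw [← hm']
        ring
      exact_mod_cast h1
    have hm'0 : m' ≠ 0 := by
      rintro rfl
      rw [Int.cast_zero] at hm'
      rcases mul_eq_zero.mp hm' with h1 | h1
      · exact hz'ne h1
      · exact hz'ne ((map_eq_zero h.conj).mp h1)
    rw [hmm, Int.natAbs_mul, Int.natAbs_pow, Int.natAbs_natCast] at hle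
    have h1 : 0 < m'.natAbs := Int.natAbs_pos.mpr hm'0
    have h2 : 2 ≤ p := hp.two_le
    have h3 : 2 ^ 6 ≤ p ^ 6 := Nat.pow_le_pow_left h2 6
    nlinarith

end RC91
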