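import Pool.Agent.LibRC91.L0
import Pool.Agent.LibRC91.M4

/-!
# [RC91 M8] primitive elements at an odd prime
All at the one prime `v` with `vl v z < 3 vl v p`; `e = vl v p ∈ {1, 2}` (L0_e), `vl v n = e * v_p(n)` for integers `n ≠ 0` (V1_nat).
PLAN. `u^2 = A w^2 + 4 a^3` (M4_eq), so `p^2 ∣ u^2`, `p ∣ u`; `u = p u1`, `w = p w1`; `2 z = p (u1 + w1 rho)`, `vl v 2 = 0` (`p` odd),
`u1 + w1 rho` is integral, so `vl v z ≥ e ≥ 1`, `3 ∣ vl v z < 3 e`: `e = 2` and `vl v z = 3` (for `e = 1` impossible). So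
`vl v (u + w rho) = 3`. `2 vl v rho = vl v A = 2 v_p(A)`, `vl v rho = v_p(A) ∈ {0, 1}`.
Case `p ∤ A`: `vl v (w rho) = 2 v_p(w)` and `vl v u = 2 v_p(u)` (if `u ≠ 0`) are even; if they are different (or `u = 0`)
then `vl v (u + w rho)` is even, contradiction; so they are equal and (`≤ 3`, `≥ 2`) equal to 2: `p ∤ u1`, `p ∤ w1`,
`vl v (u1 + w1 rho) = 1`; `(u1 + w1 rho) + (u1 - w1 rho) = 2 u1` has `vl = 0`, so `vl v (u1 - w1 rho) = 0`, and
`vl v (u1^2 - A w1^2) = 1`, but it is `2 v_p(..)`, even: contradiction.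
Case `p ∣ A`: `vl v (w rho) = 2 v_p(w) + 1` is odd, `vl v u` even (or `u = 0`): `3 = min`, so `2 v_p(w) + 1 = 3` and
`v_p(u) ≥ 2` (or `u = 0`).
-/
set_option autoImplicit false
open NumberField nonZeroDivisors IsDedekindDomain
namespace RC91

private theorem M8_min {K : Type} [Field K] [NumberField K] (v : HeightOneSpectrum (𝓞 K))
    (a b : K) (ha : a ≠ 0) (hb : b ≠ 0) (hlt : vl v a < vl v b) :
    a + b ≠ 0 ∧ vl v (a + b) = vl v a := by
  have h0 : a + b ≠ 0 := by
    intro h0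
    have h1 : b = -a := by linear_combination h0
    rw [h1, V1_neg] at hlt
    exact lt_irrefl _ hlt
  refine ⟨h0, le_antisymm ?_ ?_⟩
  · have h1 := V1_add v (a + b) (-b) h0 (neg_ne_zero.2 hb) (by
      rw [add_neg_cancel_right]; exact ha)
    rw [add_neg_cancel_right, V1_neg] at h1
    rcases min_le_iff.1 h1 with h2 | h2
    · exact h2
    · exact absurd hlt (not_lt.2 h2)
  · have h1 := V1_add v a b ha hb h0
    rwa [min_eq_left hlt.le] at h1

theorem M8 {A : ℤ} {K : Type} [Field K] [NumberField K] (h : QF A K) (hA : Squarefree A)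
    (z : K) (hz : z ≠ 0) (p : ℕ) (hp : p.Prime) (hp2 : p ≠ 2) (v : HeightOneSpectrum (𝓞 K))
    (hpv : (p : 𝓞 K) ∈ v.asIdeal) (h3 : (3 : ℤ) ∣ vl v z) (hlt : vl v z < 3 * vl v (p : K))
    (u w a : ℤ) (huw : 2 * z = (u : K) + (w : K) * h.rho) (ha : z * h.conj z = (a : K) ^ 3)
    (hw : w ≠ 0) (hpa : (p : ℤ) ∣ a) (hpw : (p : ℤ) ∣ w) :
    ¬ ((p : ℤ) ^ 2 ∣ w) ∧ (p : ℤ) ^ 2 ∣ u := by
  have hpf : Fact p.Prime := ⟨hp⟩
  have hpZ : Prime (p : ℤ) := Nat.prime_iff_prime_int.1 hp
  have hp0 : (p : ℤ) ≠ 0 := hpZ.ne_zero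
  have hpK : (p : K) ≠ 0 := by exact_mod_cast hp.ne_zero
  have hA0 : A ≠ 0 := hA.ne_zero
  have hAK : (A : K) ≠ 0 := by exact_mod_cast hA0
  have heq := M4_eq h z u w a huw ha
  obtain ⟨a1, rfl⟩ := hpa
  obtain ⟨w1, rfl⟩ := hpw
  have hpu : (p : ℤ) ∣ u := by
    refine hpZ.dvd_of_dvd_pow (n := 2) ⟨A * p * w1 ^ 2 + 4 * p ^ 2 * a1 ^ 3, ?_⟩
    linear_combination heq
  obtain ⟨u1, rfl⟩ := hpu
  have hw1 : w1 ≠ 0 := by
    rintro rfl
    exact hw (mul_zero _)
  have hval : ∀ n : ℤ, n ≠ 0 → vl v (n : K) = vl v (p : K) * (padicValInt p n : ℤ) :=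
    fun n hn => V1_nat v p hp hpv n hn
  -- the number two
  have h2v : vl v (2 : K) = 0 := by
    have h1 := hval 2 (by norm_num)
    have h2 : padicValInt p 2 = 0 := by
      refine padicValInt.eq_zero_of_not_dvd fun h2 => hp2 ?_
      have h3 : p ∣ 2 := by exact_mod_cast h2
      exact (Nat.prime_dvd_prime_iff_eq hp Nat.prime_two).1 h3
    rw [h2] at h1
    simpa using h1
  set α : K := (u1 : K) + (w1 : K) * h.rho with hα
  have h2z : 2 * z = (p : K) * α := by
    rw [huw, hα]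
    push_cast
    ring
  have hα0 : α ≠ 0 := by
    intro h0
    rw [h0, mul_zero] at h2z
    exact (mul_ne_zero two_ne_zero hz) h2z
  have hvz : vl v z = vl v (p : K) + vl v α := by
    have h1 : vl v (2 * z) = vl v z := by
      rw [V1_mul v _ _ two_ne_zero hz, h2v, zero_add]
    rw [← h1, h2z, V1_mul v _ _ hpK hα0]
  have hαi : 0 ≤ vl v α := V1_int v _ (K2_alint h u1 w1)
  obtain ⟨he1, he2⟩ := L0_e h v p hp hpv
  obtain ⟨k, hk⟩ := h3
  have he : vl v (p : K) = 2 := by omega
  have hα1 : vl v α = 1 := by omega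
  rw [he] at hval
  -- the root
  have hρ0 : h.rho ≠ 0 := by
    intro h0
    have := h.sq
    rw [h0] at this
    exact hAK (by rw [← this]; ring)
  have hρ : vl v h.rho = (padicValInt p A : ℤ) := by
    have h1 := V1_pow v h.rho 2
    rw [h.sq, hval A hA0] at h1
    push_cast at h1
    omega
  have hwρ : vl v ((w1 : K) * h.rho) = 2 * (padicValInt p w1 : ℤ) + (padicValInt p A : ℤ) := by
    rw [V1_mul v _ _ (by exact_mod_cast hw1) hρ0, hval w1 hw1, hρ]
  have hwρ0 : (w1 : K) * h.rho ≠ 0 := mul_ne_zero (by exact_mod_cast hw1) hρ0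
  by_cases hpA : (p : ℤ) ∣ A
  · -- `p` divides `A`
    have hA1 : padicValInt p A = 1 := by
      have h1 : 1 ≤ padicValInt p A :=
        ((padicValInt_dvd_iff 1 A).1 (by simpa using hpA)).resolve_left hA0
      have h2 : ¬ 2 ≤ padicValInt p A := by
        intro h2
        have h3 : (p : ℤ) ^ 2 ∣ A := (padicValInt_dvd_iff 2 A).2 (Or.inr h2)
        have h4 := hA (p : ℤ) (by rwa [← sq])
        exact hpZ.not_isUnit h4
      omega
    rw [hA1] at hwρ
    have hw1' : padicValInt p w1 = 0 ∧ (p : ℤ) ∣ u1 := by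
      by_cases hu1 : u1 = 0
      · have h1 : α = (w1 : K) * h.rho := by rw [hα, hu1]; simp
        rw [h1, hwρ] at hα1
        refine ⟨by omega, by rw [hu1]; exact dvd_zero _⟩
      · have hu1K : (u1 : K) ≠ 0 := by exact_mod_cast hu1
        have hvu := hval u1 hu1
        rcases lt_trichotomy (vl v (u1 : K)) (vl v ((w1 : K) * h.rho)) with hl | hl | hl
        · have h1 := (M8_min v _ _ hu1K hwρ0 hl).2
          rw [← hα, hα1, hvu] at h1
          omega
        · rw [hvu, hwρ] at hl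
          omega
        · have h1 := (M8_min v _ _ hwρ0 hu1K hl).2
          rw [add_comm, ← hα, hα1, hwρ] at h1
          refine ⟨by omega, ?_⟩
          have h2 : 1 ≤ padicValInt p u1 := by
            rw [hvu, hwρ] at hl
            omega
          simpa using (padicValInt_dvd_iff 1 u1).2 (Or.inr h2)
    constructor
    · intro h1
      rw [sq] at h1
      have h2 : (p : ℤ) ∣ w1 := Int.dvd_of_mul_dvd_mul_left hp0 h1
      have h3 := ((padicValInt_dvd_iff 1 w1).1 (by simpa using h2)).resolve_left hw1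
      omega
    · rw [sq]
      exact mul_dvd_mul_left _ hw1'.2
  · -- `p` does not divide `A`
    exfalso
    have hA1 : padicValInt p A = 0 := padicValInt.eq_zero_of_not_dvd hpA
    rw [hA1] at hwρ
    by_cases hu1 : u1 = 0
    · have h1 : α = (w1 : K) * h.rho := by rw [hα, hu1]; simp
      rw [h1, hwρ] at hα1
      omega
    have hu1K : (u1 : K) ≠ 0 := by exact_mod_cast hu1
    have hvu := hval u1 hu1
    rcases lt_trichotomy (vl v (u1 : K)) (vl v ((w1 : K) * h.rho)) with hl | hl | hl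
    · have h1 := (M8_min v _ _ hu1K hwρ0 hl).2
      rw [← hα, hα1, hvu] at h1
      omega
    · -- equal valuations
      have h1 := V1_add v _ _ hu1K hwρ0 hα0
      rw [← hl, min_self, ← hα, hα1, hvu] at h1
      have hu0 : padicValInt p u1 = 0 := by omega
      rw [hu0] at hvu
      set β : K := (u1 : K) - (w1 : K) * h.rho with hβ
      have hβi : 0 ≤ vl v β := by
        have h2 : β = al h u1 (-w1) := by
          rw [hβ, al]
          push_cast
          ring
        rw [h2]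
        exact V1_int v _ (K2_alint h u1 (-w1))
      have hsum : α + β = 2 * (u1 : K) := by rw [hα, hβ]; ring
      have hs0 : α + β ≠ 0 := by rw [hsum]; exact mul_ne_zero two_ne_zero hu1K
      have hsv : vl v (α + β) = 0 := by
        rw [hsum, V1_mul v _ _ two_ne_zero hu1K, h2v, hvu]
        rfl
      have hβ0 : β ≠ 0 := by
        intro h0
        rw [h0, add_zero, hα1] at hsv
        omega
      have hβv : vl v β = 0 := by
        have h2 := V1_add v α β hα0 hβ0 hs0
        rw [hsv, hα1] at h2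
        omega
      have hprod : α * β = ((u1 ^ 2 - A * w1 ^ 2 : ℤ) : K) := by
        rw [hα, hβ]
        push_cast
        linear_combination (-(w1 : K) ^ 2) * h.sq
      have hn0 : u1 ^ 2 - A * w1 ^ 2 ≠ 0 := by
        intro h0
        rw [h0] at hprod
        exact mul_ne_zero hα0 hβ0 (by rw [hprod]; simp)
      have h4 : vl v (α * β) = 1 := by
        rw [V1_mul v _ _ hα0 hβ0, hα1, hβv]
        rfl
      rw [hprod, hval _ hn0] at h4
      omega
    · have h1 := (M8_min v _ _ hwρ0 hu1K hl).2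
      rw [add_comm, ← hα, hα1, hwρ] at h1
      omega

end RC91
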