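import Pool.Agent.LibRC91.L0
import Pool.Agent.LibRC91.M4

/-!
# [RC91 M9] primitive elements at 2; the bounds
PLAN. `M9_two`: `u^2 = A w^2 + 4 a^3` (M4_eq) is divisible by 32, so `8 ∣ u` (`v_2(u^2)` is even, so `≥ 6`); `z = 4 (u1 + w1 rho)`
with `u = 8 u1`, `w = 8 w1`, so `vl v z ≥ 2 e`, `e = vl v 2 ∈ {1, 2}` (L0_e), `3 ∣ vl v z`: `vl v z ≥ 3 e`. Contradiction to `hlt`.
`M9_bd`: let `φ = h.emb`, `φ' = h.emb.comp h.conj`, `M^4 = 4096 |A|^3` bounds `‖φ z‖^4` and `‖φ' z‖^4`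
(`InfinitePlace.mk φ`, `InfinitePlace.apply`: `(mk φ) z = ‖φ z‖`). `w rho = z - conj z` (from `2 z = u + w rho`,
`2 conj z = u - w rho`), `‖φ rho‖^2 = |A|`, so `w^2 |A| ≤ (‖φ z‖ + ‖φ' z‖)^2 ≤ 4 M^2`, `w^4 A^2 ≤ 16 M^4`.
`|a|^3 = ‖φ z‖ ‖φ' z‖ ≤ M^2`, so `a^6 ≤ 4096 |A|^3 = (16 |A|)^3`.
-/
set_option autoImplicit false
open NumberField nonZeroDivisors IsDedekindDomain
namespace RC91

private theorem M9_eight (u : ℤ) (h : (32 : ℤ) ∣ u ^ 2) : (8 : ℤ) ∣ u := by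
  have h2 : (2 : ℤ) ∣ u := by
    have : (2 : ℤ) ∣ u ^ 2 := dvd_trans (by norm_num) h
    exact Int.prime_two.dvd_of_dvd_pow this
  obtain ⟨u1, rfl⟩ := h2
  have h3 : (8 : ℤ) ∣ u1 ^ 2 := by
    have : (4 : ℤ) * 8 ∣ 4 * u1 ^ 2 := by
      have e : (4 : ℤ) * u1 ^ 2 = (2 * u1) ^ 2 := by ring
      rw [e]; exact h
    exact (mul_dvd_mul_iff_left (by norm_num)).1 this
  have h4 : (2 : ℤ) ∣ u1 := by
    have : (2 : ℤ) ∣ u1 ^ 2 := dvd_trans (by norm_num) h3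
    exact Int.prime_two.dvd_of_dvd_pow this
  obtain ⟨u2, rfl⟩ := h4
  have h5 : (2 : ℤ) ∣ u2 ^ 2 := by
    have : (4 : ℤ) * 2 ∣ 4 * u2 ^ 2 := by
      have e : (4 : ℤ) * u2 ^ 2 = (2 * u2) ^ 2 := by ring
      rw [e]; exact h3
    exact (mul_dvd_mul_iff_left (by norm_num)).1 this
  obtain ⟨u3, rfl⟩ := Int.prime_two.dvd_of_dvd_pow h5
  exact ⟨u3, by ring⟩

theorem M9_two {A : ℤ} {K : Type} [Field K] [NumberField K] (h : QF A K) (hA : Squarefree A)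
    (z : K) (hz : z ≠ 0) (v : HeightOneSpectrum (𝓞 K))
    (hpv : ((2 : ℕ) : 𝓞 K) ∈ v.asIdeal) (h3 : (3 : ℤ) ∣ vl v z)
    (hlt : vl v z < 3 * vl v ((2 : ℕ) : K))
    (u w a : ℤ) (huw : 2 * z = (u : K) + (w : K) * h.rho) (ha : z * h.conj z = (a : K) ^ 3)
    (h2a : (2 : ℤ) ∣ a) : ¬ ((8 : ℤ) ∣ w) := by
  intro h8
  have he := M4_eq h z u w a huw ha
  obtain ⟨w1, rfl⟩ := h8
  obtain ⟨a1, rfl⟩ := h2a
  have h32 : (32 : ℤ) ∣ u ^ 2 := ⟨2 * A * w1 ^ 2 + a1 ^ 3, by linear_combination he⟩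
  obtain ⟨u1, rfl⟩ := M9_eight u h32
  have h2 : (2 : K) ≠ 0 := two_ne_zero
  have hz4 : z = ((2 : ℕ) : K) ^ 2 * (al h u1 w1) := by
    have : (2 : K) * z = 2 * (((2 : ℕ) : K) ^ 2 * (al h u1 w1)) := by
      rw [huw]; unfold al; push_cast; ring
    exact mul_left_cancel₀ h2 this
  have hal : al h u1 w1 ≠ 0 := by
    intro h0
    rw [h0, mul_zero] at hz4
    exact hz hz4
  have h2' : ((2 : ℕ) : K) ≠ 0 := by exact_mod_cast h2
  have hv1 : vl v z = 2 * vl v ((2 : ℕ) : K) + vl v (al h u1 w1) := by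
    conv_lhs => rw [hz4]
    rw [V1_mul v _ _ (pow_ne_zero 2 h2') hal, V1_pow]
    push_cast; ring
  have hv2 := V1_int v _ (K2_alint h u1 w1)
  have he2 := L0_e h v 2 Nat.prime_two hpv
  omega

theorem M9_bd {A : ℤ} {K : Type} [Field K] [NumberField K] (h : QF A K) (hA : A ≠ 0)
    (z : K) (hb : ∀ w : InfinitePlace K, (w z) ^ 4 ≤ 4096 * (|A| : ℝ) ^ 3)
    (u w a : ℤ) (huw : 2 * z = (u : K) + (w : K) * h.rho) (ha : z * h.conj z = (a : K) ^ 3) :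
    w ^ 4 ≤ 65536 * |A| ∧ a ^ 2 ≤ 16 * |A| := by
  have hX := hb (InfinitePlace.mk h.emb)
  have hY := hb (InfinitePlace.mk (h.emb.comp h.conj))
  rw [InfinitePlace.apply] at hX hY
  rw [RingHom.comp_apply] at hY
  set X : ℝ := ‖h.emb z‖ with hXdef
  set Y : ℝ := ‖h.emb (h.conj z)‖ with hYdef
  have hX0 : 0 ≤ X := norm_nonneg _
  have hY0 : 0 ≤ Y := norm_nonneg _
  set B : ℝ := |(A : ℝ)| with hB
  have hB0 : 0 < B := abs_pos.2 (by exact_mod_cast hA)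
  have h2 : (2 : K) ≠ 0 := two_ne_zero
  have hconj : 2 * h.conj z = (u : K) - (w : K) * h.rho := by
    have := congrArg h.conj huw
    rw [map_mul, map_add, map_mul, map_ofNat, map_intCast, map_intCast, h.conj_rho] at this
    rw [this]; ring
  have hwr : (w : K) * h.rho = z - h.conj z := by
    have : (2 : K) * ((w : K) * h.rho) = 2 * (z - h.conj z) := by
      linear_combination hconj - huw
    exact mul_left_cancel₀ h2 this
  have hrho : ‖h.emb h.rho‖ ^ 2 = B := by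
    rw [← norm_pow, ← map_pow, h.sq, map_intCast, Complex.norm_intCast]
  have hw1 : |(w : ℝ)| * ‖h.emb h.rho‖ ≤ X + Y := by
    have := congrArg h.emb hwr
    rw [map_mul, map_sub, map_intCast] at this
    have h4 := congrArg norm this
    rw [norm_mul, Complex.norm_intCast] at h4
    rw [h4]
    exact norm_sub_le _ _
  have hw2 : (w : ℝ) ^ 4 * B ^ 2 ≤ (X + Y) ^ 4 := by
    have h5 : (|(w : ℝ)| * ‖h.emb h.rho‖) ^ 4 ≤ (X + Y) ^ 4 := by gcongr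
    have h6 : (|(w : ℝ)| * ‖h.emb h.rho‖) ^ 4 = (w : ℝ) ^ 4 * B ^ 2 := by
      rw [← hrho, mul_pow]
      have : |(w : ℝ)| ^ 4 = (w : ℝ) ^ 4 := by
        rw [show (4 : ℕ) = 2 * 2 from rfl, pow_mul, sq_abs, ← pow_mul]
      rw [this]; ring
    rw [← h6]; exact h5
  have hXY : (X + Y) ^ 4 ≤ 8 * (X ^ 4 + Y ^ 4) := by
    have e1 : (X + Y) ^ 2 ≤ 2 * (X ^ 2 + Y ^ 2) := by nlinarith [sq_nonneg (X - Y)]
    have e2 : (X ^ 2 + Y ^ 2) ^ 2 ≤ 2 * (X ^ 4 + Y ^ 4) := by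
      nlinarith [sq_nonneg (X ^ 2 - Y ^ 2)]
    have e3 : ((X + Y) ^ 2) ^ 2 ≤ (2 * (X ^ 2 + Y ^ 2)) ^ 2 := by gcongr
    nlinarith
  have hfin : (w : ℝ) ^ 4 * B ^ 2 ≤ 65536 * B * B ^ 2 := by
    calc (w : ℝ) ^ 4 * B ^ 2 ≤ 8 * (X ^ 4 + Y ^ 4) := hw2.trans hXY
      _ ≤ 8 * (4096 * B ^ 3 + 4096 * B ^ 3) := by linarith
      _ = 65536 * B * B ^ 2 := by ring
  have hw4 : (w : ℝ) ^ 4 ≤ 65536 * B := le_of_mul_le_mul_right hfin (by positivity)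
  have hprod : X * Y = |(a : ℝ)| ^ 3 := by
    have := congrArg h.emb ha
    rw [map_mul, map_pow, map_intCast] at this
    have h4 := congrArg norm this
    rw [norm_mul, norm_pow, Complex.norm_intCast] at h4
    exact h4
  have ha12 : (a : ℝ) ^ 2 ≤ 16 * B := by
    have h7 : (X * Y) ^ 4 ≤ (4096 * B ^ 3) * (4096 * B ^ 3) := by
      rw [mul_pow]
      exact mul_le_mul hX hY (by positivity) (by positivity)
    have h8 : ((a : ℝ) ^ 2) ^ 6 ≤ (16 * B) ^ 6 := by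
      have e1 : ((a : ℝ) ^ 2) ^ 6 = (X * Y) ^ 4 := by
        rw [hprod, ← sq_abs (a : ℝ)]; ring
      have e2 : (4096 * B ^ 3) * (4096 * B ^ 3) = (16 * B) ^ 6 := by ring
      rw [e1, ← e2]; exact h7
    exact le_of_pow_le_pow_left₀ (by norm_num) (by positivity) h8
  constructor
  · have : ((w ^ 4 : ℤ) : ℝ) ≤ ((65536 * |A| : ℤ) : ℝ) := by push_cast; exact hw4
    exact_mod_cast this
  · have : ((a ^ 2 : ℤ) : ℝ) ≤ ((16 * |A| : ℤ) : ℝ) := by push_cast; exact ha12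
    exact_mod_cast this

end RC91
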