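import Pool.Agent.LibRC91.U0

/-!
# [RC91 U2] the summatory function of the five fold divisor function, upper bound
-/
set_option autoImplicit false
namespace RC91

theorem U2_k (k N : ℕ) (hN : 1 ≤ N) :
    ∑ n ∈ Finset.Icc 1 N, (((ArithmeticFunction.zeta ^ (k + 1) : ArithmeticFunction ℕ) n : ℕ) : ℝ)
      ≤ N * (1 + Real.log N) ^ k := by
  induction k generalizing N with
  | zero =>
    have h1 : ∀ n ∈ Finset.Icc 1 N,
        (((ArithmeticFunction.zeta ^ (0 + 1) : ArithmeticFunction ℕ) n : ℕ) : ℝ) = 1 := by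
      intro n hn
      have hn1 : n ≠ 0 := by
        have := (Finset.mem_Icc.1 hn).1
        omega
      rw [zero_add, pow_one, ArithmeticFunction.zeta_apply, if_neg hn1]
      norm_num
    rw [Finset.sum_congr rfl h1]
    simp
  | succ k ih =>
    have hlogN : 0 ≤ Real.log N := Real.log_nonneg (by exact_mod_cast hN)
    have hsum : ∑ n ∈ Finset.Icc 1 N,
        (ArithmeticFunction.zeta ^ (k + 1 + 1) : ArithmeticFunction ℕ) n =
        ∑ d ∈ Finset.Icc 1 N, ∑ m ∈ Finset.Icc 1 (N / d),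
          (ArithmeticFunction.zeta ^ (k + 1) : ArithmeticFunction ℕ) m := by
      have h := ArithmeticFunction.sum_Ioc_mul_eq_sum_sum
        (ArithmeticFunction.zeta : ArithmeticFunction ℕ)
        (ArithmeticFunction.zeta ^ (k + 1) : ArithmeticFunction ℕ) N
      have hI : ∀ M : ℕ, Finset.Ioc 0 M = Finset.Icc 1 M := fun M => rfl
      rw [← pow_succ'] at h
      simp only [hI] at h
      rw [h]
      refine Finset.sum_congr rfl fun d hd => ?_
      have hd1 : d ≠ 0 := by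
        have := (Finset.mem_Icc.1 hd).1
        omega
      rw [ArithmeticFunction.zeta_apply, if_neg hd1, one_mul]
    have hsumR : ∑ n ∈ Finset.Icc 1 N,
        (((ArithmeticFunction.zeta ^ (k + 1 + 1) : ArithmeticFunction ℕ) n : ℕ) : ℝ) =
        ∑ d ∈ Finset.Icc 1 N, ∑ m ∈ Finset.Icc 1 (N / d),
          (((ArithmeticFunction.zeta ^ (k + 1) : ArithmeticFunction ℕ) m : ℕ) : ℝ) := by
      exact_mod_cast hsum
    rw [hsumR]
    have hstep : ∀ d ∈ Finset.Icc 1 N, ∑ m ∈ Finset.Icc 1 (N / d),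
          (((ArithmeticFunction.zeta ^ (k + 1) : ArithmeticFunction ℕ) m : ℕ) : ℝ) ≤
        (N * (1 + Real.log N) ^ k) * (d : ℝ)⁻¹ := by
      intro d hd
      obtain ⟨hd1, hdN⟩ := Finset.mem_Icc.1 hd
      have hq : 1 ≤ N / d := (Nat.one_le_div_iff (by omega)).2 hdN
      refine (ih (N / d) hq).trans ?_
      have h1 : ((N / d : ℕ) : ℝ) ≤ (N : ℝ) / d := Nat.cast_div_le
      have h2 : Real.log ((N / d : ℕ) : ℝ) ≤ Real.log N := by
        refine Real.log_le_log (by exact_mod_cast hq) ?_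
        exact_mod_cast Nat.div_le_self N d
      have h3 : 0 ≤ Real.log ((N / d : ℕ) : ℝ) := Real.log_nonneg (by exact_mod_cast hq)
      calc ((N / d : ℕ) : ℝ) * (1 + Real.log ((N / d : ℕ) : ℝ)) ^ k
          ≤ ((N : ℝ) / d) * (1 + Real.log N) ^ k := by gcongr
        _ = (N * (1 + Real.log N) ^ k) * (d : ℝ)⁻¹ := by ring
    refine (Finset.sum_le_sum hstep).trans ?_
    rw [← Finset.mul_sum]
    have hh : ∑ d ∈ Finset.Icc 1 N, (d : ℝ)⁻¹ ≤ 1 + Real.log N := by
      have h := harmonic_le_one_add_log N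
      rw [harmonic_eq_sum_Icc] at h
      push_cast at h
      exact h
    calc (N * (1 + Real.log N) ^ k) * ∑ d ∈ Finset.Icc 1 N, (d : ℝ)⁻¹
        ≤ (N * (1 + Real.log N) ^ k) * (1 + Real.log N) := by gcongr
      _ = N * (1 + Real.log N) ^ (k + 1) := by ring

theorem U2 (N : ℕ) (hN : 1 ≤ N) :
    ∑ n ∈ Finset.Icc 1 N, (T5 n : ℝ) ≤ N * (1 + Real.log N) ^ 4 := by
  exact U2_k 4 N hN

theorem U2_S (N : ℕ) (hN : 1 ≤ N) : S5 N ≤ N * (1 + Real.log N) ^ 4 := by
  classical
  refine le_trans ?_ (U2 N hN)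
  unfold S5
  refine le_trans (le_of_eq (b := ∑ s ∈ (Finset.Icc 1 N).filter Squarefree, (T5 s : ℝ)) ?_) ?_
  · refine Finset.sum_congr (by congr) fun s hs => ?_
    rw [T5_sqf s (Finset.mem_filter.1 hs).2]
    push_cast
    rfl
  · exact Finset.sum_le_sum_of_subset_of_nonneg (Finset.filter_subset _ _)
      fun _ _ _ => Nat.cast_nonneg _

end RC91
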