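import Pool.Agent.LibRC91.U0

/-!
# [RC91 U3] splitting off the powerful part
PLAN: `U3_dec`: for `n ≥ 1` put `s = ∏ p ∈ n.primeFactors.filter (fun p => n.factorization p = 1), p`,
`w = n / s = ∏_{p : factorization ≥ 2} p^(factorization)`: coprime, `s` square free, `w` powerful.
`U3`: `T5 n = T5 s * T5 w` (T5_mul), `T5 s = 5^ω(s)` (T5_sqf); map `n ↦ (w, s)` is injective (`n = s w`) into the pairs
with `w ≤ R` powerful, `s ≤ R / w` square free (`s w ≤ R`): compare with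
`∑_{w} ∑_{s ≤ R/w} T5 w * 5^ω(s)` (`Finset.sum_sigma`/`sum_product'`, `Finset.sum_le_sum_of_injOn`...).
-/
set_option autoImplicit false
namespace RC91

theorem U3_dec (n : ℕ) (hn : 1 ≤ n) :
    ∃ s w : ℕ, n = s * w ∧ Squarefree s ∧ Pw w ∧ s.Coprime w := by
  induction n using Nat.recOnPosPrimePosCoprime with
  | zero => omega
  | one =>
    refine ⟨1, 1, rfl, squarefree_one, ?_, Nat.coprime_one_left 1⟩
    intro p hp hd
    exact absurd (Nat.dvd_one.1 hd) hp.one_lt.ne'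
  | prime_pow p k hp hk =>
    rcases Nat.lt_or_ge k 2 with h2 | h2
    · have hk1 : k = 1 := by omega
      refine ⟨p, 1, by rw [hk1, pow_one, mul_one], hp.prime.squarefree, ?_,
        Nat.coprime_one_right p⟩
      intro q hq hd
      exact absurd (Nat.dvd_one.1 hd) hq.one_lt.ne'
    · refine ⟨1, p ^ k, by rw [one_mul], squarefree_one, ?_, Nat.coprime_one_left _⟩
      intro q hq hd
      have h3 : q ∣ p := hq.dvd_of_dvd_pow hd
      have h4 : q = p := (Nat.prime_dvd_prime_iff_eq hq hp).1 h3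
      rw [h4]
      exact pow_dvd_pow p h2
  | coprime a b ha hb hab iha ihb =>
    obtain ⟨s₁, w₁, e₁, hs₁, hw₁, hc₁⟩ := iha (by omega)
    obtain ⟨s₂, w₂, e₂, hs₂, hw₂, hc₂⟩ := ihb (by omega)
    have d1 : s₁ ∣ a := ⟨w₁, e₁⟩
    have d2 : w₁ ∣ a := ⟨s₁, by rw [mul_comm]; exact e₁⟩
    have d3 : s₂ ∣ b := ⟨w₂, e₂⟩
    have d4 : w₂ ∣ b := ⟨s₂, by rw [mul_comm]; exact e₂⟩
    refine ⟨s₁ * s₂, w₁ * w₂, ?_, ?_, ?_, ?_⟩
    · rw [e₁, e₂]
      ring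
    · exact (Nat.squarefree_mul (Nat.Coprime.of_dvd d1 d3 hab)).2 ⟨hs₁, hs₂⟩
    · intro p hp hd
      rcases (Nat.Prime.dvd_mul hp).1 hd with h1 | h1
      · exact (hw₁ p hp h1).mul_right _
      · exact (hw₂ p hp h1).mul_left _
    · refine Nat.Coprime.mul_left ?_ ?_
      · exact Nat.Coprime.mul_right hc₁ (Nat.Coprime.of_dvd d1 d4 hab)
      · exact Nat.Coprime.mul_right (Nat.Coprime.of_dvd d3 d2 hab.symm) hc₂

open Classical in
theorem U3 (R : ℕ) : ∑ n ∈ Finset.Icc 1 R, (T5 n : ℝ) ≤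
    ∑ w ∈ (Finset.Icc 1 R).filter Pw, (T5 w : ℝ) * S5 (R / w) := by
  have hdec : ∀ n : ℕ, ∃ q : ℕ × ℕ, 1 ≤ n → n = q.1 * q.2 ∧ Squarefree q.1 ∧ Pw q.2 ∧
      q.1.Coprime q.2 := by
    intro n
    by_cases hn : 1 ≤ n
    · obtain ⟨s, w, h⟩ := U3_dec n hn
      exact ⟨(s, w), fun _ => h⟩
    · exact ⟨(0, 0), fun h => absurd h hn⟩
  choose q hq using hdec
  have hR : ∑ w ∈ (Finset.Icc 1 R).filter Pw, (T5 w : ℝ) * S5 (R / w) =
      ∑ x ∈ ((Finset.Icc 1 R).filter Pw).sigma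
        (fun w => (Finset.Icc 1 (R / w)).filter Squarefree),
        (T5 x.1 : ℝ) * (5 : ℝ) ^ x.2.primeFactors.card := by
    rw [Finset.sum_sigma]
    refine Finset.sum_congr rfl fun w _ => ?_
    rw [S5, Finset.mul_sum]
  rw [hR]
  have hinj : Set.InjOn (fun n => (⟨(q n).2, (q n).1⟩ : Σ _ : ℕ, ℕ))
      (Finset.Icc 1 R : Finset ℕ) := by
    intro n hn m hm hnm
    have hn' := Finset.mem_Icc.1 (Finset.mem_coe.1 hn)
    have hm' := Finset.mem_Icc.1 (Finset.mem_coe.1 hm)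
    simp only [Sigma.mk.injEq, heq_eq_eq] at hnm
    rw [(hq n hn'.1).1, (hq m hm'.1).1, hnm.1, hnm.2]
  have hL : ∑ n ∈ Finset.Icc 1 R, (T5 n : ℝ) =
      ∑ x ∈ (Finset.Icc 1 R).image (fun n => (⟨(q n).2, (q n).1⟩ : Σ _ : ℕ, ℕ)),
        (T5 x.1 : ℝ) * (5 : ℝ) ^ x.2.primeFactors.card := by
    rw [Finset.sum_image hinj]
    refine Finset.sum_congr rfl fun n hn => ?_
    obtain ⟨h1, h2, h3, h4⟩ := hq n (Finset.mem_Icc.1 hn).1
    conv_lhs => rw [h1, T5_mul _ _ h4, T5_sqf _ h2]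
    push_cast
    ring
  rw [hL]
  refine Finset.sum_le_sum_of_subset_of_nonneg ?_ fun x _ _ => by positivity
  intro x hx
  obtain ⟨n, hn, rfl⟩ := Finset.mem_image.1 hx
  have hn' := Finset.mem_Icc.1 hn
  obtain ⟨h1, h2, h3, h4⟩ := hq n hn'.1
  have hs0 : 0 < (q n).1 := Nat.pos_of_ne_zero h2.ne_zero
  have hw0 : 0 < (q n).2 := by
    rcases Nat.eq_zero_or_pos (q n).2 with h | h
    · rw [h, mul_zero] at h1
      omega
    · exact h
  rw [Finset.mem_sigma, Finset.mem_filter, Finset.mem_filter, Finset.mem_Icc, Finset.mem_Icc]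
  have hle : (q n).1 * (q n).2 ≤ R := by rw [← h1]; exact hn'.2
  refine ⟨⟨⟨hw0, ?_⟩, h3⟩, ⟨hs0, ?_⟩, h2⟩
  · exact (Nat.le_mul_of_pos_left _ hs0).trans hle
  · exact (Nat.le_div_iff_mul_le hw0).2 hle

end RC91
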