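import Pool.Agent.LibRC91.U0

/-!
# [RC91 U4] the powerful numbers have a convergent sum
PLAN: `U4_dec`: `Nat.sq_mul_squarefree n` gives `n = b^2 * a`, `a` square free. If `p ∣ a` then `p^2 ∣ n` and
`p ∣ b` (otherwise `p` is coprime to `b^2`, `p^2 ∣ a`, against square free): so `a ∣ b` (`a` = product of its
primes: `Nat.prod_primeFactors_of_squarefree`, `Finset.prod_primes_dvd`).
`U4_bd`: for powerful `w = b^2 a ≤ N`: `T5 w / w ≤ τ(b^2 a)^4/(b^2 a) ≤ τ(b)^12/b^2` (T5_le; `b^2 a ∣ b^3`, so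
`τ(b^2 a) ≤ τ(b^3) ≤ τ(b)^3` by QM_mul). The powerful `w ≤ N` inject in the pairs `(b, a)` with `b ≤ N`, `a ∣ b`, so the
sum is `≤ ∑_{b ≤ N} ∑_{a ∣ b} τ(b)^12/b^2 = ∑_{b ≤ N} τ(b)^13/b^2 ≤ 2^(2^13)` (QM_two).
`U4`: bounded partial sums of nonnegative terms (`summable_of_sum_range_le`, the term at `0` is `T5 0 / 0 = 0`).
-/
set_option autoImplicit false
namespace RC91

theorem U4_dec (n : ℕ) (hn : 1 ≤ n) (h : Pw n) : ∃ b a : ℕ, n = b ^ 2 * a ∧ a ∣ b := by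
  obtain ⟨a, b, hab, hsq⟩ := Nat.sq_mul_squarefree n
  refine ⟨b, a, hab.symm, ?_⟩
  rw [← Nat.prod_primeFactors_of_squarefree hsq]
  refine Finset.prod_primes_dvd b (fun p hp => (Nat.prime_of_mem_primeFactors hp).prime) ?_
  intro p hp
  have hpp := Nat.prime_of_mem_primeFactors hp
  have hpa := Nat.dvd_of_mem_primeFactors hp
  by_contra hb
  have h1 : p ^ 2 ∣ b ^ 2 * a := by
    rw [hab]
    exact h p hpp (hab ▸ hpa.mul_left _)
  have h2 : Nat.Coprime (p ^ 2) (b ^ 2) := ((Nat.Prime.coprime_iff_not_dvd hpp).2 hb).pow 2 2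
  have h3 : p ^ 2 ∣ a := h2.dvd_of_dvd_mul_left h1
  have h4 := hsq p (by rw [← sq]; exact h3)
  exact hpp.one_lt.ne' (Nat.isUnit_iff.1 h4)

private theorem U4_term (w b a : ℕ) (hw : 1 ≤ w) (e : w = b ^ 2 * a) (hab : a ∣ b) :
    (T5 w : ℝ) / (w : ℝ) ≤ (b.divisors.card : ℝ) ^ 12 / (b : ℝ) ^ 2 := by
  have hb : b ≠ 0 := by
    rintro rfl
    rw [e] at hw
    simp at hw
  have ha : 1 ≤ a := by
    rcases Nat.eq_zero_or_pos a with h | h
    · rw [e, h] at hw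
      simp at hw
    · exact h
  have h1 : w.divisors.card ≤ b.divisors.card ^ 3 := by
    calc w.divisors.card = (b ^ 2 * a).divisors.card := by rw [← e]
      _ ≤ (b ^ 2).divisors.card * a.divisors.card := QM_mul _ _
      _ ≤ (b.divisors.card * b.divisors.card) * b.divisors.card := by
        refine Nat.mul_le_mul ?_ (Finset.card_le_card (Nat.divisors_subset_of_dvd hb hab))
        rw [sq]
        exact QM_mul _ _
      _ = b.divisors.card ^ 3 := by ring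
  have h2 : T5 w ≤ b.divisors.card ^ 12 := by
    calc T5 w ≤ w.divisors.card ^ 4 := T5_le w
      _ ≤ (b.divisors.card ^ 3) ^ 4 := Nat.pow_le_pow_left h1 4
      _ = b.divisors.card ^ 12 := by rw [← pow_mul]
  have h3 : (T5 w : ℝ) ≤ (b.divisors.card : ℝ) ^ 12 := by exact_mod_cast h2
  have h4 : b ^ 2 ≤ w := by
    rw [e]
    exact Nat.le_mul_of_pos_right _ ha
  have h5 : (b : ℝ) ^ 2 ≤ (w : ℝ) := by exact_mod_cast h4
  have hb' : (0 : ℝ) < (b : ℝ) ^ 2 := by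
    have : (0 : ℝ) < b := by exact_mod_cast Nat.pos_of_ne_zero hb
    positivity
  exact div_le_div₀ (by positivity) h3 hb' h5

open Classical in
theorem U4_bd (N : ℕ) :
    ∑ w ∈ (Finset.Icc 1 N).filter Pw, (T5 w : ℝ) / (w : ℝ) ≤ 2 ^ (2 ^ 13) := by
  obtain ⟨S, hS⟩ : ∃ S : Finset ℕ, S = (Finset.Icc 1 N).filter Pw := ⟨_, rfl⟩
  have hmem : ∀ w ∈ S, 1 ≤ w ∧ w ≤ N ∧ Pw w := by
    intro w hw
    rw [hS, Finset.mem_filter, Finset.mem_Icc] at hw
    exact ⟨hw.1.1, hw.1.2, hw.2⟩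
  have hex : ∀ w : ℕ, ∃ x : ℕ × ℕ, w ∈ S → w = x.1 ^ 2 * x.2 ∧ x.2 ∣ x.1 := by
    intro w
    by_cases hw : w ∈ S
    · obtain ⟨b, a, h1, h2⟩ := U4_dec w (hmem w hw).1 (hmem w hw).2.2
      exact ⟨(b, a), fun _ => ⟨h1, h2⟩⟩
    · exact ⟨(0, 0), fun h => absurd h hw⟩
  choose φ hφ using hex
  obtain ⟨R, hR⟩ : ∃ R : Finset (Σ _ : ℕ, ℕ), R = (Finset.Icc 1 N).sigma (fun b => b.divisors) := ⟨_, rfl⟩
  obtain ⟨g, hg⟩ : ∃ g : (Σ _ : ℕ, ℕ) → ℝ, g = fun x => (x.1.divisors.card : ℝ) ^ 12 / (x.1 : ℝ) ^ 2 := ⟨_, rfl⟩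
  have hg0 : ∀ x, 0 ≤ g x := by
    intro x
    rw [hg]
    positivity
  rw [← hS]
  calc ∑ w ∈ S, (T5 w : ℝ) / (w : ℝ) ≤ ∑ w ∈ S, g ⟨(φ w).1, (φ w).2⟩ := by
        refine Finset.sum_le_sum fun w hw => ?_
        rw [hg]
        exact U4_term w _ _ (hmem w hw).1 (hφ w hw).1 (hφ w hw).2
    _ = ∑ x ∈ S.image (fun w => (⟨(φ w).1, (φ w).2⟩ : Σ _ : ℕ, ℕ)), g x := by
        rw [Finset.sum_image]
        intro w hw w' hw' e
        have e' : (⟨(φ w).1, (φ w).2⟩ : Σ _ : ℕ, ℕ) = ⟨(φ w').1, (φ w').2⟩ := e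
        have e1 : (φ w).1 = (φ w').1 := congrArg Sigma.fst e'
        have e2 : (φ w).2 = (φ w').2 := congrArg (fun x : Σ _ : ℕ, ℕ => x.2) e'
        rw [(hφ w hw).1, (hφ w' hw').1, e1, e2]
    _ ≤ ∑ x ∈ R, g x := by
        refine Finset.sum_le_sum_of_subset_of_nonneg ?_ (fun x _ _ => hg0 x)
        intro x hx
        obtain ⟨w, hw, rfl⟩ := Finset.mem_image.1 hx
        obtain ⟨h1, h2⟩ := hφ w hw
        obtain ⟨h3, h4, -⟩ := hmem w hw
        have hb : (φ w).1 ≠ 0 := by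
          intro h0
          rw [h0] at h1
          simp at h1
          omega
        have ha : 1 ≤ (φ w).2 := by
          rcases Nat.eq_zero_or_pos (φ w).2 with h | h
          · rw [h] at h1
            simp at h1
            omega
          · exact h
        have h5 : (φ w).1 ≤ N := by
          calc (φ w).1 ≤ (φ w).1 ^ 2 := Nat.le_self_pow (by norm_num) _
            _ ≤ (φ w).1 ^ 2 * (φ w).2 := Nat.le_mul_of_pos_right _ ha
            _ = w := h1.symm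
            _ ≤ N := h4
        rw [hR, Finset.mem_sigma, Finset.mem_Icc]
        exact ⟨⟨Nat.pos_of_ne_zero hb, h5⟩, Nat.mem_divisors.2 ⟨h2, hb⟩⟩
    _ = ∑ v ∈ Finset.Icc 1 N, ((v.divisors.card : ℝ)) ^ 13 / (v : ℝ) ^ 2 := by
        rw [hR, Finset.sum_sigma]
        refine Finset.sum_congr rfl fun b _ => ?_
        rw [hg]
        simp only
        rw [Finset.sum_const, nsmul_eq_mul]
        ring
    _ ≤ 2 ^ (2 ^ 13) := QM_two 13 N

open Classical in
theorem U4 : Summable (fun w : ℕ => if Pw w then (T5 w : ℝ) / (w : ℝ) else 0) := by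
  refine summable_of_sum_range_le (c := 2 ^ (2 ^ 13)) (fun n => ?_) (fun n => ?_)
  · split_ifs
    · positivity
    · exact le_refl _
  · refine le_trans ?_ (U4_bd n)
    rw [Finset.sum_filter]
    have h0 : ∀ i : ℕ, 0 ≤ (if Pw i then (T5 i : ℝ) / (i : ℝ) else 0) := by
      intro i
      split_ifs
      · positivity
      · exact le_refl _
    calc ∑ i ∈ Finset.range n, (if Pw i then (T5 i : ℝ) / (i : ℝ) else 0)
        ≤ ∑ i ∈ insert 0 (Finset.Icc 1 n), (if Pw i then (T5 i : ℝ) / (i : ℝ) else 0) := by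
          refine Finset.sum_le_sum_of_subset_of_nonneg ?_ (fun i _ _ => h0 i)
          intro i hi
          rw [Finset.mem_range] at hi
          rw [Finset.mem_insert, Finset.mem_Icc]
          omega
      _ = ∑ i ∈ Finset.Icc 1 n, (if Pw i then (T5 i : ℝ) / (i : ℝ) else 0) := by
          rw [Finset.sum_insert (by simp)]
          simp

end RC91
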