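import Pool.Agent.LibRC91.U1
import Pool.Agent.LibRC91.U2
import Pool.Agent.LibRC91.U3
import Pool.Agent.LibRC91.U4

/-!
# [RC91 U5] the lower bound for the square free sum
PLAN: `ε = 1/16384`. U4 gives `W0` with `∑_{w ∈ F} [Pw w] T5 w / w < ε` for every finite set `F` of numbers `> W0`
(`summable_iff_vanishing_norm` or `Summable.sum_add_tsum_nat_add`). Let `C0 = 1 + ∑_{w ≤ W0} T5 w`. For `R ≥ 3`
(`log R ≥ 1`, so `1 + log R ≤ 2 log R`), U1 and U3:
`(R/2) (log R/4)^4 ≤ ∑_{w ≤ W0} T5 w * S5 (R/w) + ∑_{W0 < w ≤ R, Pw} T5 w * S5 (R / w)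
 ≤ C0 * S5 R + ε R (1 + log R)^4 ≤ C0 * S5 R + 16 ε R (log R)^4`
(S5 monotone: U5_mono; U2_S with `(R / w : ℕ) ≤ R/w` and `R / w ≥ 1`). `1/512 - 16/16384 = 1/1024`, so
`S5 R ≥ R (log R)^4 / (1024 C0)` for `R ≥ 3`. `R = 2`: `S5 2 ≥ 1 ≥ c * 2 * (log 2)^4` when `c ≤ 1/2`.
-/
set_option autoImplicit false
namespace RC91

theorem U5_mono (M N : ℕ) (h : M ≤ N) : S5 M ≤ S5 N := by
  unfold S5
  apply Finset.sum_le_sum_of_subset_of_nonneg
  · exact Finset.filter_subset_filter _ (Finset.Icc_subset_Icc_right h)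
  · intros; positivity

private theorem U5_nonneg (N : ℕ) : 0 ≤ S5 N := by
  unfold S5
  exact Finset.sum_nonneg fun _ _ => by positivity

private theorem U5_one (N : ℕ) (h : 1 ≤ N) : 1 ≤ S5 N := by
  have h1 : S5 1 ≤ S5 N := U5_mono 1 N h
  have h2 : S5 1 = 1 := by
    unfold S5
    have : (Finset.Icc 1 1).filter (Squarefree : ℕ → Prop) = {1} := by
      ext x
      simp only [Finset.mem_filter, Finset.mem_Icc, Finset.mem_singleton]
      constructor
      · rintro ⟨⟨h1, h2⟩, -⟩; omega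
      · rintro rfl; exact ⟨⟨le_rfl, le_rfl⟩, squarefree_one⟩
    rw [this]; simp
  linarith

open Classical in
private theorem U5_core (s : Finset ℕ)
    (hs : ∀ t : Finset ℕ, Disjoint t s →
      ∑ w ∈ t, (if Pw w then (T5 w : ℝ) / (w : ℝ) else 0) ≤ 1 / 16384)
    (R : ℕ) (hR : 1 ≤ R) (hl : 1 ≤ Real.log R) :
    (R : ℝ) * Real.log R ^ 4 / 1024 ≤ (1 + ∑ w ∈ s, (T5 w : ℝ)) * S5 R := by
  have h1 := U1 R hR
  have h3 := U3 R
  set F := (Finset.Icc 1 R).filter Pw with hF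
  have hR0 : (0 : ℝ) < R := by exact_mod_cast hR
  have hsplit : ∑ w ∈ F, (T5 w : ℝ) * S5 (R / w) =
      ∑ w ∈ F.filter (· ∈ s), (T5 w : ℝ) * S5 (R / w) +
      ∑ w ∈ F.filter (¬ · ∈ s), (T5 w : ℝ) * S5 (R / w) :=
    (Finset.sum_filter_add_sum_filter_not F (· ∈ s) _).symm
  have hA : ∑ w ∈ F.filter (· ∈ s), (T5 w : ℝ) * S5 (R / w) ≤
      (∑ w ∈ s, (T5 w : ℝ)) * S5 R := by
    calc ∑ w ∈ F.filter (· ∈ s), (T5 w : ℝ) * S5 (R / w)
        ≤ ∑ w ∈ F.filter (· ∈ s), (T5 w : ℝ) * S5 R := by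
          refine Finset.sum_le_sum fun w _ => ?_
          exact mul_le_mul_of_nonneg_left (U5_mono _ _ (Nat.div_le_self R w)) (Nat.cast_nonneg _)
      _ = (∑ w ∈ F.filter (· ∈ s), (T5 w : ℝ)) * S5 R := by rw [Finset.sum_mul]
      _ ≤ (∑ w ∈ s, (T5 w : ℝ)) * S5 R := by
          refine mul_le_mul_of_nonneg_right ?_ (U5_nonneg R)
          refine Finset.sum_le_sum_of_subset_of_nonneg ?_ (fun _ _ _ => Nat.cast_nonneg _)
          intro w hw
          exact (Finset.mem_filter.1 hw).2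
  have hB : ∑ w ∈ F.filter (¬ · ∈ s), (T5 w : ℝ) * S5 (R / w) ≤
      1 / 16384 * (R * (1 + Real.log R) ^ 4) := by
    calc ∑ w ∈ F.filter (¬ · ∈ s), (T5 w : ℝ) * S5 (R / w)
        ≤ ∑ w ∈ F.filter (¬ · ∈ s), (if Pw w then (T5 w : ℝ) / (w : ℝ) else 0) *
            (R * (1 + Real.log R) ^ 4) := by
          refine Finset.sum_le_sum fun w hw => ?_
          have hw1 := (Finset.mem_filter.1 hw).1
          have hw2 := (Finset.mem_filter.1 hw1).2
          have hw3 := Finset.mem_Icc.1 (Finset.mem_filter.1 hw1).1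
          rw [if_pos hw2]
          have hw0 : (0 : ℝ) < w := by exact_mod_cast hw3.1
          have hq : 1 ≤ R / w := Nat.div_pos hw3.2 hw3.1
          have h2 := U2_S (R / w) hq
          have hqr : ((R / w : ℕ) : ℝ) ≤ (R : ℝ) / w := Nat.cast_div_le
          have hqR : ((R / w : ℕ) : ℝ) ≤ (R : ℝ) := by exact_mod_cast Nat.div_le_self R w
          have hq0 : (0 : ℝ) < ((R / w : ℕ) : ℝ) := by exact_mod_cast hq
          have hlog : Real.log ((R / w : ℕ) : ℝ) ≤ Real.log R := Real.log_le_log hq0 hqR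
          have hlog0 : 0 ≤ Real.log ((R / w : ℕ) : ℝ) :=
            Real.log_nonneg (by exact_mod_cast hq)
          have h4 : S5 (R / w) ≤ (R : ℝ) / w * (1 + Real.log R) ^ 4 :=
            h2.trans (by gcongr)
          calc (T5 w : ℝ) * S5 (R / w) ≤ (T5 w : ℝ) * ((R : ℝ) / w * (1 + Real.log R) ^ 4) :=
                mul_le_mul_of_nonneg_left h4 (Nat.cast_nonneg _)
            _ = (T5 w : ℝ) / w * (R * (1 + Real.log R) ^ 4) := by ring
      _ = (∑ w ∈ F.filter (¬ · ∈ s), (if Pw w then (T5 w : ℝ) / (w : ℝ) else 0)) *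
            (R * (1 + Real.log R) ^ 4) := by rw [Finset.sum_mul]
      _ ≤ 1 / 16384 * (R * (1 + Real.log R) ^ 4) := by
          refine mul_le_mul_of_nonneg_right (hs _ ?_) (by positivity)
          rw [Finset.disjoint_left]
          intro w hw
          exact (Finset.mem_filter.1 hw).2
  have hl4 : (1 + Real.log R) ^ 4 ≤ (2 * Real.log R) ^ 4 := by
    gcongr
    linarith
  have hB' : 1 / 16384 * (R * (1 + Real.log R) ^ 4) ≤ R * Real.log R ^ 4 / 1024 := by
    calc 1 / 16384 * (R * (1 + Real.log R) ^ 4)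
        ≤ 1 / 16384 * (R * (2 * Real.log R) ^ 4) := by gcongr
      _ = R * Real.log R ^ 4 / 1024 := by ring
  have h1' : (R : ℝ) / 2 * (Real.log R / 4) ^ 4 = R * Real.log R ^ 4 / 1024 * 2 := by ring
  have hSn := U5_nonneg R
  have : (1 + ∑ w ∈ s, (T5 w : ℝ)) * S5 R = S5 R + (∑ w ∈ s, (T5 w : ℝ)) * S5 R := by ring
  rw [this]
  linarith

theorem U5 : ∃ c : ℝ, 0 < c ∧ ∀ R : ℕ, 2 ≤ R → c * R * (Real.log R) ^ 4 ≤ S5 R := by
  classical
  have hsum := U4
  rw [summable_iff_vanishing_norm] at hsum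
  obtain ⟨s, hs⟩ := hsum (1 / 16384) (by norm_num)
  have hs' : ∀ t : Finset ℕ, Disjoint t s →
      ∑ w ∈ t, (if Pw w then (T5 w : ℝ) / (w : ℝ) else 0) ≤ 1 / 16384 := by
    intro t ht
    have := hs t ht
    rw [Real.norm_eq_abs] at this
    exact le_of_lt (lt_of_le_of_lt (le_abs_self _) this)
  set C0 : ℝ := 1 + ∑ w ∈ s, (T5 w : ℝ) with hC0
  have hC1 : 1 ≤ C0 := by
    have : 0 ≤ ∑ w ∈ s, (T5 w : ℝ) := Finset.sum_nonneg fun _ _ => Nat.cast_nonneg _
    linarith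
  refine ⟨1 / (1024 * C0), by positivity, fun R hR => ?_⟩
  have hR0 : (0 : ℝ) < R := by
    have : 0 < R := by omega
    exact_mod_cast this
  by_cases h3 : 3 ≤ R
  · have hl : 1 ≤ Real.log R := by
      rw [Real.le_log_iff_exp_le hR0]
      have : Real.exp 1 ≤ 3 := by
        have := Real.exp_one_lt_d9
        linarith
      have h3' : (3 : ℝ) ≤ R := by exact_mod_cast h3
      linarith
    have := U5_core s hs' R (by omega) hl
    rw [← hC0] at this
    calc 1 / (1024 * C0) * R * Real.log R ^ 4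
        = (R * Real.log R ^ 4 / 1024) / C0 := by
          field_simp
      _ ≤ (C0 * S5 R) / C0 := by gcongr
      _ = S5 R := by field_simp
  · have hR2 : R = 2 := by omega
    subst hR2
    have h1 := U5_one 2 (by norm_num)
    have hlog : Real.log 2 ≤ 1 := by
      have := Real.log_two_lt_d9
      linarith
    have hlog0 : 0 ≤ Real.log 2 := Real.log_nonneg (by norm_num)
    have h4 : Real.log 2 ^ 4 ≤ 1 := pow_le_one₀ hlog0 hlog
    have hc : 1 / (1024 * C0) ≤ 1 / 1024 := by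
      apply one_div_le_one_div_of_le (by norm_num)
      linarith
    have : 1 / (1024 * C0) * ((2 : ℕ) : ℝ) * Real.log ((2 : ℕ) : ℝ) ^ 4 ≤ 1 / 1024 * 2 * 1 := by
      push_cast
      gcongr
    linarith

end RC91
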