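import Pool.Agent.LibRC91.U0

/-!
# [RC91 U6] the family contains `5^ω(s)` integers of radical `s`
-/
set_option autoImplicit false
namespace RC91

theorem U6_fin (R : ℕ) : (Fam R).Finite := by
  refine Set.Finite.subset (Set.finite_Icc (-((R : ℤ) ^ 5)) ((R : ℤ) ^ 5)) ?_
  rintro k ⟨hk0, hk6, hkR⟩
  have hn0 : k.natAbs ≠ 0 := Int.natAbs_ne_zero.2 hk0
  have hle : k.natAbs ≤ (∏ p ∈ k.natAbs.primeFactors, p) ^ 5 := by
    conv_lhs => rw [← Nat.prod_factorization_pow_eq_self hn0]
    rw [Finsupp.prod, Nat.support_factorization, ← Finset.prod_pow]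
    refine Finset.prod_le_prod' fun p hp => ?_
    have hpp : p.Prime := Nat.prime_of_mem_primeFactors hp
    refine Nat.pow_le_pow_right hpp.pos ?_
    by_contra hlt
    push Not at hlt
    refine hk6 p hpp ?_
    have h1 : p ^ 6 ∣ k.natAbs := (hpp.pow_dvd_iff_le_factorization hn0).2 (by omega)
    have h2 : ((p ^ 6 : ℕ) : ℤ) ∣ k := Int.natCast_dvd.2 h1
    exact_mod_cast h2
  have h3 : k.natAbs ≤ R ^ 5 := hle.trans (Nat.pow_le_pow_left hkR 5)
  have h4 : |k| ≤ (R : ℤ) ^ 5 := by
    rw [Int.abs_eq_natAbs]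
    exact_mod_cast h3
  exact Set.mem_Icc.2 (abs_le.1 h4)

theorem U6_tau (s : ℕ) (h : Squarefree s) : (s ^ 4).divisors.card = 5 ^ s.primeFactors.card := by
  have hs0 : s ≠ 0 := h.ne_zero
  rw [Nat.card_divisors (pow_ne_zero 4 hs0), Nat.primeFactors_pow s (by norm_num)]
  rw [Finset.prod_congr rfl (g := fun _ => 5)]
  · rw [Finset.prod_const]
  · intro p hp
    have hpp : p.Prime := Nat.prime_of_mem_primeFactors hp
    have h1 : s.factorization p = 1 :=
      Nat.factorization_eq_one_of_squarefree h hpp (Nat.dvd_of_mem_primeFactors hp)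
    rw [Nat.factorization_pow]
    simp [h1]

private theorem U6_pf {s d : ℕ} (hs : Squarefree s) (hd : d ∣ s ^ 4) :
    (s * d).primeFactors = s.primeFactors := by
  have hs0 : s ≠ 0 := hs.ne_zero
  have hd0 : d ≠ 0 := fun h => by
    subst h
    exact pow_ne_zero 4 hs0 (Nat.eq_zero_of_zero_dvd hd)
  apply le_antisymm
  · have h1 : s * d ∣ s ^ 5 := by
      have : s * d ∣ s * s ^ 4 := Nat.mul_dvd_mul_left s hd
      rwa [← pow_succ'] at this
    calc (s * d).primeFactors ≤ (s ^ 5).primeFactors :=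
          Nat.primeFactors_mono h1 (pow_ne_zero 5 hs0)
      _ = s.primeFactors := Nat.primeFactors_pow s (by norm_num)
  · exact Nat.primeFactors_mono (Dvd.intro d rfl) (mul_ne_zero hs0 hd0)

theorem U6 (R : ℕ) : S5 R ≤ ((Fam R).ncard : ℝ) := by
  classical
  set T : Finset (Σ _ : ℕ, ℕ) :=
    ((Finset.Icc 1 R).filter Squarefree).sigma fun s => (s ^ 4).divisors with hT
  have hcard : S5 R = (T.card : ℝ) := by
    rw [hT, Finset.card_sigma]
    unfold S5
    push_cast
    refine Finset.sum_congr (by congr) fun s hs => ?_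
    rw [U6_tau s (Finset.mem_filter.1 hs).2]
    push_cast
    rfl
  rw [hcard]
  have hle : T.card ≤ (Fam R).ncard := by
    rw [← Set.ncard_coe_finset T]
    refine Set.ncard_le_ncard_of_injOn (fun q : (Σ _ : ℕ, ℕ) => ((q.1 * q.2 : ℕ) : ℤ)) ?_ ?_
      (U6_fin R)
    · rintro ⟨s, d⟩ hq
      have hq' : (s ∈ (Finset.Icc 1 R).filter Squarefree) ∧ d ∈ (s ^ 4).divisors := by
        have := Finset.mem_coe.1 hq
        rw [hT, Finset.mem_sigma] at this
        exact this
      obtain ⟨hs, hd⟩ := hq'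
      obtain ⟨hs1, hs2⟩ := Finset.mem_filter.1 hs
      have hsR := (Finset.mem_Icc.1 hs1).2
      have hs0 : s ≠ 0 := hs2.ne_zero
      have hd' : d ∣ s ^ 4 := (Nat.mem_divisors.1 hd).1
      have hd0 : d ≠ 0 := fun h => by
        subst h
        exact pow_ne_zero 4 hs0 (Nat.eq_zero_of_zero_dvd hd')
      have hdvd : s * d ∣ s ^ 5 := by
        have : s * d ∣ s * s ^ 4 := Nat.mul_dvd_mul_left s hd'
        rwa [← pow_succ'] at this
      refine ⟨?_, ?_, ?_⟩
      · exact_mod_cast mul_ne_zero hs0 hd0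
      · intro p hp hdiv
        have h1 : p ^ 6 ∣ s * d := by exact_mod_cast hdiv
        have h2 : p ^ 6 ∣ s ^ 5 := h1.trans hdvd
        have h3 : 6 ≤ (s ^ 5).factorization p :=
          (hp.pow_dvd_iff_le_factorization (pow_ne_zero 5 hs0)).1 h2
        rw [Nat.factorization_pow] at h3
        have h4 : s.factorization p ≤ 1 := hs2.natFactorization_le_one p
        simp at h3
        omega
      · show ∏ p ∈ (((s * d : ℕ) : ℤ)).natAbs.primeFactors, p ≤ R
        rw [Int.natAbs_natCast, U6_pf hs2 hd', Nat.prod_primeFactors_of_squarefree hs2]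
        exact hsR
    · rintro ⟨s, d⟩ hq ⟨s', d'⟩ hq' heq
      have h1 : (s ∈ (Finset.Icc 1 R).filter Squarefree) ∧ d ∈ (s ^ 4).divisors := by
        have := Finset.mem_coe.1 hq
        rw [hT, Finset.mem_sigma] at this
        exact this
      have h2 : (s' ∈ (Finset.Icc 1 R).filter Squarefree) ∧ d' ∈ (s' ^ 4).divisors := by
        have := Finset.mem_coe.1 hq'
        rw [hT, Finset.mem_sigma] at this
        exact this
      have hs := (Finset.mem_filter.1 h1.1).2
      have hs' := (Finset.mem_filter.1 h2.1).2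
      have hd := (Nat.mem_divisors.1 h1.2).1
      have hd' := (Nat.mem_divisors.1 h2.2).1
      have heq' : s * d = s' * d' := by
        have : (((s * d : ℕ) : ℤ)) = ((s' * d' : ℕ) : ℤ) := heq
        exact_mod_cast this
      have hss : s = s' := by
        rw [← Nat.prod_primeFactors_of_squarefree hs, ← Nat.prod_primeFactors_of_squarefree hs',
          ← U6_pf hs hd, ← U6_pf hs' hd', heq']
      subst hss
      have hdd : d = d' := Nat.eq_of_mul_eq_mul_left (Nat.pos_of_ne_zero hs.ne_zero) heq'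
      subst hdd
      rfl
  exact_mod_cast hle

end RC91
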