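import Pool.Agent.LibRC91.Q7
import Pool.Agent.LibRC91.U5
import Pool.Agent.LibRC91.U6

/-!
# Interface of the counting block (architect: helper27)
-/
set_option autoImplicit false
namespace RC91

theorem QI_fin (A : ℤ) (hA : Squarefree A) (h1 : A ≠ 1) : (QA A).Finite :=
  Q7_fin A hA h1

/-- sumClasses -/
theorem QI_sum : ∃ C : ℝ, 0 < C ∧ ∀ T : ℕ, 1 ≤ T → ∀ S : Finset ℤ,
    (∀ A ∈ S, Squarefree A ∧ A ≠ 1 ∧ |A| ≤ T) →
    ∑ A ∈ S, ((QA A).ncard : ℝ) ≤ C * T * (1 + Real.log T) :=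
  ⟨20000, by norm_num, fun T hT S hS => Q7 T hT S hS⟩

/-- sumC -/
theorem QI_two (R : ℕ) (hR : 1 ≤ R) :
    ∑ c ∈ Finset.Icc 1 R, (2 : ℝ) ^ c.primeFactors.card / (c : ℝ) ≤ (1 + Real.log R) ^ 2 := by
  have h := QM_one 1 R hR
  refine le_trans (Finset.sum_le_sum fun c hc => ?_) (by simpa using h)
  have hc' := (Finset.mem_Icc.1 hc).1
  have h2 : (2 : ℝ) ^ c.primeFactors.card ≤ (c.divisors.card : ℝ) := by
    have := QT1_tau c hc'
    exact_mod_cast this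
  have h3 : (0 : ℝ) < c := by exact_mod_cast hc'
  gcongr

theorem QI_famfin (R : ℕ) : (Fam R).Finite := U6_fin R

/-- lowerBound -/
theorem QI_low : ∃ c : ℝ, 0 < c ∧ ∀ R : ℕ, 2 ≤ R →
    c * R * (Real.log R) ^ 4 ≤ ((Fam R).ncard : ℝ) := by
  obtain ⟨c, hc, h⟩ := U5
  exact ⟨c, hc, fun R hR => (h R hR).trans (U6 R)⟩

end RC91
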