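import Pool.Agent.LibRC91.M5
import Pool.Agent.LibRC91.M7
import Pool.Agent.LibRC91.M8
import Pool.Agent.LibRC91.M9
import Pool.Agent.LibRC91.QI

/-!
# [RC91 MI] interface of block M: elements all of whose valuations are divisible by 3
PLAN. `MI_one`: M7 gives `δ`, `z = g δ^3 ≠ 0`; M4_half: `2 z = u + w rho`; M5_cube: `z conj z = a^3`; M4_eq, M9_bd give the
equation and the bounds; `Prm` from M7 (last part), M8, M9_two.
`MI`: choose for every `g ∈ S` the data of `MI_one`. If `w_g = 0` then `z_g = c^3` (M4_zero), so `g = (c / δ)^3`: two such `g, g'` are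
`Eqv`, so there is at most one. If `w_g ≠ 0` the triple is in `QA A`, and it determines `z_g = (u + w rho) / 2`; `g δ^3 = g' δ'^3` gives
`g' = g (δ / δ')^3`, `Eqv`, so `g = g'`. So `S` minus at most one element injects into the finite set `QA A` (QI_fin):
`Set.ncard_le_ncard_of_injOn` / `Finset.card_le_card_of_injOn`.
-/
set_option autoImplicit false
open NumberField nonZeroDivisors IsDedekindDomain
namespace RC91

theorem MI_one {A : ℤ} {K : Type} [Field K] [NumberField K] (h : QF A K) (hA : Squarefree A)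
    (g : K) (hg : g ≠ 0) (hv : ∀ v : HeightOneSpectrum (𝓞 K), (3 : ℤ) ∣ vl v g) :
    ∃ (δ : K) (u w a : ℤ), δ ≠ 0 ∧ 2 * (g * δ ^ 3) = (u : K) + (w : K) * h.rho ∧
      (w = 0 → ∃ c : K, c ≠ 0 ∧ g * δ ^ 3 = c ^ 3) ∧ (w ≠ 0 → (u, w, a) ∈ QA A) := by
  have hA0 : A ≠ 0 := hA.ne_zero
  obtain ⟨δ, hδ, hint, hbd, h3, hmin⟩ := M7 h hA0 g hg hv
  have hz : g * δ ^ 3 ≠ 0 := mul_ne_zero hg (pow_ne_zero _ hδ)
  obtain ⟨u, w, huw⟩ := M4_half h hA _ hint
  obtain ⟨a, ha0, ha⟩ := M5_cube h _ hz hint h3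
  refine ⟨δ, u, w, a, hδ, huw, fun hw => M4_zero h _ hz u w a huw ha hw, fun hw => ?_⟩
  obtain ⟨hb1, hb2⟩ := M9_bd h hA0 _ hbd u w a huw ha
  refine ⟨hw, M4_eq h _ u w a huw ha, hb1, hb2, ?_, ?_⟩
  · intro p hp hp2 hpa hpw
    obtain ⟨v, hpv, hlt⟩ := hmin p hp
    exact M8 h hA _ hz p hp hp2 v hpv (h3 v) hlt u w a huw ha hw hpa hpw
  · intro h2a
    obtain ⟨v, hpv, hlt⟩ := hmin 2 Nat.prime_two
    exact M9_two h hA _ hz v hpv (h3 v) hlt u w a huw ha h2a

theorem MI {A : ℤ} {K : Type} [Field K] [NumberField K] (h : QF A K) (hA : Squarefree A)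
    (h1 : A ≠ 1) (S : Finset K) (h0 : ∀ g ∈ S, g ≠ 0)
    (hv : ∀ g ∈ S, ∀ v : HeightOneSpectrum (𝓞 K), (3 : ℤ) ∣ vl v g) (hI : Ineq (S : Set K)) :
    S.card ≤ 1 + (QA A).ncard := by
  classical
  have H : ∀ g : K, ∃ (δ : K) (u w a : ℤ), g ∈ S → (δ ≠ 0 ∧
      2 * (g * δ ^ 3) = (u : K) + (w : K) * h.rho ∧
      (w = 0 → ∃ c : K, c ≠ 0 ∧ g * δ ^ 3 = c ^ 3) ∧ (w ≠ 0 → (u, w, a) ∈ QA A)) := by
    intro g
    by_cases hg : g ∈ S
    · obtain ⟨δ, u, w, a, hh⟩ := MI_one h hA g (h0 g hg) (hv g hg)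
      exact ⟨δ, u, w, a, fun _ => hh⟩
    · exact ⟨0, 0, 0, 0, fun hh => absurd hh hg⟩
  choose δ u w a H using H
  have hfin : (QA A).Finite := QI_fin A hA h1
  have hne : ∀ g ∈ S, ∀ g' ∈ S, Eqv g g' → g = g' := by
    intro g hg g' hg' he
    by_contra hn
    exact hI g (Finset.mem_coe.2 hg) g' (Finset.mem_coe.2 hg') hn he
  have hS : S = S.filter (fun g => w g = 0) ∪ S.filter (fun g => ¬ (w g = 0)) :=
    (Finset.filter_union_filter_not_eq _ _).symm
  have c1 : (S.filter (fun g => w g = 0)).card ≤ 1 := by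
    rw [Finset.card_le_one]
    intro g hg g' hg'
    rw [Finset.mem_filter] at hg hg'
    obtain ⟨hd, -, hc, -⟩ := H g hg.1
    obtain ⟨hd', -, hc', -⟩ := H g' hg'.1
    obtain ⟨c, hc0, hc1⟩ := hc hg.2
    obtain ⟨c', hc0', hc1'⟩ := hc' hg'.2
    apply hne g hg.1 g' hg'.1
    refine ⟨c' / δ g' * (δ g / c), ?_, ?_⟩
    · exact mul_ne_zero (div_ne_zero hc0' hd') (div_ne_zero hd hc0)
    · have e1 : g = c ^ 3 / δ g ^ 3 := by
        rw [eq_div_iff (pow_ne_zero _ hd)]; exact hc1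
      have e2 : g' = c' ^ 3 / δ g' ^ 3 := by
        rw [eq_div_iff (pow_ne_zero _ hd')]; exact hc1'
      calc g' = c' ^ 3 / δ g' ^ 3 := e2
        _ = (c ^ 3 / δ g ^ 3) * (c' / δ g' * (δ g / c)) ^ 3 := by
            field_simp
        _ = g * (c' / δ g' * (δ g / c)) ^ 3 := by rw [← e1]
  have c2 : (S.filter (fun g => ¬ (w g = 0))).card ≤ (QA A).ncard := by
    rw [Set.ncard_eq_toFinset_card (QA A) hfin]
    refine Finset.card_le_card_of_injOn (fun g => (u g, w g, a g)) ?_ ?_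
    · intro g hg
      rw [Finset.mem_coe, Finset.mem_filter] at hg
      rw [Finset.mem_coe, Set.Finite.mem_toFinset]
      exact (H g hg.1).2.2.2 hg.2
    · intro g hg g' hg' hgg
      rw [Finset.mem_coe, Finset.mem_filter] at hg hg'
      simp only [Prod.mk.injEq] at hgg
      obtain ⟨hu, hw, -⟩ := hgg
      obtain ⟨hd, he, -, -⟩ := H g hg.1
      obtain ⟨hd', he', -, -⟩ := H g' hg'.1
      apply hne g hg.1 g' hg'.1
      have e3 : g * δ g ^ 3 = g' * δ g' ^ 3 := by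
        have e4 : 2 * (g * δ g ^ 3) = 2 * (g' * δ g' ^ 3) := by
          rw [he, he', hu, hw]
        exact mul_left_cancel₀ two_ne_zero e4
      refine ⟨δ g / δ g', div_ne_zero hd hd', ?_⟩
      rw [div_pow, ← mul_div_assoc, e3, mul_div_assoc, div_self (pow_ne_zero _ hd'), mul_one]
  calc S.card = (S.filter (fun g => w g = 0) ∪ S.filter (fun g => ¬ (w g = 0))).card := by
        rw [← hS]
    _ ≤ (S.filter (fun g => w g = 0)).card + (S.filter (fun g => ¬ (w g = 0))).card :=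
        Finset.card_union_le _ _
    _ ≤ 1 + (QA A).ncard := Nat.add_le_add c1 c2

end RC91
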