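import Pool.Agent.LibRC91.L1
import Pool.Agent.LibRC91.L2
import Pool.Agent.LibRC91.MI

/-!
# [RC91 C1] number of classes with given `(A, c)`
PLAN. Every `q = (x, y, m) ∈ S` gives `α_q = al h y m ≠ 0` (K2_alne), `q ↦ α_q` is injective on `S` (if
`α_q = α_q'` then `Eqv` with `g = 1`), and two different ones are not `Eqv`.
Let `Sp` be the finite set of primes over 2 or 3 (L0_count: at most 4) and for every `p ∈ c.primeFactors`
choose a prime `v_p` over `p` (L0_count: nonempty). Note `p ∣ c = cc A m x` iff `p > 3`, `p ∣ m`, `p ∤ A`, `p ∣ x` (`m ≠ 0`;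
`c` is a product of distinct primes). Data of `q`: the residues mod 3 of `vl v α_q`, `v ∈ Sp` (at most
`3^4 = 81` values), and for every `p ∣ c` the residue of `vl v_p α_q` mod 3, which is 1 or 2 (L2_ndvd)
(at most `2^ω(c)` values). If `q, q'` have the same data then `g = α_q / α_q'` (V1_mul) satisfies `3 ∣ vl v g` for
every `v`: `v ∈ Sp` clear; `v` over `p > 3` (V1_char) not dividing `c`: L1 for both (the hypothesis `hc` of L1 holds
because `p ∤ cc`); `v` over `p ∣ c`: `v = v_p` clear, `v ≠ v_p`: `vl v α ≡ - vl v_p α` (L2_sum) for both.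
So in a fibre of the data map, dividing by one fixed element gives a set as in `MI` (Ineq is preserved
by division): each fibre has at most `1 + #QA A` elements. `Finset.card_le_mul_card_image` / sum over the fibres.
-/
set_option autoImplicit false
open NumberField nonZeroDivisors IsDedekindDomain
namespace RC91

private theorem C1_mod {a b : ℤ} (h : ((a : ℤ) : ZMod 3) = ((b : ℤ) : ZMod 3)) : (3 : ℤ) ∣ a - b := by
  have h1 := (ZMod.intCast_eq_intCast_iff_dvd_sub a b 3).1 h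
  have h2 : ((3 : ℕ) : ℤ) = 3 := rfl
  rw [h2] at h1
  omega

private theorem C1_two {a b : ℤ} (ha : ¬ ((3 : ℤ) ∣ a)) (hb : ¬ ((3 : ℤ) ∣ b))
    (h : decide (((a : ℤ) : ZMod 3) = 1) = decide (((b : ℤ) : ZMod 3) = 1)) : (3 : ℤ) ∣ a - b := by
  have key : ∀ x : ℤ, ((x : ZMod 3) = 1 ↔ x % 3 = 1) := by
    intro x
    have h1 := ZMod.intCast_eq_intCast_iff_dvd_sub x 1 3
    rw [Int.cast_one] at h1
    rw [h1]
    have h2 : ((3 : ℕ) : ℤ) = 3 := rfl
    rw [h2]
    omega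
  rw [decide_eq_decide, key, key] at h
  omega

private theorem C1_cc {A m x : ℤ} {p : ℕ} (hp : p.Prime) (hm : m ≠ 0) :
    p ∣ cc A m x ↔ ((p : ℤ) ∣ m ∧ 3 < p ∧ ¬ ((p : ℤ) ∣ A) ∧ (p : ℤ) ∣ x) := by
  unfold cc
  rw [hp.prime.dvd_finsetProd_iff]
  constructor
  · rintro ⟨q, hq, hpq⟩
    rw [Finset.mem_filter, Nat.mem_primeFactors] at hq
    obtain ⟨⟨hq1, hq2, -⟩, hq3, hq4, hq5⟩ := hq
    have hpq' : p = q := (Nat.prime_dvd_prime_iff_eq hp hq1).1 hpq
    subst hpq'
    exact ⟨Int.natCast_dvd.2 hq2, hq3, hq4, hq5⟩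
  · rintro ⟨h1, h2, h3, h4⟩
    refine ⟨p, ?_, dvd_rfl⟩
    rw [Finset.mem_filter, Nat.mem_primeFactors]
    exact ⟨⟨hp, Int.natCast_dvd.1 h1, Int.natAbs_ne_zero.2 hm⟩, h2, h3, h4⟩

private theorem C1_cc0 (A m x : ℤ) : cc A m x ≠ 0 := by
  unfold cc
  refine Finset.prod_ne_zero_iff.2 fun p hp => ?_
  rw [Finset.mem_filter, Nat.mem_primeFactors] at hp
  exact hp.1.1.ne_zero

theorem C1 {A : ℤ} {K : Type} [Field K] [NumberField K] (h : QF A K) (hA : Squarefree A)
    (h1 : A ≠ 1) (c : ℕ) (S : Finset (ℤ × ℤ × ℤ))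
    (hS : ∀ q ∈ S, q.1 ≠ 0 ∧ q.2.2 ≠ 0 ∧ q.2.1 ^ 2 - A * q.2.2 ^ 2 = q.1 ^ 3 ∧
      (∀ p : ℕ, p.Prime → ¬ ((p : ℤ) ^ 6 ∣ A * q.2.2 ^ 2)) ∧ cc A q.2.2 q.1 = c)
    (hI : ∀ q ∈ S, ∀ q' ∈ S, q ≠ q' → ¬ Eqv (al h q.2.1 q.2.2) (al h q'.2.1 q'.2.2)) :
    S.card ≤ 81 * 2 ^ c.primeFactors.card * (1 + (QA A).ncard) := by
  classical
  obtain ⟨α, hα⟩ : ∃ α : ℤ × ℤ × ℤ → K, α = fun q => al h q.2.1 q.2.2 := ⟨_, rfl⟩
  have hα0 : ∀ q ∈ S, α q ≠ 0 := by
    intro q hq
    obtain ⟨a1, a2, a3, -, -⟩ := hS q hq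
    rw [hα]
    exact K2_alne h q.1 q.2.1 q.2.2 a1 a3
  have hex : ∀ p : ℕ, ∃ v : HeightOneSpectrum (𝓞 K), p.Prime → (p : 𝓞 K) ∈ v.asIdeal := by
    intro p
    by_cases hp : p.Prime
    · obtain ⟨v, hv⟩ := (L0_count h p hp).2.2
      exact ⟨v, fun _ => hv⟩
    · obtain ⟨v, -⟩ := (L0_count h 2 Nat.prime_two).2.2
      exact ⟨v, fun h => absurd h hp⟩
  choose vp hvp using hex
  obtain ⟨Sp, hSp⟩ : ∃ Sp : Finset (HeightOneSpectrum (𝓞 K)), Sp =
    (L0_count h 2 Nat.prime_two).1.toFinset ∪ (L0_count h 3 Nat.prime_three).1.toFinset := ⟨_, rfl⟩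
  have hSp4 : Sp.card ≤ 4 := by
    rw [hSp]
    refine (Finset.card_union_le _ _).trans ?_
    have h2 := (L0_count h 2 Nat.prime_two).2.1
    have h3 := (L0_count h 3 Nat.prime_three).2.1
    rw [Set.ncard_eq_toFinset_card _ (L0_count h 2 Nat.prime_two).1] at h2
    rw [Set.ncard_eq_toFinset_card _ (L0_count h 3 Nat.prime_three).1] at h3
    omega
  obtain ⟨D, hD⟩ : ∃ D : ℤ × ℤ × ℤ → ({v // v ∈ Sp} → ZMod 3) × ({p // p ∈ c.primeFactors} → Bool),
    D = fun q => (fun v => ((vl v.1 (α q) : ℤ) : ZMod 3),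
      fun p => decide (((vl (vp p.1) (α q) : ℤ) : ZMod 3) = 1)) := ⟨_, rfl⟩
  have hdiff : ∀ q ∈ S, ∀ q' ∈ S, D q = D q' → ∀ v : HeightOneSpectrum (𝓞 K),
      (3 : ℤ) ∣ vl v (α q) - vl v (α q') := by
    intro q hq q' hq' hDq v
    obtain ⟨x1, x2, x3, x4, x5⟩ := hS q hq
    obtain ⟨y1, y2, y3, y4, y5⟩ := hS q' hq'
    rw [hD] at hDq
    have hD1 := congrArg Prod.fst hDq
    have hD2 := congrArg Prod.snd hDq
    obtain ⟨p, hp, hpv⟩ := V1_char v
    have hpm : (p : 𝓞 K) ∈ v.asIdeal := by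
      have := (hpv (p : ℤ)).2 dvd_rfl
      rwa [Int.cast_natCast] at this
    by_cases hp3 : p ≤ 3
    · have hvS : v ∈ Sp := by
        rw [hSp, Finset.mem_union, Set.Finite.mem_toFinset, Set.Finite.mem_toFinset]
        have h2 := hp.two_le
        have h23 : p = 2 ∨ p = 3 := by omega
        rcases h23 with h | h
        · left
          rw [h] at hpm
          exact hpm
        · right
          rw [h] at hpm
          exact hpm
      exact C1_mod (congrFun hD1 ⟨v, hvS⟩)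
    · push Not at hp3
      by_cases hpc : p ∣ c
      · have hc0 : c ≠ 0 := by
          rw [← x5]
          exact C1_cc0 _ _ _
        have hpc' : p ∈ c.primeFactors := Nat.mem_primeFactors.2 ⟨hp, hpc, hc0⟩
        obtain ⟨u1, -, u2, u3⟩ := (C1_cc hp x2).1 (x5 ▸ hpc)
        obtain ⟨w1, -, w2, w3⟩ := (C1_cc hp y2).1 (y5 ▸ hpc)
        have n1 := L2_ndvd h hA (vp p) p hp hp3 (hvp p hp) q.1 q.2.1 q.2.2 x1 x2 x3
          (x4 p hp) u1 u2 u3
        have n2 := L2_ndvd h hA (vp p) p hp hp3 (hvp p hp) q'.1 q'.2.1 q'.2.2 y1 y2 y3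
          (y4 p hp) w1 w2 w3
        have hdv : (3 : ℤ) ∣ vl (vp p) (al h q.2.1 q.2.2) - vl (vp p) (al h q'.2.1 q'.2.2) := by
          refine C1_two n1 n2 ?_
          have h5 := congrFun hD2 ⟨p, hpc'⟩
          rw [hα] at h5
          exact h5
        rw [hα]
        by_cases hvv : v = vp p
        · rw [hvv]
          exact hdv
        · have s1 := L2_sum h (vp p) v p hp (hvp p hp) hpm hvv q.1 q.2.1 q.2.2 x1 x3
          have s2 := L2_sum h (vp p) v p hp (hvp p hp) hpm hvv q'.1 q'.2.1 q'.2.2 y1 y3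
          show (3 : ℤ) ∣ vl v (al h q.2.1 q.2.2) - vl v (al h q'.2.1 q'.2.2)
          omega
      · have l1 : (3 : ℤ) ∣ vl v (al h q.2.1 q.2.2) := by
          refine L1 h hA v p hp hp3 hpm q.1 q.2.1 q.2.2 x1 x2 x3 ?_
          by_contra hcon
          push Not at hcon
          exact hpc (x5 ▸ (C1_cc hp x2).2 ⟨hcon.2.2, hp3, hcon.2.1, hcon.1⟩)
        have l2 : (3 : ℤ) ∣ vl v (al h q'.2.1 q'.2.2) := by
          refine L1 h hA v p hp hp3 hpm q'.1 q'.2.1 q'.2.2 y1 y2 y3 ?_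
          by_contra hcon
          push Not at hcon
          exact hpc (y5 ▸ (C1_cc hp y2).2 ⟨hcon.2.2, hp3, hcon.2.1, hcon.1⟩)
        rw [hα]
        exact dvd_sub l1 l2
  have hfib : ∀ b ∈ (Finset.univ : Finset (({v // v ∈ Sp} → ZMod 3) × ({p // p ∈ c.primeFactors} → Bool))),
      (S.filter fun q => D q = b).card ≤ 1 + (QA A).ncard := by
    intro b _
    rcases (S.filter fun q => D q = b).eq_empty_or_nonempty with he | ⟨q₀, hq₀⟩
    · rw [he, Finset.card_empty]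
      exact Nat.zero_le _
    · obtain ⟨hq₀S, hq₀b⟩ := Finset.mem_filter.1 hq₀
      have ha0 := hα0 q₀ hq₀S
      have hinj : Set.InjOn (fun q => α q / α q₀) (S.filter fun q => D q = b : Finset (ℤ × ℤ × ℤ)) := by
        intro q hq q' hq' hqq
        have hqS := (Finset.mem_filter.1 (Finset.mem_coe.1 hq)).1
        have hqS' := (Finset.mem_filter.1 (Finset.mem_coe.1 hq')).1
        by_contra hne
        have h5 : α q = α q' := (div_left_inj' ha0).1 hqq
        rw [hα] at h5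
        refine hI q hqS q' hqS' hne ⟨1, one_ne_zero, ?_⟩
        rw [one_pow, mul_one]
        exact h5.symm
      rw [← Finset.card_image_of_injOn hinj]
      refine MI h hA h1 _ ?_ ?_ ?_
      · intro g hg
        obtain ⟨q, hq, rfl⟩ := Finset.mem_image.1 hg
        exact div_ne_zero (hα0 q (Finset.mem_filter.1 hq).1) ha0
      · intro g hg v
        obtain ⟨q, hq, rfl⟩ := Finset.mem_image.1 hg
        obtain ⟨hqS, hqb⟩ := Finset.mem_filter.1 hq
        have h5 := V1_mul v (α q / α q₀) (α q₀) (div_ne_zero (hα0 q hqS) ha0) ha0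
        rw [div_mul_cancel₀ _ ha0] at h5
        have h6 := hdiff q hqS q₀ hq₀S (hqb.trans hq₀b.symm) v
        rw [h5, add_sub_cancel_right] at h6
        exact h6
      · intro a ha b' hb' hab hE
        obtain ⟨q, hq, rfl⟩ := Finset.mem_image.1 (Finset.mem_coe.1 ha)
        obtain ⟨q', hq', rfl⟩ := Finset.mem_image.1 (Finset.mem_coe.1 hb')
        have hne : q ≠ q' := by
          rintro rfl
          exact hab rfl
        refine hI q (Finset.mem_filter.1 hq).1 q' (Finset.mem_filter.1 hq').1 hne ?_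
        obtain ⟨g, hg, hgg⟩ := hE
        refine ⟨g, hg, ?_⟩
        have h5 : α q' = α q * g ^ 3 := by
          have h6 : α q' / α q₀ = α q / α q₀ * g ^ 3 := hgg
          field_simp at h6
          exact h6
        rw [hα] at h5
        exact h5
  have hmain := Finset.card_le_mul_card_image_of_maps_to (f := D) (s := S) (t := Finset.univ)
    (fun q _ => Finset.mem_univ _) (1 + (QA A).ncard) hfib
  refine hmain.trans ?_
  rw [Finset.card_univ, Fintype.card_prod, Fintype.card_fun, Fintype.card_fun, ZMod.card, Fintype.card_bool,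
    Fintype.card_coe, Fintype.card_coe, mul_comm]
  refine Nat.mul_le_mul_right _ (Nat.mul_le_mul_right _ ?_)
  calc 3 ^ Sp.card ≤ 3 ^ 4 := Nat.pow_le_pow_right (by norm_num) hSp4
    _ = 81 := by norm_num

end RC91
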