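import Pool.Agent.LibRC91.Defs

/-!
# [RC91 K1] existence of the quadratic field
PLAN: `A` square free and `≠ 1` is not the square of a rational (an integer which is the square of a rational is
the square of an integer `t`, `t^2 ∣ A` square free gives `t` a unit, `A = 1`; `A = 0` is not square free).
Take for instance `K = QuadraticAlgebra ℚ (A : ℚ) 0` (Mathlib/Algebra/QuadraticAlgebra: field instance under a
`Fact`, `star` is the conjugation, `finrank = 2`, careful with the two `ℚ`-algebra structures) or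
`AdjoinRoot (X^2 - C (A : ℚ))`. The embedding sends `rho` to a complex square root of `A`.
Any complex embedding is allowed.
-/
set_option autoImplicit false
open NumberField
namespace RC91

private theorem K1_nsq (A : ℤ) (hA : Squarefree A) (h1 : A ≠ 1) (r : ℚ) : r ^ 2 ≠ (A : ℚ) + 0 * r := by
  intro h
  rw [zero_mul, add_zero] at h
  have hr : IsIntegral ℤ r := by
    refine IsIntegral.of_pow (n := 2) (by norm_num) ?_
    rw [h]
    exact isIntegral_algebraMap (R := ℤ) (A := ℚ) (x := A)
  obtain ⟨t, ht⟩ := IsIntegrallyClosed.isIntegral_iff.1 hr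
  have ht' : (t : ℚ) = r := by simpa using ht
  rw [← ht'] at h
  have h2 : t ^ 2 = A := by exact_mod_cast h
  have h3 : t * t ∣ A := by rw [← h2, sq]
  have h4 := hA t h3
  rcases Int.isUnit_iff.1 h4 with h5 | h5
  · apply h1; rw [← h2, h5]; norm_num
  · apply h1; rw [← h2, h5]; norm_num

theorem K1 (A : ℤ) (hA : Squarefree A) (h1 : A ≠ 1) :
    ∃ (K : Type) (_ : Field K) (_ : NumberField K), Nonempty (QF A K) := by
  haveI : Fact (∀ r : ℚ, r ^ 2 ≠ (A : ℚ) + 0 * r) := ⟨K1_nsq A hA h1⟩
  haveI hcz : CharZero (QuadraticAlgebra ℚ (A : ℚ) 0) :=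
    charZero_of_injective_algebraMap (R := ℚ)
      (QuadraticAlgebra.algebraMap_injective (R := ℚ) (a := (A : ℚ)) (b := 0))
  have halg : (DivisionRing.toRatAlgebra : Algebra ℚ (QuadraticAlgebra ℚ (A : ℚ) 0)) =
      (inferInstance : Algebra ℚ (QuadraticAlgebra ℚ (A : ℚ) 0)) := Subsingleton.elim _ _
  obtain ⟨w, hw⟩ : ∃ w : ℂ, w ^ 2 = (A : ℂ) := IsAlgClosed.exists_pow_nat_eq (A : ℂ) (by norm_num)
  have hfin : Module.finrank ℚ (QuadraticAlgebra ℚ (A : ℚ) 0) = 2 :=
    QuadraticAlgebra.finrank_eq_two (A : ℚ) 0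
  have hfd : FiniteDimensional ℚ (QuadraticAlgebra ℚ (A : ℚ) 0) := by
    infer_instance
  have hrat : ∀ q : ℚ, (q : QuadraticAlgebra ℚ (A : ℚ) 0) = ⟨q, 0⟩ := fun q => rfl
  haveI hnf : NumberField (QuadraticAlgebra ℚ (A : ℚ) 0) :=
    { to_charZero := hcz
      to_finiteDimensional := by
        rw [halg]
        exact hfd }
  refine ⟨QuadraticAlgebra ℚ (A : ℚ) 0, inferInstance, hnf, ⟨?_⟩⟩
  refine
      { rho := ⟨0, 1⟩
        sq := ?_
        conj := starRingEnd _
        conj_rho := ?_
        span := ?_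
        rank := ?_
        emb := (QuadraticAlgebra.lift (R := ℚ) (A := ℂ) (a := (A : ℚ)) (b := 0)
          ⟨w, by
            rw [← sq, hw]
            simp⟩).toRingHom }
  · rw [sq]
    ext
    · simp
    · simp
  · rw [starRingEnd_apply]
    ext
    · simp
    · simp
  · intro z
    refine ⟨z.re, z.im, ?_⟩
    rw [hrat, hrat]
    ext
    · simp
    · simp
  · rw [halg]
    exact hfin

end RC91
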