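import Pool.Agent.LibRC91.Defs

/-!
# [RC91 F1] elementary facts on the family
PLAN. `F1_rad`: the primes of `A` (square free, so `|A| = ∏ p ∈ primeFactors |A|, p`) and the primes counted in
`cc A m x` are disjoint sets of prime factors of `A m^2`. `F1_dec`: for `n = |k|` Mathlib `Nat.sq_mul_squarefree`
(`n = b^2 * a`, `a` square free), `A = sign k * a`, `m = b`. `F1_size`: every exponent of `|k|` is `≤ 5`, so
`|k| = ∏ p^(v_p) ≤ (∏ p)^5 ≤ R^5`. `F1_uniq`: if `A m^2 = A' m'^2` with `A, A'` square free and nonzero `m, m'` then `A = A'` and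
`|m| = |m'|` (parity of the valuations).
`F1_few`: `k = A m^2 ∈ Fam R` with fixed `A`: inject `k ↦ (a2, a4, a3, a5)` with `a_i = ∏_{v_p(k) = i} p`: `a3, a5 ∣ A`,
`a2 a4 ≤ R`; number of pairs with `a2 a4 ≤ R` is `≤ R (1 + log R)`; number of `(a3, a5)` is `≤ τ(|A|)^2`; and `k` is
`sign A * ∏ p^(v_p)`, determined by the data (`a1 = |A|/(a3 a5)`).
-/
set_option autoImplicit false
namespace RC91

theorem F1_rad (A m x : ℤ) (hA : Squarefree A) (hm : m ≠ 0) :
    A.natAbs * cc A m x ≤ ∏ p ∈ (A * m ^ 2).natAbs.primeFactors, p := by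
  have hA0 : A ≠ 0 := hA.ne_zero
  have hk0 : A * m ^ 2 ≠ 0 := mul_ne_zero hA0 (pow_ne_zero _ hm)
  have h1 : ∏ p ∈ A.natAbs.primeFactors, p = A.natAbs :=
    Nat.prod_primeFactors_of_squarefree (Int.squarefree_natAbs.mpr hA)
  unfold cc
  nth_rewrite 1 [← h1]
  have hdisj : Disjoint A.natAbs.primeFactors
      (m.natAbs.primeFactors.filter (fun p : ℕ => 3 < p ∧ ¬ ((p : ℤ) ∣ A) ∧ (p : ℤ) ∣ x)) := by
    rw [Finset.disjoint_left]
    intro p hp hq
    have h2 := Nat.dvd_of_mem_primeFactors hp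
    have h3 := (Finset.mem_filter.mp hq).2.2.1
    exact h3 (Int.natCast_dvd.mpr h2)
  rw [← Finset.prod_union hdisj]
  refine Nat.le_of_dvd (Finset.prod_pos fun p hp => (Nat.prime_of_mem_primeFactors hp).pos) ?_
  apply Finset.prod_dvd_prod_of_subset
  intro p hp
  rw [Nat.mem_primeFactors]
  rcases Finset.mem_union.mp hp with h | h
  · refine ⟨Nat.prime_of_mem_primeFactors h, ?_, Int.natAbs_ne_zero.mpr hk0⟩
    rw [Int.natAbs_mul]
    exact Dvd.dvd.mul_right (Nat.dvd_of_mem_primeFactors h) _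
  · have h' := (Finset.mem_filter.mp h).1
    refine ⟨Nat.prime_of_mem_primeFactors h', ?_, Int.natAbs_ne_zero.mpr hk0⟩
    rw [Int.natAbs_mul, Int.natAbs_pow]
    exact Dvd.dvd.mul_left (Dvd.dvd.trans (Nat.dvd_of_mem_primeFactors h')
      (dvd_pow_self _ two_ne_zero)) _

theorem F1_ccpos (A m x : ℤ) : 1 ≤ cc A m x := by
  unfold cc
  exact Finset.prod_pos fun p hp =>
    (Nat.prime_of_mem_primeFactors (Finset.mem_filter.mp hp).1).pos

theorem F1_dec (k : ℤ) (hk : k ≠ 0) : ∃ A m : ℤ, Squarefree A ∧ 0 < m ∧ k = A * m ^ 2 := by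
  obtain ⟨a, b, ha, hb, hab, hsq⟩ := Nat.sq_mul_squarefree_of_pos (Int.natAbs_pos.mpr hk)
  rcases Int.natAbs_eq k with h | h
  · refine ⟨a, b, Int.squarefree_natCast.mpr hsq, by exact_mod_cast hb, ?_⟩
    rw [h, ← hab]
    push_cast
    ring
  · refine ⟨-a, b, ?_, by exact_mod_cast hb, ?_⟩
    · rw [← Int.squarefree_natAbs, Int.natAbs_neg, Int.natAbs_natCast]
      exact hsq
    · rw [h, ← hab]
      push_cast
      ring

theorem F1_uniq (A A' m m' : ℤ) (hA : Squarefree A) (hA' : Squarefree A') (hm : 0 < m)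
    (hm' : 0 < m') (e : A * m ^ 2 = A' * m' ^ 2) : A = A' ∧ m = m' := by
  have hg0 : 0 < Int.gcd m m' := Int.gcd_pos_of_ne_zero_left _ hm.ne'
  obtain ⟨u, v, hc, hu, hv⟩ := Int.exists_gcd_one (m := m) (n := m') hg0
  have hgz : (0 : ℤ) < (Int.gcd m m' : ℤ) := by exact_mod_cast hg0
  set G : ℤ := (Int.gcd m m' : ℤ) with hG
  have hcop : IsCoprime u v := Int.isCoprime_iff_gcd_eq_one.mpr hc
  have e2 : A * u ^ 2 = A' * v ^ 2 := by
    have h1 : G ^ 2 * (A * u ^ 2) = G ^ 2 * (A' * v ^ 2) := by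
      calc G ^ 2 * (A * u ^ 2) = A * (u * G) ^ 2 := by ring
        _ = A' * (v * G) ^ 2 := by rw [← hu, ← hv, e]
        _ = G ^ 2 * (A' * v ^ 2) := by ring
    exact mul_left_cancel₀ (pow_ne_zero 2 hgz.ne') h1
  have hup : 0 < u := by
    rw [hu] at hm
    exact pos_of_mul_pos_left hm hgz.le
  have hvp : 0 < v := by
    rw [hv] at hm'
    exact pos_of_mul_pos_left hm' hgz.le
  have hv1 : v = 1 := by
    have h2 : v ^ 2 ∣ A := by
      have h3 : v ^ 2 ∣ A * u ^ 2 := ⟨A', by rw [e2]; ring⟩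
      exact (IsCoprime.pow hcop.symm : IsCoprime (v ^ 2) (u ^ 2)).dvd_of_dvd_mul_right h3
    have h4 := hA v (by rwa [← sq])
    rcases Int.isUnit_iff.mp h4 with h | h
    · exact h
    · omega
  have hu1 : u = 1 := by
    have h2 : u ^ 2 ∣ A' := by
      have h3 : u ^ 2 ∣ A' * v ^ 2 := ⟨A, by rw [← e2]; ring⟩
      exact (IsCoprime.pow hcop : IsCoprime (u ^ 2) (v ^ 2)).dvd_of_dvd_mul_right h3
    have h4 := hA' u (by rwa [← sq])
    rcases Int.isUnit_iff.mp h4 with h | h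
    · exact h
    · omega
  rw [hu1, hv1] at e2
  refine ⟨by linarith, ?_⟩
  rw [hu, hv, hu1, hv1]

theorem F1_size (R : ℕ) (k : ℤ) (hk : k ∈ Fam R) : |k| ≤ (R : ℤ) ^ 5 := by
  obtain ⟨hk0, h6, hR⟩ := hk
  have hn0 : k.natAbs ≠ 0 := Int.natAbs_ne_zero.mpr hk0
  have h1 : k.natAbs ≤ R ^ 5 := by
    calc k.natAbs = ∏ p ∈ k.natAbs.primeFactors, p ^ (k.natAbs.factorization p) :=
          (Nat.prod_factorization_pow_eq_self hn0).symm
      _ ≤ ∏ p ∈ k.natAbs.primeFactors, p ^ 5 := by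
          apply Finset.prod_le_prod'
          intro p hp
          have hpp := Nat.prime_of_mem_primeFactors hp
          apply Nat.pow_le_pow_right hpp.pos
          by_contra h5
          apply h6 p hpp
          have h7 : p ^ 6 ∣ k.natAbs := by
            rw [hpp.pow_dvd_iff_le_factorization hn0]
            omega
          have h8 : ((p ^ 6 : ℕ) : ℤ) ∣ k := Int.natCast_dvd.mpr h7
          exact_mod_cast h8
      _ = (∏ p ∈ k.natAbs.primeFactors, p) ^ 5 := Finset.prod_pow _ _ _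
      _ ≤ R ^ 5 := Nat.pow_le_pow_left hR 5
  rw [Int.abs_eq_natAbs]
  exact_mod_cast h1

/-- pairs with product at most `R` -/
private theorem F1_pairs (R : ℕ) :
    (((Finset.Icc 1 R).sigma (fun e => Finset.Icc 1 (R / e))).card : ℝ) ≤
      R * (1 + Real.log R) := by
  rw [Finset.card_sigma]
  push_cast
  have h1 : ∀ e ∈ Finset.Icc 1 R, (((Finset.Icc 1 (R / e)).card : ℕ) : ℝ) ≤ R * ((e : ℝ))⁻¹ := by
    intro e he
    rw [Nat.card_Icc, Nat.add_sub_cancel, ← div_eq_mul_inv]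
    exact Nat.cast_div_le
  refine (Finset.sum_le_sum h1).trans ?_
  rw [← Finset.mul_sum]
  have h2 := harmonic_le_one_add_log R
  rw [harmonic_eq_sum_Icc] at h2
  push_cast at h2
  gcongr

private theorem F1_split (n : ℕ) (hn : n ≠ 0) (P : ℕ → Prop) [DecidablePred P]
    (h2 : ∀ p, p.Prime → n.factorization p ≤ 2) :
    n = (∏ p ∈ n.primeFactors.filter (fun p => n.factorization p = 1 ∧ P p), p) *
      (∏ p ∈ n.primeFactors.filter (fun p => n.factorization p = 1 ∧ ¬ P p), p) *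
      ((∏ p ∈ n.primeFactors.filter (fun p => n.factorization p = 2 ∧ P p), p) *
      (∏ p ∈ n.primeFactors.filter (fun p => n.factorization p = 2 ∧ ¬ P p), p)) ^ 2 := by
  rw [Finset.prod_filter, Finset.prod_filter, Finset.prod_filter, Finset.prod_filter,
    ← Finset.prod_mul_distrib, ← Finset.prod_mul_distrib, ← Finset.prod_pow,
    ← Finset.prod_mul_distrib]
  conv_lhs => rw [← Nat.prod_factorization_pow_eq_self hn]
  refine Finset.prod_congr rfl fun p hp => ?_
  have hpp := Nat.prime_of_mem_primeFactors hp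
  have h3 := h2 p hpp
  have h4 : n.factorization p ≠ 0 :=
    (hpp.factorization_pos_of_dvd hn (Nat.dvd_of_mem_primeFactors hp)).ne'
  have h5 : n.factorization p = 1 ∨ n.factorization p = 2 := by omega
  by_cases hP : P p
  · rcases h5 with h | h <;> simp [h, hP]
  · rcases h5 with h | h <;> simp [h, hP]

theorem F1_few (A : ℤ) (hA : Squarefree A) (R : ℕ) (hR : 1 ≤ R) :
    {k : ℤ | k ∈ Fam R ∧ ∃ m : ℤ, k = A * m ^ 2}.Finite ∧
    ({k : ℤ | k ∈ Fam R ∧ ∃ m : ℤ, k = A * m ^ 2}.ncard : ℝ) ≤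
      ((A.natAbs.divisors.card : ℝ)) ^ 2 * R * (1 + Real.log R) := by
  classical
  set F : Finset ((ℕ × ℕ) × (Σ _ : ℕ, ℕ)) :=
    (A.natAbs.divisors ×ˢ A.natAbs.divisors) ×ˢ
      ((Finset.Icc 1 R).sigma (fun e => Finset.Icc 1 (R / e))) with hF
  set f : (ℕ × ℕ) × (Σ _ : ℕ, ℕ) → ℤ := fun q =>
    A * (((q.1.1 * q.2.1 * (q.1.2 * q.2.2) ^ 2 : ℕ) : ℤ)) ^ 2 with hf
  have hA0 : A ≠ 0 := hA.ne_zero
  have hA1 : ∏ p ∈ A.natAbs.primeFactors, p = A.natAbs :=
    Nat.prod_primeFactors_of_squarefree (Int.squarefree_natAbs.mpr hA)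
  have hsub : {k : ℤ | k ∈ Fam R ∧ ∃ m : ℤ, k = A * m ^ 2} ⊆ ((F.image f : Finset ℤ) : Set ℤ) := by
    rintro k ⟨⟨hk0, h6, hkR⟩, m, hkm⟩
    have hm0 : m ≠ 0 := by
      rintro rfl
      apply hk0
      rw [hkm]
      ring
    have hn0 : m.natAbs ≠ 0 := Int.natAbs_ne_zero.mpr hm0
    have h2 : ∀ p, p.Prime → m.natAbs.factorization p ≤ 2 := by
      intro p hp
      by_contra h3
      apply h6 p hp
      have h7 : p ^ 3 ∣ m.natAbs := by
        rw [hp.pow_dvd_iff_le_factorization hn0]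
        omega
      have h8 : ((p ^ 3 : ℕ) : ℤ) ∣ m := Int.natCast_dvd.mpr h7
      rw [hkm]
      apply Dvd.dvd.mul_left
      have h9 := pow_dvd_pow_of_dvd h8 2
      rw [← Nat.cast_pow, ← pow_mul] at h9
      exact_mod_cast h9
    have hsp := F1_split m.natAbs hn0 (fun p => (p : ℤ) ∣ A) h2
    set d1 := ∏ p ∈ m.natAbs.primeFactors.filter
      (fun p => m.natAbs.factorization p = 1 ∧ (p : ℤ) ∣ A), p with hd1
    set e1 := ∏ p ∈ m.natAbs.primeFactors.filter
      (fun p => m.natAbs.factorization p = 1 ∧ ¬ (p : ℤ) ∣ A), p with he1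
    set d2 := ∏ p ∈ m.natAbs.primeFactors.filter
      (fun p => m.natAbs.factorization p = 2 ∧ (p : ℤ) ∣ A), p with hd2
    set e2 := ∏ p ∈ m.natAbs.primeFactors.filter
      (fun p => m.natAbs.factorization p = 2 ∧ ¬ (p : ℤ) ∣ A), p with he2
    have hpos : ∀ (S : Finset ℕ), S ⊆ m.natAbs.primeFactors → 0 < ∏ p ∈ S, p := fun S hS =>
      Finset.prod_pos fun p hp => (Nat.prime_of_mem_primeFactors (hS hp)).pos
    have hdiv : ∀ (S : Finset ℕ), S ⊆ m.natAbs.primeFactors → (∀ p ∈ S, (p : ℤ) ∣ A) →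
        ∏ p ∈ S, p ∈ A.natAbs.divisors := by
      intro S hS hSA
      rw [Nat.mem_divisors]
      refine ⟨?_, Int.natAbs_ne_zero.mpr hA0⟩
      rw [← hA1]
      apply Finset.prod_dvd_prod_of_subset
      intro p hp
      rw [Nat.mem_primeFactors]
      exact ⟨Nat.prime_of_mem_primeFactors (hS hp), Int.natCast_dvd.mp (hSA p hp),
        Int.natAbs_ne_zero.mpr hA0⟩
    have hd1A : d1 ∈ A.natAbs.divisors := hdiv _ (Finset.filter_subset _ _)
      (fun p hp => (Finset.mem_filter.mp hp).2.2)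
    have hd2A : d2 ∈ A.natAbs.divisors := hdiv _ (Finset.filter_subset _ _)
      (fun p hp => (Finset.mem_filter.mp hp).2.2)
    have he1p : 0 < e1 := hpos _ (Finset.filter_subset _ _)
    have he2p : 0 < e2 := hpos _ (Finset.filter_subset _ _)
    have heR : e1 * e2 ≤ R := by
      refine le_trans ?_ hkR
      refine Nat.le_of_dvd
        (Finset.prod_pos fun p hp => (Nat.prime_of_mem_primeFactors hp).pos) ?_
      rw [he1, he2, ← Finset.prod_union]
      · apply Finset.prod_dvd_prod_of_subset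
        intro p hp
        have hp' : p ∈ m.natAbs.primeFactors := by
          rcases Finset.mem_union.mp hp with h | h
          · exact (Finset.mem_filter.mp h).1
          · exact (Finset.mem_filter.mp h).1
        rw [Nat.mem_primeFactors]
        refine ⟨Nat.prime_of_mem_primeFactors hp', ?_, Int.natAbs_ne_zero.mpr hk0⟩
        rw [hkm, Int.natAbs_mul, Int.natAbs_pow]
        exact Dvd.dvd.mul_left (Dvd.dvd.trans (Nat.dvd_of_mem_primeFactors hp')
          (dvd_pow_self _ two_ne_zero)) _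
      · rw [Finset.disjoint_left]
        intro p h1 h2
        have h3 := (Finset.mem_filter.mp h1).2.1
        have h4 := (Finset.mem_filter.mp h2).2.1
        omega
    have he1R : e1 ≤ R := le_trans (Nat.le_mul_of_pos_right _ he2p) heR
    rw [Finset.coe_image, Set.mem_image]
    refine ⟨((d1, d2), ⟨e1, e2⟩), ?_, ?_⟩
    · rw [Finset.mem_coe, hF, Finset.mem_product, Finset.mem_product, Finset.mem_sigma,
        Finset.mem_Icc, Finset.mem_Icc]
      refine ⟨⟨hd1A, hd2A⟩, ⟨he1p, he1R⟩, he2p, ?_⟩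
      rw [Nat.le_div_iff_mul_le he1p, mul_comm]
      exact heR
    · rw [hf]
      change A * (((d1 * e1 * (d2 * e2) ^ 2 : ℕ) : ℤ)) ^ 2 = k
      rw [← hsp, hkm, Int.natCast_natAbs, sq_abs]
  refine ⟨(Finset.finite_toSet _).subset hsub, ?_⟩
  have h1 : {k : ℤ | k ∈ Fam R ∧ ∃ m : ℤ, k = A * m ^ 2}.ncard ≤ F.card := by
    refine (Set.ncard_le_ncard hsub (Finset.finite_toSet _)).trans ?_
    rw [Set.ncard_coe_finset]
    exact Finset.card_image_le
  have h2 : (F.card : ℝ) = ((A.natAbs.divisors.card : ℝ)) ^ 2 *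
      (((Finset.Icc 1 R).sigma (fun e => Finset.Icc 1 (R / e))).card : ℝ) := by
    rw [hF, Finset.card_product, Finset.card_product]
    push_cast
    ring
  calc ({k : ℤ | k ∈ Fam R ∧ ∃ m : ℤ, k = A * m ^ 2}.ncard : ℝ) ≤ (F.card : ℝ) := by
        exact_mod_cast h1
    _ = _ := h2
    _ ≤ ((A.natAbs.divisors.card : ℝ)) ^ 2 * (R * (1 + Real.log R)) := by
        have := F1_pairs R
        gcongr
    _ = _ := by ring

end RC91
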