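import Pool.Agent.LibRC91.Defs

/-!
# [RC91 D1] divided differences kill low degree
PLAN: Mathlib `Lagrange.coeff_eq_sum` (file Mathlib/LinearAlgebra/Lagrange.lean, line 495) expresses
the coefficient of degree `s.card - 1` of a polynomial of degree `< s.card` as
`∑ x ∈ s, P.eval (v x) / ∏ y ∈ s.erase x, (v x - v y)`. Here `v = Nat.cast`, and the coefficient is 0
because `P.natDegree + 1 < s.card`.
-/
set_option autoImplicit false
open Polynomial
namespace RC91

theorem D1 (s : Finset ℕ) (P : Polynomial ℚ) (hP : P.natDegree + 1 < s.card) :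
    ∑ x ∈ s, P.eval (x : ℚ) / ∏ y ∈ s.erase x, ((x : ℚ) - (y : ℚ)) = 0 := by
  have hinj : Set.InjOn (fun x : ℕ => (x : ℚ)) s := fun x _ y _ h => Nat.cast_injective h
  have hdeg : P.degree < s.card := by
    apply lt_of_le_of_lt Polynomial.degree_le_natDegree
    exact_mod_cast (by omega : P.natDegree < s.card)
  have h := Lagrange.coeff_eq_sum hinj hdeg
  rw [← h]
  apply Polynomial.coeff_eq_zero_of_natDegree_lt
  omega

end RC91
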