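import Pool.Agent.LibRC91.Defs

/-!
# [RC91 D2] vanishing moments give divisibility by a power of `1 - X`
PLAN: `X ^ x = ((X - 1) + 1) ^ x = ∑ k ∈ range (x+1), (x.choose k) (X-1)^k`. So the polynomial is
`∑_k (∑_x c x * choose x k) (X - 1)^k` (take `k` in a range beyond all `x ∈ s`); the terms with
`k < n` vanish, the others are divisible by `(X - 1)^n`; `(1 - X)^n = ± (X - 1)^n`.
-/
set_option autoImplicit false
open Polynomial
namespace RC91

theorem D2 (s : Finset ℕ) (c : ℕ → ℤ) (n : ℕ)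
    (h : ∀ k < n, ∑ x ∈ s, c x * (x.choose k : ℤ) = 0) :
    (1 - X : ℤ[X]) ^ n ∣ ∑ x ∈ s, C (c x) * X ^ x := by
  have h1 : (X - C 1 : ℤ[X]) ^ n ∣ ∑ x ∈ s, C (c x) * X ^ x := by
    rw [X_sub_C_pow_dvd_iff, X_pow_dvd_iff]
    intro d hd
    rw [Polynomial.sum_comp, finsetSum_coeff, ← h d hd]
    refine Finset.sum_congr rfl fun x _ => ?_
    rw [mul_comp, C_comp, X_pow_comp, C_1, coeff_C_mul, coeff_X_add_one_pow]
  refine dvd_trans ?_ h1
  have h2 : (X - C 1 : ℤ[X]) = (1 - X) * (-1) := by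
    rw [C_1]
    ring
  rw [h2, mul_pow]
  exact dvd_mul_right _ _

end RC91
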