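import Pool.Agent.LibRC91.Defs

/-!
# [RC91 D3] `r!` divides `3^r` times a product of `r` terms of a progression of difference 3
PLAN: write `r! = 3^v * M` with `M` coprime to 3 and `v ≤ r` (`v = padicValNat 3 r!`; `3^v | r!` and
`v ≤ r`, Legendre: `sub_one_mul_padicValNat_factorial` or `Nat.Prime.multiplicity_factorial`).
`3^v | 3^r`. For `M`: choose `b` with `3 b ≡ 1 mod M`; then
`∏ (a + 3 i) ≡ 3^r ∏ (a b + i) mod M`, and `r!` divides the product of `r` consecutive integers
`∏_{i<r} (a b + i)` (reduce to naturals by adding a multiple of `M` (or of `r!`), then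
`Nat.factorial_dvd_ascFactorial`; or `Int` version through `Ring.choose`/`ascPochhammer`). `3^v` and `M`
are coprime, so the product divides.
-/
set_option autoImplicit false
namespace RC91

/-- `r!` divides the product of `r` consecutive integers. -/
private theorem D3_fac (r : ℕ) (a : ℤ) :
    ((r.factorial : ℕ) : ℤ) ∣ ∏ i ∈ Finset.range r, (a - (i : ℤ)) := by
  have h1 := Ring.descPochhammer_eq_factorial_smul_choose a r
  rw [← Polynomial.eval_eq_smeval, descPochhammer_eval_eq_prod_range] at h1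
  rw [h1, nsmul_eq_mul]
  exact Dvd.intro _ rfl

private theorem D3_prod (M : ℤ) (f g : ℕ → ℤ) (r : ℕ) (h : ∀ i, M ∣ f i - g i) :
    M ∣ ∏ i ∈ Finset.range r, f i - ∏ i ∈ Finset.range r, g i := by
  induction r with
  | zero => simp
  | succ n ih =>
    rw [Finset.prod_range_succ, Finset.prod_range_succ]
    have e : (∏ i ∈ Finset.range n, f i) * f n - (∏ i ∈ Finset.range n, g i) * g n =
        (∏ i ∈ Finset.range n, f i - ∏ i ∈ Finset.range n, g i) * f n +
          (∏ i ∈ Finset.range n, g i) * (f n - g n) := by ring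
    rw [e]
    exact dvd_add (ih.mul_right _) ((h n).mul_left _)

theorem D3 (r : ℕ) (a : ℤ) :
    ((r.factorial : ℕ) : ℤ) ∣ 3 ^ r * ∏ i ∈ Finset.range r, (a - 3 * (i : ℤ)) := by
  obtain ⟨v, M, hM, hr⟩ := Nat.exists_eq_pow_mul_and_not_dvd (Nat.factorial_ne_zero r) 3
    (by norm_num)
  have : Fact (Nat.Prime 3) := ⟨Nat.prime_three⟩
  have hv : v ≤ r := by
    have h1 : 3 ^ v ∣ r.factorial := Dvd.intro _ hr.symm
    have h2 : v ≤ padicValNat 3 r.factorial :=
      (padicValNat_dvd_iff_le (Nat.factorial_ne_zero r)).1 h1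
    have h3 := sub_one_mul_padicValNat_factorial (p := 3) r
    omega
  have hcop : IsCoprime (3 : ℤ) (M : ℤ) := by
    have : Nat.Coprime 3 M := (Nat.Prime.coprime_iff_not_dvd Nat.prime_three).2 hM
    exact_mod_cast Nat.isCoprime_iff_coprime.2 this
  obtain ⟨b, k, hbk⟩ := hcop
  have hMf : (M : ℤ) ∣ ∏ i ∈ Finset.range r, (a * b - (i : ℤ)) := by
    have h1 : (M : ℤ) ∣ ((r.factorial : ℕ) : ℤ) := by
      rw [hr]
      push_cast
      exact Dvd.intro_left _ rfl
    exact h1.trans (D3_fac r (a * b))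
  have h2 : (M : ℤ) ∣ ∏ i ∈ Finset.range r, (a - 3 * (i : ℤ)) := by
    have h3 := D3_prod M (fun i => a - 3 * (i : ℤ)) (fun i => 3 * (a * b - (i : ℤ))) r (by
      intro i
      refine ⟨a * k, ?_⟩
      linear_combination (-a) * hbk)
    have h4 : ∏ i ∈ Finset.range r, (3 * (a * b - (i : ℤ))) =
        3 ^ r * ∏ i ∈ Finset.range r, (a * b - (i : ℤ)) := by
      rw [Finset.prod_mul_distrib, Finset.prod_const, Finset.card_range]
    rw [h4] at h3
    exact (dvd_sub_left (hMf.mul_left _)).1 h3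
  rw [hr]
  push_cast
  exact mul_dvd_mul (pow_dvd_pow 3 hv) h2

end RC91
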