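import Pool.Agent.LibRC91.D3

/-!
# [RC91 D4] the weights: integrality, explicit form and size
The nodes are `nd r = {3 s} ∪ {3 s + 1}`, `0 ≤ s ≤ r`, inside `[0, 3r+1]`; the missing integers of
`[0, 3r+1]` are `2 + 3 i`, `i < r`. The weight of the node `x` is
`cf r x = (-1)^(3r+1-x) * choose (3r+1) x * (3^r * ∏_{i<r} (x - 2 - 3 i) / r!)` (an exact division by D3).
PLAN of `D4_weight`: `∏_{y ∈ [0,3r+1], y ≠ x} (x - y) = (-1)^(3r+1-x) x! (3r+1-x)!`, and this product is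
the product over the other nodes times `∏_{i<r} (x - (2 + 3 i))`. All factors are nonzero.
PLAN of `D4_size`: `choose ≤ 2^(3r+1)`, `|x - 2 - 3 i| ≤ 3 r + 2`..: use `|x - 2 - 3i| ≤ 4 r` for `r ≥ 1`
(`0 ≤ x ≤ 3r+1`, `i < r`), `(4r)^r / r! ≤ 12^r` because `r^r ≤ 3^r r!` (induction with
`(1+1/n)^n ≤ 3`, or `Nat.factorial_lt`..., or `Real.add_one_le_exp`: `r^r/r! ≤ e^r`).
Total `2 * 8^r * 3^r * 12^r = 2 * 288^r ≤ 300^(r+1)`.
PLAN of `D4_symm`: `x ↦ 3r+1-x` reverses the product: `(3r+1-x) - 2 - 3 i = -(x - 2 - 3 (r-1-i))`; the sign is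
`(-1)^r * (-1)^(3r+1) = -1`.
PLAN of `D4_end`: `cf r 0 = (-1)^(3r+1) (-1)^r 3^r ∏_{i<r}(3i+2)/r!`,
`cf r (3r) = -(3r+1) 3^r ∏_{j=1}^{r} (3j-2) / r!`, so with `u_r = cf r (3r) / cf r 0 =
∏_{j=1}^{r+1}(3j-2) / ∏_{j=1}^r (3j-1) > 0` one has `u_{r+1}/u_r = (3r+4)/(3r+2) ≠ 1`.
-/
set_option autoImplicit false
namespace RC91

/-- the nodes -/
def nd (r : ℕ) : Finset ℕ :=
  (Finset.range (r + 1)).image (fun s => 3 * s) ∪ (Finset.range (r + 1)).image (fun s => 3 * s + 1)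

/-- the weights -/
def cf (r x : ℕ) : ℤ :=
  (-1) ^ (3 * r + 1 - x) * ((3 * r + 1).choose x : ℤ) *
    (3 ^ r * (∏ i ∈ Finset.range r, ((x : ℤ) - 2 - 3 * (i : ℤ))) / ((r.factorial : ℕ) : ℤ))

private theorem D4_mem (r y : ℕ) :
    y ∈ nd r ↔ y < 3 * r + 2 ∧ y % 3 ≠ 2 := by
  simp only [nd, Finset.mem_union, Finset.mem_image, Finset.mem_range]
  constructor
  · rintro (⟨s, hs, rfl⟩ | ⟨s, hs, rfl⟩) <;> omega
  · rintro ⟨h1, h2⟩
    by_cases h : y % 3 = 0
    · exact Or.inl ⟨y / 3, by omega, by omega⟩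
    · exact Or.inr ⟨y / 3, by omega, by omega⟩

theorem D4_card (r : ℕ) : (nd r).card = 2 * r + 2 := by
  have h1 : Disjoint ((Finset.range (r + 1)).image (fun s => 3 * s))
      ((Finset.range (r + 1)).image (fun s => 3 * s + 1)) := by
    rw [Finset.disjoint_left]
    intro y hy hy'
    simp only [Finset.mem_image, Finset.mem_range] at hy hy'
    obtain ⟨s, _, hs⟩ := hy
    obtain ⟨t, _, ht⟩ := hy'
    omega
  rw [nd, Finset.card_union_of_disjoint h1, Finset.card_image_of_injective,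
    Finset.card_image_of_injective, Finset.card_range]
  · omega
  · intro a b hab
    simp only at hab
    omega
  · intro a b hab
    simp only at hab
    omega

private def D4_q (r : ℕ) (x : ℕ) : ℤ :=
  3 ^ r * (∏ i ∈ Finset.range r, ((x : ℤ) - 2 - 3 * (i : ℤ))) / ((r.factorial : ℕ) : ℤ)

private theorem D4_q_eq (r x : ℕ) : ((r.factorial : ℕ) : ℤ) * D4_q r x =
    3 ^ r * ∏ i ∈ Finset.range r, ((x : ℤ) - 2 - 3 * (i : ℤ)) :=
  Int.mul_ediv_cancel' (D3 r ((x : ℤ) - 2))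

private theorem D4_cf (r x : ℕ) : cf r x =
    (-1) ^ (3 * r + 1 - x) * ((3 * r + 1).choose x : ℤ) * D4_q r x := rfl

private theorem D4_p1 (x : ℕ) : ∏ y ∈ Finset.range x, ((x : ℚ) - (y : ℚ)) = (x.factorial : ℚ) := by
  rw [← Finset.prod_range_reflect, ← Finset.prod_range_add_one_eq_factorial, Nat.cast_prod]
  refine Finset.prod_congr rfl fun j hj => ?_
  rw [Finset.mem_range] at hj
  have h1 : ((x - 1 - j : ℕ) : ℚ) = (x : ℚ) - 1 - j := by
    have h2 : x - 1 - j + 1 + j = x := by omega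
    have h3 : (((x - 1 - j + 1 + j : ℕ)) : ℚ) = (x : ℚ) := by rw [h2]
    push_cast at h3
    linarith
  rw [h1]
  push_cast
  ring

private theorem D4_p2 (x m : ℕ) :
    ∏ y ∈ Finset.Ico (x + 1) (x + 1 + m), ((x : ℚ) - (y : ℚ)) =
      (-1) ^ m * (m.factorial : ℚ) := by
  rw [Finset.prod_Ico_eq_prod_range, Nat.add_sub_cancel_left,
    ← Finset.prod_range_add_one_eq_factorial, Nat.cast_prod]
  rw [← Finset.card_range m, ← Finset.prod_const, Finset.card_range, ← Finset.prod_mul_distrib]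
  refine Finset.prod_congr rfl fun j _ => ?_
  push_cast
  ring

private theorem D4_p3 (N x : ℕ) (hx : x ≤ N) :
    ∏ y ∈ (Finset.range (N + 1)).erase x, ((x : ℚ) - (y : ℚ)) =
      (-1) ^ (N - x) * ((x.factorial : ℚ) * ((N - x).factorial : ℚ)) := by
  have h1 : (Finset.range (N + 1)).erase x =
      Finset.range x ∪ Finset.Ico (x + 1) (x + 1 + (N - x)) := by
    ext y
    simp only [Finset.mem_erase, Finset.mem_range, Finset.mem_union, Finset.mem_Ico]
    omega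
  have h2 : Disjoint (Finset.range x) (Finset.Ico (x + 1) (x + 1 + (N - x))) := by
    rw [Finset.disjoint_left]
    intro y hy hy'
    simp only [Finset.mem_range, Finset.mem_Ico] at hy hy'
    omega
  rw [h1, Finset.prod_union h2, D4_p1, D4_p2]
  ring

private theorem D4_p4 (r x : ℕ) (hx : x ∈ nd r) :
    (∏ y ∈ (nd r).erase x, ((x : ℚ) - (y : ℚ))) *
      ∏ i ∈ Finset.range r, ((x : ℚ) - 2 - 3 * (i : ℚ)) =
      (-1) ^ (3 * r + 1 - x) * ((x.factorial : ℚ) * ((3 * r + 1 - x).factorial : ℚ)) := by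
  have hx' := (D4_mem r x).1 hx
  rw [← D4_p3 (3 * r + 1) x (by omega)]
  have h1 : (Finset.range (3 * r + 1 + 1)).erase x =
      (nd r).erase x ∪ (Finset.range r).image (fun i => 3 * i + 2) := by
    ext y
    simp only [Finset.mem_erase, Finset.mem_range, Finset.mem_union, Finset.mem_image, D4_mem]
    constructor
    · rintro ⟨h2, h3⟩
      by_cases h4 : y % 3 = 2
      · exact Or.inr ⟨y / 3, by omega, by omega⟩
      · exact Or.inl ⟨h2, by omega, h4⟩
    · rintro (⟨h2, h3, h4⟩ | ⟨i, hi, rfl⟩)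
      · exact ⟨h2, by omega⟩
      · exact ⟨by omega, by omega⟩
  have h2 : Disjoint ((nd r).erase x) ((Finset.range r).image (fun i => 3 * i + 2)) := by
    rw [Finset.disjoint_left]
    intro y hy hy'
    simp only [Finset.mem_erase, Finset.mem_image, D4_mem] at hy hy'
    obtain ⟨i, _, rfl⟩ := hy'
    omega
  rw [h1, Finset.prod_union h2, Finset.prod_image]
  · congr 1
    refine Finset.prod_congr rfl fun i _ => ?_
    push_cast
    ring
  · intro a _ b _ hab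
    simp only at hab
    omega

theorem D4_weight (r x : ℕ) (hx : x ∈ nd r) :
    (cf r x : ℚ) = 3 ^ r * ((3 * r + 1).factorial : ℚ) / (r.factorial : ℚ) /
      ∏ y ∈ (nd r).erase x, ((x : ℚ) - (y : ℚ)) := by
  have hx' := (D4_mem r x).1 hx
  have h4 := D4_p4 r x hx
  set P := ∏ y ∈ (nd r).erase x, ((x : ℚ) - (y : ℚ)) with hP
  set M := ∏ i ∈ Finset.range r, ((x : ℚ) - 2 - 3 * (i : ℚ)) with hM
  have hf : ∀ n : ℕ, (n.factorial : ℚ) ≠ 0 := fun n => Nat.cast_ne_zero.2 (Nat.factorial_ne_zero n)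
  have hs : ((-1 : ℚ)) ^ (3 * r + 1 - x) ≠ 0 := pow_ne_zero _ (by norm_num)
  have hPM : P * M ≠ 0 := by
    rw [h4]
    exact mul_ne_zero hs (mul_ne_zero (hf _) (hf _))
  have hP0 : P ≠ 0 := left_ne_zero_of_mul hPM
  have hq : (r.factorial : ℚ) * (D4_q r x : ℚ) = 3 ^ r * M := by
    have := congrArg (fun z : ℤ => (z : ℚ)) (D4_q_eq r x)
    push_cast at this
    rw [this, hM]
  have hch : ((3 * r + 1).choose x : ℚ) * (x.factorial : ℚ) * ((3 * r + 1 - x).factorial : ℚ) =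
      ((3 * r + 1).factorial : ℚ) := by
    exact_mod_cast Nat.choose_mul_factorial_mul_factorial (show x ≤ 3 * r + 1 by omega)
  have hs2 : ((-1 : ℚ)) ^ (3 * r + 1 - x) * ((-1 : ℚ)) ^ (3 * r + 1 - x) = 1 := by
    rw [← mul_pow]
    norm_num
  rw [D4_cf, div_div, eq_div_iff (mul_ne_zero (hf r) hP0)]
  push_cast
  calc (-1 : ℚ) ^ (3 * r + 1 - x) * ((3 * r + 1).choose x : ℚ) * (D4_q r x : ℚ) *
        ((r.factorial : ℚ) * P)
      = (-1 : ℚ) ^ (3 * r + 1 - x) * ((3 * r + 1).choose x : ℚ) * P *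
        ((r.factorial : ℚ) * (D4_q r x : ℚ)) := by ring
    _ = (-1 : ℚ) ^ (3 * r + 1 - x) * ((3 * r + 1).choose x : ℚ) * 3 ^ r * (P * M) := by
        rw [hq]; ring
    _ = ((-1 : ℚ) ^ (3 * r + 1 - x) * (-1 : ℚ) ^ (3 * r + 1 - x)) * 3 ^ r *
        (((3 * r + 1).choose x : ℚ) * (x.factorial : ℚ) * ((3 * r + 1 - x).factorial : ℚ)) := by
        rw [h4]; ring
    _ = 3 ^ r * ((3 * r + 1).factorial : ℚ) := by rw [hs2, hch, one_mul]

private theorem D4_rr (r : ℕ) : r ^ r ≤ 3 ^ r * r.factorial := by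
  have h1 : ((r : ℝ)) ^ r / (r.factorial : ℝ) ≤ Real.exp r :=
    Real.pow_div_factorial_le_exp (r : ℝ) (Nat.cast_nonneg r) r
  have h2 : Real.exp r ≤ 3 ^ r := by
    have h3 : Real.exp r = Real.exp 1 ^ r := by rw [← Real.exp_nat_mul, mul_one]
    rw [h3]
    exact pow_le_pow_left₀ (Real.exp_pos 1).le (by linarith [Real.exp_one_lt_d9]) r
  have hf : (0 : ℝ) < (r.factorial : ℝ) := Nat.cast_pos.2 (Nat.factorial_pos r)
  have h4 := (div_le_iff₀ hf).1 (h1.trans h2)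
  exact_mod_cast h4

private theorem D4_q_size (r x : ℕ) (hx : x ≤ 3 * r + 1) : |D4_q r x| ≤ 27 ^ r := by
  have hf : (0 : ℤ) < ((r.factorial : ℕ) : ℤ) := by exact_mod_cast Nat.factorial_pos r
  have h1 : |∏ i ∈ Finset.range r, ((x : ℤ) - 2 - 3 * (i : ℤ))| ≤ (3 * (r : ℤ)) ^ r := by
    rw [Finset.abs_prod]
    calc ∏ i ∈ Finset.range r, |(x : ℤ) - 2 - 3 * (i : ℤ)|
        ≤ ∏ _i ∈ Finset.range r, (3 * (r : ℤ)) := by
          apply Finset.prod_le_prod
          · intro i _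
            exact abs_nonneg _
          · intro i hi
            rw [Finset.mem_range] at hi
            rw [abs_le]
            constructor <;> omega
      _ = (3 * (r : ℤ)) ^ r := by rw [Finset.prod_const, Finset.card_range]
  have h2 : ((r.factorial : ℕ) : ℤ) * |D4_q r x| ≤ ((r.factorial : ℕ) : ℤ) * 27 ^ r := by
    calc ((r.factorial : ℕ) : ℤ) * |D4_q r x| = |((r.factorial : ℕ) : ℤ) * D4_q r x| := by
          rw [abs_mul, abs_of_pos hf]
      _ = 3 ^ r * |∏ i ∈ Finset.range r, ((x : ℤ) - 2 - 3 * (i : ℤ))| := by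
          rw [D4_q_eq, abs_mul, abs_of_pos (by positivity : (0 : ℤ) < 3 ^ r)]
      _ ≤ 3 ^ r * (3 * (r : ℤ)) ^ r := by gcongr
      _ = 3 ^ r * 3 ^ r * ((r ^ r : ℕ) : ℤ) := by
          rw [mul_pow]
          push_cast
          ring
      _ ≤ 3 ^ r * 3 ^ r * ((3 ^ r * r.factorial : ℕ) : ℤ) := by
          have := D4_rr r
          gcongr
      _ = ((r.factorial : ℕ) : ℤ) * 27 ^ r := by
          rw [show (27 : ℤ) = 3 * 3 * 3 by norm_num, mul_pow, mul_pow]
          push_cast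
          ring
  exact le_of_mul_le_mul_left h2 hf

theorem D4_size (r x : ℕ) (hx : x ≤ 3 * r + 1) : |cf r x| ≤ 300 ^ (r + 1) := by
  have h1 := D4_q_size r x hx
  have h2 : ((3 * r + 1).choose x : ℤ) ≤ 2 ^ (3 * r + 1) := by
    exact_mod_cast Nat.choose_le_two_pow (3 * r + 1) x
  have h3 : (0 : ℤ) ≤ ((3 * r + 1).choose x : ℤ) := Nat.cast_nonneg _
  rw [D4_cf, abs_mul, abs_mul, abs_pow, abs_neg, abs_one, one_pow, one_mul, abs_of_nonneg h3]
  calc ((3 * r + 1).choose x : ℤ) * |D4_q r x| ≤ 2 ^ (3 * r + 1) * 27 ^ r := by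
        gcongr
    _ = 2 * 216 ^ r := by
        rw [pow_succ, pow_mul, show (216 : ℤ) = 2 ^ 3 * 27 by norm_num, mul_pow]
        ring
    _ ≤ 300 * 300 ^ r := by
        gcongr <;> norm_num
    _ = 300 ^ (r + 1) := by ring

theorem D4_symm (r x : ℕ) (hx : x ≤ 3 * r + 1) : cf r (3 * r + 1 - x) = - cf r x := by
  have hf : ((r.factorial : ℕ) : ℤ) ≠ 0 := by exact_mod_cast Nat.factorial_ne_zero r
  have hcast : ((3 * r + 1 - x : ℕ) : ℤ) = 3 * (r : ℤ) + 1 - x := by omega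
  have hq : D4_q r (3 * r + 1 - x) = (-1) ^ r * D4_q r x := by
    apply mul_left_cancel₀ hf
    rw [D4_q_eq, mul_left_comm, D4_q_eq, mul_left_comm]
    congr 1
    rw [← Finset.prod_range_reflect (fun i => ((x : ℤ) - 2 - 3 * (i : ℤ)))]
    rw [← Finset.card_range r, ← Finset.prod_const, Finset.card_range, ← Finset.prod_mul_distrib]
    refine Finset.prod_congr rfl fun i hi => ?_
    rw [Finset.mem_range] at hi
    have h1 : ((r - 1 - i : ℕ) : ℤ) = (r : ℤ) - 1 - i := by omega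
    rw [h1, hcast]
    ring
  have hsub : 3 * r + 1 - (3 * r + 1 - x) = x := by omega
  have hsign : ((-1 : ℤ)) ^ x * (-1) ^ r = -(-1) ^ (3 * r + 1 - x) := by
    have h1 : ((-1 : ℤ)) ^ (3 * r + 1 - x) * (-1) ^ x = (-1) ^ (3 * r + 1) := by
      rw [← pow_add]
      congr 1
      omega
    have h2 : ((-1 : ℤ)) ^ (3 * r + 1) = -(-1) ^ r := by
      rw [pow_succ, pow_mul]
      norm_num
    have h3 : ((-1 : ℤ)) ^ x * (-1) ^ x = 1 := by
      rw [← mul_pow]
      norm_num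
    have h4 : ((-1 : ℤ)) ^ (3 * r + 1 - x) = -((-1) ^ r) * (-1) ^ x := by
      rw [← h2, ← h1, mul_assoc, h3, mul_one]
    rw [h4]
    ring
  rw [D4_cf, D4_cf, hq, hsub, Nat.choose_symm hx]
  linear_combination (((3 * r + 1).choose x : ℤ) * D4_q r x) * hsign

private def D4_a (r : ℕ) : ℤ := ∏ i ∈ Finset.range r, (3 * (i : ℤ) + 2)

private def D4_b (r : ℕ) : ℤ := ∏ i ∈ Finset.range r, (3 * (i : ℤ) + 1)

private theorem D4_e0 (r : ℕ) : ((r.factorial : ℕ) : ℤ) * cf r 0 = -(3 ^ r * D4_a r) := by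
  have h1 : ∏ i ∈ Finset.range r, (((0 : ℕ) : ℤ) - 2 - 3 * (i : ℤ)) = (-1) ^ r * D4_a r := by
    rw [D4_a, ← Finset.card_range r, ← Finset.prod_const, Finset.card_range,
      ← Finset.prod_mul_distrib]
    refine Finset.prod_congr rfl fun i _ => ?_
    push_cast
    ring
  have h2 := D4_q_eq r 0
  rw [h1] at h2
  have h3 : ((-1 : ℤ)) ^ (3 * r + 1) * (-1) ^ r = -1 := by
    rw [← pow_add, show 3 * r + 1 + r = 2 * (2 * r) + 1 by ring, pow_succ, pow_mul]
    norm_num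
  rw [D4_cf, Nat.sub_zero, Nat.choose_zero_right, Nat.cast_one, mul_one, mul_left_comm, h2]
  linear_combination (3 ^ r * D4_a r) * h3

private theorem D4_e1 (r : ℕ) :
    ((r.factorial : ℕ) : ℤ) * cf r (3 * r) = -(3 ^ r * D4_b (r + 1)) := by
  have h1 : ∏ i ∈ Finset.range r, (((3 * r : ℕ) : ℤ) - 2 - 3 * (i : ℤ)) = D4_b r := by
    rw [D4_b, ← Finset.prod_range_reflect]
    refine Finset.prod_congr rfl fun i hi => ?_
    rw [Finset.mem_range] at hi
    have h2 : ((r - 1 - i : ℕ) : ℤ) = (r : ℤ) - 1 - i := by omega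
    rw [h2]
    push_cast
    ring
  have h2 := D4_q_eq r (3 * r)
  rw [h1] at h2
  have h3 : 3 * r + 1 - 3 * r = 1 := by omega
  have h4 : D4_b (r + 1) = D4_b r * (3 * (r : ℤ) + 1) := by
    rw [D4_b, Finset.prod_range_succ, D4_b]
  rw [D4_cf, h3, pow_one, Nat.choose_succ_self_right, h4]
  push_cast
  linear_combination (-(3 * (r : ℤ) + 1)) * h2

theorem D4_end (r : ℕ) : cf r (3 * r) * cf (r + 1) 0 ≠ cf (r + 1) (3 * (r + 1)) * cf r 0 := by
  intro h
  have ha : 0 < D4_a r := Finset.prod_pos fun i _ => by positivity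
  have hb : 0 < D4_b (r + 1) := Finset.prod_pos fun i _ => by positivity
  have h1 := D4_e0 r
  have h2 := D4_e1 r
  have h3 := D4_e0 (r + 1)
  have h4 := D4_e1 (r + 1)
  have h5 : D4_a (r + 1) = D4_a r * (3 * (r : ℤ) + 2) := by
    rw [D4_a, Finset.prod_range_succ, D4_a]
  have h6 : D4_b (r + 1 + 1) = D4_b (r + 1) * (3 * (r : ℤ) + 4) := by
    rw [D4_b, Finset.prod_range_succ, ← D4_b]
    push_cast
    ring
  have h7 : (3 ^ r * D4_b (r + 1)) * (3 ^ (r + 1) * D4_a (r + 1)) =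
      (3 ^ (r + 1) * D4_b (r + 1 + 1)) * (3 ^ r * D4_a r) := by
    have e1 : (((r.factorial : ℕ) : ℤ) * cf r (3 * r)) *
        ((((r + 1).factorial : ℕ) : ℤ) * cf (r + 1) 0) =
        ((((r + 1).factorial : ℕ) : ℤ) * cf (r + 1) (3 * (r + 1))) *
          (((r.factorial : ℕ) : ℤ) * cf r 0) := by
      linear_combination (((r.factorial : ℕ) : ℤ) * (((r + 1).factorial : ℕ) : ℤ)) * h
    rw [h1, h2, h3, h4] at e1
    linear_combination e1
  rw [h5, h6] at h7
  have h8 : (3 ^ r * D4_b (r + 1)) * (3 ^ (r + 1) * D4_a r) * 2 = 0 := by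
    linear_combination (-1 : ℤ) * h7
  have h9 : (3 ^ r * D4_b (r + 1)) * (3 ^ (r + 1) * D4_a r) * 2 > 0 := by positivity
  omega

end RC91
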