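import Pool.Agent.LibRC91.D1
import Pool.Agent.LibRC91.D2
import Pool.Agent.LibRC91.D4

/-!
# [RC91 D5] Pade polynomials of `(1 - z)^(1/3)` in symmetric form
PLAN: `a r s = cf r (3 s)` for `s ≤ r`, `0` otherwise. Size: D4_size. Divisibility: by D2 with `s = nd r`,
`c = cf r`, `n = 2r+1`: for `k ≤ 2r` the function `x ↦ choose x k` is the evaluation of the polynomial
`descPochhammer ℚ k / k!` of degree `k ≤ 2 r < card - 1 = 2r+1` (D1 with D4_card, D4_weight: the sum of
`cf r x * P(x)` is `3^r (3r+1)!/r!` times the sum of D1). So `(1-X)^(2r+1)` divides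
`∑ x ∈ nd r, C (cf r x) X^x = ∑_{s ≤ r} C (cf r (3s)) X^(3s) + ∑_{s ≤ r} C (cf r (3s+1)) X^(3s+1)` and
`cf r (3s+1) = - cf r (3 (r-s))` (D4_symm, `3r+1-(3s+1) = 3(r-s)`). Last clause: D4_end.
-/
set_option autoImplicit false
open Polynomial
namespace RC91

private theorem D5_mom (r k : ℕ) (hk : k < 2 * r + 1) :
    ∑ x ∈ nd r, cf r x * (x.choose k : ℤ) = 0 := by
  have h1 := D1 (nd r) (descPochhammer ℚ k) (by
    rw [descPochhammer_natDegree, D4_card]; omega)
  have h2 : ∑ x ∈ nd r, (cf r x : ℚ) * ((k.factorial : ℚ) * (x.choose k : ℚ)) =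
      3 ^ r * ((3 * r + 1).factorial : ℚ) / (r.factorial : ℚ) *
        ∑ x ∈ nd r, (descPochhammer ℚ k).eval (x : ℚ) /
          ∏ y ∈ (nd r).erase x, ((x : ℚ) - (y : ℚ)) := by
    rw [Finset.mul_sum]
    refine Finset.sum_congr rfl fun x hx => ?_
    rw [D4_weight r x hx, descPochhammer_eval_eq_descFactorial,
      Nat.descFactorial_eq_factorial_mul_choose]
    push_cast
    ring
  rw [h1, mul_zero] at h2
  have h3 : (k.factorial : ℚ) * ((∑ x ∈ nd r, cf r x * (x.choose k : ℤ) : ℤ) : ℚ) = 0 := by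
    rw [← h2]
    push_cast
    rw [Finset.mul_sum]
    exact Finset.sum_congr rfl fun x _ => by ring
  have h5 : (k.factorial : ℚ) ≠ 0 := by exact_mod_cast k.factorial_ne_zero
  have h4 : ((∑ x ∈ nd r, cf r x * (x.choose k : ℤ) : ℤ) : ℚ) = 0 :=
    (mul_eq_zero.mp h3).resolve_left h5
  exact_mod_cast h4

private theorem D5_split (r : ℕ) :
    ∑ x ∈ nd r, C (cf r x) * (X : ℤ[X]) ^ x =
      ∑ s ∈ Finset.range (r + 1), C (cf r (3 * s)) * X ^ (3 * s) -
        ∑ s ∈ Finset.range (r + 1), C (cf r (3 * (r - s))) * X ^ (3 * s + 1) := by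
  unfold nd
  rw [Finset.sum_union, Finset.sum_image, Finset.sum_image, sub_eq_add_neg,
    ← Finset.sum_neg_distrib]
  · congr 1
    refine Finset.sum_congr rfl fun s hs => ?_
    have hs' : s ≤ r := Nat.lt_succ_iff.mp (Finset.mem_range.mp hs)
    have h1 := D4_symm r (3 * s + 1) (by omega)
    have h2 : 3 * r + 1 - (3 * s + 1) = 3 * (r - s) := by omega
    rw [h2] at h1
    rw [h1, C_neg]
    ring
  · intro x _ y _ hxy
    simp only at hxy
    omega
  · intro x _ y _ hxy
    simp only at hxy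
    omega
  · rw [Finset.disjoint_left]
    intro x hx hy
    obtain ⟨s, -, hs⟩ := Finset.mem_image.mp hx
    obtain ⟨t, -, ht⟩ := Finset.mem_image.mp hy
    omega

theorem D5 : ∃ a : ℕ → ℕ → ℤ, (∀ r s, |a r s| ≤ 300 ^ (r + 1)) ∧
    (∀ r, (1 - X : ℤ[X]) ^ (2 * r + 1) ∣
      ∑ s ∈ Finset.range (r + 1), C (a r s) * X ^ (3 * s) -
        ∑ s ∈ Finset.range (r + 1), C (a r (r - s)) * X ^ (3 * s + 1)) ∧
    (∀ r, a r r * a (r + 1) 0 ≠ a (r + 1) (r + 1) * a r 0) := by
  refine ⟨fun r s => if s ≤ r then cf r (3 * s) else 0, ?_, ?_, ?_⟩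
  · intro r s
    by_cases h : s ≤ r
    · simp only [h, if_true]
      exact D4_size r (3 * s) (by omega)
    · simp only [h, if_false, abs_zero]
      positivity
  · intro r
    have h1 := D2 (nd r) (cf r) (2 * r + 1) (D5_mom r)
    rw [D5_split] at h1
    have e1 : ∑ s ∈ Finset.range (r + 1),
        C ((fun r s => if s ≤ r then cf r (3 * s) else 0 : ℕ → ℕ → ℤ) r s) * (X : ℤ[X]) ^ (3 * s) =
        ∑ s ∈ Finset.range (r + 1), C (cf r (3 * s)) * X ^ (3 * s) := by
      refine Finset.sum_congr rfl fun s hs => ?_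
      have hs' : s ≤ r := Nat.lt_succ_iff.mp (Finset.mem_range.mp hs)
      simp only [hs', if_true]
    have e2 : ∑ s ∈ Finset.range (r + 1),
        C ((fun r s => if s ≤ r then cf r (3 * s) else 0 : ℕ → ℕ → ℤ) r (r - s)) *
          (X : ℤ[X]) ^ (3 * s + 1) =
        ∑ s ∈ Finset.range (r + 1), C (cf r (3 * (r - s))) * X ^ (3 * s + 1) := by
      refine Finset.sum_congr rfl fun s hs => ?_
      have hs' : r - s ≤ r := Nat.sub_le _ _
      simp only [hs', if_true]
    rw [e1, e2]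
    exact h1
  · intro r
    have := D4_end r
    simpa using this

end RC91
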