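import Pool.Agent.LibRC91.Defs

/-!
# [RC91 D6] the quotient by `(1 - X)^(2r+1)` has small coefficients
PLAN: `f = (1 - X)^(2r+1) * g`, `g.natDegree ≤ r` (degrees, `f = 0` trivial). As power series
`g = f * (1 - X)^(-(2r+1))`, `(1-X)^(-(n+1)) = ∑ choose (n+l) l X^l` (Mathlib:
`PowerSeries.mk_one_pow_eq_mk_choose_add` / `invOneSubPow`), so for `j ≤ r`
`|g_j| ≤ B ∑_{l ≤ r} choose (2r+l) l ≤ B * 2^(3r+1)`. Then for `‖t - 1‖ ≤ 1/2`, `‖t‖ ≤ 3/2` and
`‖g(t)‖ ≤ (r+1) B 2^(3r+1) (3/2)^r ≤ B * 24^(r+1)` (`r + 1 ≤ 2^r`).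
-/
set_option autoImplicit false
open Polynomial
namespace RC91

theorem D6_one (B m : ℕ) (g : ℤ[X]) (h : ∀ i, |((1 - X) * g).coeff i| ≤ ((B * (m + i).choose i : ℕ) : ℤ)) (j : ℕ) :
    |g.coeff j| ≤ ((B * (m + 1 + j).choose j : ℕ) : ℤ) := by
  induction j with
  | zero =>
    have h0 := h 0
    have e : ((1 - X) * g).coeff 0 = g.coeff 0 := by
      rw [sub_mul, one_mul, coeff_sub, coeff_X_mul_zero, sub_zero]
    rw [e] at h0
    simpa using h0
  | succ j ih =>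
    have h1 := h (j + 1)
    have e : ((1 - X) * g).coeff (j + 1) = g.coeff (j + 1) - g.coeff j := by
      rw [sub_mul, one_mul, coeff_sub, coeff_X_mul]
    rw [e] at h1
    have h2 : |g.coeff (j + 1)| ≤ |g.coeff (j + 1) - g.coeff j| + |g.coeff j| := by
      have := abs_add_le (g.coeff (j + 1) - g.coeff j) (g.coeff j)
      simpa using this
    have h3 : (m + 1 + (j + 1)).choose (j + 1) = (m + 1 + j).choose j + (m + (j + 1)).choose (j + 1) := by
      have : m + 1 + (j + 1) = (m + 1 + j) + 1 := by ring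
      rw [this, Nat.choose_succ_succ]
      congr 2
      ring
    rw [h3]
    push_cast at h1 ih ⊢
    linarith

theorem D6_pow (B n : ℕ) : ∀ (k : ℕ) (g : ℤ[X]),
    (∀ i, |((1 - X) ^ n * g).coeff i| ≤ ((B * (k + i).choose i : ℕ) : ℤ)) →
    ∀ j, |g.coeff j| ≤ ((B * (k + n + j).choose j : ℕ) : ℤ) := by
  induction n with
  | zero =>
    intro k g h j
    simpa using h j
  | succ n ih =>
    intro k g h j
    have h1 : ∀ i, |((1 - X) ^ n * ((1 - X) * g)).coeff i| ≤ ((B * (k + i).choose i : ℕ) : ℤ) := by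
      intro i
      have : (1 - X : ℤ[X]) ^ n * ((1 - X) * g) = (1 - X) ^ (n + 1) * g := by ring
      rw [this]
      exact h i
    have h2 := ih k ((1 - X) * g) h1
    have h3 := D6_one B (k + n) g h2 j
    have e : k + (n + 1) + j = k + n + 1 + j := by ring
    rw [e]
    exact h3

theorem D6 (r B : ℕ) (f : ℤ[X]) (hdeg : f.natDegree ≤ 3 * r + 1)
    (hB : ∀ i, |f.coeff i| ≤ B) (hd : (1 - X : ℤ[X]) ^ (2 * r + 1) ∣ f)
    (t : ℂ) (ht : ‖t - 1‖ ≤ 1 / 2) :
    ‖aeval t f‖ ≤ B * 24 ^ (r + 1) * ‖1 - t‖ ^ (2 * r + 1) := by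
  obtain ⟨g, hg⟩ := hd
  rcases eq_or_ne g 0 with rfl | hg0
  · rw [hg, mul_zero, map_zero, norm_zero]
    positivity
  have hco := D6_pow B (2 * r + 1) 0 g (fun i => by
    rw [← hg]
    have := hB i
    simpa using this)
  have hX : (1 - X : ℤ[X]).natDegree = 1 := by
    have : (1 - X : ℤ[X]) = -(X - C 1) := by simp
    rw [this, natDegree_neg, natDegree_X_sub_C]
  have hX0 : (1 - X : ℤ[X]) ≠ 0 := by
    intro h
    rw [h, natDegree_zero] at hX
    exact zero_ne_one hX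
  have hdg : g.natDegree ≤ r := by
    have h1 : f.natDegree = (2 * r + 1) + g.natDegree := by
      rw [hg, natDegree_mul (pow_ne_zero _ hX0) hg0, natDegree_pow, hX, mul_one]
    omega
  have htn : ‖t‖ ≤ 3 / 2 := by
    have h1 : ‖t‖ ≤ ‖t - 1‖ + ‖(1 : ℂ)‖ := by
      have := norm_add_le (t - 1) 1
      simpa using this
    rw [norm_one] at h1
    linarith
  have hgt : ‖aeval t g‖ ≤ B * 24 ^ (r + 1) := by
    rw [aeval_eq_sum_range' (lt_of_le_of_lt hdg (Nat.lt_succ_self r))]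
    refine (norm_sum_le _ _).trans ?_
    have h1 : ∀ i ∈ Finset.range r.succ, ‖g.coeff i • t ^ i‖ ≤ (B : ℝ) * 2 ^ (3 * r + 1) * (3 / 2) ^ r := by
      intro i hi
      have hi' : i ≤ r := Nat.lt_succ_iff.1 (Finset.mem_range.1 hi)
      rw [zsmul_eq_mul, norm_mul, norm_pow]
      have h2 : ‖((g.coeff i : ℤ) : ℂ)‖ = |((g.coeff i : ℤ) : ℝ)| := by
        rw [Complex.norm_intCast]
      have h3 : |((g.coeff i : ℤ) : ℝ)| ≤ (B : ℝ) * 2 ^ (3 * r + 1) := by
        have h4 := hco i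
        have h5 : ((|g.coeff i| : ℤ) : ℝ) ≤ ((B * (0 + (2 * r + 1) + i).choose i : ℕ) : ℝ) := by
          exact_mod_cast h4
        rw [Int.cast_abs] at h5
        refine h5.trans ?_
        push_cast
        refine mul_le_mul_of_nonneg_left ?_ (Nat.cast_nonneg _)
        have h6 : (0 + (2 * r + 1) + i).choose i ≤ 2 ^ (0 + (2 * r + 1) + i) := Nat.choose_le_two_pow _ _
        have h7 : 2 ^ (0 + (2 * r + 1) + i) ≤ 2 ^ (3 * r + 1) := Nat.pow_le_pow_right (by norm_num) (by omega)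
        exact_mod_cast h6.trans h7
      rw [h2]
      refine mul_le_mul h3 ?_ (by positivity) (by positivity)
      calc ‖t‖ ^ i ≤ (3 / 2) ^ i := pow_le_pow_left₀ (norm_nonneg _) htn i
        _ ≤ (3 / 2) ^ r := pow_le_pow_right₀ (by norm_num) hi'
    refine (Finset.sum_le_sum h1).trans ?_
    rw [Finset.sum_const, Finset.card_range, nsmul_eq_mul]
    have h8 : ((r.succ : ℕ) : ℝ) ≤ 2 ^ r := by
      have : r.succ ≤ 2 ^ r := Nat.lt_two_pow_self
      exact_mod_cast this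
    have h9 : (2 : ℝ) ^ r * ((B : ℝ) * 2 ^ (3 * r + 1) * (3 / 2) ^ r) = B * 2 * 24 ^ r := by
      have : (24 : ℝ) ^ r = 2 ^ r * (2 ^ 3) ^ r * (3 / 2) ^ r := by
        rw [← mul_pow, ← mul_pow]
        norm_num
      rw [this, pow_add, pow_mul, pow_one]
      ring
    calc ((r.succ : ℕ) : ℝ) * ((B : ℝ) * 2 ^ (3 * r + 1) * (3 / 2) ^ r) ≤
        2 ^ r * ((B : ℝ) * 2 ^ (3 * r + 1) * (3 / 2) ^ r) := mul_le_mul_of_nonneg_right h8 (by positivity)
      _ = B * 2 * 24 ^ r := h9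
      _ ≤ B * 24 ^ (r + 1) := by
        rw [pow_succ]
        have : (0 : ℝ) ≤ (B : ℝ) * 24 ^ r := by positivity
        nlinarith
  rw [hg, map_mul, norm_mul]
  have h1 : ‖aeval t ((1 - X : ℤ[X]) ^ (2 * r + 1))‖ = ‖1 - t‖ ^ (2 * r + 1) := by
    rw [map_pow, map_sub, map_one, aeval_X, norm_pow]
  rw [h1, mul_comm]
  exact mul_le_mul_of_nonneg_right hgt (by positivity)

end RC91
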