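import Pool.Agent.LibRC91.Defs

/-!
# [RC91 D7] two consecutive Pade forms do not vanish at the same place
PLAN: In `ℤ[X]` (or `K[X]`) put `A_r = ∑_{s ≤ r} a r s X^s`, `B_r = ∑_{s≤r} a r (r-s) X^s`,
`Δ = A_r B_{r+1} - A_{r+1} B_r`. With `f_r = A_r(X^3) - X B_r(X^3)` (hypothesis: `(1-X)^(2r+1) ∣ f_r`,
`(1-X)^(2r+3) ∣ f_{r+1}`): `Δ(X^3) = f_r B_{r+1}(X^3) - f_{r+1} B_r(X^3)` is divisible by
`(1-X)^(2r+1)`. Multiplicities at 1: if `Δ = (X-1)^j Δ1` with `Δ1(1) ≠ 0` then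
`Δ(X^3) = (X-1)^j (X^2+X+1)^j Δ1(X^3)` and the last two factors are nonzero at 1; so
`j ≥ 2r+1` (over a field of characteristic zero, e.g. ℚ; `Δ ≠ 0` because its coefficient of degree `2r+1` is
`a r r * a (r+1) 0 - a (r+1) (r+1) * a r 0 ≠ 0`). `natDegree Δ ≤ 2r+1`, hence
`Δ = c (X-1)^(2r+1)`, `c ≠ 0`, over ℚ, and `Δ(w) ≠ 0` for `w ≠ 1`. If both equations hold then
`Δ(w) = τ B_r B_{r+1} - τ B_{r+1} B_r = 0`.
-/
set_option autoImplicit false
open Polynomial
namespace RC91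

private noncomputable def D7_P (K : Type) [Field K] (c : ℕ → ℤ) (n : ℕ) : K[X] :=
  ∑ s ∈ Finset.range (n + 1), C ((c s : ℤ) : K) * X ^ s

private theorem D7_deg (K : Type) [Field K] (c : ℕ → ℤ) (n : ℕ) : (D7_P K c n).natDegree ≤ n := by
  apply Polynomial.natDegree_sum_le_of_forall_le
  intro s hs
  rw [Finset.mem_range] at hs
  exact (Polynomial.natDegree_C_mul_X_pow_le _ _).trans (by omega)

private theorem D7_coeff (K : Type) [Field K] (c : ℕ → ℤ) (n : ℕ) :
    (D7_P K c n).coeff n = ((c n : ℤ) : K) := by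
  rw [D7_P, Polynomial.finsetSum_coeff, Finset.sum_eq_single n]
  · rw [Polynomial.coeff_C_mul_X_pow, if_pos rfl]
  · intro s _ hs
    rw [Polynomial.coeff_C_mul_X_pow, if_neg (fun h => hs h.symm)]
  · intro h
    exact absurd (Finset.mem_range.2 (Nat.lt_succ_self n)) h

private theorem D7_eval (K : Type) [Field K] (c : ℕ → ℤ) (n : ℕ) (w : K) :
    (D7_P K c n).eval w = ∑ s ∈ Finset.range (n + 1), ((c s : ℤ) : K) * w ^ s := by
  rw [D7_P, Polynomial.eval_finsetSum]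
  refine Finset.sum_congr rfl fun s _ => ?_
  rw [eval_mul, eval_C, eval_pow, eval_X]

private theorem D7_map {K : Type} [Field K] (c c' : ℕ → ℤ) (n m : ℕ)
    (h : (1 - X : ℤ[X]) ^ m ∣
      ∑ s ∈ Finset.range (n + 1), C (c s) * X ^ (3 * s) -
        ∑ s ∈ Finset.range (n + 1), C (c' s) * X ^ (3 * s + 1)) :
    (X - C 1 : K[X]) ^ m ∣ (D7_P K c n).comp (X ^ 3) - X * (D7_P K c' n).comp (X ^ 3) := by
  have h1 := map_dvd (mapRingHom (Int.castRingHom K)) h
  rw [map_pow, map_sub, map_one, map_sub, map_sum, map_sum] at h1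
  have e1 : (1 - (mapRingHom (Int.castRingHom K)) X : K[X]) = -(X - C 1) := by
    rw [coe_mapRingHom, map_X, C_1]
    ring
  rw [e1, neg_pow] at h1
  have e2 : ∑ s ∈ Finset.range (n + 1), (mapRingHom (Int.castRingHom K)) (C (c s) * X ^ (3 * s)) =
      (D7_P K c n).comp (X ^ 3) := by
    rw [D7_P, Polynomial.sum_comp]
    refine Finset.sum_congr rfl fun s _ => ?_
    rw [coe_mapRingHom, Polynomial.map_mul, Polynomial.map_C, Polynomial.map_pow, Polynomial.map_X,
      mul_comp, C_comp, pow_comp, X_comp, ← pow_mul]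
    rfl
  have e3 : ∑ s ∈ Finset.range (n + 1),
      (mapRingHom (Int.castRingHom K)) (C (c' s) * X ^ (3 * s + 1)) =
      X * (D7_P K c' n).comp (X ^ 3) := by
    rw [D7_P, Polynomial.sum_comp, Finset.mul_sum]
    refine Finset.sum_congr rfl fun s _ => ?_
    rw [coe_mapRingHom, Polynomial.map_mul, Polynomial.map_C, Polynomial.map_pow, Polynomial.map_X,
      mul_comp, C_comp, pow_comp, X_comp, ← pow_mul, pow_succ]
    change C ((c' s : ℤ) : K) * _ = _
    ring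
  rw [e2, e3] at h1
  exact (Dvd.intro_left _ rfl).trans h1

theorem D7 {K : Type} [Field K] [CharZero K] (a : ℕ → ℕ → ℤ) (r : ℕ)
    (h1 : (1 - X : ℤ[X]) ^ (2 * r + 1) ∣
      ∑ s ∈ Finset.range (r + 1), C (a r s) * X ^ (3 * s) -
        ∑ s ∈ Finset.range (r + 1), C (a r (r - s)) * X ^ (3 * s + 1))
    (h2 : (1 - X : ℤ[X]) ^ (2 * (r + 1) + 1) ∣
      ∑ s ∈ Finset.range (r + 1 + 1), C (a (r + 1) s) * X ^ (3 * s) -
        ∑ s ∈ Finset.range (r + 1 + 1), C (a (r + 1) (r + 1 - s)) * X ^ (3 * s + 1))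
    (h3 : a r r * a (r + 1) 0 ≠ a (r + 1) (r + 1) * a r 0)
    (w τ : K) (hw : w ≠ 1)
    (e1 : ∑ s ∈ Finset.range (r + 1), (a r s : K) * w ^ s =
      τ * ∑ s ∈ Finset.range (r + 1), (a r (r - s) : K) * w ^ s)
    (e2 : ∑ s ∈ Finset.range (r + 1 + 1), (a (r + 1) s : K) * w ^ s =
      τ * ∑ s ∈ Finset.range (r + 1 + 1), (a (r + 1) (r + 1 - s) : K) * w ^ s) : False := by
  set A0 : K[X] := D7_P K (a r) r with hA0
  set B0 : K[X] := D7_P K (fun s => a r (r - s)) r with hB0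
  set A1 : K[X] := D7_P K (a (r + 1)) (r + 1) with hA1
  set B1 : K[X] := D7_P K (fun s => a (r + 1) (r + 1 - s)) (r + 1) with hB1
  have f0 := D7_map (K := K) (a r) (fun s => a r (r - s)) r _ h1
  have f1 := D7_map (K := K) (a (r + 1)) (fun s => a (r + 1) (r + 1 - s)) (r + 1) _ h2
  rw [← hA0, ← hB0] at f0
  rw [← hA1, ← hB1] at f1
  set Δ : K[X] := A0 * B1 - A1 * B0 with hΔ
  have hcomp : Δ.comp (X ^ 3) =
      (A0.comp (X ^ 3) - X * B0.comp (X ^ 3)) * B1.comp (X ^ 3) -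
        (A1.comp (X ^ 3) - X * B1.comp (X ^ 3)) * B0.comp (X ^ 3) := by
    rw [hΔ, sub_comp, mul_comp, mul_comp]
    ring
  have hdvd : (X - C 1 : K[X]) ^ (2 * r + 1) ∣ Δ.comp (X ^ 3) := by
    rw [hcomp]
    apply dvd_sub
    · exact Dvd.dvd.mul_right f0 _
    · exact Dvd.dvd.mul_right ((pow_dvd_pow _ (by omega)).trans f1) _
  have hcoeff : Δ.coeff (r + (r + 1)) ≠ 0 := by
    have c1 : (A0 * B1).coeff (r + (r + 1)) = A0.coeff r * B1.coeff (r + 1) :=
      Polynomial.coeff_mul_add_eq_of_natDegree_le (D7_deg K _ r) (D7_deg K _ (r + 1))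
    have c2 : (B0 * A1).coeff (r + (r + 1)) = B0.coeff r * A1.coeff (r + 1) :=
      Polynomial.coeff_mul_add_eq_of_natDegree_le (D7_deg K _ r) (D7_deg K _ (r + 1))
    rw [hΔ, coeff_sub, mul_comm A1 B0, c1, c2, hA0, hB0, hA1, hB1, D7_coeff, D7_coeff, D7_coeff,
      D7_coeff, sub_ne_zero]
    intro h
    apply h3
    have h' : ((a r r * a (r + 1) (r + 1 - (r + 1)) : ℤ) : K) =
        ((a r (r - r) * a (r + 1) (r + 1) : ℤ) : K) := by
      rw [Int.cast_mul, Int.cast_mul]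
      exact h
    have h'' := Int.cast_injective h'
    rw [Nat.sub_self, Nat.sub_self] at h''
    rw [h'']
    ring
  have hne : Δ ≠ 0 := by
    intro h
    rw [h, coeff_zero] at hcoeff
    exact hcoeff rfl
  have hdeg : Δ.natDegree ≤ 2 * r + 1 := by
    rw [hΔ]
    refine (Polynomial.natDegree_sub_le _ _).trans (max_le ?_ ?_)
    · refine (Polynomial.natDegree_mul_le).trans ?_
      have h4 : A0.natDegree ≤ r := D7_deg K (a r) r
      have h5 : B1.natDegree ≤ r + 1 := D7_deg K (fun s => a (r + 1) (r + 1 - s)) (r + 1)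
      omega
    · refine (Polynomial.natDegree_mul_le).trans ?_
      have h4 : A1.natDegree ≤ r + 1 := D7_deg K (a (r + 1)) (r + 1)
      have h5 : B0.natDegree ≤ r := D7_deg K (fun s => a r (r - s)) r
      omega
  obtain ⟨G, hG, hG1⟩ := Polynomial.exists_eq_pow_rootMultiplicity_mul_and_not_dvd Δ hne 1
  set n := Δ.rootMultiplicity 1 with hn
  have hGe : G.eval 1 ≠ 0 := by
    intro h
    exact hG1 (Polynomial.dvd_iff_isRoot.2 h)
  have hcomp2 : Δ.comp (X ^ 3) = (X - C 1) ^ n * ((X ^ 2 + X + 1) ^ n * G.comp (X ^ 3)) := by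
    conv_lhs => rw [hG]
    rw [mul_comp, pow_comp, sub_comp, X_comp, C_comp, ← mul_assoc, ← mul_pow]
    congr 2
    rw [C_1]
    ring
  have hnr : 2 * r + 1 ≤ n := by
    by_contra hlt
    rw [not_le] at hlt
    have d1 : (X - C 1 : K[X]) ^ (n + 1) ∣
        (X - C 1) ^ n * ((X ^ 2 + X + 1) ^ n * G.comp (X ^ 3)) := by
      rw [← hcomp2]
      exact (pow_dvd_pow _ (by omega)).trans hdvd
    rw [pow_succ] at d1
    have d2 := (mul_dvd_mul_iff_left (pow_ne_zero n (Polynomial.X_sub_C_ne_zero (1 : K)))).1 d1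
    have d3 := Polynomial.dvd_iff_isRoot.1 d2
    rw [IsRoot.def, eval_mul, eval_pow, eval_comp] at d3
    simp only [eval_add, eval_pow, eval_X, eval_one, one_pow] at d3
    rcases mul_eq_zero.1 d3 with d4 | d4
    · have h3' : ((1 : K) + 1 + 1) ≠ 0 := by
        have : ((1 : K) + 1 + 1) = ((3 : ℕ) : K) := by
          push_cast
          norm_num
        rw [this]
        exact Nat.cast_ne_zero.2 (by norm_num)
      exact pow_ne_zero n h3' d4
    · exact hGe d4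
  have hG0 : G ≠ 0 := by
    rintro rfl
    exact hGe eval_zero
  have hdG : Δ.natDegree = n + G.natDegree := by
    conv_lhs => rw [hG]
    rw [natDegree_mul (pow_ne_zero n (Polynomial.X_sub_C_ne_zero (1 : K))) hG0, natDegree_pow,
      natDegree_X_sub_C, mul_one]
  have hGd : G.natDegree = 0 := by omega
  obtain ⟨c, hc⟩ := Polynomial.natDegree_eq_zero.1 hGd
  have hc0 : c ≠ 0 := by
    rintro rfl
    apply hG0
    rw [← hc, C_0]
  have hval : Δ.eval w = (w - 1) ^ n * c := by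
    conv_lhs => rw [hG]
    rw [← hc, eval_mul, eval_pow, eval_sub, eval_X, eval_C, eval_C]
  have hval0 : Δ.eval w = 0 := by
    rw [hΔ, eval_sub, eval_mul, eval_mul, hA0, hB0, hA1, hB1, D7_eval, D7_eval, D7_eval, D7_eval,
      e1, e2]
    ring
  rw [hval0] at hval
  have : (w - 1) ^ n * c ≠ 0 := mul_ne_zero (pow_ne_zero n (sub_ne_zero.2 hw)) hc0
  exact this hval.symm

end RC91
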