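import Pool.Agent.LibRC91.D5
import Pool.Agent.LibRC91.D6
import Pool.Agent.LibRC91.D7

/-!
# [RC91 D8] the Pade package in homogeneous form
`hA a r X Y = ∑_{s ≤ r} a r s X^(r-s) Y^s` (Defs).
PLAN: `a` from D5. (1) size. (2) for `X ≠ 0`, `w = Y / X`: `hA a r X Y = X^r A_r(w)`,
`hA a r Y X = X^r B_r(w)` (reindex `s ↦ r - s`: `∑ a r s Y^(r-s) X^s = ∑ a r (r-s) Y^s X^(r-s)`).
`D8_small`: in ℂ, if `t^3 = w`, `‖t - 1‖ ≤ 1/2`: `A_r(t^3) - t B_r(t^3) = aeval t f_r`, use D6 with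
`B = 300^(r+1)` (the coefficients of `f_r` are `a r s` or `- a r (r-s)` or 0, the exponents `3s`, `3s+1` are
different; degree `≤ 3r+1`), `300 * 24 = 7200`.
`D8_ne`: if both equal, divide by `X^r`, `X^(r+1)` and use D7 with `w = Y/X ≠ 1`.
-/
set_option autoImplicit false
namespace RC91

private theorem D8_X {K : Type} [Field K] (a : ℕ → ℕ → ℤ) (r : ℕ) (X Y : K) (hX : X ≠ 0) :
    hA a r X Y = X ^ r * ∑ s ∈ Finset.range (r + 1), (a r s : K) * (Y / X) ^ s := by
  unfold hA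
  rw [Finset.mul_sum]
  refine Finset.sum_congr rfl fun s hs => ?_
  have h : s ≤ r := Nat.lt_succ_iff.1 (Finset.mem_range.1 hs)
  have h1 : X ^ r = X ^ (r - s) * X ^ s := by rw [← pow_add, Nat.sub_add_cancel h]
  rw [h1, div_pow]
  field_simp

private theorem D8_Y {K : Type} [Field K] (a : ℕ → ℕ → ℤ) (r : ℕ) (X Y : K) (hX : X ≠ 0) :
    hA a r Y X = X ^ r * ∑ s ∈ Finset.range (r + 1), (a r (r - s) : K) * (Y / X) ^ s := by
  unfold hA
  rw [← Finset.sum_range_reflect, Finset.mul_sum]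
  refine Finset.sum_congr rfl fun s hs => ?_
  have h : s ≤ r := Nat.lt_succ_iff.1 (Finset.mem_range.1 hs)
  have h1 : X ^ r = X ^ (r - s) * X ^ s := by rw [← pow_add, Nat.sub_add_cancel h]
  have h2 : r + 1 - 1 - s = r - s := by omega
  have h3 : r - (r - s) = s := by omega
  rw [h2, h3, h1, div_pow]
  field_simp

private theorem D8_c (b : ℕ → ℤ) (g : ℕ → ℕ) (hg : Function.Injective g) (M : ℤ) (hM : 0 ≤ M)
    (hb : ∀ s, |b s| ≤ M) (n i : ℕ) :
    |∑ s ∈ Finset.range n, if i = g s then b s else 0| ≤ M := by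
  by_cases h : ∃ s ∈ Finset.range n, i = g s
  · obtain ⟨s, hs, hi⟩ := h
    rw [Finset.sum_eq_single_of_mem s hs]
    · rw [if_pos hi]
      exact hb s
    · intro t _ hts
      rw [if_neg]
      intro h1
      exact hts (hg (h1.symm.trans hi))
  · rw [Finset.sum_eq_zero]
    · simpa using hM
    · intro s hs
      rw [if_neg]
      intro h1
      exact h ⟨s, hs, h1⟩

private theorem D8_coeff (a : ℕ → ℕ → ℤ) (ha : ∀ r s, |a r s| ≤ 300 ^ (r + 1)) (r i : ℕ) :
    |(∑ s ∈ Finset.range (r + 1), Polynomial.C (a r s) * Polynomial.X ^ (3 * s) -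
        ∑ s ∈ Finset.range (r + 1), Polynomial.C (a r (r - s)) *
          Polynomial.X ^ (3 * s + 1) : Polynomial ℤ).coeff i| ≤ ((300 ^ (r + 1) : ℕ) : ℤ) := by
  have hM : (0 : ℤ) ≤ 300 ^ (r + 1) := by positivity
  rw [Polynomial.coeff_sub, Polynomial.finset_sum_coeff, Polynomial.finset_sum_coeff]
  simp only [Polynomial.coeff_C_mul_X_pow]
  push_cast
  by_cases h0 : i % 3 = 0
  · have h1 : (∑ s ∈ Finset.range (r + 1), if i = 3 * s + 1 then a r (r - s) else 0) = 0 := by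
      refine Finset.sum_eq_zero fun s _ => ?_
      rw [if_neg]
      omega
    rw [h1, sub_zero]
    exact D8_c (fun s => a r s) (fun s => 3 * s) (fun x y h => by
      have : 3 * x = 3 * y := h
      omega) _ hM (fun s => ha r s) _ _
  · have h1 : (∑ s ∈ Finset.range (r + 1), if i = 3 * s then a r s else 0) = 0 := by
      refine Finset.sum_eq_zero fun s _ => ?_
      rw [if_neg]
      omega
    rw [h1, zero_sub, abs_neg]
    exact D8_c (fun s => a r (r - s)) (fun s => 3 * s + 1) (fun x y h => by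
      have : 3 * x + 1 = 3 * y + 1 := h
      omega) _ hM (fun s => ha r (r - s)) _ _

private theorem D8_deg (a : ℕ → ℕ → ℤ) (r : ℕ) :
    (∑ s ∈ Finset.range (r + 1), Polynomial.C (a r s) * Polynomial.X ^ (3 * s) -
        ∑ s ∈ Finset.range (r + 1), Polynomial.C (a r (r - s)) *
          Polynomial.X ^ (3 * s + 1) : Polynomial ℤ).natDegree ≤ 3 * r + 1 := by
  refine (Polynomial.natDegree_sub_le _ _).trans (max_le ?_ ?_)
  · refine Polynomial.natDegree_sum_le_of_forall_le _ _ fun s hs => ?_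
    refine (Polynomial.natDegree_C_mul_X_pow_le _ _).trans ?_
    have := Finset.mem_range.1 hs
    omega
  · refine Polynomial.natDegree_sum_le_of_forall_le _ _ fun s hs => ?_
    refine (Polynomial.natDegree_C_mul_X_pow_le _ _).trans ?_
    have := Finset.mem_range.1 hs
    omega

theorem D8 : ∃ a : ℕ → ℕ → ℤ, (∀ r s, |a r s| ≤ 300 ^ (r + 1)) ∧
    (∀ (r : ℕ) (X Y t : ℂ), X ≠ 0 → t ^ 3 * X = Y → ‖t - 1‖ ≤ 1 / 2 →
      ‖hA a r X Y - t * hA a r Y X‖ ≤ 7200 ^ (r + 1) * ‖X‖ ^ r * ‖1 - t‖ ^ (2 * r + 1)) ∧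
    (∀ (K : Type) [Field K] [CharZero K] (r : ℕ) (X Y τ : K), X ≠ 0 → X ≠ Y →
      hA a r X Y = τ * hA a r Y X → hA a (r + 1) X Y = τ * hA a (r + 1) Y X → False) := by
  obtain ⟨a, ha1, ha2, ha3⟩ := D5
  refine ⟨a, ha1, ?_, ?_⟩
  · intro r X Y t hX hY ht
    have h6 := D6 r (300 ^ (r + 1)) _ (D8_deg a r) (D8_coeff a ha1 r) (ha2 r) t ht
    have hw : Y / X = t ^ 3 := by
      rw [← hY]
      field_simp
    have h1 : hA a r X Y - t * hA a r Y X = X ^ r * Polynomial.aeval t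
        (∑ s ∈ Finset.range (r + 1), Polynomial.C (a r s) * Polynomial.X ^ (3 * s) -
        ∑ s ∈ Finset.range (r + 1), Polynomial.C (a r (r - s)) *
          Polynomial.X ^ (3 * s + 1) : Polynomial ℤ) := by
      rw [D8_X a r X Y hX, D8_Y a r X Y hX, hw, map_sub, map_sum, map_sum, mul_sub, Finset.mul_sum,
        Finset.mul_sum, Finset.mul_sum, Finset.mul_sum, Finset.mul_sum]
      congr 1
      · refine Finset.sum_congr rfl fun s _ => ?_
        rw [map_mul, map_pow, Polynomial.aeval_C, Polynomial.aeval_X, eq_intCast, pow_mul]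
      · refine Finset.sum_congr rfl fun s _ => ?_
        rw [map_mul, map_pow, Polynomial.aeval_C, Polynomial.aeval_X, eq_intCast,
          pow_succ t (3 * s), pow_mul]
        ring
    rw [h1, norm_mul, norm_pow]
    have h2 : (7200 : ℝ) ^ (r + 1) = 300 ^ (r + 1) * 24 ^ (r + 1) := by
      rw [← mul_pow]
      norm_num
    calc ‖X‖ ^ r * _ ≤ ‖X‖ ^ r * (((300 ^ (r + 1) : ℕ) : ℝ) * 24 ^ (r + 1) * ‖1 - t‖ ^ (2 * r + 1)) :=
          mul_le_mul_of_nonneg_left h6 (by positivity)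
      _ = _ := by
        rw [h2]
        push_cast
        ring
  · intro K _ _ r X Y τ hX hXY e1 e2
    have hw : Y / X ≠ 1 := by
      intro h
      rw [div_eq_one_iff_eq hX] at h
      exact hXY h.symm
    rw [D8_X a r X Y hX, D8_Y a r X Y hX] at e1
    rw [D8_X a (r + 1) X Y hX, D8_Y a (r + 1) X Y hX] at e2
    have f1 : ∑ s ∈ Finset.range (r + 1), (a r s : K) * (Y / X) ^ s =
        τ * ∑ s ∈ Finset.range (r + 1), (a r (r - s) : K) * (Y / X) ^ s := by
      apply mul_left_cancel₀ (pow_ne_zero r hX)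
      rw [e1]
      ring
    have f2 : ∑ s ∈ Finset.range (r + 1 + 1), (a (r + 1) s : K) * (Y / X) ^ s =
        τ * ∑ s ∈ Finset.range (r + 1 + 1), (a (r + 1) (r + 1 - s) : K) * (Y / X) ^ s := by
      apply mul_left_cancel₀ (pow_ne_zero (r + 1) hX)
      rw [e2]
      ring
    exact D7 a r (ha2 r) (ha2 (r + 1)) (ha3 r) (Y / X) τ hw f1 f2

end RC91
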