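import Mathlib

/-! # Weak Hall for 100% of the k ordered by radical: definitions

`k = A m^2`, `A` squarefree, `K = Q(rho)`, `rho^2 = A`; a point is `y^2 - A m^2 = x^3`,
its element is `al h y m = y + m rho`. -/

set_option autoImplicit false

open NumberField nonZeroDivisors IsDedekindDomain

namespace RC91

/-- a quadratic field with a square root `rho` of `A`, its conjugation and a complex embedding -/
structure QF (A : ℤ) (K : Type) [Field K] [NumberField K] where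
  rho : K
  sq : rho ^ 2 = (A : K)
  conj : K →+* K
  conj_rho : conj rho = -rho
  span : ∀ z : K, ∃ r s : ℚ, z = (r : K) + (s : K) * rho
  rank : Module.finrank ℚ K = 2
  emb : K →+* ℂ

/-- the element `y + m rho` of a point -/
def al {A : ℤ} {K : Type} [Field K] [NumberField K] (h : QF A K) (y m : ℤ) : K :=
  (y : K) + (m : K) * h.rho

/-- the valuation at a prime of `K` -/
noncomputable def vl {K : Type} [Field K] [NumberField K] (v : HeightOneSpectrum (𝓞 K))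
    (a : K) : ℤ :=
  FractionalIdeal.count K v (FractionalIdeal.spanSingleton (𝓞 K)⁰ a)

/-- the same class modulo cubes -/
def Eqv {K : Type} [Field K] (a b : K) : Prop := ∃ g : K, g ≠ 0 ∧ b = a * g ^ 3

/-- pairwise in different classes modulo cubes -/
def Ineq {K : Type} [Field K] (S : Set K) : Prop :=
  ∀ a ∈ S, ∀ b ∈ S, a ≠ b → ¬ Eqv a b

/-- primitivity of `(u, v, a)`: an odd prime dividing `a` and `v` divides `v` once and `u` twice;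
if `a` is even then `8` does not divide `v` -/
def Prm (u v a : ℤ) : Prop :=
  (∀ p : ℕ, p.Prime → p ≠ 2 → (p : ℤ) ∣ a → (p : ℤ) ∣ v → ¬ ((p : ℤ) ^ 2 ∣ v) ∧ (p : ℤ) ^ 2 ∣ u) ∧
  ((2 : ℤ) ∣ a → ¬ ((8 : ℤ) ∣ v))

/-- the triples `(u, v, a)` attached to `A` -/
def QA (A : ℤ) : Set (ℤ × ℤ × ℤ) :=
  {q | q.2.1 ≠ 0 ∧ q.1 ^ 2 - A * q.2.1 ^ 2 = 4 * q.2.2 ^ 3 ∧
    q.2.1 ^ 4 ≤ 65536 * |A| ∧ q.2.2 ^ 2 ≤ 16 * |A| ∧ Prm q.1 q.2.1 q.2.2}

/-- the triples `(u, v, a)` counted for all `|A| <= T` together -/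
def QS (T : ℕ) : Set (ℤ × ℤ × ℤ) :=
  {q | q.2.1 ≠ 0 ∧ q.2.2 ≠ 0 ∧ q.2.1 ^ 2 ∣ q.1 ^ 2 - 4 * q.2.2 ^ 3 ∧
    |q.1 ^ 2 - 4 * q.2.2 ^ 3| ≤ T * q.2.1 ^ 2 ∧
    q.2.1 ^ 4 ≤ 65536 * T ∧ q.2.2 ^ 2 ≤ 16 * T ∧ Prm q.1 q.2.1 q.2.2}

/-- the primes `p > 3` with `p | m`, `p` not dividing `A`, `p | x` -/
def cc (A m x : ℤ) : ℕ :=
  ∏ p ∈ m.natAbs.primeFactors.filter (fun p : ℕ => 3 < p ∧ ¬ ((p : ℤ) ∣ A) ∧ (p : ℤ) ∣ x), p

/-- the sixth power free integers `k ≠ 0` with `rad k ≤ R` -/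
def Fam (R : ℕ) : Set ℤ :=
  {k | k ≠ 0 ∧ (∀ p : ℕ, p.Prime → ¬ ((p : ℤ) ^ 6 ∣ k)) ∧ ∏ p ∈ k.natAbs.primeFactors, p ≤ R}

/-- a bad point of `k`: an integral point which violates `|k| ≥ |x|^(1-ε)` -/
def BadPt (ε : ℝ) (k x y : ℤ) : Prop :=
  y ^ 2 - x ^ 3 = k ∧ (|k| : ℝ) < (|x| : ℝ) ^ (1 - ε)

/-- homogeneous form of the Pade polynomial -/
def hA {K : Type} [Field K] (a : ℕ → ℕ → ℤ) (r : ℕ) (X Y : K) : K :=
  ∑ s ∈ Finset.range (r + 1), (a r s : K) * X ^ (r - s) * Y ^ s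

/-- the square free divisors data: `5`-tuples of pairwise coprime square free positive numbers
with product at most `R` -/
def Tup (R : ℕ) : Set (ℕ × ℕ × ℕ × ℕ × ℕ) :=
  {a | Squarefree (a.1 * a.2.1 * a.2.2.1 * a.2.2.2.1 * a.2.2.2.2) ∧
    a.1 * a.2.1 * a.2.2.1 * a.2.2.2.1 * a.2.2.2.2 ≤ R}

end RC91
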