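import Pool.Agent.LibRC91.G10

/-!
# [RC91 G11] bad points of one class
PLAN: fix `q0 ∈ S` (empty: trivial). For `q ∈ S` choose `g_q` with `al q = al q0 * g_q^3` and put
`τ_q = emb g_q/emb(conj g_q)`; by G3 `‖τ_q^3 - 1‖ ≤ 8 (d0 + dq)`, `d = ka/xs ≤ x^((1-ε)/2 - 3/2) ≤ 1/x`, so
`≤ 16/X0 ≤ 1/100` if `X0 ≥ 1600`. G2_root: a cube root of unity `ζ_q` with `‖τ_q - ζ_q‖ ≤ 1/100`. There are 3 cube roots
of 1 in ℂ, so `S` splits in at most 3 parts; for `q, q'` in one part take `g = g_q'/g_q`: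
`al q' = al q * g^3`, `emb g/emb(conj g) = τ_q'/τ_q` and `‖τ_q'/τ_q - 1‖ ≤ (2/100)/(99/100) ≤ 1/10`.
Apply G10 to each part (constant `3 C`).
-/
set_option autoImplicit false
namespace RC91

private theorem G11_sz (ε : ℝ) (hε : 0 < ε) (A x m : ℤ) (hx : (1600 : ℝ) ≤ (x : ℝ))
    (hk : ((|A * m ^ 2| : ℤ) : ℝ) ≤ (x : ℝ) ^ (1 - ε)) :
    25600 * |A * m ^ 2| ≤ x ^ 3 ∧ ka A m / xs x ≤ 1 / 1600 := by
  have hx0 : (0 : ℝ) < (x : ℝ) := by linarith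
  have hle : ((|A * m ^ 2| : ℤ) : ℝ) ≤ (x : ℝ) := by
    calc ((|A * m ^ 2| : ℤ) : ℝ) ≤ (x : ℝ) ^ (1 - ε) := hk
      _ ≤ (x : ℝ) ^ (1 : ℝ) := Real.rpow_le_rpow_of_exponent_le (by linarith) (by linarith)
      _ = x := Real.rpow_one _
  constructor
  · have h1 : (25600 : ℝ) * ((|A * m ^ 2| : ℤ) : ℝ) ≤ (x : ℝ) ^ 3 := by
      calc (25600 : ℝ) * ((|A * m ^ 2| : ℤ) : ℝ) ≤ 25600 * x := by linarith
        _ ≤ (x : ℝ) ^ 2 * x := by
          refine mul_le_mul_of_nonneg_right ?_ hx0.le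
          nlinarith
        _ = (x : ℝ) ^ 3 := by ring
    exact_mod_cast h1
  · have hs : 0 < Real.sqrt (x : ℝ) := Real.sqrt_pos.2 hx0
    have h1 : ka A m ≤ Real.sqrt (x : ℝ) := Real.sqrt_le_sqrt hle
    have h2 : xs x = (x : ℝ) * Real.sqrt x := rfl
    rw [h2, div_le_iff₀ (by positivity)]
    nlinarith

theorem G11 (ε : ℝ) (hε : 0 < ε) (hε1 : ε < 1) : ∃ C X0 : ℝ, 0 < C ∧ 1 ≤ X0 ∧
    ∀ (A : ℤ) (K : Type) [Field K] [NumberField K] (h : QF A K) (B : ℝ), 3 ≤ B →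
    ∀ S : Finset (ℤ × ℤ × ℤ),
    (∀ q ∈ S, X0 ≤ (q.1 : ℝ) ∧ 0 < q.2.2 ∧ q.2.1 ^ 2 - A * q.2.2 ^ 2 = q.1 ^ 3 ∧
      (∀ p : ℕ, p.Prime → ¬ ((p : ℤ) ^ 6 ∣ A * q.2.2 ^ 2)) ∧
      ((|A * q.2.2 ^ 2| : ℤ) : ℝ) ≤ (q.1 : ℝ) ^ (1 - ε) ∧ ((|A * q.2.2 ^ 2| : ℤ) : ℝ) ≤ B) →
    (∀ q ∈ S, ∀ q' ∈ S, Eqv (al h q.2.1 q.2.2) (al h q'.2.1 q'.2.2)) →
    (S.card : ℝ) ≤ C * (1 + Real.log (1 + Real.log B)) := by
  classical
  obtain ⟨C, X0, hC, hX0, h10⟩ := G10 ε hε hε1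
  refine ⟨3 * C, max X0 1600, by linarith, le_max_of_le_left hX0, ?_⟩
  intro A K _ _ h B hB S hS hcls
  have hlogB : 0 ≤ Real.log B := Real.log_nonneg (by linarith)
  have hL : 0 ≤ Real.log (1 + Real.log B) := Real.log_nonneg (by linarith)
  rcases S.eq_empty_or_nonempty with hSe | ⟨q0, hq0⟩
  · rw [hSe]
    simp only [Finset.card_empty, Nat.cast_zero]
    positivity
  have hex : ∀ q ∈ S, ∃ g : K, g ≠ 0 ∧ al h q.2.1 q.2.2 = al h q0.2.1 q0.2.2 * g ^ 3 :=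
    fun q hq => hcls q0 hq0 q hq
  choose! g hg0 hg using hex
  have hx : ∀ q ∈ S, (1600 : ℝ) ≤ (q.1 : ℝ) := fun q hq => (le_max_right _ _).trans (hS q hq).1
  have hxp : ∀ q ∈ S, 0 < q.1 := fun q hq => by
    exact_mod_cast (by linarith [hx q hq] : (0 : ℝ) < (q.1 : ℝ))
  have hroot : ∀ q ∈ S, ∃ ζ : ℂ, ζ ^ 3 = 1 ∧
      ‖h.emb (g q) / h.emb (h.conj (g q)) - ζ‖ ≤ 1 / 100 := by
    intro q hq
    obtain ⟨k0, d0⟩ := G11_sz ε hε A q0.1 q0.2.2 (hx q0 hq0) (hS q0 hq0).2.2.2.2.1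
    obtain ⟨k1, d1⟩ := G11_sz ε hε A q.1 q.2.2 (hx q hq) (hS q hq).2.2.2.2.1
    have h3 := (G3 h q0.1 q0.2.1 q0.2.2 q.1 q.2.1 q.2.2 (hxp q0 hq0) (hxp q hq)
      (hS q0 hq0).2.2.1 (hS q hq).2.2.1 k0 k1 (g q) (hg0 q hq) (hg q hq)).1
    have h4 : ‖(h.emb (g q) / h.emb (h.conj (g q))) ^ 3 - 1‖ ≤ 1 / 100 := by
      refine h3.trans ?_
      linarith
    obtain ⟨ζ, hζ, hζ'⟩ := G2_root _ (h4.trans (by norm_num))
    exact ⟨ζ, hζ, hζ'.trans h4⟩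
  choose! ζ hζ1 hζ2 using hroot
  have himg : (S.image ζ).card ≤ 3 := by
    have hsub : S.image ζ ⊆ (Polynomial.nthRoots 3 (1 : ℂ)).toFinset := by
      intro z hz
      obtain ⟨q, hq, rfl⟩ := Finset.mem_image.1 hz
      rw [Multiset.mem_toFinset, Polynomial.mem_nthRoots (by norm_num)]
      exact hζ1 q hq
    calc (S.image ζ).card ≤ (Polynomial.nthRoots 3 (1 : ℂ)).toFinset.card :=
          Finset.card_le_card hsub
      _ ≤ Multiset.card (Polynomial.nthRoots 3 (1 : ℂ)) := Multiset.toFinset_card_le _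
      _ ≤ 3 := Polynomial.card_nthRoots 3 1
  have hpart : ∀ z ∈ S.image ζ, ((S.filter fun q => ζ q = z).card : ℝ) ≤
      C * (1 + Real.log (1 + Real.log B)) := by
    intro z _
    refine h10 A K h B hB _ ?_ ?_
    · intro q hq
      have hqS := (Finset.mem_filter.1 hq).1
      obtain ⟨a1, a2, a3, a4, a5, a6⟩ := hS q hqS
      exact ⟨(le_max_left _ _).trans a1, a2, a3, a4, a5, a6⟩
    · intro q hq q' hq'
      obtain ⟨hqS, hqz⟩ := Finset.mem_filter.1 hq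
      obtain ⟨hqS', hqz'⟩ := Finset.mem_filter.1 hq'
      have n0 := hg0 q hqS
      have n0' := hg0 q' hqS'
      refine ⟨g q' / g q, div_ne_zero n0' n0, ?_, ?_⟩
      · rw [hg q' hqS', hg q hqS]
        field_simp
      · set τ : ℂ := h.emb (g q) / h.emb (h.conj (g q)) with hτ
        set τ' : ℂ := h.emb (g q') / h.emb (h.conj (g q')) with hτ'
        have b1 : ‖τ - z‖ ≤ 1 / 100 := by rw [← hqz]; exact hζ2 q hqS
        have b2 : ‖τ' - z‖ ≤ 1 / 100 := by rw [← hqz']; exact hζ2 q' hqS'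
        have hz3 : z ^ 3 = 1 := by rw [← hqz]; exact hζ1 q hqS
        have hzn : ‖z‖ = 1 := Complex.norm_eq_one_of_pow_eq_one hz3 (by norm_num)
        have hτn : 99 / 100 ≤ ‖τ‖ := by
          have h1 : ‖z‖ ≤ ‖τ‖ + ‖τ - z‖ := by
            calc ‖z‖ = ‖τ - (τ - z)‖ := by congr 1; ring
              _ ≤ ‖τ‖ + ‖τ - z‖ := norm_sub_le _ _
          rw [hzn] at h1
          linarith
        have hτ0 : τ ≠ 0 := by
          intro h0
          rw [h0, norm_zero] at hτn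
          norm_num at hτn
        have hdiff : ‖τ' - τ‖ ≤ 2 / 100 := by
          calc ‖τ' - τ‖ = ‖(τ' - z) - (τ - z)‖ := by congr 1; ring
            _ ≤ ‖τ' - z‖ + ‖τ - z‖ := norm_sub_le _ _
            _ ≤ 2 / 100 := by linarith
        have hquot : h.emb (g q' / g q) / h.emb (h.conj (g q' / g q)) = τ' / τ := by
          rw [hτ, hτ']
          simp only [map_div₀]
          rw [div_div_div_comm]
        rw [hquot]
        have h2 : τ' / τ - 1 = (τ' - τ) / τ := by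
          field_simp
        rw [h2, norm_div, div_le_iff₀ (by linarith)]
        linarith
  have hsum : (S.card : ℝ) = ∑ z ∈ S.image ζ, ((S.filter fun q => ζ q = z).card : ℝ) := by
    rw [Finset.card_eq_sum_card_image ζ S]
    push_cast
    rfl
  rw [hsum]
  calc ∑ z ∈ S.image ζ, ((S.filter fun q => ζ q = z).card : ℝ)
      ≤ ∑ _z ∈ S.image ζ, C * (1 + Real.log (1 + Real.log B)) := Finset.sum_le_sum hpart
    _ = ((S.image ζ).card : ℝ) * (C * (1 + Real.log (1 + Real.log B))) := by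
        rw [Finset.sum_const, nsmul_eq_mul]
    _ ≤ 3 * (C * (1 + Real.log (1 + Real.log B))) := by
        refine mul_le_mul_of_nonneg_right ?_ (by positivity)
        exact_mod_cast himg
    _ = 3 * C * (1 + Real.log (1 + Real.log B)) := by ring

end RC91
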