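import Pool.Agent.LibRC91.C1
import Pool.Agent.LibRC91.G11
import Pool.Agent.LibRC91.K1
import Pool.Agent.LibRC91.F1

/-!
# [RC91 F2] bad `k` with given `(A, c)`
PLAN: `C, X0` from G11, `A0 = max 2 ⌈X0⌉` . A bad point `(x, y)` of `k = A m^2`: `|k| < |x|^(1-ε)`. `x > 0`: `x = 0` gives
`|k| < 0`; `x < 0`: `y^2 = x^3 + k ≥ 0` gives `|k| ≥ |x|^3 ≥ |x|^(1-ε)`. `x ≥ |x|^(1-ε) > |k| ≥ |A| ≥ A0 ≥ X0`
(`x ≥ 1`). For every `k ∈ S` choose such a triple `q_k = (x, y, m)`, `m > 0`; `k ↦ q_k` is injective (`k = A m^2`).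
Let `K, h` be from K1 (`A ≠ 1`). Among the triples choose a maximal subset `S'` of pairwise inequivalent ones
(`Eqv` of the `al` is an equivalence relation on nonzero elements; e.g. one representative of every class):
`#S' ≤ 81 * 2^ω(c) * (1 + #QA A)` by C1. Every class contains at most `C (1 + log(1+log B))` triples (G11).
-/
set_option autoImplicit false
namespace RC91

private theorem F2_refl {K : Type} [Field K] (a : K) : Eqv a a :=
  ⟨1, one_ne_zero, by ring⟩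

private theorem F2_symm {K : Type} [Field K] {a b : K} (hab : Eqv a b) : Eqv b a := by
  obtain ⟨g, hg, e⟩ := hab
  refine ⟨g⁻¹, inv_ne_zero hg, ?_⟩
  rw [e]; field_simp

private theorem F2_trans {K : Type} [Field K] {a b c : K} (hab : Eqv a b) (hbc : Eqv b c) :
    Eqv a c := by
  obtain ⟨g, hg, e⟩ := hab
  obtain ⟨g', hg', e'⟩ := hbc
  exact ⟨g * g', mul_ne_zero hg hg', by rw [e', e]; ring⟩

/-- a bad point of a `k` with `|k| ≥ 1` has `x > |k|` -/
private theorem F2_pos (ε : ℝ) (hε : 0 < ε) (hε1 : ε < 1) (k x y : ℤ) (hb : BadPt ε k x y) :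
    0 < x ∧ (|k| : ℝ) < (x : ℝ) ^ (1 - ε) ∧ (|k| : ℝ) < (x : ℝ) := by
  obtain ⟨e, hlt⟩ := hb
  have hk0 : (0 : ℝ) ≤ |(k : ℝ)| := abs_nonneg _
  have hx0 : 0 < x := by
    by_contra hcon
    rcases lt_or_eq_of_le (not_lt.mp hcon) with hneg | hzero
    · -- `x < 0`
      have h1 : 1 ≤ -x := by omega
      have h2 : (-x) ^ 3 ≤ k := by nlinarith [sq_nonneg y]
      have h3 : (-x) ≤ (-x) ^ 3 := by nlinarith [sq_nonneg x]
      have h4 : ((-x : ℤ) : ℝ) ≤ |(k : ℝ)| := by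
        have h5 : -x ≤ |k| := (h3.trans h2).trans (le_abs_self k)
        exact_mod_cast h5
      have h6 : |(x : ℝ)| = ((-x : ℤ) : ℝ) := by
        have h7 : (x : ℝ) < 0 := by exact_mod_cast hneg
        rw [abs_of_neg h7]; push_cast; ring
      have h8 : (1 : ℝ) ≤ |(x : ℝ)| := by
        rw [h6]; exact_mod_cast h1
      have h9 : |(x : ℝ)| ^ (1 - ε) ≤ |(x : ℝ)| := by
        calc |(x : ℝ)| ^ (1 - ε) ≤ |(x : ℝ)| ^ (1 : ℝ) :=
              Real.rpow_le_rpow_of_exponent_le h8 (by linarith)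
          _ = |(x : ℝ)| := Real.rpow_one _
      rw [h6] at h9 hlt
      linarith
    · rw [hzero] at hlt
      have h10 : |((0 : ℤ) : ℝ)| ^ (1 - ε) = 0 := by
        rw [Int.cast_zero, abs_zero]
        exact Real.zero_rpow (by linarith)
      rw [h10] at hlt
      linarith
  have h1 : (1 : ℝ) ≤ (x : ℝ) := by exact_mod_cast hx0
  have h2 : |(x : ℝ)| = (x : ℝ) := abs_of_nonneg (by linarith)
  rw [h2] at hlt
  have h9 : (x : ℝ) ^ (1 - ε) ≤ (x : ℝ) := by
    calc (x : ℝ) ^ (1 - ε) ≤ (x : ℝ) ^ (1 : ℝ) :=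
          Real.rpow_le_rpow_of_exponent_le h1 (by linarith)
      _ = (x : ℝ) := Real.rpow_one _
  exact ⟨hx0, hlt, lt_of_lt_of_le hlt h9⟩

/-- counting with classes: if every class of a finite set has at most `M` elements and every set
of pairwise inequivalent elements has at most `N` elements then the set has at most `N * M` -/
private theorem F2_classes {α : Type} [DecidableEq α] (r : Setoid α) (T : Finset α) (N : ℕ)
    (M : ℝ) (hM : 0 ≤ M)
    (hcl : ∀ F : Finset α, F ⊆ T → (∀ a ∈ F, ∀ b ∈ F, r a b) → (F.card : ℝ) ≤ M)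
    (hin : ∀ F : Finset α, F ⊆ T → (∀ a ∈ F, ∀ b ∈ F, a ≠ b → ¬ r a b) → F.card ≤ N) :
    (T.card : ℝ) ≤ N * M := by
  classical
  set π : α → Quotient r := fun a => Quotient.mk r a with hπ
  have hU : (T.image π).card ≤ N := by
    have hrep : ∀ u : Quotient r, ∃ a : α, u ∈ T.image π → a ∈ T ∧ π a = u := by
      intro u
      by_cases hu : u ∈ T.image π
      · obtain ⟨a, ha, hau⟩ := Finset.mem_image.mp hu
        exact ⟨a, fun _ => ⟨ha, hau⟩⟩
      · exact ⟨Quotient.out u, fun hh => absurd hh hu⟩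
    choose rep hrep using hrep
    have hinj : Set.InjOn rep (T.image π : Finset (Quotient r)) := by
      intro u hu v hv huv
      have h1 := (hrep u (by exact_mod_cast hu)).2
      have h2 := (hrep v (by exact_mod_cast hv)).2
      rw [← h1, ← h2, huv]
    rw [← Finset.card_image_of_injOn hinj]
    apply hin
    · intro a ha
      obtain ⟨u, hu, rfl⟩ := Finset.mem_image.mp ha
      exact (hrep u hu).1
    · intro a ha b hb hab hr
      obtain ⟨u, hu, rfl⟩ := Finset.mem_image.mp ha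
      obtain ⟨v, hv, rfl⟩ := Finset.mem_image.mp hb
      apply hab
      have h1 : π (rep u) = π (rep v) := Quotient.sound hr
      rw [(hrep u hu).2, (hrep v hv).2] at h1
      rw [h1]
  have hcard : (T.card : ℝ) = ∑ u ∈ T.image π, ((T.filter (fun a => π a = u)).card : ℝ) := by
    rw [Finset.card_eq_sum_card_image π T]
    push_cast
    rfl
  rw [hcard]
  calc ∑ u ∈ T.image π, ((T.filter (fun a => π a = u)).card : ℝ)
      ≤ ∑ _u ∈ T.image π, M := by
        apply Finset.sum_le_sum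
        intro u _
        apply hcl
        · exact Finset.filter_subset _ _
        · intro a ha b hb
          have h1 := (Finset.mem_filter.mp ha).2
          have h2 := (Finset.mem_filter.mp hb).2
          exact Quotient.exact (h1.trans h2.symm)
    _ = ((T.image π).card : ℝ) * M := by rw [Finset.sum_const, nsmul_eq_mul]
    _ ≤ N * M := mul_le_mul_of_nonneg_right (by exact_mod_cast hU) hM

theorem F2 (ε : ℝ) (hε : 0 < ε) (hε1 : ε < 1) : ∃ C A0 : ℝ, 0 < C ∧ 2 ≤ A0 ∧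
    ∀ A : ℤ, Squarefree A → A0 ≤ (|A| : ℝ) → ∀ B : ℝ, 3 ≤ B → ∀ c : ℕ, ∀ S : Finset ℤ,
    (∀ k ∈ S, (∀ p : ℕ, p.Prime → ¬ ((p : ℤ) ^ 6 ∣ k)) ∧ (|k| : ℝ) ≤ B ∧
      ∃ m x y : ℤ, 0 < m ∧ k = A * m ^ 2 ∧ BadPt ε k x y ∧ cc A m x = c) →
    (S.card : ℝ) ≤ C * (1 + Real.log (1 + Real.log B)) * 2 ^ c.primeFactors.card *
      (1 + ((QA A).ncard : ℝ)) := by
  obtain ⟨C, X0, hC, hX0, hG⟩ := G11 ε hε hε1
  refine ⟨81 * C, max 2 X0, by positivity, le_max_left _ _, ?_⟩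
  intro A hA hAbig B hB c S hS
  have hA2 : (2 : ℝ) ≤ |(A : ℝ)| := (le_max_left _ _).trans hAbig
  have hAX : X0 ≤ |(A : ℝ)| := (le_max_right _ _).trans hAbig
  have hA1 : A ≠ 1 := by
    rintro rfl
    norm_num at hA2
  obtain ⟨K, iK, iN, ⟨h⟩⟩ := K1 A hA hA1
  -- choose the triples
  have hq : ∀ k : ℤ, ∃ q : ℤ × ℤ × ℤ, k ∈ S →
      (0 < q.2.2 ∧ k = A * q.2.2 ^ 2 ∧ BadPt ε k q.1 q.2.1 ∧ cc A q.2.2 q.1 = c) := by
    intro k
    by_cases hk : k ∈ S
    · obtain ⟨_, _, m, x, y, hm, hkm, hb, hc⟩ := hS k hk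
      exact ⟨(x, y, m), fun _ => ⟨hm, hkm, hb, hc⟩⟩
    · exact ⟨(0, 0, 0), fun hh => absurd hh hk⟩
  choose f hf using hq
  have hinj : Set.InjOn f (S : Set ℤ) := by
    intro k hk k' hk' e
    have h1 := (hf k (by exact_mod_cast hk)).2.1
    have h2 := (hf k' (by exact_mod_cast hk')).2.1
    rw [h1, h2, e]
  have hcard : (S.image f).card = S.card := Finset.card_image_of_injOn hinj
  -- properties of the triples
  have hT : ∀ q ∈ S.image f, X0 ≤ (q.1 : ℝ) ∧ 0 < q.2.2 ∧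
      q.2.1 ^ 2 - A * q.2.2 ^ 2 = q.1 ^ 3 ∧
      (∀ p : ℕ, p.Prime → ¬ ((p : ℤ) ^ 6 ∣ A * q.2.2 ^ 2)) ∧
      ((|A * q.2.2 ^ 2| : ℤ) : ℝ) ≤ (q.1 : ℝ) ^ (1 - ε) ∧ ((|A * q.2.2 ^ 2| : ℤ) : ℝ) ≤ B ∧
      0 < q.1 ∧ cc A q.2.2 q.1 = c := by
    intro q hq
    obtain ⟨k, hk, rfl⟩ := Finset.mem_image.mp hq
    obtain ⟨hm, hkm, hb, hc⟩ := hf k hk
    obtain ⟨h6, hkB, _⟩ := hS k hk
    obtain ⟨hx, hlt, hlt'⟩ := F2_pos ε hε hε1 k _ _ hb
    have habs : ((|A * (f k).2.2 ^ 2| : ℤ) : ℝ) = |(k : ℝ)| := by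
      rw [← hkm]; push_cast; rfl
    have hAk : |(A : ℝ)| ≤ |(k : ℝ)| := by
      have h1 : |A| ≤ |k| := by
        rw [hkm, abs_mul]
        have h2 : 1 ≤ |(f k).2.2 ^ 2| := by
          rw [abs_of_nonneg (sq_nonneg _)]
          nlinarith
        nlinarith [abs_nonneg A]
      exact_mod_cast h1
    refine ⟨?_, hm, ?_, ?_, ?_, ?_, hx, hc⟩
    · linarith
    · have h3 := hb.1
      rw [← hkm]; linarith
    · rw [← hkm]; exact h6
    · rw [habs]; exact hlt.le
    · rw [habs]; exact hkB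
  have hlogB : 0 ≤ Real.log B := Real.log_nonneg (by linarith)
  have hloglog : 0 ≤ Real.log (1 + Real.log B) := Real.log_nonneg (by linarith)
  have hM : 0 ≤ C * (1 + Real.log (1 + Real.log B)) := by positivity
  let r : Setoid (ℤ × ℤ × ℤ) :=
    { r := fun q q' => Eqv (al h q.2.1 q.2.2) (al h q'.2.1 q'.2.2)
      iseqv := ⟨fun _ => F2_refl _, fun hab => F2_symm hab, fun hab hbc => F2_trans hab hbc⟩ }
  have hmain := F2_classes r (S.image f) (81 * 2 ^ c.primeFactors.card * (1 + (QA A).ncard))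
    (C * (1 + Real.log (1 + Real.log B))) hM ?_ ?_
  · rw [hcard] at hmain
    refine hmain.trans (le_of_eq ?_)
    push_cast
    ring
  · intro F hF hFr
    apply hG A K h B hB F
    · intro q hq
      obtain ⟨a1, a2, a3, a4, a5, a6, _, _⟩ := hT q (hF hq)
      exact ⟨a1, a2, a3, a4, a5, a6⟩
    · intro q hq q' hq'
      exact hFr q hq q' hq'
  · intro F hF hFr
    apply C1 h hA hA1 c F
    · intro q hq
      obtain ⟨a1, a2, a3, a4, a5, a6, a7, a8⟩ := hT q (hF hq)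
      exact ⟨a7.ne', a2.ne', a3, a4, a8⟩
    · intro q hq q' hq' hne
      exact hFr q hq q' hq' hne

end RC91
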