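import Pool.Agent.LibRC91.F2
import Pool.Agent.LibRC91.QI

/-!
# [RC91 F3] the number of bad `k` in the family
PLAN: `C, A0` from F2 (with `B = R^5`, `1 + log(1 + log (R^5)) ≤ 1 + log 5 + log (1 + log R) ≤ 3 (1 + log (1 + log R))`).
Every bad `k ∈ Fam R` is `A m^2` (F1_dec). If `|A| < A0`: finitely many `A` (constant number), each gives at most
`τ(A)^2 R (1 + log R)` values (F1_few). Otherwise choose a bad point `(x, y)` and `c = cc A m x`: `1 ≤ c`, `|A| c ≤ R`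
(F1_rad). For fixed `(A, c)` F2. Sum: for `c ≤ R` put `T = R / c ≥ 1` (natural division) and let `𝒜` be the set of
square free `A ≠ 1`, `1 ≤ |A| ≤ T`: `#𝒜 ≤ 2 T + 1 ≤ 3 T`, `∑_{A ∈ 𝒜} #QA A ≤ C' T (1 + log T)` (QI_sum). So the total is
`≤ C'' (1 + log(1+log R)) ∑_{c ≤ R} 2^ω(c) (R/c) (1 + log R) ≤ C'' R (1 + log R)^3 (1 + log(1+log R))` (QI_two), and
`1 + log R ≤ 2 log R` for `R ≥ 3`.
-/
set_option autoImplicit false
namespace RC91

open Finset in
private theorem F3_few (A : ℤ) (R : ℕ) (hR : 1 ≤ R) (S : Finset ℤ)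
    (hS : ∀ k ∈ S, k ∈ Fam R ∧ Squarefree A ∧ ∃ m : ℤ, k = A * m ^ 2) :
    (S.card : ℝ) ≤ ((A.natAbs.divisors.card : ℝ)) ^ 2 * (R * (1 + Real.log R)) := by
  have hlog : 0 ≤ Real.log R := Real.log_nonneg (by exact_mod_cast hR)
  rcases S.eq_empty_or_nonempty with rfl | ⟨k0, hk0⟩
  · simp only [card_empty, Nat.cast_zero]
    positivity
  · obtain ⟨h1, h2⟩ := F1_few A (hS k0 hk0).2.1 R hR
    have h3 : S.card ≤ {k : ℤ | k ∈ Fam R ∧ ∃ m : ℤ, k = A * m ^ 2}.ncard := by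
      rw [← Set.ncard_coe_finset]
      refine Set.ncard_le_ncard (fun k hk => ?_) h1
      exact ⟨(hS k hk).1, (hS k hk).2.2⟩
    calc (S.card : ℝ) ≤ _ := Nat.cast_le.2 h3
      _ ≤ _ := h2
      _ = _ := by ring

open Finset in
private theorem F3_inner {C' : ℝ} (hC' : 0 < C') (hsum : ∀ T : ℕ, 1 ≤ T → ∀ S : Finset ℤ,
    (∀ A ∈ S, Squarefree A ∧ A ≠ 1 ∧ |A| ≤ T) →
    ∑ A ∈ S, ((QA A).ncard : ℝ) ≤ C' * T * (1 + Real.log T)) (R c : ℕ)
    (hc : 1 ≤ c) (hcR : c ≤ R) (S : Finset ℤ)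
    (hS : ∀ A ∈ S, Squarefree A ∧ A ≠ 1 ∧ |A| ≤ ((R / c : ℕ) : ℤ)) :
    ∑ A ∈ S, (1 + ((QA A).ncard : ℝ)) ≤ (3 + C') * (R / c) * (1 + Real.log R) := by
  have hT : 1 ≤ R / c := (Nat.one_le_div_iff (by omega)).2 hcR
  have hTR : R / c ≤ R := Nat.div_le_self _ _
  have h1 := hsum (R / c) hT S hS
  have h2 : S ⊆ Icc (-((R / c : ℕ) : ℤ)) ((R / c : ℕ) : ℤ) := by
    intro A hA
    exact mem_Icc.2 (abs_le.1 (hS A hA).2.2)
  have h3 := card_le_card h2
  rw [Int.card_Icc] at h3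
  have h4 : (S.card : ℝ) ≤ 3 * ((R / c : ℕ) : ℝ) := by
    have : S.card ≤ 3 * (R / c) := by omega
    exact_mod_cast this
  have h5 : (((R / c : ℕ) : ℝ)) ≤ (R : ℝ) / c := Nat.cast_div_le
  have hT1 : (1 : ℝ) ≤ ((R / c : ℕ) : ℝ) := by exact_mod_cast hT
  have h6 : Real.log ((R / c : ℕ) : ℝ) ≤ Real.log R :=
    Real.log_le_log (by linarith) (by exact_mod_cast hTR)
  have h7 : 0 ≤ Real.log ((R / c : ℕ) : ℝ) := Real.log_nonneg hT1
  have h8 : (1 : ℝ) ≤ 1 + Real.log R := by linarith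
  rw [sum_add_distrib, sum_const, nsmul_eq_mul, mul_one]
  calc (S.card : ℝ) + ∑ A ∈ S, ((QA A).ncard : ℝ)
      ≤ 3 * ((R / c : ℕ) : ℝ) * (1 + Real.log R) +
        C' * ((R / c : ℕ) : ℝ) * (1 + Real.log R) := by
        refine add_le_add ?_ (h1.trans ?_)
        · nlinarith
        · have : 0 ≤ C' * ((R / c : ℕ) : ℝ) := by positivity
          nlinarith
    _ = (3 + C') * ((R / c : ℕ) : ℝ) * (1 + Real.log R) := by ring
    _ ≤ (3 + C') * ((R : ℝ) / c) * (1 + Real.log R) := by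
        have : 0 ≤ 3 + C' := by positivity
        exact mul_le_mul_of_nonneg_right (mul_le_mul_of_nonneg_left h5 this) (by linarith)

private theorem F3_num {C1 C0 C' R L G G5 a b : ℝ} (hC1 : 0 ≤ C1) (hC0 : 0 ≤ C0) (hC' : 0 ≤ C')
    (hR : 0 ≤ R) (hL : 1 ≤ L) (hG : 1 ≤ G) (h5 : G5 ≤ 3 * G)
    (ha : a ≤ C1 * (R * (1 + L)))
    (hb : b ≤ C0 * G5 * ((3 + C') * R * (1 + L) * (1 + L) ^ 2)) :
    a + b ≤ (2 * C1 + 24 * C0 * (3 + C')) * R * L ^ 3 * G := by
  have hL3 : L ≤ L ^ 3 := le_self_pow₀ hL (by norm_num)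
  have hL3p : 0 ≤ L ^ 3 := by positivity
  have e1 : C1 * (R * (1 + L)) ≤ 2 * C1 * R * L ^ 3 * G := by
    have h1 : C1 * (R * (1 + L)) ≤ C1 * (R * (2 * L ^ 3)) :=
      mul_le_mul_of_nonneg_left (mul_le_mul_of_nonneg_left (by linarith) hR) hC1
    have h2 : C1 * (R * (2 * L ^ 3)) * 1 ≤ C1 * (R * (2 * L ^ 3)) * G :=
      mul_le_mul_of_nonneg_left hG (by positivity)
    calc C1 * (R * (1 + L)) ≤ C1 * (R * (2 * L ^ 3)) * 1 := by rw [mul_one]; exact h1
      _ ≤ C1 * (R * (2 * L ^ 3)) * G := h2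
      _ = 2 * C1 * R * L ^ 3 * G := by ring
  have e2 : C0 * G5 * ((3 + C') * R * (1 + L) * (1 + L) ^ 2) ≤
      24 * C0 * (3 + C') * R * L ^ 3 * G := by
    have h2 : (1 + L) ^ 3 ≤ (2 * L) ^ 3 := pow_le_pow_left₀ (by linarith) (by linarith) 3
    have h3 : (3 + C') * R * (1 + L) * (1 + L) ^ 2 ≤ (3 + C') * R * (8 * L ^ 3) := by
      have h4 : (3 + C') * R * (1 + L) * (1 + L) ^ 2 = (3 + C') * R * (1 + L) ^ 3 := by ring
      rw [h4]
      refine mul_le_mul_of_nonneg_left ?_ (by positivity)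
      calc (1 + L) ^ 3 ≤ (2 * L) ^ 3 := h2
        _ = 8 * L ^ 3 := by ring
    have h5' : C0 * G5 ≤ C0 * (3 * G) := mul_le_mul_of_nonneg_left h5 hC0
    calc C0 * G5 * ((3 + C') * R * (1 + L) * (1 + L) ^ 2)
        ≤ C0 * (3 * G) * ((3 + C') * R * (8 * L ^ 3)) := by
          apply mul_le_mul h5' h3
          · have : 0 ≤ 1 + L := by linarith
            positivity
          · positivity
      _ = 24 * C0 * (3 + C') * R * L ^ 3 * G := by ring
  calc a + b ≤ 2 * C1 * R * L ^ 3 * G + 24 * C0 * (3 + C') * R * L ^ 3 * G :=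
        add_le_add (ha.trans e1) (hb.trans e2)
    _ = _ := by ring

open Finset in
theorem F3 (ε : ℝ) (hε : 0 < ε) (hε1 : ε < 1) : ∃ C : ℝ, 0 < C ∧ ∀ R : ℕ, 3 ≤ R →
    ({k : ℤ | k ∈ Fam R ∧ ∃ x y : ℤ, BadPt ε k x y}.ncard : ℝ) ≤
      C * R * (Real.log R) ^ 3 * (1 + Real.log (1 + Real.log R)) := by
  classical
  obtain ⟨C0, A0, hC0, hA0, hF2⟩ := F2 ε hε hε1
  obtain ⟨C', hC', hsum⟩ := QI_sum
  obtain ⟨N, hN⟩ : ∃ N : ℕ, N = ⌈A0⌉₊ := ⟨_, rfl⟩
  obtain ⟨C1, hC1⟩ : ∃ C1 : ℝ, C1 = ∑ A ∈ Icc (-(N : ℤ)) N,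
    ((A.natAbs.divisors.card : ℝ)) ^ 2 := ⟨_, rfl⟩
  have hC1n : 0 ≤ C1 := by
    rw [hC1]
    exact sum_nonneg fun _ _ => by positivity
  refine ⟨2 * C1 + 24 * C0 * (3 + C'), by positivity, fun R hR => ?_⟩
  have hR1 : 1 ≤ R := by omega
  have hR3 : (3 : ℝ) ≤ R := by exact_mod_cast hR
  have hL1 : (1 : ℝ) ≤ Real.log R := by
    rw [Real.le_log_iff_exp_le (by linarith)]
    linarith [Real.exp_one_lt_d9]
  have hLL : 0 ≤ Real.log (1 + Real.log R) := Real.log_nonneg (by linarith)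
  have hBfin : {k : ℤ | k ∈ Fam R ∧ ∃ x y : ℤ, BadPt ε k x y}.Finite :=
    (QI_famfin R).subset fun k hk => hk.1
  rw [Set.ncard_eq_toFinset_card _ hBfin]
  set BF := hBfin.toFinset with hBF
  have hBFm : ∀ k ∈ BF, k ∈ Fam R ∧ ∃ x y : ℤ, BadPt ε k x y := fun k hk =>
    hBfin.mem_toFinset.1 hk
  choose! fA fm hdec using F1_dec
  have hbad : ∀ k : ℤ, ∃ q : ℤ × ℤ, (∃ x y : ℤ, BadPt ε k x y) → BadPt ε k q.1 q.2 := by
    intro k
    by_cases hk : ∃ x y : ℤ, BadPt ε k x y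
    · obtain ⟨x, y, hxy⟩ := hk
      exact ⟨(x, y), fun _ => hxy⟩
    · exact ⟨(0, 0), fun h => absurd h hk⟩
  choose fq hfq using hbad
  -- the two parts
  have hsplit := card_filter_add_card_filter_not (s := BF) (fun k => ((|fA k| : ℤ) : ℝ) < A0)
  have hpart1 : (((BF.filter fun k => ((|fA k| : ℤ) : ℝ) < A0).card : ℕ) : ℝ) ≤
      C1 * (R * (1 + Real.log R)) := by
    have hmaps : ∀ k ∈ BF.filter (fun k => ((|fA k| : ℤ) : ℝ) < A0),
        fA k ∈ Icc (-(N : ℤ)) N := by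
      intro k hk
      have h1 := (mem_filter.1 hk).2
      have h2 : ((|fA k| : ℤ) : ℝ) < (N : ℝ) := by
        rw [hN]
        exact h1.trans_le (Nat.le_ceil A0)
      have h3 : |fA k| < (N : ℤ) := by exact_mod_cast h2
      exact mem_Icc.2 (abs_le.1 h3.le)
    rw [card_eq_sum_card_fiberwise hmaps, Nat.cast_sum, hC1, sum_mul]
    refine sum_le_sum fun A _ => ?_
    refine F3_few A R hR1 _ fun k hk => ?_
    obtain ⟨hk1, hk2⟩ := mem_filter.1 hk
    obtain ⟨hk3, hk4⟩ := hBFm k (mem_filter.1 hk1).1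
    obtain ⟨h1, h2, h3⟩ := hdec k hk3.1
    rw [← hk2]
    exact ⟨hk3, h1, fm k, h3⟩
  have hpart2 : (((BF.filter fun k => ¬ ((|fA k| : ℤ) : ℝ) < A0).card : ℕ) : ℝ) ≤
      C0 * (1 + Real.log (1 + Real.log ((R : ℝ) ^ 5))) *
        ((3 + C') * R * (1 + Real.log R) * (1 + Real.log R) ^ 2) := by
    set B2 := BF.filter fun k => ¬ ((|fA k| : ℤ) : ℝ) < A0 with hB2
    have hB2m : ∀ k ∈ B2, k ∈ Fam R ∧ (∃ x y : ℤ, BadPt ε k x y) ∧ A0 ≤ ((|fA k| : ℤ) : ℝ) ∧
        Squarefree (fA k) ∧ 0 < fm k ∧ k = fA k * fm k ^ 2 ∧ BadPt ε k (fq k).1 (fq k).2 := by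
      intro k hk
      obtain ⟨hk1, hk2⟩ := mem_filter.1 hk
      obtain ⟨hk3, hk4⟩ := hBFm k hk1
      obtain ⟨h1, h2, h3⟩ := hdec k hk3.1
      exact ⟨hk3, hk4, not_lt.1 hk2, h1, h2, h3, hfq k hk4⟩
    set fc : ℤ → ℕ := fun k => cc (fA k) (fm k) (fq k).1 with hfc
    have hrad : ∀ k ∈ B2, (fA k).natAbs * fc k ≤ R := by
      intro k hk
      obtain ⟨h1, h2, h3, h4, h5, h6, h7⟩ := hB2m k hk
      have h8 := F1_rad (fA k) (fm k) (fq k).1 h4 h5.ne'
      rw [← h6] at h8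
      exact h8.trans h1.2.2
    have hApos : ∀ k ∈ B2, 1 ≤ (fA k).natAbs := by
      intro k hk
      obtain ⟨h1, h2, h3, h4, h5, h6, h7⟩ := hB2m k hk
      have : (fA k) ≠ 0 := h4.ne_zero
      omega
    have hmapsc : ∀ k ∈ B2, fc k ∈ Icc 1 R := by
      intro k hk
      refine mem_Icc.2 ⟨F1_ccpos _ _ _, ?_⟩
      exact (Nat.le_mul_of_pos_left _ (hApos k hk)).trans (hrad k hk)
    have hfib : ∀ c ∈ Icc 1 R, (((B2.filter fun k => fc k = c).card : ℕ) : ℝ) ≤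
        C0 * (1 + Real.log (1 + Real.log ((R : ℝ) ^ 5))) * 2 ^ c.primeFactors.card *
          ((3 + C') * (R / c) * (1 + Real.log R)) := by
      intro c hc
      obtain ⟨hc1, hcR⟩ := mem_Icc.1 hc
      set 𝒜 := (Icc (-((R / c : ℕ) : ℤ)) ((R / c : ℕ) : ℤ)).filter
        (fun A => Squarefree A ∧ A0 ≤ ((|A| : ℤ) : ℝ)) with h𝒜
      have hmapsA : ∀ k ∈ B2.filter (fun k => fc k = c), fA k ∈ 𝒜 := by
        intro k hk
        obtain ⟨hk1, hk2⟩ := mem_filter.1 hk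
        obtain ⟨h1, h2, h3, h4, h5, h6, h7⟩ := hB2m k hk1
        refine mem_filter.2 ⟨mem_Icc.2 (abs_le.1 ?_), h4, h3⟩
        have h8 := hrad k hk1
        rw [hk2] at h8
        have h9 : (fA k).natAbs ≤ R / c := (Nat.le_div_iff_mul_le (by omega)).2 h8
        rw [← Int.natCast_natAbs]
        exact_mod_cast h9
      rw [card_eq_sum_card_fiberwise hmapsA, Nat.cast_sum]
      have h1 : ∀ A ∈ 𝒜, ((((B2.filter fun k => fc k = c).filter fun k => fA k = A).card : ℕ) : ℝ) ≤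
          C0 * (1 + Real.log (1 + Real.log ((R : ℝ) ^ 5))) * 2 ^ c.primeFactors.card *
            (1 + ((QA A).ncard : ℝ)) := by
        intro A hA
        obtain ⟨hA1, hA2, hA3⟩ := mem_filter.1 hA
        have hA4 : A0 ≤ (|A| : ℝ) := by
          rw [← Int.cast_abs]
          exact hA3
        refine hF2 A hA2 hA4 _ ?_ c _ ?_
        · have h1 : (3 : ℝ) ^ 1 ≤ 3 ^ 5 := by norm_num
          have h2 : (3 : ℝ) ^ 5 ≤ (R : ℝ) ^ 5 := pow_le_pow_left₀ (by norm_num) hR3 5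
          linarith
        · intro k hk
          obtain ⟨hk1, hk2⟩ := mem_filter.1 hk
          obtain ⟨hk3, hk4⟩ := mem_filter.1 hk1
          obtain ⟨h1, h2, h3, h4, h5, h6, h7⟩ := hB2m k hk3
          refine ⟨h1.2.1, ?_, fm k, (fq k).1, (fq k).2, h5, ?_, h7, ?_⟩
          · have h8 := F1_size R k h1
            have h9 : ((|k| : ℤ) : ℝ) ≤ (((R : ℤ) ^ 5 : ℤ) : ℝ) := by exact_mod_cast h8
            push_cast at h9
            exact h9
          · rw [← hk2]; exact h6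
          · rw [← hk2]; exact hk4
      refine (sum_le_sum h1).trans ?_
      rw [← mul_sum]
      have h2 := F3_inner hC' hsum R c hc1 hcR 𝒜 (by
        intro A hA
        obtain ⟨hA1, hA2, hA3⟩ := mem_filter.1 hA
        refine ⟨hA2, ?_, abs_le.2 (mem_Icc.1 hA1)⟩
        rintro rfl
        simp only [abs_one, Int.cast_one] at hA3
        linarith)
      refine mul_le_mul_of_nonneg_left h2 ?_
      have h3 : 0 ≤ Real.log (1 + Real.log ((R : ℝ) ^ 5)) := by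
        apply Real.log_nonneg
        rw [Real.log_pow]
        push_cast
        linarith
      positivity
    rw [card_eq_sum_card_fiberwise hmapsc, Nat.cast_sum]
    refine (sum_le_sum hfib).trans ?_
    have h3 : 0 ≤ Real.log (1 + Real.log ((R : ℝ) ^ 5)) := by
      apply Real.log_nonneg
      rw [Real.log_pow]
      push_cast
      linarith
    have h4 := QI_two R hR1
    calc ∑ c ∈ Icc 1 R, C0 * (1 + Real.log (1 + Real.log ((R : ℝ) ^ 5))) *
          2 ^ c.primeFactors.card * ((3 + C') * (R / c) * (1 + Real.log R))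
        = C0 * (1 + Real.log (1 + Real.log ((R : ℝ) ^ 5))) * ((3 + C') * R * (1 + Real.log R) *
          ∑ c ∈ Icc 1 R, (2 : ℝ) ^ c.primeFactors.card / (c : ℝ)) := by
          rw [mul_sum, mul_sum]
          refine sum_congr rfl fun c _ => ?_
          ring
      _ ≤ _ := by
          refine mul_le_mul_of_nonneg_left (mul_le_mul_of_nonneg_left h4 ?_) ?_
          · have : 0 < 1 + Real.log R := by linarith
            positivity
          · positivity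
  have hloglog : 1 + Real.log (1 + Real.log ((R : ℝ) ^ 5)) ≤
      3 * (1 + Real.log (1 + Real.log R)) := by
    have h1 : Real.log (1 + Real.log ((R : ℝ) ^ 5)) ≤ Real.log (Real.exp 2 * (1 + Real.log R)) := by
      apply Real.log_le_log
      · rw [Real.log_pow]
        push_cast
        linarith
      · rw [Real.log_pow]
        push_cast
        have h2 : (5 : ℝ) ≤ Real.exp 2 := by
          have h3 : Real.exp 2 = Real.exp 1 * Real.exp 1 := by
            rw [← Real.exp_add]; norm_num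
          rw [h3]
          have := Real.exp_one_gt_d9
          nlinarith
        nlinarith
    rw [Real.log_mul (Real.exp_pos _).ne' (by linarith), Real.log_exp] at h1
    linarith
  have htot : ((BF.card : ℕ) : ℝ) = (((BF.filter fun k => ((|fA k| : ℤ) : ℝ) < A0).card : ℕ) : ℝ) +
      (((BF.filter fun k => ¬ ((|fA k| : ℤ) : ℝ) < A0).card : ℕ) : ℝ) := by
    rw [← hsplit]
    push_cast
    ring
  rw [htot]
  exact F3_num hC1n hC0.le hC'.le (by linarith) hL1 (by linarith) hloglog hpart1 hpart2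

end RC91
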