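import Pool.Agent.LibRC91.GDefs

/-!
# [RC91 G1] size of `emb α` and `emb (conj α)`
PLAN: `z = emb (m rho)`, `z^2 = A m^2`, so `‖z‖ = ka A m`; `emb α = y + z`, `emb (conj α) = y - z` (`y` real).
`|y^2 - x^3| = |A m^2| ≤ x^3/25600`, `xs x ^ 2 = x^3`: `0.99 xs ≤ |y| ≤ 1.01 xs`, `ka ≤ xs/160`.
So both norms are in `[xs/2, 2 xs]` and `‖emb(conj α)/emb α - 1‖ = 2 ka/‖emb α‖ ≤ 2 ka/(0.98 xs) ≤ 4 ka/xs`.
-/
set_option autoImplicit false
namespace RC91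

theorem G1 {A : ℤ} {K : Type} [Field K] [NumberField K] (h : QF A K) (x y m : ℤ) (hx : 0 < x)
    (e : y ^ 2 - A * m ^ 2 = x ^ 3) (hk : 25600 * |A * m ^ 2| ≤ x ^ 3) :
    xs x / 2 ≤ ‖h.emb (al h y m)‖ ∧ ‖h.emb (al h y m)‖ ≤ 2 * xs x ∧
    xs x / 2 ≤ ‖h.emb (h.conj (al h y m))‖ ∧ ‖h.emb (h.conj (al h y m))‖ ≤ 2 * xs x ∧
    ‖h.emb (h.conj (al h y m)) / h.emb (al h y m) - 1‖ ≤ 4 * (ka A m / xs x) ∧
    ka A m / xs x ≤ 1 / 160 := by
  set X : ℝ := xs x with hX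
  set k : ℝ := ka A m with hk0
  have hxR : (0 : ℝ) < (x : ℝ) := by exact_mod_cast hx
  have hXpos : 0 < X := mul_pos hxR (Real.sqrt_pos.2 hxR)
  have hX2 : X ^ 2 = (x : ℝ) ^ 3 := by
    rw [hX, xs, mul_pow, Real.sq_sqrt hxR.le]
    ring
  have hk0' : 0 ≤ k := Real.sqrt_nonneg _
  have hk2 : k ^ 2 = |(A : ℝ) * (m : ℝ) ^ 2| := by
    rw [hk0, ka, Real.sq_sqrt (by exact_mod_cast abs_nonneg _)]
    push_cast
    rfl
  have hk' : 25600 * |(A : ℝ) * (m : ℝ) ^ 2| ≤ (x : ℝ) ^ 3 := by exact_mod_cast hk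
  have e' : (y : ℝ) ^ 2 - (A : ℝ) * (m : ℝ) ^ 2 = (x : ℝ) ^ 3 := by exact_mod_cast e
  have hkX : k ≤ X / 160 := by
    have h1 : (160 * k) ^ 2 ≤ X ^ 2 := by
      rw [mul_pow, hk2, hX2]
      linarith
    have h2 := le_of_sq_le_sq h1 hXpos.le
    linarith
  -- the size of `y`
  have hy2 : |(y : ℝ)| ^ 2 = (y : ℝ) ^ 2 := sq_abs _
  have hylo : 99 / 100 * X ≤ |(y : ℝ)| := by
    refine le_of_sq_le_sq ?_ (abs_nonneg _)
    rw [hy2]
    have h2 := neg_abs_le ((A : ℝ) * (m : ℝ) ^ 2)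
    nlinarith
  have hyhi : |(y : ℝ)| ≤ 101 / 100 * X := by
    refine le_of_sq_le_sq ?_ (by positivity)
    rw [hy2]
    have h2 := le_abs_self ((A : ℝ) * (m : ℝ) ^ 2)
    nlinarith
  -- the complex numbers
  set z : ℂ := h.emb ((m : K) * h.rho) with hz
  have hz2 : z ^ 2 = (A : ℂ) * (m : ℂ) ^ 2 := by
    rw [hz, ← map_pow, mul_pow, h.sq, map_mul, map_pow, map_intCast, map_intCast]
    ring
  have hzn : ‖z‖ = k := by
    have h1 : ‖z‖ ^ 2 = k ^ 2 := by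
      rw [← norm_pow, hz2, hk2]
      have h2 : ((A : ℂ) * (m : ℂ) ^ 2) = (((A : ℝ) * (m : ℝ) ^ 2 : ℝ) : ℂ) := by push_cast; rfl
      rw [h2, Complex.norm_real, Real.norm_eq_abs]
    exact (pow_left_inj₀ (norm_nonneg _) hk0' two_ne_zero).1 h1
  have hyn : ‖(y : ℂ)‖ = |(y : ℝ)| := Complex.norm_intCast y
  have ha1 : h.emb (al h y m) = (y : ℂ) + z := by
    rw [al, map_add, map_intCast]
  have ha2 : h.emb (h.conj (al h y m)) = (y : ℂ) - z := by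
    rw [al, map_add, map_mul, map_intCast, map_intCast, h.conj_rho, map_add, map_intCast, hz,
      map_mul, map_mul, map_neg]
    ring
  have hn1 : |(y : ℝ)| - k ≤ ‖(y : ℂ) + z‖ := by
    have h1 := norm_sub_le ((y : ℂ) + z) z
    rw [add_sub_cancel_right, hyn, hzn] at h1
    linarith
  have hn2 : ‖(y : ℂ) + z‖ ≤ |(y : ℝ)| + k := by
    have h1 := norm_add_le (y : ℂ) z
    rwa [hyn, hzn] at h1
  have hn3 : |(y : ℝ)| - k ≤ ‖(y : ℂ) - z‖ := by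
    have h1 := norm_sub_norm_le (y : ℂ) z
    rwa [hyn, hzn] at h1
  have hn4 : ‖(y : ℂ) - z‖ ≤ |(y : ℝ)| + k := by
    have h1 := norm_sub_le (y : ℂ) z
    rwa [hyn, hzn] at h1
  rw [ha1, ha2]
  refine ⟨by linarith, by linarith, by linarith, by linarith, ?_, ?_⟩
  · have hpos : 0 < ‖(y : ℂ) + z‖ := by linarith
    have hne : (y : ℂ) + z ≠ 0 := norm_pos_iff.1 hpos
    have h1 : ((y : ℂ) - z) / ((y : ℂ) + z) - 1 = (-2 * z) / ((y : ℂ) + z) := by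
      field_simp
      ring
    have hn : ‖(-2 * z : ℂ)‖ = 2 * k := by
      rw [norm_mul, hzn, norm_neg]
      norm_num
    rw [h1, norm_div, hn, div_le_iff₀ hpos]
    have h2 : 4 * (k / X) * ‖(y : ℂ) + z‖ = (k / X) * (4 * ‖(y : ℂ) + z‖) := by ring
    rw [h2, div_mul_eq_mul_div, le_div_iff₀ hXpos]
    nlinarith
  · rw [div_le_div_iff₀ hXpos (by norm_num)]
    linarith

end RC91
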