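import Pool.Agent.LibRC91.K2

/-!
# [RC91 G5] a rational quotient means the same point
PLAN: `conj g = g` gives `g = q ∈ ℚ` (K2_fix). Comparing the coordinates of
`y2 + m2 rho = q^3 (y1 + m1 rho)` (`rho` is irrational, K2_nsq): `y2 = q^3 y1`, `m2 = q^3 m1`, and
`x2^3 = q^6 x1^3`, `x2 = q^2 x1`. `q > 0` since `m1, m2 > 0`. `q = a/b` in lowest terms: `b^3 m2 = a^3 m1`, so `b^3 ∣ m1`,
`a^3 ∣ m2`, `b^6 ∣ A m1^2`, `a^6 ∣ A m2^2`. If `b > 1` a prime `p ∣ b` contradicts `h61`; so `a = b = 1`.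
-/
set_option autoImplicit false
namespace RC91

private theorem G5_dvd {A : ℤ} {m : ℤ} {a : ℤ} (ha : 0 < a) (h : a ^ 3 ∣ m)
    (h6 : ∀ p : ℕ, p.Prime → ¬ ((p : ℤ) ^ 6 ∣ A * m ^ 2)) : a = 1 := by
  by_contra h1
  have h2 : a.natAbs ≠ 1 := by omega
  obtain ⟨p, hp, hpa⟩ := Nat.exists_prime_and_dvd h2
  refine h6 p hp ?_
  have h3 : (p : ℤ) ∣ a := Int.natCast_dvd.2 hpa
  have h4 : (p : ℤ) ^ 3 ∣ m := (pow_dvd_pow_of_dvd h3 3).trans h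
  have h5 : (p : ℤ) ^ 6 ∣ m ^ 2 := by
    have := pow_dvd_pow_of_dvd h4 2
    rwa [← pow_mul] at this
  exact h5.mul_left A

theorem G5 {A : ℤ} {K : Type} [Field K] [NumberField K] (h : QF A K)
    (x1 y1 m1 x2 y2 m2 : ℤ) (hx1 : 0 < x1) (hx2 : 0 < x2) (hm1 : 0 < m1) (hm2 : 0 < m2)
    (e1 : y1 ^ 2 - A * m1 ^ 2 = x1 ^ 3) (e2 : y2 ^ 2 - A * m2 ^ 2 = x2 ^ 3)
    (h61 : ∀ p : ℕ, p.Prime → ¬ ((p : ℤ) ^ 6 ∣ A * m1 ^ 2))
    (h62 : ∀ p : ℕ, p.Prime → ¬ ((p : ℤ) ^ 6 ∣ A * m2 ^ 2))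
    (g : K) (hg0 : g ≠ 0) (hg : al h y2 m2 = al h y1 m1 * g ^ 3) (hfix : h.conj g = g) :
    x1 = x2 ∧ y1 = y2 ∧ m1 = m2 := by
  obtain ⟨q, rfl⟩ := K2_fix h g hfix
  have e : (((y2 : ℚ) - q ^ 3 * y1 : ℚ) : K) = ((q ^ 3 * m1 - m2 : ℚ) : K) * h.rho := by
    push_cast
    unfold al at hg
    linear_combination hg
  have hm : (q ^ 3 * m1 - m2 : ℚ) = 0 := by
    by_contra hm
    have h1 : ((q ^ 3 * m1 - m2 : ℚ) : K) ≠ 0 := Rat.cast_ne_zero.2 hm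
    refine K2_nsq h (((y2 : ℚ) - q ^ 3 * y1) / (q ^ 3 * m1 - m2)) ?_
    rw [Rat.cast_div, e, mul_div_assoc, mul_comm, div_mul_cancel₀ _ h1]
  have hy : (y2 : ℚ) - q ^ 3 * y1 = 0 := by
    rw [hm, Rat.cast_zero, zero_mul] at e
    exact Rat.cast_eq_zero.1 e
  have hm1' : (0 : ℚ) < m1 := by exact_mod_cast hm1
  have hm2' : (0 : ℚ) < m2 := by exact_mod_cast hm2
  have hq : 0 < q := by
    have h1 : 0 < q ^ 3 * m1 := by linarith
    have h2 : 0 < q ^ 3 := by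
      rcases le_or_gt (q ^ 3) 0 with h3 | h3
      · exact absurd h1 (not_lt.2 (mul_nonpos_of_nonpos_of_nonneg h3 hm1'.le))
      · exact h3
    rcases le_or_gt q 0 with h3 | h3
    · exact absurd h2 (not_lt.2 (Odd.pow_nonpos (by decide) h3))
    · exact h3
  have hab : (q.num : ℚ) = q * q.den := (Rat.mul_den_eq_num q).symm
  have hden : (0 : ℚ) < q.den := by exact_mod_cast q.den_pos
  have hnum : 0 < q.num := Rat.num_pos.2 hq
  have hint : (q.den : ℤ) ^ 3 * m2 = q.num ^ 3 * m1 := by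
    have : ((q.den : ℚ) ^ 3 * m2 : ℚ) = (q.num : ℚ) ^ 3 * m1 := by
      rw [hab]
      linear_combination (-(q.den : ℚ) ^ 3) * hm
    exact_mod_cast this
  have hcop : IsCoprime (q.num ^ 3) ((q.den : ℤ) ^ 3) :=
    (Rat.isCoprime_num_den q).pow
  have hb : (q.den : ℤ) = 1 := by
    refine G5_dvd (A := A) (m := m1) (by exact_mod_cast q.den_pos) ?_ h61
    exact hcop.symm.dvd_of_dvd_mul_left ⟨m2, hint.symm⟩
  have ha : q.num = 1 := by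
    refine G5_dvd (A := A) (m := m2) hnum ?_ h62
    exact hcop.dvd_of_dvd_mul_left ⟨m1, hint⟩
  have hq1 : q = 1 := by
    have h1 : (q.den : ℚ) = 1 := by exact_mod_cast hb
    rw [ha, h1] at hab
    simpa using hab.symm
  subst hq1
  have hm' : m1 = m2 := by
    have : (m1 : ℚ) = m2 := by linarith
    exact_mod_cast this
  have hy' : y1 = y2 := by
    have : (y1 : ℚ) = y2 := by linarith
    exact_mod_cast this
  refine ⟨?_, hy', hm'⟩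
  subst hm' hy'
  have h1 : x1 ^ 3 = x2 ^ 3 := by rw [← e1, ← e2]
  exact (pow_left_inj₀ hx1.le hx2.le (by norm_num)).1 h1

end RC91
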