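import Pool.Agent.LibRC91.Defs

/-!
# [RC91 G7] the numerical contradiction of the Pade method (real numbers only)
We only need `θ = 1/8`. PLAN: put `x2 = x1^L`, `L ≥ Q` (take `Q = 24`), `r = ⌊L/2⌋ - 1`, so `s ∈ {r, r+1}` satisfies
`L/2 - 2 ≤ s ≤ L/2`. Choose `X0` with `C ≤ X0^(1/100)`, `X0 ≥ 16`. In powers of `x1`:
first term exponent `(s+1)/100 + 1 + 3s/2 + L/2 - 1/2 + (2s+1)(1/8 - 3/2)
= L/2 - 5 s/4 + (s+1)/100 - 7/8 ≤ L/2 - 1.24 (L/2 - 2) - 0.86 = -0.12 L + 1.62 < -1` for `L ≥ 24`;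
second term exponent `(s+1)/100 + 1 + 3s/2 + L/2 - 1/2 + L/8 - 3L/2 = 1.51 s + 0.51 - 0.875 L
≤ 0.755 L + 0.51 - 0.875 L = -0.12 L + 0.51 < -1`. So the right side is `≤ 2 x1^(-1) < 1`.
(Recompute the exponents; any other admissible choice of `Q`, `X0` is fine.)
-/
set_option autoImplicit false
namespace RC91

theorem G7 (C : ℝ) (hC : 1 ≤ C) : ∃ X0 Q : ℝ, 100 ≤ X0 ∧ 1 ≤ Q ∧
    ∀ x1 x2 κ1 κ2 : ℝ, X0 ≤ x1 → x1 ^ Q ≤ x2 → 0 ≤ κ1 → κ1 ≤ x1 ^ (1 / 8 : ℝ) →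
      0 ≤ κ2 → κ2 ≤ x2 ^ (1 / 8 : ℝ) →
      (∀ r : ℕ, ∃ s : ℕ, (s = r ∨ s = r + 1) ∧
        1 ≤ C ^ (s + 1) * x1 * (x1 * Real.sqrt x1) ^ s * Real.sqrt (x2 / x1) *
          ((κ1 / (x1 * Real.sqrt x1)) ^ (2 * s + 1) + κ2 / (x2 * Real.sqrt x2))) → False := by
  refine ⟨max 100 (C ^ 100), 24, le_max_left _ _, by norm_num, ?_⟩
  intro x x2 κ1 κ2 hx hx2 h1 h1' h2 h2' H
  have hx100 : 100 ≤ x := (le_max_left _ _).trans hx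
  have hxC : C ^ 100 ≤ x := (le_max_right _ _).trans hx
  have hx0 : 0 < x := by linarith
  have hx1 : 1 < x := by linarith
  have hx20 : 0 < x2 := (Real.rpow_pos_of_pos hx0 _).trans_le hx2
  obtain ⟨L, hL⟩ : ∃ L, L = Real.logb x x2 := ⟨_, rfl⟩
  have hL24 : 24 ≤ L := by
    rw [hL, Real.le_logb_iff_rpow_le hx1 hx20]
    exact hx2
  have hxL : x ^ L = x2 := by
    rw [hL]
    exact Real.rpow_logb hx0 hx1.ne' hx20
  have hCx : C ≤ x ^ (1 / 100 : ℝ) := by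
    have h3 := Real.rpow_le_rpow (by positivity) hxC (show (0 : ℝ) ≤ 1 / 100 by norm_num)
    rwa [← Real.rpow_natCast, ← Real.rpow_mul (by linarith),
      show ((100 : ℕ) : ℝ) * (1 / 100) = 1 by norm_num, Real.rpow_one] at h3
  obtain ⟨r, hr1, hr2⟩ : ∃ r : ℕ, (r : ℝ) + 1 ≤ L / 2 ∧ L / 2 ≤ r + 2 := by
    have h3 : ((⌊L / 2⌋₊ : ℕ) : ℝ) ≤ L / 2 := Nat.floor_le (by linarith)
    have h4 : L / 2 < (⌊L / 2⌋₊ : ℕ) + 1 := Nat.lt_floor_add_one _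
    have h5 : 1 ≤ ⌊L / 2⌋₊ := Nat.one_le_floor_iff _ |>.2 (by linarith)
    refine ⟨⌊L / 2⌋₊ - 1, ?_, ?_⟩
    · rw [Nat.cast_sub h5]
      push_cast
      linarith
    · rw [Nat.cast_sub h5]
      push_cast
      linarith
  obtain ⟨s, hs, hs2⟩ := H r
  have hs1 : (s : ℝ) ≤ L / 2 ∧ L / 2 - 2 ≤ s := by
    rcases hs with rfl | rfl
    · constructor <;> linarith
    · push_cast
      constructor <;> linarith
  have hsx : Real.sqrt x = x ^ (1 / 2 : ℝ) := Real.sqrt_eq_rpow x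
  have t3 : x * Real.sqrt x = x ^ (3 / 2 : ℝ) := by
    rw [hsx]
    nth_rewrite 1 [← Real.rpow_one x]
    rw [← Real.rpow_add hx0]
    norm_num
  have t3' : x2 * Real.sqrt x2 = x ^ (L * (3 / 2)) := by
    rw [← hxL, Real.sqrt_eq_rpow, ← Real.rpow_mul hx0.le, ← Real.rpow_add hx0]
    congr 1
    ring
  have t4 : Real.sqrt (x2 / x) = x ^ ((L - 1) / 2) := by
    rw [← hxL, ← Real.rpow_sub_one hx0.ne', Real.sqrt_eq_rpow, ← Real.rpow_mul hx0.le]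
    congr 1
    ring
  have t1 : C ^ (s + 1) ≤ x ^ ((1 / 100 : ℝ) * (s + 1)) := by
    calc C ^ (s + 1) ≤ (x ^ (1 / 100 : ℝ)) ^ (s + 1) := pow_le_pow_left₀ (by linarith) hCx _
      _ = x ^ ((1 / 100 : ℝ) * (s + 1)) := by
          rw [← Real.rpow_natCast, ← Real.rpow_mul hx0.le]
          push_cast
          rfl
  have t2 : (x ^ (3 / 2 : ℝ)) ^ s = x ^ ((3 / 2 : ℝ) * s) := by
    rw [← Real.rpow_natCast, ← Real.rpow_mul hx0.le]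
  have t5 : (κ1 / x ^ (3 / 2 : ℝ)) ^ (2 * s + 1) ≤ x ^ ((-(11 / 8) : ℝ) * (2 * s + 1)) := by
    have h3 : κ1 / x ^ (3 / 2 : ℝ) ≤ x ^ (-(11 / 8) : ℝ) := by
      rw [div_le_iff₀ (Real.rpow_pos_of_pos hx0 _), ← Real.rpow_add hx0]
      refine h1'.trans (le_of_eq ?_)
      norm_num
    calc (κ1 / x ^ (3 / 2 : ℝ)) ^ (2 * s + 1) ≤ (x ^ (-(11 / 8) : ℝ)) ^ (2 * s + 1) :=
          pow_le_pow_left₀ (by positivity) h3 _
      _ = x ^ ((-(11 / 8) : ℝ) * (2 * s + 1)) := by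
          rw [← Real.rpow_natCast, ← Real.rpow_mul hx0.le]
          push_cast
          rfl
  have t6 : κ2 / x ^ (L * (3 / 2)) ≤ x ^ (-(11 / 8) * L) := by
    rw [div_le_iff₀ (Real.rpow_pos_of_pos hx0 _), ← Real.rpow_add hx0]
    refine h2'.trans (le_of_eq ?_)
    rw [← hxL, ← Real.rpow_mul hx0.le]
    congr 1
    ring
  rw [t3, t3', t4, t2] at hs2
  have t7 : C ^ (s + 1) * x * x ^ ((3 / 2 : ℝ) * s) * x ^ ((L - 1) / 2) *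
      ((κ1 / x ^ (3 / 2 : ℝ)) ^ (2 * s + 1) + κ2 / x ^ (L * (3 / 2))) ≤
      x ^ ((1 / 100 : ℝ) * (s + 1)) * x * x ^ ((3 / 2 : ℝ) * s) * x ^ ((L - 1) / 2) *
      (x ^ ((-(11 / 8) : ℝ) * (2 * s + 1)) + x ^ (-(11 / 8) * L)) := by
    have h3 : 0 ≤ κ1 / x ^ (3 / 2 : ℝ) := by positivity
    have h4 : 0 ≤ κ2 / x ^ (L * (3 / 2)) := by positivity
    gcongr
  have t8 : x ^ ((1 / 100 : ℝ) * (s + 1)) * x * x ^ ((3 / 2 : ℝ) * s) * x ^ ((L - 1) / 2) =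
      x ^ ((1 / 100 : ℝ) * (s + 1) + 1 + (3 / 2 : ℝ) * s + (L - 1) / 2) := by
    rw [Real.rpow_add hx0, Real.rpow_add hx0, Real.rpow_add hx0, Real.rpow_one]
  have t9 : x ^ ((1 / 100 : ℝ) * (s + 1) + 1 + (3 / 2 : ℝ) * s + (L - 1) / 2) *
      (x ^ ((-(11 / 8) : ℝ) * (2 * s + 1)) + x ^ (-(11 / 8) * L)) =
      x ^ ((1 / 100 : ℝ) * (s + 1) + 1 + (3 / 2 : ℝ) * s + (L - 1) / 2 +
        (-(11 / 8) : ℝ) * (2 * s + 1)) +
      x ^ ((1 / 100 : ℝ) * (s + 1) + 1 + (3 / 2 : ℝ) * s + (L - 1) / 2 + -(11 / 8) * L) := by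
    rw [mul_add, ← Real.rpow_add hx0, ← Real.rpow_add hx0]
  rw [t8, t9] at t7
  have b1 : x ^ ((1 / 100 : ℝ) * (s + 1) + 1 + (3 / 2 : ℝ) * s + (L - 1) / 2 +
      (-(11 / 8) : ℝ) * (2 * s + 1)) ≤ x ^ (-1 : ℝ) :=
    Real.rpow_le_rpow_of_exponent_le hx1.le (by linarith)
  have b2 : x ^ ((1 / 100 : ℝ) * (s + 1) + 1 + (3 / 2 : ℝ) * s + (L - 1) / 2 +
      -(11 / 8) * L) ≤ x ^ (-1 : ℝ) :=
    Real.rpow_le_rpow_of_exponent_le hx1.le (by linarith)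
  have b3 : x ^ (-1 : ℝ) ≤ 1 / 100 := by
    rw [Real.rpow_neg_one, ← one_div]
    exact one_div_le_one_div_of_le (by norm_num) hx100
  linarith

end RC91
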