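import Pool.Agent.LibRC91.G6
import Pool.Agent.LibRC91.G7

/-!
# [RC91 G8] no two far points in one class (and colour)
PLAN: G6 + G7. The conditions `25600 |A m^2| ≤ x^3` follow from `ka ≤ x^(1/8)`, `x ≥ X0 ≥ 100`:
`|A m^2| = ka^2 ≤ x^(1/4)`, `25600 x^(1/4) ≤ x^3`; for `x2 ≥ x1^Q ≥ x1 ≥ X0` the same.
-/
set_option autoImplicit false
namespace RC91

private theorem G8_aux (A x m : ℤ) (hx : (100 : ℝ) ≤ (x : ℝ))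
    (hk : ka A m ≤ (x : ℝ) ^ (1 / 8 : ℝ)) : 25600 * |A * m ^ 2| ≤ x ^ 3 := by
  have hx0 : (0 : ℝ) ≤ (x : ℝ) := by linarith
  set t : ℝ := (x : ℝ) ^ (1 / 8 : ℝ) with ht
  have ht0 : 0 ≤ t := Real.rpow_nonneg hx0 _
  have ht8 : t ^ 8 = (x : ℝ) := by
    rw [ht, ← Real.rpow_natCast, ← Real.rpow_mul hx0]
    norm_num
  have hA0 : (0 : ℝ) ≤ ((|A * m ^ 2| : ℤ) : ℝ) := by exact_mod_cast abs_nonneg _
  have hka0 : 0 ≤ ka A m := Real.sqrt_nonneg _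
  have hsq : ((|A * m ^ 2| : ℤ) : ℝ) ≤ t ^ 2 := by
    have h1 : (ka A m) ^ 2 = ((|A * m ^ 2| : ℤ) : ℝ) := Real.sq_sqrt hA0
    rw [← h1]
    exact pow_le_pow_left₀ hka0 hk 2
  have h8 : (100 : ℝ) ≤ t ^ 8 := by rw [ht8]; exact hx
  have h4 : (10 : ℝ) ≤ t ^ 4 := by
    have : (10 : ℝ) ^ 2 ≤ (t ^ 4) ^ 2 := by
      calc (10 : ℝ) ^ 2 = 100 := by norm_num
        _ ≤ t ^ 8 := h8
        _ = (t ^ 4) ^ 2 := by ring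
    exact le_of_sq_le_sq this (by positivity)
  have h2 : (3 : ℝ) ≤ t ^ 2 := by
    have : (3 : ℝ) ^ 2 ≤ (t ^ 2) ^ 2 := by
      calc (3 : ℝ) ^ 2 ≤ 10 := by norm_num
        _ ≤ t ^ 4 := h4
        _ = (t ^ 2) ^ 2 := by ring
    exact le_of_sq_le_sq this (by positivity)
  have h16 : (10000 : ℝ) ≤ t ^ 16 := by
    calc (10000 : ℝ) = 100 * 100 := by norm_num
      _ ≤ t ^ 8 * t ^ 8 := mul_le_mul h8 h8 (by norm_num) (by positivity)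
      _ = t ^ 16 := by ring
  have h22 : (25600 : ℝ) ≤ t ^ 22 := by
    calc (25600 : ℝ) ≤ 10000 * 10 * 3 := by norm_num
      _ ≤ t ^ 16 * t ^ 4 * t ^ 2 := by
        refine mul_le_mul (mul_le_mul h16 h4 (by norm_num) (by positivity)) h2 (by norm_num)
          (by positivity)
      _ = t ^ 22 := by ring
  have hfin : (25600 : ℝ) * ((|A * m ^ 2| : ℤ) : ℝ) ≤ (x : ℝ) ^ 3 := by
    calc (25600 : ℝ) * ((|A * m ^ 2| : ℤ) : ℝ) ≤ t ^ 22 * t ^ 2 :=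
          mul_le_mul h22 hsq hA0 (by positivity)
      _ = (t ^ 8) ^ 3 := by ring
      _ = (x : ℝ) ^ 3 := by rw [ht8]
  exact_mod_cast hfin

theorem G8 : ∃ X0 Q : ℝ, 100 ≤ X0 ∧ 1 ≤ Q ∧
    ∀ (A : ℤ) (K : Type) [Field K] [NumberField K] (h : QF A K)
    (x1 y1 m1 x2 y2 m2 : ℤ), X0 ≤ (x1 : ℝ) → (x1 : ℝ) ^ Q ≤ (x2 : ℝ) → m1 ≠ 0 →
    y1 ^ 2 - A * m1 ^ 2 = x1 ^ 3 → y2 ^ 2 - A * m2 ^ 2 = x2 ^ 3 →
    ka A m1 ≤ (x1 : ℝ) ^ (1 / 8 : ℝ) → ka A m2 ≤ (x2 : ℝ) ^ (1 / 8 : ℝ) →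
    ∀ g : K, g ≠ 0 → al h y2 m2 = al h y1 m1 * g ^ 3 →
    ‖h.emb g / h.emb (h.conj g) - 1‖ ≤ 1 / 10 → False := by
  obtain ⟨C, hC, h6⟩ := G6
  obtain ⟨X0, Q, hX0, hQ, h7⟩ := G7 C hC
  refine ⟨X0, Q, hX0, hQ, ?_⟩
  intro A K _ _ h x1 y1 m1 x2 y2 m2 hx1 hx2 hm1 e1 e2 hk1 hk2 g hg0 hg hτ
  have hx1' : (100 : ℝ) ≤ (x1 : ℝ) := hX0.trans hx1
  have hx12 : (x1 : ℝ) ≤ (x1 : ℝ) ^ Q := by
    calc (x1 : ℝ) = (x1 : ℝ) ^ (1 : ℝ) := (Real.rpow_one _).symm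
      _ ≤ (x1 : ℝ) ^ Q := Real.rpow_le_rpow_of_exponent_le (by linarith) hQ
  have hx2' : (100 : ℝ) ≤ (x2 : ℝ) := hx1'.trans (hx12.trans hx2)
  have p1 : 0 < x1 := by exact_mod_cast (by linarith : (0 : ℝ) < (x1 : ℝ))
  have p2 : 0 < x2 := by exact_mod_cast (by linarith : (0 : ℝ) < (x2 : ℝ))
  refine h7 (x1 : ℝ) (x2 : ℝ) (ka A m1) (ka A m2) hx1 hx2 (Real.sqrt_nonneg _) hk1
    (Real.sqrt_nonneg _) hk2 ?_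
  exact h6 A K h x1 y1 m1 x2 y2 m2 p1 p2 hm1 e1 e2 (G8_aux A x1 m1 hx1' hk1)
    (G8_aux A x2 m2 hx2' hk2) g hg0 hg hτ

end RC91
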