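import Pool.Agent.LibRC91.Defs

/-!
# [RC91 G9] spaced real numbers
PLAN: sort `s` increasingly, `x_0 < ... < x_{n-1}`; by induction `x_j ≥ x_0 ^ ((1+η)^j) ≥ lo ^ ((1+η)^j)`, so
`(1+η)^(n-1) ≤ Q`. (Or induction on the cardinality, removing the maximum.) `n = 0` is trivial since `log Q ≥ 0`.
-/
set_option autoImplicit false
namespace RC91

/-- by induction on the cardinality: the maximum of `n + 1` spaced numbers is `≥ lo ^ ((1+η)^n)` -/
private theorem G9_ind (η lo : ℝ) (hη : 0 < η) (hlo : 1 < lo) : ∀ (n : ℕ) (s : Finset ℝ),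
    s.card = n + 1 → (∀ x ∈ s, lo ≤ x) →
    (∀ x ∈ s, ∀ y ∈ s, x < y → x ^ (1 + η) ≤ y) →
    ∃ x ∈ s, lo ^ ((1 + η) ^ n) ≤ x := by
  intro n
  induction n with
  | zero =>
    intro s hs h1 _
    obtain ⟨x, hx⟩ := Finset.card_pos.mp (by omega : 0 < s.card)
    refine ⟨x, hx, ?_⟩
    rw [pow_zero, Real.rpow_one]
    exact h1 x hx
  | succ n ih =>
    intro s hs h1 h2
    have hne : s.Nonempty := Finset.card_pos.mp (by omega)
    have hmax := Finset.max'_mem s hne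
    have hc : (s.erase (s.max' hne)).card = n + 1 := by
      rw [Finset.card_erase_of_mem hmax, hs]
      rfl
    obtain ⟨x, hx, hxl⟩ := ih (s.erase (s.max' hne)) hc
      (fun z hz => h1 z (Finset.mem_of_mem_erase hz))
      (fun z hz w hw => h2 z (Finset.mem_of_mem_erase hz) w (Finset.mem_of_mem_erase hw))
    have hxs := Finset.mem_of_mem_erase hx
    have hlt : x < s.max' hne :=
      lt_of_le_of_ne (Finset.le_max' s x hxs) (Finset.ne_of_mem_erase hx)
    refine ⟨s.max' hne, hmax, ?_⟩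
    have hlo0 : 0 ≤ lo := by linarith
    calc lo ^ ((1 + η) ^ (n + 1)) = (lo ^ ((1 + η) ^ n)) ^ (1 + η) := by
          rw [← Real.rpow_mul hlo0, pow_succ]
      _ ≤ x ^ (1 + η) := Real.rpow_le_rpow (Real.rpow_nonneg hlo0 _) hxl (by linarith)
      _ ≤ s.max' hne := h2 x hxs _ hmax hlt

theorem G9 (η lo Q : ℝ) (hη : 0 < η) (hlo : 1 < lo) (hQ : 1 ≤ Q) (s : Finset ℝ)
    (h1 : ∀ x ∈ s, lo ≤ x ∧ x ≤ lo ^ Q)
    (h2 : ∀ x ∈ s, ∀ y ∈ s, x < y → x ^ (1 + η) ≤ y) :
    (s.card : ℝ) ≤ 1 + Real.log Q / Real.log (1 + η) := by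
  have hlog : 0 < Real.log (1 + η) := Real.log_pos (by linarith)
  rcases Nat.eq_zero_or_pos s.card with h0 | h0
  · rw [h0, Nat.cast_zero]
    have := div_nonneg (Real.log_nonneg hQ) hlog.le
    linarith
  · obtain ⟨n, hn⟩ : ∃ n, s.card = n + 1 := ⟨s.card - 1, by omega⟩
    obtain ⟨x, hx, hxl⟩ := G9_ind η lo hη hlo n s hn (fun z hz => (h1 z hz).1) h2
    have h3 : (1 + η) ^ n ≤ Q := by
      have h4 := hxl.trans (h1 x hx).2
      rwa [Real.rpow_le_rpow_left_iff hlo] at h4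
    have h5 : (n : ℝ) * Real.log (1 + η) ≤ Real.log Q := by
      rw [← Real.log_pow]
      exact Real.log_le_log (by positivity) h3
    rw [hn, Nat.cast_add, Nat.cast_one, add_comm]
    have h6 : (n : ℝ) ≤ Real.log Q / Real.log (1 + η) := by
      rwa [le_div_iff₀ hlog]
    linarith

end RC91
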