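import Pool.Agent.LibRC91.G4
import Pool.Agent.LibRC91.G5
import Pool.Agent.LibRC91.G8
import Pool.Agent.LibRC91.G9

/-!
# [RC91 G10] bad points of one class and one colour
`q = (x, y, m)`. PLAN: `X0 ≥ 200`, `X0 ≥ X0'` of G8, `X0^(ε/2) ≥ 400`. `ka A m ≤ x^((1-ε)/2)`; `25600 |A m^2| ≤ 25600 x ≤ x^3`.
For `q ≠ q'` in `S`, `x ≤ x'`: `conj g ≠ g` (else G5), so by G4
`1 ≤ 10 (ka √x'/x + ka' √x/x')`; `10 ka' √x/x' ≤ 10 x'^(-ε/2) ≤ 1/2`, so `√x' ≥ x/(20 ka)`,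
`x' ≥ x^(1+ε)/400 ≥ x^(1+ε/2) > x`. Hence `q ↦ x` is injective on `S` and the set of the `x` is spaced with
`η = ε/2` (the pair `(q, q')` or `(q', q)`, hypothesis `hcol` holds for both orders).
Split: `x ≤ B^4`: G9 with `lo = X0`, `Q1 = max 1 (4 log B / log X0)`: `≤ 1 + log Q1/log(1+ε/2)`,
`log Q1 ≤ log (1 + 4 log B) ≤ 4 (1 + log (1 + log B))`. `x > B^4`: `ka ≤ √B ≤ x^(1/8)`, G8: all these `x` lie in
`[lo, lo^Q]` with `lo` the smallest one; G9: `≤ 1 + log Q/log(1+ε/2)`.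
-/
set_option autoImplicit false
namespace RC91

private theorem G10_gap {ε x x' k k' : ℝ} (hε : 0 < ε) (hε1 : ε < 1) (hx : 200 ≤ x) (hxx : x ≤ x')
    (h4 : 400 ≤ x ^ (ε / 2)) (hk0 : 0 ≤ k) (hk0' : 0 ≤ k') (hk : k ≤ x ^ ((1 - ε) / 2))
    (hk' : k' ≤ x' ^ ((1 - ε) / 2))
    (h1 : 1 ≤ 10 * (k * Real.sqrt x' / x + k' * Real.sqrt x / x')) :
    x ^ (1 + ε / 2) ≤ x' := by
  have hx0 : 0 < x := by linarith
  have hx0' : 0 < x' := by linarith
  have h4' : 400 ≤ x' ^ (ε / 2) := h4.trans (Real.rpow_le_rpow hx0.le hxx (by linarith))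
  have t2 : k' * Real.sqrt x / x' ≤ 1 / 400 := by
    have e1 : k' * Real.sqrt x ≤ x' ^ ((1 - ε) / 2) * x' ^ (1 / 2 : ℝ) := by
      rw [← Real.sqrt_eq_rpow]
      exact mul_le_mul hk' (Real.sqrt_le_sqrt hxx) (Real.sqrt_nonneg _) (by positivity)
    have e2 : x' ^ ((1 - ε) / 2) * x' ^ (1 / 2 : ℝ) * x' ^ (ε / 2) = x' := by
      rw [← Real.rpow_add hx0', ← Real.rpow_add hx0']
      have : (1 - ε) / 2 + 1 / 2 + ε / 2 = 1 := by ring
      rw [this, Real.rpow_one]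
    rw [div_le_div_iff₀ hx0' (by norm_num)]
    have e3 : k' * Real.sqrt x * 400 ≤ x' ^ ((1 - ε) / 2) * x' ^ (1 / 2 : ℝ) * x' ^ (ε / 2) :=
      mul_le_mul e1 h4' (by norm_num) (by positivity)
    rw [e2] at e3
    linarith
  have t1 : x ≤ 20 * (k * Real.sqrt x') := by
    have e1 : 1 / 2 ≤ 10 * (k * Real.sqrt x' / x) := by linarith
    have e2 : k * Real.sqrt x' / x * x = k * Real.sqrt x' := div_mul_cancel₀ _ hx0.ne'
    nlinarith
  have t3 : x ≤ 20 * (x ^ ((1 - ε) / 2) * Real.sqrt x') := by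
    have := mul_le_mul_of_nonneg_right hk (Real.sqrt_nonneg x')
    linarith
  have t4 : x ^ 2 ≤ 400 * (x ^ (1 - ε) * x') := by
    have e1 : x ^ 2 ≤ (20 * (x ^ ((1 - ε) / 2) * Real.sqrt x')) ^ 2 :=
      pow_le_pow_left₀ hx0.le t3 2
    have e2 : (20 * (x ^ ((1 - ε) / 2) * Real.sqrt x')) ^ 2 =
        400 * ((x ^ ((1 - ε) / 2) * x ^ ((1 - ε) / 2)) * (Real.sqrt x' ^ 2)) := by ring
    rw [e2, Real.sq_sqrt hx0'.le, ← Real.rpow_add hx0] at e1
    have e3 : (1 - ε) / 2 + (1 - ε) / 2 = 1 - ε := by ring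
    rwa [e3] at e1
  have t5 : x ^ 2 = x ^ (1 - ε) * (x ^ (1 + ε / 2) * x ^ (ε / 2)) := by
    rw [← Real.rpow_add hx0, ← Real.rpow_add hx0]
    have : 1 - ε + (1 + ε / 2 + ε / 2) = ((2 : ℕ) : ℝ) := by push_cast; ring
    rw [this, Real.rpow_natCast]
  have t6 : x ^ (1 + ε / 2) * x ^ (ε / 2) ≤ 400 * x' := by
    have hp : 0 < x ^ (1 - ε) := Real.rpow_pos_of_pos hx0 _
    have : x ^ (1 - ε) * (x ^ (1 + ε / 2) * x ^ (ε / 2)) ≤ x ^ (1 - ε) * (400 * x') := by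
      rw [← t5]
      linarith
    exact le_of_mul_le_mul_left this hp
  have hp : 0 < x ^ (1 + ε / 2) := Real.rpow_pos_of_pos hx0 _
  nlinarith

theorem G10 (ε : ℝ) (hε : 0 < ε) (hε1 : ε < 1) : ∃ C X0 : ℝ, 0 < C ∧ 1 ≤ X0 ∧
    ∀ (A : ℤ) (K : Type) [Field K] [NumberField K] (h : QF A K) (B : ℝ), 3 ≤ B →
    ∀ S : Finset (ℤ × ℤ × ℤ),
    (∀ q ∈ S, X0 ≤ (q.1 : ℝ) ∧ 0 < q.2.2 ∧ q.2.1 ^ 2 - A * q.2.2 ^ 2 = q.1 ^ 3 ∧
      (∀ p : ℕ, p.Prime → ¬ ((p : ℤ) ^ 6 ∣ A * q.2.2 ^ 2)) ∧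
      ((|A * q.2.2 ^ 2| : ℤ) : ℝ) ≤ (q.1 : ℝ) ^ (1 - ε) ∧ ((|A * q.2.2 ^ 2| : ℤ) : ℝ) ≤ B) →
    (∀ q ∈ S, ∀ q' ∈ S, ∃ g : K, g ≠ 0 ∧ al h q'.2.1 q'.2.2 = al h q.2.1 q.2.2 * g ^ 3 ∧
      ‖h.emb g / h.emb (h.conj g) - 1‖ ≤ 1 / 10) →
    (S.card : ℝ) ≤ C * (1 + Real.log (1 + Real.log B)) := by
  classical
  obtain ⟨X8, Q, hX8, hQ, h8⟩ := G8
  set L : ℝ := Real.log (1 + ε / 2) with hL
  have hL0 : 0 < L := Real.log_pos (by linarith)
  have hQ0 : 0 ≤ Real.log Q := Real.log_nonneg hQ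
  set X0 : ℝ := max (max 200 X8) ((400 : ℝ) ^ (2 / ε)) with hX0
  have hX200 : 200 ≤ X0 := (le_max_left _ _).trans (le_max_left _ _)
  have hX8' : X8 ≤ X0 := (le_max_right _ _).trans (le_max_left _ _)
  have hX400 : (400 : ℝ) ^ (2 / ε) ≤ X0 := le_max_right _ _
  refine ⟨2 + (2 + Real.log Q) / L, X0, by positivity, by linarith, ?_⟩
  intro A K _ _ h B hB S hS hcol
  have hB0 : 0 < B := by linarith
  -- basic facts
  have hx200 : ∀ q ∈ S, 200 ≤ (q.1 : ℝ) := fun q hq => hX200.trans (hS q hq).1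
  have hx400 : ∀ q ∈ S, 400 ≤ (q.1 : ℝ) ^ (ε / 2) := by
    intro q hq
    have e1 : ((400 : ℝ) ^ (2 / ε)) ^ (ε / 2) = 400 := by
      rw [← Real.rpow_mul (by norm_num)]
      have : 2 / ε * (ε / 2) = 1 := by field_simp
      rw [this, Real.rpow_one]
    rw [← e1]
    exact Real.rpow_le_rpow (by positivity) (hX400.trans (hS q hq).1) (by linarith)
  have hka0 : ∀ m, 0 ≤ ka A m := fun m => Real.sqrt_nonneg _
  have hka1 : ∀ q ∈ S, ka A q.2.2 ≤ (q.1 : ℝ) ^ ((1 - ε) / 2) := by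
    intro q hq
    have hx0 : (0 : ℝ) ≤ q.1 := by linarith [hx200 q hq]
    have e1 := Real.sqrt_le_sqrt (hS q hq).2.2.2.2.1
    rw [Real.sqrt_eq_rpow (_ ^ _), ← Real.rpow_mul hx0] at e1
    have e2 : (1 - ε) * (1 / 2) = (1 - ε) / 2 := by ring
    rw [e2] at e1
    exact e1
  have hkaB : ∀ q ∈ S, ka A q.2.2 ≤ Real.sqrt B := fun q hq =>
    Real.sqrt_le_sqrt (hS q hq).2.2.2.2.2
  have hxpos : ∀ q ∈ S, 0 < q.1 := by
    intro q hq
    have : (0 : ℝ) < q.1 := by linarith [hx200 q hq]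
    exact_mod_cast this
  have hk256 : ∀ q ∈ S, 25600 * |A * q.2.2 ^ 2| ≤ q.1 ^ 3 := by
    intro q hq
    have hx := hx200 q hq
    have e1 : ((|A * q.2.2 ^ 2| : ℤ) : ℝ) ≤ (q.1 : ℝ) := by
      refine (hS q hq).2.2.2.2.1.trans ?_
      calc (q.1 : ℝ) ^ (1 - ε) ≤ (q.1 : ℝ) ^ (1 : ℝ) :=
            Real.rpow_le_rpow_of_exponent_le (by linarith) (by linarith)
        _ = q.1 := Real.rpow_one _
    have e2 : 25600 * ((|A * q.2.2 ^ 2| : ℤ) : ℝ) ≤ (q.1 : ℝ) ^ 3 := by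
      have e3 : (40000 : ℝ) ≤ (q.1 : ℝ) ^ 2 := by nlinarith
      have e4 : (q.1 : ℝ) ^ 3 = (q.1 : ℝ) ^ 2 * q.1 := by ring
      rw [e4]
      nlinarith
    exact_mod_cast e2
  -- the gap
  have hgap : ∀ q ∈ S, ∀ q' ∈ S, q ≠ q' → (q.1 : ℝ) ≤ q'.1 →
      (q.1 : ℝ) ^ (1 + ε / 2) ≤ q'.1 := by
    intro q hq q' hq' hne hle
    obtain ⟨g, hg0, hg, hc⟩ := hcol q hq q' hq'
    obtain ⟨-, hm, he, h6, -, -⟩ := hS q hq
    obtain ⟨-, hm', he', h6', -, -⟩ := hS q' hq'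
    have hfix : h.conj g ≠ g := by
      intro hfix
      obtain ⟨f1, f2, f3⟩ := G5 h q.1 q.2.1 q.2.2 q'.1 q'.2.1 q'.2.2 (hxpos q hq) (hxpos q' hq')
        hm hm' he he' h6 h6' g hg0 hg hfix
      exact hne (Prod.ext f1 (Prod.ext f2 f3))
    have h4 := G4 h q.1 q.2.1 q.2.2 q'.1 q'.2.1 q'.2.2 (hxpos q hq) (hxpos q' hq') he he'
      (hk256 q hq) (hk256 q' hq') g hg0 hg hc hfix
    exact G10_gap hε hε1 (hx200 q hq) hle (hx400 q hq) (hka0 _) (hka0 _) (hka1 q hq)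
      (hka1 q' hq') h4
  have hlt : ∀ q ∈ S, (q.1 : ℝ) < (q.1 : ℝ) ^ (1 + ε / 2) := by
    intro q hq
    have hx := hx200 q hq
    calc (q.1 : ℝ) = (q.1 : ℝ) ^ (1 : ℝ) := (Real.rpow_one _).symm
      _ < _ := Real.rpow_lt_rpow_of_exponent_lt (by linarith) (by linarith)
  have hinj : Set.InjOn (fun q : ℤ × ℤ × ℤ => (q.1 : ℝ)) S := by
    intro q hq q' hq' heq
    by_contra hne
    have heq' : (q.1 : ℝ) = q'.1 := heq
    have h1 := hgap q hq q' hq' hne heq'.le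
    have h2 := hlt q hq
    linarith
  -- counting a subset
  have hcount : ∀ (T : Finset (ℤ × ℤ × ℤ)) (lo Q' : ℝ), T ⊆ S → 1 < lo → 1 ≤ Q' →
      (∀ q ∈ T, lo ≤ (q.1 : ℝ) ∧ (q.1 : ℝ) ≤ lo ^ Q') →
      (T.card : ℝ) ≤ 1 + Real.log Q' / L := by
    intro T lo Q' hT hlo hQ' hb
    have h1 := G9 (ε / 2) lo Q' (by linarith) hlo hQ' (T.image fun q => (q.1 : ℝ)) ?_ ?_
    · rw [Finset.card_image_of_injOn (hinj.mono (by exact_mod_cast hT))] at h1
      exact h1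
    · intro x hx
      obtain ⟨q, hq, rfl⟩ := Finset.mem_image.1 hx
      exact hb q hq
    · intro x hx y hy hxy
      obtain ⟨q, hq, rfl⟩ := Finset.mem_image.1 hx
      obtain ⟨q', hq', rfl⟩ := Finset.mem_image.1 hy
      refine hgap q (hT hq) q' (hT hq') ?_ hxy.le
      rintro rfl
      exact lt_irrefl _ hxy
  -- the small ones
  have hlogB : 1 ≤ Real.log B := by
    rw [Real.le_log_iff_exp_le hB0]
    linarith [Real.exp_one_lt_d9]
  have hlogX : 1 ≤ Real.log X0 := by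
    rw [Real.le_log_iff_exp_le (by linarith)]
    linarith [Real.exp_one_lt_d9]
  set W : ℝ := Real.log (1 + Real.log B) with hW
  have hW0 : 0 ≤ W := Real.log_nonneg (by linarith)
  have hs1 : ((S.filter fun q => (q.1 : ℝ) ≤ B ^ 4).card : ℝ) ≤ 1 + (2 + W) / L := by
    set Q1 : ℝ := 4 * Real.log B with hQ1
    have hQ11 : 1 ≤ Q1 := by linarith
    have h1 := hcount (S.filter fun q => (q.1 : ℝ) ≤ B ^ 4) X0 Q1 (Finset.filter_subset _ _)
      (by linarith) hQ11 (by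
        intro q hq
        rw [Finset.mem_filter] at hq
        refine ⟨(hS q hq.1).1, hq.2.trans ?_⟩
        have e1 : B ^ 4 = Real.exp (4 * Real.log B) := by
          rw [← Real.exp_log hB0, Real.log_exp, ← Real.exp_nat_mul]
          push_cast
          rfl
        rw [e1, Real.rpow_def_of_pos (by linarith)]
        apply Real.exp_le_exp.2
        have e2 : 0 ≤ (Real.log X0 - 1) * Q1 := mul_nonneg (by linarith) (by linarith)
        rw [hQ1] at e2 ⊢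
        linarith)
    refine h1.trans ?_
    have e2 : Real.log Q1 ≤ 2 + W := by
      have e3 : Q1 ≤ 4 * (1 + Real.log B) := by linarith
      have e4 : Real.log Q1 ≤ Real.log (4 * (1 + Real.log B)) :=
        Real.log_le_log (by linarith) e3
      have e4' : Real.log (4 * (1 + Real.log B)) = Real.log 4 + Real.log (1 + Real.log B) :=
        Real.log_mul (by norm_num) (by linarith)
      have e5 : Real.log 4 ≤ 2 := by
        rw [Real.log_le_iff_le_exp (by norm_num)]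
        have e6 := Real.add_one_le_exp (1 : ℝ)
        have e7 : Real.exp 2 = Real.exp 1 * Real.exp 1 := by rw [← Real.exp_add]; norm_num
        rw [e7]
        nlinarith
      linarith
    have e3 : Real.log Q1 / L ≤ (2 + W) / L := div_le_div_of_nonneg_right e2 hL0.le
    linarith
  -- the large ones
  have hs2 : ((S.filter fun q => ¬ (q.1 : ℝ) ≤ B ^ 4).card : ℝ) ≤ 1 + Real.log Q / L := by
    set T := S.filter fun q => ¬ (q.1 : ℝ) ≤ B ^ 4 with hT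
    rcases T.eq_empty_or_nonempty with h0 | hne
    · rw [h0, Finset.card_empty]
      have : 0 ≤ Real.log Q / L := div_nonneg hQ0 hL0.le
      push_cast
      linarith
    · obtain ⟨q0, hq0, hmin⟩ := Finset.exists_min_image T (fun q => (q.1 : ℝ)) hne
      have hTS : T ⊆ S := Finset.filter_subset _ _
      have hka8 : ∀ q ∈ T, ka A q.2.2 ≤ (q.1 : ℝ) ^ (1 / 8 : ℝ) := by
        intro q hq
        have h1 := (Finset.mem_filter.1 hq).2
        refine (hkaB q (hTS hq)).trans ?_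
        have e1 : Real.sqrt B = (B ^ 4) ^ (1 / 8 : ℝ) := by
          rw [Real.sqrt_eq_rpow, ← Real.rpow_natCast, ← Real.rpow_mul hB0.le]
          norm_num
        rw [e1]
        exact Real.rpow_le_rpow (by positivity) (not_le.1 h1).le (by norm_num)
      refine hcount T (q0.1 : ℝ) Q hTS (by linarith [hx200 q0 (hTS hq0)]) hQ ?_
      intro q hq
      refine ⟨hmin q hq, ?_⟩
      by_contra hcon
      obtain ⟨g, hg0, hg, hc⟩ := hcol q0 (hTS hq0) q (hTS hq)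
      exact h8 A K h q0.1 q0.2.1 q0.2.2 q.1 q.2.1 q.2.2 (hX8'.trans (hS q0 (hTS hq0)).1)
        (not_le.1 hcon).le (hS q0 (hTS hq0)).2.1.ne' (hS q0 (hTS hq0)).2.2.1
        (hS q (hTS hq)).2.2.1 (hka8 q0 hq0) (hka8 q hq) g hg0 hg hc
  have hsum : (S.card : ℝ) = ((S.filter fun q => (q.1 : ℝ) ≤ B ^ 4).card : ℝ) +
      ((S.filter fun q => ¬ (q.1 : ℝ) ≤ B ^ 4).card : ℝ) := by
    have h0 := Finset.card_filter_add_card_filter_not (s := S)
      (fun q : ℤ × ℤ × ℤ => (q.1 : ℝ) ≤ B ^ (4 : ℕ))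
    have h1 : ((_ + _ : ℕ) : ℝ) = (S.card : ℝ) := congrArg (fun n : ℕ => (n : ℝ)) h0
    rw [← h1, Nat.cast_add]
  rw [hsum]
  have hfin : 1 + (2 + W) / L + (1 + Real.log Q / L) ≤ (2 + (2 + Real.log Q) / L) * (1 + W) := by
    have e1 : (2 + (2 + Real.log Q) / L) * (1 + W) = 2 + 2 * W + (2 + Real.log Q) / L +
        (2 + Real.log Q) / L * W := by ring
    have e2 : (2 + W) / L + Real.log Q / L = (2 + Real.log Q) / L + W / L := by
      rw [← add_div, ← add_div]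
      congr 1
      ring
    have e3 : W / L ≤ (2 + Real.log Q) / L * W := by
      rw [div_mul_eq_mul_div]
      apply div_le_div_of_nonneg_right _ hL0.le
      nlinarith
    rw [e1]
    linarith
  linarith

end RC91
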