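import Pool.Agent.LibRC91.GDefs

/-!
# [RC91 G2] cube roots in ℂ near 1
PLAN: `G2_root`: `z^3 - 1 = (z-1)(z-ω)(z-ω²)`; let `ζ` be the nearest of the three cube roots of 1, so
`‖z-ζ‖^3 ≤ ‖z^3-1‖ ≤ 1/10`, `‖z-ζ‖ ≤ 1/2`; the other two factors have norm `≥ √3 - 1/2 > 1`
(the distance of two cube roots of 1 is `√3`). `G2_near`, `G2_diff`: `z^3 - t^3 = (z-t)(z^2+zt+t^2)` and
`‖z^2+zt+t^2 - 3‖ ≤ 3 * 0.21 < 2`. `G2_ex`: `t = exp (log w / 3)`: `w` is in the half plane `Re w ≥ 1/2`,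
`|arg w| ≤ π/6`, so `|arg t| ≤ π/18`, `Re t ≥ 0.78`, `Re (t^2) ≥ 0`, `‖t^2+t+1‖ ≥ 1`, and
`w - 1 = (t-1)(t^2+t+1)`.
-/
set_option autoImplicit false
namespace RC91

private theorem G2_aux (z ζ : ℂ) (hζ : ζ ^ 3 = 1) (hd : ‖z - ζ‖ ≤ 1 / 2) :
    ‖z - ζ‖ ≤ ‖z ^ 3 - 1‖ := by
  have hζn : ‖ζ‖ = 1 := by
    have h1 : ‖ζ‖ ^ 3 = 1 := by rw [← norm_pow, hζ, norm_one]
    exact (pow_eq_one_iff_of_nonneg (norm_nonneg _) (by norm_num)).1 h1
  have h1 : z ^ 3 - 1 = (z - ζ) * (3 * ζ ^ 2 + (3 * ζ * (z - ζ) + (z - ζ) ^ 2)) := by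
    rw [← hζ]
    ring
  have h2 : ‖3 * ζ * (z - ζ) + (z - ζ) ^ 2‖ ≤ 3 / 2 + 1 / 4 := by
    refine (norm_add_le _ _).trans ?_
    rw [norm_mul, norm_mul, hζn, norm_pow]
    have h3 : ‖(3 : ℂ)‖ = 3 := by norm_num
    rw [h3]
    have h4 := norm_nonneg (z - ζ)
    nlinarith
  have h3 : ‖3 * ζ ^ 2‖ = 3 := by
    rw [norm_mul, norm_pow, hζn]
    norm_num
  have h4 : 1 ≤ ‖3 * ζ ^ 2 + (3 * ζ * (z - ζ) + (z - ζ) ^ 2)‖ := by
    have h5 := norm_sub_le (3 * ζ ^ 2 + (3 * ζ * (z - ζ) + (z - ζ) ^ 2))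
      (3 * ζ * (z - ζ) + (z - ζ) ^ 2)
    rw [add_sub_cancel_right, h3] at h5
    linarith
  rw [h1, norm_mul]
  exact le_mul_of_one_le_right (norm_nonneg _) h4

theorem G2_root (z : ℂ) (hz : ‖z ^ 3 - 1‖ ≤ 1 / 10) :
    ∃ ζ : ℂ, ζ ^ 3 = 1 ∧ ‖z - ζ‖ ≤ ‖z ^ 3 - 1‖ := by
  have hprim := Complex.isPrimitiveRoot_exp 3 (by norm_num)
  set ω : ℂ := Complex.exp (2 * Real.pi * Complex.I / (3 : ℕ)) with hω
  have h3 : ω ^ 3 = 1 := hprim.pow_eq_one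
  have hsum : 1 + ω + ω ^ 2 = 0 := by
    have h1 := hprim.geom_sum_eq_zero (by norm_num)
    simpa [Finset.sum_range_succ] using h1
  have hfac : z ^ 3 - 1 = (z - 1) * (z - ω) * (z - ω ^ 2) := by
    linear_combination (z ^ 2 - z) * hsum + (1 - z) * h3
  by_contra hcon
  push Not at hcon
  have hbig : ∀ ζ : ℂ, ζ ^ 3 = 1 → 1 / 2 < ‖z - ζ‖ := by
    intro ζ hζ
    by_contra h
    push Not at h
    exact absurd (G2_aux z ζ hζ h) (not_le.2 (hcon ζ hζ))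
  have b1 := hbig 1 (by norm_num)
  have b2 := hbig ω h3
  have b3 := hbig (ω ^ 2) (by rw [← pow_mul, mul_comm, pow_mul, h3, one_pow])
  rw [hfac, norm_mul, norm_mul] at hz
  have c1 : 1 / 2 * (1 / 2) < ‖z - 1‖ * ‖z - ω‖ :=
    mul_lt_mul'' b1 b2 (by norm_num) (by norm_num)
  have c2 : 1 / 2 * (1 / 2) * (1 / 2) < ‖z - 1‖ * ‖z - ω‖ * ‖z - ω ^ 2‖ :=
    mul_lt_mul'' c1 b3 (by norm_num) (by norm_num)
  norm_num at c2
  linarith

theorem G2_diff (z t : ℂ) (hz : ‖z - 1‖ ≤ 1 / 10) (ht : ‖t - 1‖ ≤ 1 / 10) :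
    ‖z - t‖ ≤ ‖z ^ 3 - t ^ 3‖ := by
  have h1 : z ^ 3 - t ^ 3 = (z - t) * (3 + (3 * (z - 1) + 3 * (t - 1) + (z - 1) ^ 2 +
      (z - 1) * (t - 1) + (t - 1) ^ 2)) := by ring
  have h2 : ‖3 * (z - 1) + 3 * (t - 1) + (z - 1) ^ 2 + (z - 1) * (t - 1) + (t - 1) ^ 2‖ ≤
      2 := by
    have hz0 := norm_nonneg (z - 1)
    have ht0 := norm_nonneg (t - 1)
    calc ‖3 * (z - 1) + 3 * (t - 1) + (z - 1) ^ 2 + (z - 1) * (t - 1) + (t - 1) ^ 2‖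
        ≤ ‖3 * (z - 1)‖ + ‖3 * (t - 1)‖ + ‖(z - 1) ^ 2‖ + ‖(z - 1) * (t - 1)‖ +
          ‖(t - 1) ^ 2‖ := by
          refine (norm_add_le _ _).trans (add_le_add_left ?_ _)
          refine (norm_add_le _ _).trans (add_le_add_left ?_ _)
          refine (norm_add_le _ _).trans (add_le_add_left ?_ _)
          exact norm_add_le _ _
      _ = 3 * ‖z - 1‖ + 3 * ‖t - 1‖ + ‖z - 1‖ ^ 2 + ‖z - 1‖ * ‖t - 1‖ + ‖t - 1‖ ^ 2 := by
          rw [norm_mul, norm_mul, norm_mul, norm_pow, norm_pow]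
          norm_num
      _ ≤ 2 := by nlinarith
  have h3 : 1 ≤ ‖3 + (3 * (z - 1) + 3 * (t - 1) + (z - 1) ^ 2 +
      (z - 1) * (t - 1) + (t - 1) ^ 2)‖ := by
    have h5 := norm_sub_le (3 + (3 * (z - 1) + 3 * (t - 1) + (z - 1) ^ 2 +
      (z - 1) * (t - 1) + (t - 1) ^ 2)) (3 * (z - 1) + 3 * (t - 1) + (z - 1) ^ 2 +
      (z - 1) * (t - 1) + (t - 1) ^ 2)
    rw [add_sub_cancel_right] at h5
    have h6 : ‖(3 : ℂ)‖ = 3 := by norm_num
    rw [h6] at h5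
    linarith
  rw [h1, norm_mul]
  exact le_mul_of_one_le_right (norm_nonneg _) h3

theorem G2_ex (w : ℂ) (hw : ‖w - 1‖ ≤ 1 / 2) : ∃ t : ℂ, t ^ 3 = w ∧ ‖t - 1‖ ≤ ‖w - 1‖ := by
  have hre : 0 < w.re := by
    have h1 := (Complex.abs_re_le_norm (w - 1)).trans hw
    rw [Complex.sub_re, Complex.one_re, abs_le] at h1
    linarith [h1.1]
  have hw0 : w ≠ 0 := by
    intro h
    rw [h] at hre
    simp at hre
  have harg : |w.arg| < Real.pi / 2 := Complex.abs_arg_lt_pi_div_two_iff.2 (Or.inl hre)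
  rw [abs_lt] at harg
  have hpi := Real.pi_pos
  set t : ℂ := Complex.exp (Complex.log w / 3) with ht
  have ht3 : t ^ 3 = w := by
    rw [ht, ← Complex.exp_nat_mul]
    rw [show ((3 : ℕ) : ℂ) * (Complex.log w / 3) = Complex.log w by push_cast; ring]
    exact Complex.exp_log hw0
  have him : (Complex.log w / 3).im = w.arg / 3 := by
    have h1 : Complex.log w / 3 = ((1 / 3 : ℝ) : ℂ) * Complex.log w := by push_cast; ring
    rw [h1, Complex.im_ofReal_mul, Complex.log_im]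
    ring
  have hre1 : 0 ≤ t.re := by
    rw [ht, Complex.exp_re, him]
    exact mul_nonneg (Real.exp_pos _).le
      (Real.cos_nonneg_of_mem_Icc ⟨by linarith [harg.1], by linarith [harg.2]⟩)
  have hre2 : 0 ≤ (t ^ 2).re := by
    have h1 : t ^ 2 = Complex.exp (2 * (Complex.log w / 3)) := by
      rw [ht, ← Complex.exp_nat_mul]
      push_cast
      rfl
    have h2 : (2 * (Complex.log w / 3)).im = 2 * (w.arg / 3) := by
      rw [← him, Complex.mul_im]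
      simp
    rw [h1, Complex.exp_re, h2]
    exact mul_nonneg (Real.exp_pos _).le
      (Real.cos_nonneg_of_mem_Icc ⟨by linarith [harg.1], by linarith [harg.2]⟩)
  refine ⟨t, ht3, ?_⟩
  have h1 : w - 1 = (t - 1) * (t ^ 2 + t + 1) := by
    rw [← ht3]
    ring
  have h2 : 1 ≤ ‖t ^ 2 + t + 1‖ := by
    refine le_trans ?_ (Complex.re_le_norm _)
    rw [Complex.add_re, Complex.add_re, Complex.one_re]
    linarith
  rw [h1, norm_mul]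
  exact le_mul_of_one_le_right (norm_nonneg _) h2

end RC91
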