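import Pool.Agent.LibRC91.G1
import Pool.Agent.LibRC91.K2

/-!
# [RC91 G3] two points of one class
PLAN: `α2 = α1 g^3`, `conj α2 = conj α1 (conj g)^3`, so with `τ = emb g / emb (conj g)`:
`τ^3 = (emb α2 / emb (conj α2)) * (emb (conj α1) / emb α1)`. By G1 `emb(conj αi)/emb αi = 1 + ei`,
`‖ei‖ ≤ 4 di ≤ 1/40`, `di = ka/xs`; `‖1/(1+e2) - 1‖ ≤ (40/39) 4 d2`, product: `≤ 8 (d1 + d2)`.
The product of the norms: `x1 (g conj g) = x2` (K2_gnorm).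
-/
set_option autoImplicit false
namespace RC91

theorem G3 {A : ℤ} {K : Type} [Field K] [NumberField K] (h : QF A K)
    (x1 y1 m1 x2 y2 m2 : ℤ) (hx1 : 0 < x1) (hx2 : 0 < x2)
    (e1 : y1 ^ 2 - A * m1 ^ 2 = x1 ^ 3) (e2 : y2 ^ 2 - A * m2 ^ 2 = x2 ^ 3)
    (hk1 : 25600 * |A * m1 ^ 2| ≤ x1 ^ 3) (hk2 : 25600 * |A * m2 ^ 2| ≤ x2 ^ 3)
    (g : K) (hg0 : g ≠ 0) (hg : al h y2 m2 = al h y1 m1 * g ^ 3) :
    ‖(h.emb g / h.emb (h.conj g)) ^ 3 - 1‖ ≤ 8 * (ka A m1 / xs x1 + ka A m2 / xs x2) ∧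
    ‖h.emb g‖ * ‖h.emb (h.conj g)‖ = (x2 : ℝ) / x1 := by
  have hx1' : (0 : ℝ) < x1 := by exact_mod_cast hx1
  have hx2' : (0 : ℝ) < x2 := by exact_mod_cast hx2
  have hxs1 : 0 < xs x1 := mul_pos hx1' (Real.sqrt_pos.2 hx1')
  have hxs2 : 0 < xs x2 := mul_pos hx2' (Real.sqrt_pos.2 hx2')
  constructor
  · obtain ⟨p1, _, p3, _, p5, p6⟩ := G1 h x1 y1 m1 hx1 e1 hk1
    obtain ⟨q1, _, q3, _, q5, q6⟩ := G1 h x2 y2 m2 hx2 e2 hk2
    have h2 : h.emb (al h y2 m2) = h.emb (al h y1 m1) * h.emb g ^ 3 := by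
      rw [hg, map_mul, map_pow]
    have h3 : h.emb (h.conj (al h y2 m2)) = h.emb (h.conj (al h y1 m1)) *
        h.emb (h.conj g) ^ 3 := by
      rw [hg, map_mul, map_pow, map_mul, map_pow]
    have hG : h.emb g ≠ 0 := (map_ne_zero _).2 hg0
    have hGc : h.emb (h.conj g) ≠ 0 := (map_ne_zero _).2 ((map_ne_zero _).2 hg0)
    set a1 := h.emb (al h y1 m1)
    set a2 := h.emb (al h y2 m2)
    set b1 := h.emb (h.conj (al h y1 m1))
    set b2 := h.emb (h.conj (al h y2 m2))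
    have ha1 : a1 ≠ 0 := norm_pos_iff.1 (by linarith)
    have ha2 : a2 ≠ 0 := norm_pos_iff.1 (by linarith)
    have hb1 : b1 ≠ 0 := norm_pos_iff.1 (by linarith)
    have hb2 : b2 ≠ 0 := norm_pos_iff.1 (by linarith)
    have hu2 : b2 / a2 ≠ 0 := div_ne_zero hb2 ha2
    have h4 : (h.emb g / h.emb (h.conj g)) ^ 3 - 1 = (b1 / a1 - b2 / a2) / (b2 / a2) := by
      rw [h3, h2]
      field_simp
    have h5 : 39 / 40 ≤ ‖b2 / a2‖ := by
      have h6 : ‖(1 : ℂ)‖ ≤ ‖b2 / a2‖ + ‖1 - b2 / a2‖ := by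
        have := norm_add_le (b2 / a2) (1 - b2 / a2)
        rwa [add_sub_cancel] at this
      rw [norm_one, norm_sub_rev] at h6
      linarith
    have h7 : ‖b1 / a1 - b2 / a2‖ ≤ 4 * (ka A m1 / xs x1) + 4 * (ka A m2 / xs x2) := by
      have h8 : b1 / a1 - b2 / a2 = (b1 / a1 - 1) - (b2 / a2 - 1) := by ring
      rw [h8]
      exact (norm_sub_le _ _).trans (add_le_add p5 q5)
    have h9 : 0 ≤ 4 * (ka A m1 / xs x1) + 4 * (ka A m2 / xs x2) := (norm_nonneg _).trans h7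
    rw [h4, norm_div, div_le_iff₀ (by linarith)]
    nlinarith
  · obtain ⟨hn, _⟩ := K2_gnorm h x1 y1 m1 x2 y2 m2 hx1.ne' hx2.ne' e1 e2 g hg
    have h1 := congrArg h.emb hn
    rw [map_mul, map_mul, map_intCast, map_intCast] at h1
    have h2 := congrArg (fun z : ℂ => ‖z‖) h1
    simp only [norm_mul, Complex.norm_intCast] at h2
    rw [abs_of_pos hx1', abs_of_pos hx2'] at h2
    rw [eq_div_iff hx1'.ne', mul_comm]
    exact h2

end RC91
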