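import Pool.Agent.LibRC91.G2
import Pool.Agent.LibRC91.G3

/-!
# [RC91 G4] the gap inequality
PLAN: `z = x1 (g - conj g)` is integral (K2_gnorm: `x1 g` integral, K2_int), `conj z = - z`, `z ≠ 0`, so
`1 ≤ ‖emb z‖` (K2_anti). `‖emb z‖ = x1 ‖emb (conj g)‖ ‖τ - 1‖`, `‖τ - 1‖ ≤ ‖τ^3 - 1‖` (G2_diff with `t = 1`),
`≤ 8 (d1 + d2)` (G3); `‖emb (conj g)‖^2 = (x2/x1)/‖τ‖ ≤ (x2/x1)/0.9`, so `‖emb (conj g)‖ ≤ 1.1 √(x2/x1)`.
`x1 √(x2/x1) ka1/xs x1 = ka1 √x2 / x1`, `x1 √(x2/x1) ka2/xs x2 = ka2 √x1 / x2`. `1.1 * 8 ≤ 10`.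
-/
set_option autoImplicit false
namespace RC91

/-- the real variable part of the gap inequality -/
private theorem G4_real (X1 X2 N G T k1 k2 : ℝ) (hX1 : 0 < X1) (hX2 : 0 < X2) (hN : 0 ≤ N)
    (hk1 : 0 ≤ k1) (hk2 : 0 ≤ k2) (hprod : G * N = X2 / X1) (hGN : 9 / 10 * N ≤ G)
    (hT : T ≤ 8 * (k1 / (X1 * Real.sqrt X1) + k2 / (X2 * Real.sqrt X2)))
    (h1 : 1 ≤ X1 * N * T) :
    1 ≤ 10 * (k1 * Real.sqrt X2 / X1 + k2 * Real.sqrt X1 / X2) := by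
  obtain ⟨s1, hs1⟩ : ∃ s, s = Real.sqrt X1 := ⟨_, rfl⟩
  obtain ⟨s2, hs2⟩ : ∃ s, s = Real.sqrt X2 := ⟨_, rfl⟩
  have hs1p : 0 < s1 := by rw [hs1]; exact Real.sqrt_pos.mpr hX1
  have hs2p : 0 < s2 := by rw [hs2]; exact Real.sqrt_pos.mpr hX2
  have hq1 : s1 ^ 2 = X1 := by rw [hs1]; exact Real.sq_sqrt hX1.le
  have hq2 : s2 ^ 2 = X2 := by rw [hs2]; exact Real.sq_sqrt hX2.le
  rw [← hs1, ← hs2] at hT ⊢
  -- `N ≤ 1.1 * s2 / s1`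
  have hNsq : N ^ 2 ≤ (11 / 10 * (s2 / s1)) ^ 2 := by
    have h9 : 9 / 10 * N ^ 2 ≤ X2 / X1 := by
      rw [← hprod]
      nlinarith
    have h10 : (11 / 10 * (s2 / s1)) ^ 2 = 121 / 100 * (X2 / X1) := by
      rw [← hq1, ← hq2]; ring
    rw [h10]
    have hpos : 0 < X2 / X1 := div_pos hX2 hX1
    linarith
  have hNle : N ≤ 11 / 10 * (s2 / s1) := by
    have hr : 0 ≤ 11 / 10 * (s2 / s1) := by positivity
    nlinarith [abs_le_of_sq_le_sq' hNsq hr]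
  have hD : 0 ≤ 8 * (k1 / (X1 * s1) + k2 / (X2 * s2)) := by positivity
  have h2 : X1 * N * T ≤ X1 * N * (8 * (k1 / (X1 * s1) + k2 / (X2 * s2))) :=
    mul_le_mul_of_nonneg_left hT (by positivity)
  have h3 : X1 * N * (8 * (k1 / (X1 * s1) + k2 / (X2 * s2))) ≤
      X1 * (11 / 10 * (s2 / s1)) * (8 * (k1 / (X1 * s1) + k2 / (X2 * s2))) := by
    apply mul_le_mul_of_nonneg_right _ hD
    exact mul_le_mul_of_nonneg_left hNle hX1.le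
  have h4 : X1 * (11 / 10 * (s2 / s1)) * (8 * (k1 / (X1 * s1) + k2 / (X2 * s2))) =
      88 / 10 * (k1 * s2 / X1 + k2 * s1 / X2) := by
    rw [← hq1, ← hq2]
    field_simp
    ring
  have h5 : 0 ≤ k1 * s2 / X1 + k2 * s1 / X2 := by positivity
  linarith

theorem G4 {A : ℤ} {K : Type} [Field K] [NumberField K] (h : QF A K)
    (x1 y1 m1 x2 y2 m2 : ℤ) (hx1 : 0 < x1) (hx2 : 0 < x2)
    (e1 : y1 ^ 2 - A * m1 ^ 2 = x1 ^ 3) (e2 : y2 ^ 2 - A * m2 ^ 2 = x2 ^ 3)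
    (hk1 : 25600 * |A * m1 ^ 2| ≤ x1 ^ 3) (hk2 : 25600 * |A * m2 ^ 2| ≤ x2 ^ 3)
    (g : K) (hg0 : g ≠ 0) (hg : al h y2 m2 = al h y1 m1 * g ^ 3)
    (hcol : ‖h.emb g / h.emb (h.conj g) - 1‖ ≤ 1 / 10) (hne : h.conj g ≠ g) :
    1 ≤ 10 * (ka A m1 * Real.sqrt x2 / x1 + ka A m2 * Real.sqrt x1 / x2) := by
  obtain ⟨hn, hint⟩ := K2_gnorm h x1 y1 m1 x2 y2 m2 hx1.ne' hx2.ne' e1 e2 g hg
  obtain ⟨hT, hprod⟩ := G3 h x1 y1 m1 x2 y2 m2 hx1 hx2 e1 e2 hk1 hk2 g hg0 hg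
  have hgc0 : h.conj g ≠ 0 := (map_ne_zero h.conj).mpr hg0
  have hEgc : h.emb (h.conj g) ≠ 0 := (map_ne_zero h.emb).mpr hgc0
  have hconjx : h.conj (x1 : K) = (x1 : K) := map_intCast h.conj x1
  -- the integral element `z`
  have hz : IsIntegral ℤ ((x1 : K) * (g - h.conj g)) := by
    have h1 := K2_int h _ hint
    rw [map_mul, hconjx] at h1
    have h2 := hint.sub h1
    have h3 : (x1 : K) * g - (x1 : K) * h.conj g = (x1 : K) * (g - h.conj g) := by ring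
    rwa [h3] at h2
  have hzc : h.conj ((x1 : K) * (g - h.conj g)) = -((x1 : K) * (g - h.conj g)) := by
    rw [map_mul, hconjx, map_sub, K2_inv]; ring
  have hz0 : (x1 : K) * (g - h.conj g) ≠ 0 := by
    apply mul_ne_zero
    · exact_mod_cast hx1.ne'
    · exact sub_ne_zero.mpr (Ne.symm hne)
  have hone := K2_anti h _ hz hzc hz0
  set τ : ℂ := h.emb g / h.emb (h.conj g) with hτ
  have hEg : h.emb g = h.emb (h.conj g) * τ := by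
    rw [hτ]; field_simp
  have hnorm : ‖h.emb ((x1 : K) * (g - h.conj g))‖ =
      (x1 : ℝ) * ‖h.emb (h.conj g)‖ * ‖τ - 1‖ := by
    have hx1R : (0 : ℝ) ≤ (x1 : ℝ) := by exact_mod_cast hx1.le
    rw [map_mul, map_sub, map_intCast, hEg, norm_mul]
    have h6 : h.emb (h.conj g) * τ - h.emb (h.conj g) = h.emb (h.conj g) * (τ - 1) := by ring
    rw [h6, norm_mul]
    have h7 : ‖((x1 : ℤ) : ℂ)‖ = (x1 : ℝ) := by
      rw [Complex.norm_intCast, abs_of_nonneg hx1R]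
    rw [h7]; ring
  rw [hnorm] at hone
  have hτ1 : ‖τ - 1‖ ≤ ‖τ ^ 3 - 1‖ := by
    have := G2_diff τ 1 hcol (by norm_num)
    simpa using this
  have hτn : 9 / 10 ≤ ‖τ‖ := by
    have h8 : ‖(1 : ℂ)‖ ≤ ‖τ‖ + ‖τ - 1‖ := by
      have h9 : (1 : ℂ) = τ - (τ - 1) := by ring
      calc ‖(1 : ℂ)‖ = ‖τ - (τ - 1)‖ := by rw [← h9]
        _ ≤ ‖τ‖ + ‖τ - 1‖ := norm_sub_le _ _
    rw [norm_one] at h8
    linarith
  have hGN : 9 / 10 * ‖h.emb (h.conj g)‖ ≤ ‖h.emb g‖ := by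
    rw [hEg, norm_mul]
    have h10 := norm_nonneg (h.emb (h.conj g))
    nlinarith
  have hX1 : (0 : ℝ) < (x1 : ℝ) := by exact_mod_cast hx1
  have hX2 : (0 : ℝ) < (x2 : ℝ) := by exact_mod_cast hx2
  exact G4_real (x1 : ℝ) (x2 : ℝ) ‖h.emb (h.conj g)‖ ‖h.emb g‖ ‖τ - 1‖ (ka A m1) (ka A m2)
    hX1 hX2 (norm_nonneg _) (Real.sqrt_nonneg _) (Real.sqrt_nonneg _) hprod hGN
    (hτ1.trans hT) hone

end RC91
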