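import Pool.Agent.LibRC91.G2
import Pool.Agent.LibRC91.G3
import Pool.Agent.LibRC91.D8

/-!
# [RC91 G6] the Pade inequality for two points of one class
PLAN: `a` from D8, `α = al h y1 m1`, `β = conj α`, `X = emb α`, `Y = emb β`, `w = Y/X`, `‖w - 1‖ ≤ 4 d1 ≤ 1/40`
(G1, `di = ka/xs`); `t` from G2_ex: `t^3 X = Y`, `‖t - 1‖ ≤ 4 d1`. `τ = emb g/emb(conj g)`:
`τ^3 = w * (emb α2/emb(conj α2))`, so `‖τ^3 - t^3‖ ≤ 5 d2` and `‖τ - t‖ ≤ 5 d2` (G2_diff).
`Θ_s = hA a s α β * conj g - hA a s β α * g ∈ K`. `conj Θ = -Θ` (`conj (hA a s α β) = hA a s β α`), `x1 Θ` is integral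
(`hA` of integral elements, `x1 g` integral K2_gnorm). If `Θ_s ≠ 0`: `1 ≤ x1 ‖emb Θ_s‖` (K2_anti) and
`emb Θ_s = emb(conj g) (hA X Y - τ hA Y X)` with norm
`≤ ‖emb(conj g)‖ (7200^(s+1) (2 xs)^s (4 d1)^(2s+1) + 5 d2 (s+1) 300^(s+1) (2 xs)^s)` and
`‖emb(conj g)‖ ≤ 1.1 √(x2/x1)` as in G4. `C = 10^6` is enough.
`Θ_r = 0` and `Θ_{r+1} = 0` contradict the last clause of D8 in `K` with `τ = g/conj g`
(`α ≠ 0`, `α ≠ β` since `m1 ≠ 0`, K2_nsq). So one of `s = r`, `s = r+1` works.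
-/
set_option autoImplicit false
namespace RC91

private theorem G6_conj_hA {A : ℤ} {K : Type} [Field K] [NumberField K] (h : QF A K)
    (a : ℕ → ℕ → ℤ) (s : ℕ) (X Y : K) :
    h.conj (hA a s X Y) = hA a s (h.conj X) (h.conj Y) := by
  unfold hA
  rw [map_sum]
  refine Finset.sum_congr rfl fun j _ => ?_
  rw [map_mul, map_mul, map_pow, map_pow, map_intCast]

private theorem G6_emb_hA {A : ℤ} {K : Type} [Field K] [NumberField K] (h : QF A K)
    (a : ℕ → ℕ → ℤ) (s : ℕ) (X Y : K) :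
    h.emb (hA a s X Y) = hA a s (h.emb X) (h.emb Y) := by
  unfold hA
  rw [map_sum]
  refine Finset.sum_congr rfl fun j _ => ?_
  rw [map_mul, map_mul, map_pow, map_pow, map_intCast]

private theorem G6_int_hA {K : Type} [Field K] (a : ℕ → ℕ → ℤ) (s : ℕ) (X Y : K)
    (hX : IsIntegral ℤ X) (hY : IsIntegral ℤ Y) : IsIntegral ℤ (hA a s X Y) := by
  unfold hA
  refine IsIntegral.sum _ fun j _ => ?_
  refine IsIntegral.mul (IsIntegral.mul ?_ (hX.pow _)) (hY.pow _)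
  have := isIntegral_algebraMap (R := ℤ) (A := K) (x := a s j)
  simpa using this

private theorem G6_norm_hA (a : ℕ → ℕ → ℤ) (ha : ∀ r s, |a r s| ≤ 300 ^ (r + 1)) (s : ℕ)
    (X Y : ℂ) (M : ℝ) (hX : ‖X‖ ≤ M) (hY : ‖Y‖ ≤ M) :
    ‖hA a s X Y‖ ≤ (s + 1) * 300 ^ (s + 1) * M ^ s := by
  have hM : 0 ≤ M := (norm_nonneg X).trans hX
  unfold hA
  have h1 : ∀ j ∈ Finset.range (s + 1),
      ‖(a s j : ℂ) * X ^ (s - j) * Y ^ j‖ ≤ 300 ^ (s + 1) * M ^ s := by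
    intro j hj
    have hj' : j ≤ s := Nat.lt_succ_iff.mp (Finset.mem_range.mp hj)
    rw [norm_mul, norm_mul, norm_pow, norm_pow, Complex.norm_intCast]
    have h2 : |((a s j : ℤ) : ℝ)| ≤ 300 ^ (s + 1) := by
      exact_mod_cast ha s j
    have h3 : ‖X‖ ^ (s - j) ≤ M ^ (s - j) := pow_le_pow_left₀ (norm_nonneg _) hX _
    have h4 : ‖Y‖ ^ j ≤ M ^ j := pow_le_pow_left₀ (norm_nonneg _) hY _
    calc |((a s j : ℤ) : ℝ)| * ‖X‖ ^ (s - j) * ‖Y‖ ^ j
        ≤ 300 ^ (s + 1) * M ^ (s - j) * M ^ j := by gcongr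
      _ = 300 ^ (s + 1) * M ^ s := by
          rw [mul_assoc, ← pow_add, Nat.sub_add_cancel hj']
  calc ‖∑ j ∈ Finset.range (s + 1), (a s j : ℂ) * X ^ (s - j) * Y ^ j‖
      ≤ ∑ j ∈ Finset.range (s + 1), (300 : ℝ) ^ (s + 1) * M ^ s := norm_sum_le_of_le _ h1
    _ = (s + 1) * 300 ^ (s + 1) * M ^ s := by
        rw [Finset.sum_const, Finset.card_range, nsmul_eq_mul]
        push_cast
        ring

/-- the numeric constants -/
private theorem G6_const (s : ℕ) (x q M d1 d2 P : ℝ) (hx : 0 ≤ x) (hq : 0 ≤ q) (hM : 0 ≤ M)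
    (hd1 : 0 ≤ d1) (hd2 : 0 ≤ d2) (hP : P ≤ 2 * q) (hP0 : 0 ≤ P)
    (h : 1 ≤ x * (P * (7200 ^ (s + 1) * (2 * M) ^ s * (4 * d1) ^ (2 * s + 1) +
      5 * d2 * ((s + 1) * 300 ^ (s + 1) * (2 * M) ^ s)))) :
    1 ≤ (10 ^ 6 : ℝ) ^ (s + 1) * x * M ^ s * q * (d1 ^ (2 * s + 1) + d2) := by
  have e1 : (7200 : ℝ) ^ (s + 1) * (2 * M) ^ s * (4 * d1) ^ (2 * s + 1) =
      28800 * 230400 ^ s * (M ^ s * d1 ^ (2 * s + 1)) := by
    rw [mul_pow, mul_pow, pow_succ (7200 : ℝ), pow_succ (4 : ℝ), pow_mul,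
      show (230400 : ℝ) = 7200 * 2 * 4 ^ 2 by norm_num, mul_pow, mul_pow]
    ring
  have hs : ((s : ℝ) + 1) ≤ 2 ^ s := by
    have := Nat.lt_two_pow_self (n := s)
    exact_mod_cast this
  have e2 : 5 * d2 * ((s + 1) * 300 ^ (s + 1) * (2 * M) ^ s) ≤
      28800 * 230400 ^ s * (M ^ s * d2) := by
    calc 5 * d2 * (((s : ℝ) + 1) * 300 ^ (s + 1) * (2 * M) ^ s)
        ≤ 5 * d2 * (2 ^ s * 300 ^ (s + 1) * (2 * M) ^ s) := by gcongr
      _ = 1500 * 1200 ^ s * (M ^ s * d2) := by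
          rw [pow_succ, mul_pow, show (1200 : ℝ) = 2 * 300 * 2 by norm_num, mul_pow, mul_pow]
          ring
      _ ≤ 28800 * 230400 ^ s * (M ^ s * d2) := by
          gcongr
          · norm_num
          · norm_num
  have e3 : x * (P * (7200 ^ (s + 1) * (2 * M) ^ s * (4 * d1) ^ (2 * s + 1) +
      5 * d2 * ((s + 1) * 300 ^ (s + 1) * (2 * M) ^ s))) ≤
      x * ((2 * q) * (28800 * 230400 ^ s * (M ^ s * d1 ^ (2 * s + 1)) +
        28800 * 230400 ^ s * (M ^ s * d2))) := by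
    rw [e1]
    gcongr
  have e4 : x * ((2 * q) * (28800 * 230400 ^ s * (M ^ s * d1 ^ (2 * s + 1)) +
        28800 * 230400 ^ s * (M ^ s * d2))) =
      (57600 * 230400 ^ s) * (x * M ^ s * q * (d1 ^ (2 * s + 1) + d2)) := by ring
  have e5 : (57600 * 230400 ^ s : ℝ) ≤ (10 ^ 6) ^ (s + 1) := by
    rw [pow_succ, mul_comm]
    gcongr
    · norm_num
    · norm_num
  calc (1 : ℝ) ≤ _ := h
    _ ≤ _ := e3
    _ = _ := e4
    _ ≤ (10 ^ 6 : ℝ) ^ (s + 1) * (x * M ^ s * q * (d1 ^ (2 * s + 1) + d2)) := by gcongr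
    _ = _ := by ring

theorem G6 : ∃ C : ℝ, 1 ≤ C ∧ ∀ (A : ℤ) (K : Type) [Field K] [NumberField K] (h : QF A K)
    (x1 y1 m1 x2 y2 m2 : ℤ), 0 < x1 → 0 < x2 → m1 ≠ 0 →
    y1 ^ 2 - A * m1 ^ 2 = x1 ^ 3 → y2 ^ 2 - A * m2 ^ 2 = x2 ^ 3 →
    25600 * |A * m1 ^ 2| ≤ x1 ^ 3 → 25600 * |A * m2 ^ 2| ≤ x2 ^ 3 →
    ∀ g : K, g ≠ 0 → al h y2 m2 = al h y1 m1 * g ^ 3 →
    ‖h.emb g / h.emb (h.conj g) - 1‖ ≤ 1 / 10 →
    ∀ r : ℕ, ∃ s : ℕ, (s = r ∨ s = r + 1) ∧
      1 ≤ C ^ (s + 1) * x1 * (xs x1) ^ s * Real.sqrt ((x2 : ℝ) / x1) *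
        ((ka A m1 / xs x1) ^ (2 * s + 1) + ka A m2 / xs x2) := by
  obtain ⟨a, haS, haB, haN⟩ := D8
  refine ⟨10 ^ 6, by norm_num, ?_⟩
  intro A K _ _ h x1 y1 m1 x2 y2 m2 hx1 hx2 hm1 e1 e2 hk1 hk2 g hg0 hg hτ r
  obtain ⟨-, hX2, -, hY2, hw, hd1⟩ := G1 h x1 y1 m1 hx1 e1 hk1
  obtain ⟨-, -, -, -, hw2, hd2⟩ := G1 h x2 y2 m2 hx2 e2 hk2
  obtain ⟨-, hGG⟩ := G3 h x1 y1 m1 x2 y2 m2 hx1 hx2 e1 e2 hk1 hk2 g hg0 hg
  obtain ⟨hgn, hgi⟩ := K2_gnorm h x1 y1 m1 x2 y2 m2 hx1.ne' hx2.ne' e1 e2 g hg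
  have hα0 : al h y1 m1 ≠ 0 := K2_alne h x1 y1 m1 hx1.ne' e1
  have hα20 : al h y2 m2 ≠ 0 := K2_alne h x2 y2 m2 hx2.ne' e2
  have hd10 : 0 ≤ ka A m1 / xs x1 :=
    div_nonneg (Real.sqrt_nonneg _) (mul_nonneg (by exact_mod_cast hx1.le) (Real.sqrt_nonneg _))
  have hd20 : 0 ≤ ka A m2 / xs x2 :=
    div_nonneg (Real.sqrt_nonneg _) (mul_nonneg (by exact_mod_cast hx2.le) (Real.sqrt_nonneg _))
  have hM : 0 ≤ xs x1 := mul_nonneg (by exact_mod_cast hx1.le) (Real.sqrt_nonneg _)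
  have hinj : Function.Injective h.emb := h.emb.injective
  have hcinj : Function.Injective h.conj := h.conj.injective
  have hX0 : h.emb (al h y1 m1) ≠ 0 := by rwa [Ne, map_eq_zero]
  have hY0 : h.emb (h.conj (al h y1 m1)) ≠ 0 := by rwa [Ne, map_eq_zero, map_eq_zero]
  have hX20 : h.emb (al h y2 m2) ≠ 0 := by rwa [Ne, map_eq_zero]
  have hY20 : h.emb (h.conj (al h y2 m2)) ≠ 0 := by rwa [Ne, map_eq_zero, map_eq_zero]
  have hG0 : h.emb g ≠ 0 := by rwa [Ne, map_eq_zero]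
  have hcg0 : h.conj g ≠ 0 := by rwa [Ne, map_eq_zero]
  have hG'0 : h.emb (h.conj g) ≠ 0 := by rwa [Ne, map_eq_zero]
  -- the cube root `t`
  obtain ⟨t, ht3, ht1⟩ := G2_ex (h.emb (h.conj (al h y1 m1)) / h.emb (al h y1 m1))
    (hw.trans (by linarith))
  have ht : ‖t - 1‖ ≤ 4 * (ka A m1 / xs x1) := ht1.trans hw
  have ht' : ‖1 - t‖ ≤ 4 * (ka A m1 / xs x1) := by rwa [norm_sub_rev]
  have htX : t ^ 3 * h.emb (al h y1 m1) = h.emb (h.conj (al h y1 m1)) := by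
    rw [ht3]
    field_simp
  -- closeness of `τ` and `t`
  have hcube : (h.emb g / h.emb (h.conj g)) ^ 3 =
      (h.emb (h.conj (al h y1 m1)) / h.emb (al h y1 m1)) *
        (h.emb (al h y2 m2) / h.emb (h.conj (al h y2 m2))) := by
    have h1 : h.emb (al h y2 m2) = h.emb (al h y1 m1) * h.emb g ^ 3 := by
      rw [hg, map_mul, map_pow]
    have h2 : h.emb (h.conj (al h y2 m2)) =
        h.emb (h.conj (al h y1 m1)) * h.emb (h.conj g) ^ 3 := by
      rw [hg, map_mul, map_mul, map_pow, map_pow]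
    rw [h1, h2]
    field_simp
  have hclose : ‖h.emb g / h.emb (h.conj g) - t‖ ≤ 5 * (ka A m2 / xs x2) := by
    refine (G2_diff _ t hτ (ht.trans (by linarith))).trans ?_
    rw [hcube, ht3]
    have h3 : (h.emb (h.conj (al h y1 m1)) / h.emb (al h y1 m1)) *
        (h.emb (al h y2 m2) / h.emb (h.conj (al h y2 m2))) -
        h.emb (h.conj (al h y1 m1)) / h.emb (al h y1 m1) =
        (h.emb (h.conj (al h y1 m1)) / h.emb (al h y1 m1)) *
        -((h.emb (h.conj (al h y2 m2)) / h.emb (al h y2 m2) - 1) *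
          (h.emb (al h y2 m2) / h.emb (h.conj (al h y2 m2)))) := by
      field_simp
      ring
    rw [h3, norm_mul, norm_neg, norm_mul]
    have h4 : ‖h.emb (h.conj (al h y1 m1)) / h.emb (al h y1 m1)‖ ≤ 41 / 40 := by
      have := norm_add_le (h.emb (h.conj (al h y1 m1)) / h.emb (al h y1 m1) - 1) 1
      rw [sub_add_cancel, norm_one] at this
      linarith
    have h5 : ‖h.emb (al h y2 m2) / h.emb (h.conj (al h y2 m2))‖ ≤ 40 / 39 := by
      have h6 : 39 / 40 ≤ ‖h.emb (h.conj (al h y2 m2)) / h.emb (al h y2 m2)‖ := by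
        have := norm_sub_norm_le (1 : ℂ) (1 - h.emb (h.conj (al h y2 m2)) / h.emb (al h y2 m2))
        rw [sub_sub_cancel, norm_one, norm_sub_rev] at this
        linarith
      have h7 : h.emb (al h y2 m2) / h.emb (h.conj (al h y2 m2)) =
          (h.emb (h.conj (al h y2 m2)) / h.emb (al h y2 m2))⁻¹ := (inv_div _ _).symm
      rw [h7, norm_inv]
      calc ‖h.emb (h.conj (al h y2 m2)) / h.emb (al h y2 m2)‖⁻¹ ≤ (39 / 40 : ℝ)⁻¹ :=
            inv_anti₀ (by norm_num) h6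
        _ = 40 / 39 := by norm_num
    calc ‖h.emb (h.conj (al h y1 m1)) / h.emb (al h y1 m1)‖ *
          (‖h.emb (h.conj (al h y2 m2)) / h.emb (al h y2 m2) - 1‖ *
            ‖h.emb (al h y2 m2) / h.emb (h.conj (al h y2 m2))‖)
        ≤ 41 / 40 * (4 * (ka A m2 / xs x2) * (40 / 39)) := by gcongr
      _ ≤ 5 * (ka A m2 / xs x2) := by linarith
  -- size of `emb (conj g)`
  have hG' : ‖h.emb (h.conj g)‖ ≤ 2 * Real.sqrt ((x2 : ℝ) / x1) := by
    have h1 : 9 / 10 ≤ ‖h.emb g / h.emb (h.conj g)‖ := by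
      have := norm_sub_norm_le (1 : ℂ) (1 - h.emb g / h.emb (h.conj g))
      rw [sub_sub_cancel, norm_one, norm_sub_rev] at this
      linarith
    have h2 : 0 < ‖h.emb (h.conj g)‖ := norm_pos_iff.mpr hG'0
    rw [norm_div, le_div_iff₀ h2] at h1
    have h3 : 9 / 10 * ‖h.emb (h.conj g)‖ * ‖h.emb (h.conj g)‖ ≤ (x2 : ℝ) / x1 := by
      rw [← hGG]
      gcongr
    have h4 : (‖h.emb (h.conj g)‖ / 2) ^ 2 ≤ (x2 : ℝ) / x1 := by nlinarith
    have h5 := Real.le_sqrt_of_sq_le h4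
    linarith
  -- the linear forms
  have key : ∀ s : ℕ, hA a s (al h y1 m1) (h.conj (al h y1 m1)) * h.conj g -
      hA a s (h.conj (al h y1 m1)) (al h y1 m1) * g ≠ 0 →
      1 ≤ (10 ^ 6 : ℝ) ^ (s + 1) * x1 * (xs x1) ^ s * Real.sqrt ((x2 : ℝ) / x1) *
        ((ka A m1 / xs x1) ^ (2 * s + 1) + ka A m2 / xs x2) := by
    intro s hΘ
    have hx1K : (x1 : K) ≠ 0 := by exact_mod_cast hx1.ne'
    have hαi : IsIntegral ℤ (al h y1 m1) := K2_alint h y1 m1
    have hβi : IsIntegral ℤ (h.conj (al h y1 m1)) := K2_int h _ hαi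
    have hgi' : IsIntegral ℤ ((x1 : K) * h.conj g) := by
      have := K2_int h _ hgi
      rwa [map_mul, map_intCast] at this
    have h1 : IsIntegral ℤ ((x1 : K) * (hA a s (al h y1 m1) (h.conj (al h y1 m1)) * h.conj g -
        hA a s (h.conj (al h y1 m1)) (al h y1 m1) * g)) := by
      have e : (x1 : K) * (hA a s (al h y1 m1) (h.conj (al h y1 m1)) * h.conj g -
          hA a s (h.conj (al h y1 m1)) (al h y1 m1) * g) =
          hA a s (al h y1 m1) (h.conj (al h y1 m1)) * ((x1 : K) * h.conj g) -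
          hA a s (h.conj (al h y1 m1)) (al h y1 m1) * ((x1 : K) * g) := by ring
      rw [e]
      exact ((G6_int_hA a s _ _ hαi hβi).mul hgi').sub ((G6_int_hA a s _ _ hβi hαi).mul hgi)
    have h2 : h.conj ((x1 : K) * (hA a s (al h y1 m1) (h.conj (al h y1 m1)) * h.conj g -
        hA a s (h.conj (al h y1 m1)) (al h y1 m1) * g)) =
        -((x1 : K) * (hA a s (al h y1 m1) (h.conj (al h y1 m1)) * h.conj g -
        hA a s (h.conj (al h y1 m1)) (al h y1 m1) * g)) := by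
      rw [map_mul, map_intCast, map_sub, map_mul, map_mul, G6_conj_hA, G6_conj_hA, K2_inv, K2_inv]
      ring
    have h3 := K2_anti h _ h1 h2 (mul_ne_zero hx1K hΘ)
    rw [map_mul, map_intCast, norm_mul, Complex.norm_intCast,
      abs_of_pos (show (0 : ℝ) < (x1 : ℝ) by exact_mod_cast hx1)] at h3
    have h4 : h.emb (hA a s (al h y1 m1) (h.conj (al h y1 m1)) * h.conj g -
        hA a s (h.conj (al h y1 m1)) (al h y1 m1) * g) =
        h.emb (h.conj g) * ((hA a s (h.emb (al h y1 m1)) (h.emb (h.conj (al h y1 m1))) -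
          t * hA a s (h.emb (h.conj (al h y1 m1))) (h.emb (al h y1 m1))) -
          (h.emb g / h.emb (h.conj g) - t) *
            hA a s (h.emb (h.conj (al h y1 m1))) (h.emb (al h y1 m1))) := by
      rw [map_sub, map_mul, map_mul, G6_emb_hA, G6_emb_hA]
      field_simp
      ring
    rw [h4, norm_mul] at h3
    have h5 : ‖(hA a s (h.emb (al h y1 m1)) (h.emb (h.conj (al h y1 m1))) -
          t * hA a s (h.emb (h.conj (al h y1 m1))) (h.emb (al h y1 m1))) -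
          (h.emb g / h.emb (h.conj g) - t) *
            hA a s (h.emb (h.conj (al h y1 m1))) (h.emb (al h y1 m1))‖ ≤
        7200 ^ (s + 1) * (2 * xs x1) ^ s * (4 * (ka A m1 / xs x1)) ^ (2 * s + 1) +
          5 * (ka A m2 / xs x2) * ((s + 1) * 300 ^ (s + 1) * (2 * xs x1) ^ s) := by
      refine (norm_sub_le _ _).trans (add_le_add ?_ ?_)
      · refine (haB s _ _ t hX0 htX (ht.trans (by linarith))).trans ?_
        gcongr
      · rw [norm_mul]
        have h6 := G6_norm_hA a haS s _ _ _ hY2 hX2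
        gcongr
    refine G6_const s x1 (Real.sqrt ((x2 : ℝ) / x1)) (xs x1) (ka A m1 / xs x1) (ka A m2 / xs x2)
      ‖h.emb (h.conj g)‖ (by exact_mod_cast hx1.le) (Real.sqrt_nonneg _) hM hd10 hd20 hG'
      (norm_nonneg _) (h3.trans ?_)
    gcongr
  by_cases hr : hA a r (al h y1 m1) (h.conj (al h y1 m1)) * h.conj g -
      hA a r (h.conj (al h y1 m1)) (al h y1 m1) * g = 0
  · by_cases hr1 : hA a (r + 1) (al h y1 m1) (h.conj (al h y1 m1)) * h.conj g -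
        hA a (r + 1) (h.conj (al h y1 m1)) (al h y1 m1) * g = 0
    · exfalso
      have hne : al h y1 m1 ≠ h.conj (al h y1 m1) := by
        intro hh
        rw [K2_conjal] at hh
        unfold al at hh
        have h1 : (2 : K) * ((m1 : K) * h.rho) = 0 := by
          push_cast at hh
          linear_combination hh
        rcases mul_eq_zero.mp h1 with h2 | h2
        · exact two_ne_zero h2
        rcases mul_eq_zero.mp h2 with h2 | h2
        · exact hm1 (by exact_mod_cast h2)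
        · exact K2_nsq h 0 (by rw [h2, Rat.cast_zero])
      refine haN K r (al h y1 m1) (h.conj (al h y1 m1)) (g / h.conj g) hα0 hne ?_ ?_
      · rw [sub_eq_zero] at hr
        field_simp
        linear_combination hr
      · rw [sub_eq_zero] at hr1
        field_simp
        linear_combination hr1
    · exact ⟨r + 1, Or.inr rfl, key (r + 1) hr1⟩
  · exact ⟨r, Or.inl rfl, key r hr⟩

end RC91
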