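import Pool.Agent.LibRC91.Defs

/-! Real sizes of a point: `ka A m = |A m^2|^(1/2)`, `xs x = x^(3/2)`. -/
set_option autoImplicit false
namespace RC91

noncomputable def ka (A m : ℤ) : ℝ := Real.sqrt ((|A * m ^ 2| : ℤ) : ℝ)

noncomputable def xs (x : ℤ) : ℝ := (x : ℝ) * Real.sqrt x

end RC91
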