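import Pool.Agent.LibRC91.V1
import Pool.Agent.LibRC91.K2

/-!
# [RC91 L1] valuations of a point outside `6 c`
`α = al h y m`, `β = conj α = y - m rho`, `α β = x^3`, `α + β = 2y`, `α - β = 2 m rho`, all integral (K2).
PLAN. `vl α + vl β = 3 vl x` (V1_mul, V1_pow). `vl α, vl β ≥ 0` (V1_int).
Case 1, `p ∤ x`: `vl x = 0` (V1_nat, `padicValInt p x = 0`), so `vl α = 0`.
Case 2, `p ∣ A`: `e = vl p`; `2 vl rho = vl A = e * 1` (`A` square free: `padicValInt p A = 1`). If `vl α ≠ vl β` then
`vl (α + β) = vl (α - β) = min`, i.e. `vl (2 y) = vl (2 m rho)` (and `y ≠ 0`, else `β = -α`):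
`e v_p(2y) = e v_p(2m) + e/2`, impossible parity (multiply by 2 and divide by `e > 0`).
So `vl α = vl β`, `2 vl α = 3 vl x = 3 e v_p(x)`, and `e = 2 vl rho` is even: `vl α = 3 (vl rho) v_p(x)`.
Case 3, `p ∣ x`, `p ∤ A`, `p ∤ m`: if `vl α > 0` and `vl β > 0` then `vl (2 m rho) > 0`, but
`2 vl(2 m rho) = vl (4 m^2 A) = 0` as `p ∤ 4 m^2 A` (`p > 3`). So one of them is `0` and the other is
`3 vl x`.
(`α ≠ 0`, `β ≠ 0`: K2_alne. `vl` of a sum needs the sum nonzero: treat `α + β = 0` or `α - β = 0` (m = 0) apart;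
`hm` excludes the second.)
-/
set_option autoImplicit false
open NumberField nonZeroDivisors IsDedekindDomain
namespace RC91

private theorem L1_lt {K : Type} [Field K] [NumberField K] (v : HeightOneSpectrum (𝓞 K))
    (a b : K) (ha : a ≠ 0) (hb : b ≠ 0) (hab : a + b ≠ 0) (hl : vl v a < vl v b) :
    vl v (a + b) = vl v a := by
  have h1 := V1_add v a b ha hb hab
  rw [min_eq_left hl.le] at h1
  have e : (a + b) + (-b) = a := by ring
  have h2 := V1_add v (a + b) (-b) hab (neg_ne_zero.2 hb) (by rw [e]; exact ha)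
  rw [e, V1_neg] at h2
  rcases min_le_iff.1 h2 with h3 | h3
  · exact le_antisymm h3 h1
  · omega

private theorem L1_ne {K : Type} [Field K] [NumberField K] (v : HeightOneSpectrum (𝓞 K))
    (a b : K) (ha : a ≠ 0) (hb : b ≠ 0) (hab : a + b ≠ 0) (hl : vl v a ≠ vl v b) :
    vl v (a + b) = min (vl v a) (vl v b) := by
  rcases lt_or_gt_of_ne hl with h | h
  · rw [min_eq_left h.le, L1_lt v a b ha hb hab h]
  · rw [min_eq_right h.le, add_comm, L1_lt v b a hb ha (by rwa [add_comm]) h]

private theorem L1_pos {K : Type} [Field K] [NumberField K] (v : HeightOneSpectrum (𝓞 K))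
    (p : ℕ) (hp : p.Prime) (hv : (p : 𝓞 K) ∈ v.asIdeal) : 0 < vl v (p : K) := by
  have h := (V1_mem v (p : ℤ) (by exact_mod_cast hp.ne_zero)).1 (by simpa using hv)
  simpa using h

private theorem L1_zero {K : Type} [Field K] [NumberField K] (v : HeightOneSpectrum (𝓞 K))
    (p : ℕ) (hp : p.Prime) (hv : (p : 𝓞 K) ∈ v.asIdeal) (n : ℤ) (hn : ¬ ((p : ℤ) ∣ n)) :
    vl v (n : K) = 0 := by
  have hn0 : n ≠ 0 := fun h => hn (h ▸ dvd_zero _)
  rw [V1_nat v p hp hv n hn0, padicValInt.eq_zero_of_not_dvd hn]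
  simp

theorem L1 {A : ℤ} {K : Type} [Field K] [NumberField K] (h : QF A K) (hA : Squarefree A)
    (v : HeightOneSpectrum (𝓞 K)) (p : ℕ) (hp : p.Prime) (hp3 : 3 < p)
    (hv : (p : 𝓞 K) ∈ v.asIdeal) (x y m : ℤ) (hx : x ≠ 0) (hm : m ≠ 0)
    (e : y ^ 2 - A * m ^ 2 = x ^ 3)
    (hc : ¬ ((p : ℤ) ∣ x) ∨ (p : ℤ) ∣ A ∨ ¬ ((p : ℤ) ∣ m)) :
    (3 : ℤ) ∣ vl v (al h y m) := by
  have := Fact.mk hp
  have hA0 : A ≠ 0 := hA.ne_zero
  have hpz : Prime (p : ℤ) := Nat.prime_iff_prime_int.1 hp
  have hep : 0 < vl v (p : K) := L1_pos v p hp hv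
  have hrho : h.rho ≠ 0 := by
    intro h0
    have := h.sq
    rw [h0] at this
    have h2 : (A : K) = 0 := by rw [← this]; ring
    exact hA0 (by exact_mod_cast h2)
  have hrA : 2 * vl v h.rho = vl v (A : K) := by
    rw [← h.sq, V1_pow]
    push_cast
    ring
  set α : K := al h y m with hα
  set β : K := al h y (-m) with hβ
  have hconj : h.conj α = β := K2_conjal h y m
  have hprod : α * β = (x : K) ^ 3 := by
    rw [← hconj]
    exact K2_al h x y m e
  have hα0 : α ≠ 0 := K2_alne h x y m hx e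
  have hβ0 : β ≠ 0 := K2_alne h x y (-m) hx (by rw [← e]; ring)
  have hx0 : (x : K) ≠ 0 := by exact_mod_cast hx
  have ha : 0 ≤ vl v α := V1_int v α (K2_alint h y m)
  have hb : 0 ≤ vl v β := V1_int v β (K2_alint h y (-m))
  have hs : vl v α + vl v β = 3 * vl v (x : K) := by
    rw [← V1_mul v α β hα0 hβ0, hprod, V1_pow]
    push_cast
    ring
  have hsum : α + β = ((2 * y : ℤ) : K) := by
    rw [hα, hβ, al, al]
    push_cast
    ring
  have hdif : α + (-β) = ((2 * m : ℤ) : K) * h.rho := by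
    rw [hα, hβ, al, al]
    push_cast
    ring
  have h2m : ((2 * m : ℤ) : K) ≠ 0 := by
    have : (2 * m : ℤ) ≠ 0 := mul_ne_zero two_ne_zero hm
    exact_mod_cast this
  have hdif0 : α + (-β) ≠ 0 := by
    rw [hdif]
    exact mul_ne_zero h2m hrho
  by_cases hpx : (p : ℤ) ∣ x
  swap
  · have h0 := L1_zero v p hp hv x hpx
    have : vl v α = 0 := by omega
    rw [this]
    exact dvd_zero _
  by_cases hpA : (p : ℤ) ∣ A
  · -- case 2
    have hvA : padicValInt p A = 1 := by
      refine le_antisymm ?_ ?_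
      · by_contra hcon
        push Not at hcon
        have h2 : (p : ℤ) ^ 2 ∣ A := (padicValInt_dvd_iff 2 A).2 (Or.inr (by omega))
        have := hA (p : ℤ) (by rw [← sq]; exact h2)
        exact hpz.not_isUnit this
      · by_contra hcon
        have h0 : padicValInt p A = 0 := by omega
        have h1 := (padicValInt_dvd_iff 1 A).1 (by simpa using hpA)
        rcases h1 with h1 | h1
        · exact hA0 h1
        · omega
    have hAv : vl v (A : K) = vl v (p : K) := by
      rw [V1_nat v p hp hv A hA0, hvA]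
      simp
    have hab : vl v α = vl v β := by
      by_contra hne
      by_cases hy : y = 0
      · apply hne
        have : β = -α := by
          rw [hα, hβ, al, al, hy]
          push_cast
          ring
        rw [this, V1_neg]
      · have h2y : (2 * y : ℤ) ≠ 0 := mul_ne_zero two_ne_zero hy
        have hsum0 : α + β ≠ 0 := by
          rw [hsum]
          exact_mod_cast h2y
        have e1 := L1_ne v α β hα0 hβ0 hsum0 hne
        have e2 := L1_ne v α (-β) hα0 (neg_ne_zero.2 hβ0) hdif0 (by rwa [V1_neg])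
        rw [V1_neg, ← e1, hdif, hsum, V1_mul v _ _ h2m hrho,
          V1_nat v p hp hv (2 * m) (mul_ne_zero two_ne_zero hm), V1_nat v p hp hv (2 * y) h2y] at e2
        have h3 : vl v (p : K) = 2 * vl v h.rho := by rw [hrA, hAv]
        rw [h3] at e2 hep
        have h4 : 0 < vl v h.rho := by omega
        have h5 : vl v h.rho * (2 * (padicValInt p (2 * m) : ℤ) + 1) =
            vl v h.rho * (2 * (padicValInt p (2 * y) : ℤ)) := by linear_combination e2
        have h6 := mul_left_cancel₀ h4.ne' h5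
        omega
    have h7 : vl v (x : K) = 2 * vl v h.rho * (padicValInt p x : ℤ) := by
      rw [V1_nat v p hp hv x hx, hrA, hAv]
    rw [h7, ← hab] at hs
    refine ⟨vl v h.rho * (padicValInt p x : ℤ), ?_⟩
    have : 2 * vl v α = 2 * (3 * (vl v h.rho * (padicValInt p x : ℤ))) := by
      linear_combination hs
    exact mul_left_cancel₀ two_ne_zero this
  · -- case 3
    have hpm : ¬ ((p : ℤ) ∣ m) := by
      rcases hc with h1 | h1 | h1
      · exact absurd hpx h1
      · exact absurd h1 hpA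
      · exact h1
    have hp2 : ¬ ((p : ℤ) ∣ 4 * m ^ 2 * A) := by
      intro hd
      rcases hpz.dvd_or_dvd hd with hd | hd
      · rcases hpz.dvd_or_dvd hd with hd | hd
        · have hd4 : p ∣ 4 := by exact_mod_cast hd
          have hle := Nat.le_of_dvd (by norm_num) hd4
          have h4 : p = 4 := by omega
          exact absurd (h4 ▸ hp) (by norm_num)
        · exact hpm (hpz.dvd_of_dvd_pow hd)
      · exact hpA hd
    have hz := L1_zero v p hp hv _ hp2
    have hz2 : 2 * vl v (α + (-β)) = 0 := by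
      rw [← hz]
      have : ((4 * m ^ 2 * A : ℤ) : K) = (α + (-β)) ^ 2 := by
        rw [hdif, mul_pow, h.sq]
        push_cast
        ring
      rw [this, V1_pow]
      push_cast
      ring
    have hmin := V1_add v α (-β) hα0 (neg_ne_zero.2 hβ0) hdif0
    rw [V1_neg] at hmin
    have hmin2 : min (vl v α) (vl v β) ≤ 0 := by omega
    rcases min_le_iff.1 hmin2 with h1 | h1
    · have : vl v α = 0 := by omega
      rw [this]
      exact dvd_zero _
    · exact ⟨vl v (x : K), by omega⟩

end RC91
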