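import Pool.Agent.LibRC91.K2

/-!
# [RC91 M1] the discriminant of the quadratic field
PLAN. `1, rho` are linearly independent over ℚ (K2_nsq: `rho` is not rational) and `finrank = 2`, so they form a
basis `b'` of `K/ℚ`, of integral elements. `Algebra.discr ℚ b' = det (trace (b'_i b'_j)) = det [[2, 0], [0, 2A]] = 4 A`
(`trace 1 = finrank = 2`, `trace (rho^2) = trace A = 2 A`, `trace rho = 0`: e.g. `rho` has the characteristic
polynomial `X^2 - A`, or the matrix of the multiplication by `rho` in the basis `1, rho` is `[[0, A], [1, 0]]`;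
`Algebra.trace_eq_matrix_trace`). The matrix `P` of `b'` with respect to an integral basis
(`NumberField.integralBasis`) has integer entries, `Algebra.discr ℚ b' = det P ^ 2 * discr K`
(`Algebra.discr_of_matrix_vecMul` / `discr_of_matrix_mulVec`, `Basis.toMatrix`; `NumberField.coe_discr`), `det P` is an
integer, nonzero because `4 A ≠ 0`, so `|discr K| ≤ det P ^ 2 * |discr K| = 4 |A|`.
-/
set_option autoImplicit false
open NumberField
namespace RC91

private theorem M1_trace {A : ℤ} {K : Type} [Field K] [NumberField K] (h : QF A K) :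
    Algebra.trace ℚ K h.rho = 0 := by
  let f : K →ₐ[ℚ] K := { h.conj with
    commutes' := fun q => by
      simp }
  have hinv : ∀ z, f (f z) = z := fun z => K2_inv h z
  let e : K ≃ₐ[ℚ] K := AlgEquiv.ofAlgHom f f (AlgHom.ext hinv) (AlgHom.ext hinv)
  have h1 := Algebra.trace_eq_of_algEquiv e h.rho
  have h2 : e h.rho = -h.rho := h.conj_rho
  rw [h2, map_neg] at h1
  linarith

private theorem M1_discr {A : ℤ} {K : Type} [Field K] [NumberField K] (h : QF A K) :
    Algebra.discr ℚ ![(1 : K), h.rho] = 4 * (A : ℚ) := by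
  rw [Algebra.discr_def, Matrix.det_fin_two]
  simp only [Algebra.traceMatrix_apply, Algebra.traceForm_apply, Matrix.cons_val_zero,
    Matrix.cons_val_one, mul_one, one_mul]
  have h1 : Algebra.trace ℚ K (1 : K) = 2 := by
    have := Algebra.trace_algebraMap (R := ℚ) (S := K) (1 : ℚ)
    rw [map_one, h.rank] at this
    rw [this]; norm_num
  have h2 : Algebra.trace ℚ K (h.rho * h.rho) = 2 * (A : ℚ) := by
    have h3 : h.rho * h.rho = algebraMap ℚ K (A : ℚ) := by
      rw [← sq, h.sq]; simp
    have := Algebra.trace_algebraMap (R := ℚ) (S := K) (A : ℚ)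
    rw [h.rank] at this
    rw [h3, this]; simp
  rw [h1, h2, M1_trace h]
  ring

theorem M1 {A : ℤ} {K : Type} [Field K] [NumberField K] (h : QF A K) (hA : A ≠ 0) :
    |discr K| ≤ 4 * |A| := by
  classical
  let b := integralBasis K
  have hcard : Fintype.card (Module.Free.ChooseBasisIndex ℤ (𝓞 K)) = Fintype.card (Fin 2) := by
    rw [← Module.finrank_eq_card_basis b, h.rank, Fintype.card_fin]
  let e : Module.Free.ChooseBasisIndex ℤ (𝓞 K) ≃ Fin 2 := Fintype.equivOfCardEq hcard
  let bb : Module.Basis (Fin 2) ℚ K := b.reindex e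
  have hbb : Algebra.discr ℚ bb = (discr K : ℚ) := by
    rw [NumberField.coe_discr, ← Algebra.discr_reindex ℚ b e]
    congr 1
    exact b.coe_reindex e
  let v : Fin 2 → K := ![(1 : K), h.rho]
  have hint : ∀ j, IsIntegral ℤ (v j) := by
    intro j
    fin_cases j
    · exact isIntegral_one
    · refine IsIntegral.of_pow (n := 2) (by norm_num) ?_
      show IsIntegral ℤ (h.rho ^ 2)
      rw [h.sq]
      exact isIntegral_algebraMap (R := ℤ) (A := K) (x := A)
  let Q : Matrix (Fin 2) (Fin 2) ℤ := fun i j =>
    (RingOfIntegers.basis K).repr ⟨v j, hint j⟩ (e.symm i)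
  have hQ : bb.toMatrix v = Q.map (Int.castRingHom ℚ) := by
    ext i j
    rw [Module.Basis.toMatrix_apply, Matrix.map_apply]
    show (b.reindex e).repr (v j) i = _
    rw [Module.Basis.repr_reindex_apply]
    exact integralBasis_repr_apply K ⟨v j, hint j⟩ (e.symm i)
  have h1 := Algebra.discr_of_matrix_vecMul bb (bb.toMatrix v)
  rw [Module.Basis.toMatrix_map_vecMul, hbb, M1_discr h, hQ, ← RingHom.mapMatrix_apply,
    ← RingHom.map_det] at h1
  have h2 : 4 * A = Q.det ^ 2 * discr K := by
    have : ((4 * A : ℤ) : ℚ) = ((Q.det ^ 2 * discr K : ℤ) : ℚ) := by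
      rw [Int.cast_mul, Int.cast_mul, Int.cast_pow]
      simpa using h1
    exact_mod_cast this
  have h3 : Q.det ≠ 0 := by
    intro h0
    rw [h0] at h2
    apply hA
    linarith
  have h4 : 1 ≤ Q.det ^ 2 := by
    have : 0 < Q.det ^ 2 := by positivity
    omega
  have h5 : 4 * |A| = Q.det ^ 2 * |discr K| := by
    have := congrArg abs h2
    rw [abs_mul, abs_mul, abs_of_nonneg (sq_nonneg Q.det)] at this
    simpa using this
  rw [h5]
  nlinarith [abs_nonneg (discr K)]

end RC91
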