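import Pool.Agent.LibRC91.M1

/-!
# [RC91 M2] Minkowski for a fractional ideal of the quadratic field
PLAN. `NumberField.mixedEmbedding.exists_ne_zero_mem_ideal_lt` with `f w` as an `NNReal`. The volume:
`convexBodyLT_volume`: `convexBodyLTFactor K * ∏ (f w) ^ mult w`, factor `2 ^ r1 * π ^ r2`. The bound:
`minkowskiBound K I = volume (fundamentalDomain ..) * 2 ^ finrank (mixedSpace)`,
`volume_fundamentalDomain_fractionalIdealLatticeBasis` and `NumberField.mixedEmbedding.volume_fundamentalDomain_latticeBasis`: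
`absNorm I * 2⁻¹ ^ r2 * √|discr K|`, and `finrank ℝ (mixedSpace K) = finrank ℚ K = 2`.
`r1 + 2 r2 = 2` (`InfinitePlace.card_add_two_mul_card_eq_rank`): (r1, r2) = (2, 0) or (0, 1).
With `N = absNorm I`, `√|discr K| ≤ 2 √|A|` (M1): case (2, 0): `4 * 4 √|A| N > 4 * 2 √|A| N`; case (0, 1):
`π * 4 √|A| N > (1/2) * 4 * 2 √|A| N`. (`N > 0`: `FractionalIdeal.absNorm_ne_zero_iff..` / `absNorm_pos`..; everything finite in ENNReal.)
-/
set_option autoImplicit false
open NumberField nonZeroDivisors IsDedekindDomain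
namespace RC91

open scoped Classical in
theorem M2_bound {K : Type} [Field K] [NumberField K] (hrank : Module.finrank ℚ K = 2)
    (I : (FractionalIdeal (𝓞 K)⁰ K)ˣ) (f : InfinitePlace K → NNReal)
    (hreal : (FractionalIdeal.absNorm (I : FractionalIdeal (𝓞 K)⁰ K) : ℝ) *
      ((2 : ℝ)⁻¹ ^ InfinitePlace.nrComplexPlaces K * √(|discr K| : ℝ)) * 2 ^ 2 <
      (2 ^ InfinitePlace.nrRealPlaces K * Real.pi ^ InfinitePlace.nrComplexPlaces K) *
        ∏ w : InfinitePlace K, (f w : ℝ) ^ w.mult) :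
    mixedEmbedding.minkowskiBound K I < MeasureTheory.volume (mixedEmbedding.convexBodyLT K f) := by
  have hfin := mixedEmbedding.minkowskiBound_lt_top K I
  have hfin2 : MeasureTheory.volume (mixedEmbedding.convexBodyLT K f) ≠ ⊤ := by
    rw [mixedEmbedding.convexBodyLT_volume]
    exact ENNReal.mul_ne_top ENNReal.coe_ne_top ENNReal.coe_ne_top
  apply (ENNReal.toReal_lt_toReal hfin.ne hfin2).mp
  rw [mixedEmbedding.convexBodyLT_volume, mixedEmbedding.minkowskiBound,
    mixedEmbedding.volume_fundamentalDomain_fractionalIdealLatticeBasis,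
    mixedEmbedding.volume_fundamentalDomain_latticeBasis, mixedEmbedding.finrank, hrank]
  rw [ENNReal.toReal_mul, ENNReal.toReal_mul, ENNReal.toReal_mul, ENNReal.toReal_pow,
    ENNReal.toReal_inv, ENNReal.toReal_ofNat, ENNReal.coe_toReal, Real.coe_sqrt, coe_nnnorm,
    Int.norm_eq_abs, ENNReal.toReal_ofReal (Rat.cast_nonneg.mpr (FractionalIdeal.absNorm_nonneg I.val)),
    ENNReal.toReal_mul, ENNReal.coe_toReal, ENNReal.coe_toReal, ENNReal.toReal_pow,
    ENNReal.toReal_ofNat]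
  push_cast
  exact hreal

theorem M2 {A : ℤ} {K : Type} [Field K] [NumberField K] (h : QF A K) (hA : A ≠ 0)
    (I : (FractionalIdeal (𝓞 K)⁰ K)ˣ) (f : InfinitePlace K → ℝ) (hf : ∀ w, 0 < f w)
    (hb : 4 * √(|A| : ℝ) * (FractionalIdeal.absNorm (I : FractionalIdeal (𝓞 K)⁰ K) : ℝ) ≤
      ∏ w : InfinitePlace K, f w ^ w.mult) :
    ∃ a ∈ (I : FractionalIdeal (𝓞 K)⁰ K), a ≠ 0 ∧ ∀ w : InfinitePlace K, w a < f w := by
  classical
  set f' : InfinitePlace K → NNReal := fun w => ⟨f w, (hf w).le⟩ with hf'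
  have hff : ∀ w, ((f' w : NNReal) : ℝ) = f w := fun w => rfl
  have hN : (0 : ℝ) < (FractionalIdeal.absNorm (I : FractionalIdeal (𝓞 K)⁰ K) : ℝ) := by
    have h1 := FractionalIdeal.absNorm_nonneg (I : FractionalIdeal (𝓞 K)⁰ K)
    have h2 : FractionalIdeal.absNorm (I : FractionalIdeal (𝓞 K)⁰ K) ≠ 0 := by
      intro h3
      rw [FractionalIdeal.absNorm_eq_zero_iff] at h3
      exact I.ne_zero h3
    have h3 := lt_of_le_of_ne h1 (Ne.symm h2)
    exact_mod_cast h3
  have hAR : (0 : ℝ) < |(A : ℝ)| := by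
    rw [abs_pos]; exact_mod_cast hA
  have hsA : (0 : ℝ) < √(|A| : ℝ) := Real.sqrt_pos.mpr hAR
  have hd : √(|discr K| : ℝ) ≤ 2 * √(|A| : ℝ) := by
    have h1 := M1 h hA
    have h2 : (|(discr K : ℝ)|) ≤ 4 * |(A : ℝ)| := by exact_mod_cast h1
    have h3 : √(|discr K| : ℝ) ≤ √(4 * |(A : ℝ)|) := Real.sqrt_le_sqrt h2
    have h4 : √(4 * |(A : ℝ)|) = 2 * √(|A| : ℝ) := by
      rw [Real.sqrt_mul (by norm_num)]
      congr 1
      rw [show (4 : ℝ) = 2 ^ 2 by norm_num]
      exact Real.sqrt_sq (by norm_num)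
    rw [h4] at h3
    exact h3
  have hr := InfinitePlace.card_add_two_mul_card_eq_rank K
  rw [h.rank] at hr
  have hkey : (FractionalIdeal.absNorm (I : FractionalIdeal (𝓞 K)⁰ K) : ℝ) *
      ((2 : ℝ)⁻¹ ^ InfinitePlace.nrComplexPlaces K * √(|discr K| : ℝ)) * 2 ^ 2 <
      (2 ^ InfinitePlace.nrRealPlaces K * Real.pi ^ InfinitePlace.nrComplexPlaces K) *
        ∏ w : InfinitePlace K, ((f' w : NNReal) : ℝ) ^ w.mult := by
    simp only [hff]
    set P := ∏ w : InfinitePlace K, f w ^ w.mult with hP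
    set N := (FractionalIdeal.absNorm (I : FractionalIdeal (𝓞 K)⁰ K) : ℝ) with hNdef
    have hNs : 0 < √(|A| : ℝ) * N := mul_pos hsA hN
    have hdN : N * √(|discr K| : ℝ) ≤ 2 * (√(|A| : ℝ) * N) := by
      have := mul_le_mul_of_nonneg_left hd hN.le
      linarith
    have hcases : (InfinitePlace.nrRealPlaces K = 2 ∧ InfinitePlace.nrComplexPlaces K = 0) ∨
        (InfinitePlace.nrRealPlaces K = 0 ∧ InfinitePlace.nrComplexPlaces K = 1) := by omega
    rcases hcases with ⟨c1, c2⟩ | ⟨c1, c2⟩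
    · rw [c1, c2]
      nlinarith
    · rw [c1, c2]
      have hpi := Real.pi_gt_three
      have hPpos : 0 < P := by
        have : 0 < 4 * √(|A| : ℝ) * N := by positivity
        linarith
      nlinarith
  obtain ⟨a, ha, ha0, haw⟩ := mixedEmbedding.exists_ne_zero_mem_ideal_lt K I
    (M2_bound h.rank I f' hkey)
  exact ⟨a, ha, ha0, haw⟩

end RC91
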