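import Pool.Agent.LibRC91.M2

/-!
# [RC91 M3] every element with cubic ideal has a small integral representative of its class
PLAN. `M3_norm`: `absNorm` is multiplicative and `absNorm (spanSingleton g) = |norm g| = ∏ w, w g ^ mult w`
(`FractionalIdeal.absNorm_span_singleton`, `InfinitePlace.prod_eq_abs_norm`).
`M3`: apply M2 to `I = J⁻¹` and `f w = (4 √|A|) ^ (1/2) * (w g) ^ (-1/3)` (real powers, `w g > 0`):
`∏ f w ^ mult w = (4 √|A|) ^ (∑ mult / 2) * (∏ w g ^ mult w) ^ (-1/3) = 4 √|A| * absNorm J⁻¹`, because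
`∑ mult w = finrank = 2` (`InfinitePlace.sum_mult_eq`) and `absNorm J ^ 3 = ∏ (w g) ^ mult w` (M3_norm).
We get `δ ∈ J⁻¹`, `δ ≠ 0`, `w δ < f w`. Integrality: `g ∈ spanSingleton g = J ^ 3`, `δ ^ 3 ∈ J⁻¹ ^ 3`, so
`g * δ ^ 3 ∈ J ^ 3 * J⁻¹ ^ 3 = 1` (`FractionalIdeal.mul_mem_mul`, `mem_one_iff`). Bound: `w (g δ^3) = w g (w δ)^3 ≤
w g * f w ^ 3 = (4 √|A|) ^ (3/2)`, whose fourth power is `4^6 |A|^3 = 4096 |A|^3`.
-/
set_option autoImplicit false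
open NumberField nonZeroDivisors IsDedekindDomain
namespace RC91

theorem M3_norm {K : Type} [Field K] [NumberField K] (g : K)
    (J : (FractionalIdeal (𝓞 K)⁰ K)ˣ)
    (hJ : FractionalIdeal.spanSingleton (𝓞 K)⁰ g = (J : FractionalIdeal (𝓞 K)⁰ K) ^ 3) :
    (FractionalIdeal.absNorm (J : FractionalIdeal (𝓞 K)⁰ K)) ^ 3 = |Algebra.norm ℚ g| ∧
    (FractionalIdeal.absNorm (J : FractionalIdeal (𝓞 K)⁰ K) : ℝ) ^ 3 =
      ∏ w : InfinitePlace K, w g ^ w.mult := by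
  have h1 : (FractionalIdeal.absNorm (J : FractionalIdeal (𝓞 K)⁰ K)) ^ 3 =
      |Algebra.norm ℚ g| := by
    rw [← FractionalIdeal.absNorm_span_singleton (𝓞 K) g, hJ, map_pow]
  refine ⟨h1, ?_⟩
  rw [InfinitePlace.prod_eq_abs_norm, ← h1]
  push_cast
  rfl

theorem M3_root {x : ℝ} (hx : 0 < x) : ∃ t : ℝ, 0 < t ∧ t ^ 3 = x⁻¹ := by
  refine ⟨x ^ (-(1 / 3) : ℝ), Real.rpow_pos_of_pos hx _, ?_⟩
  rw [← Real.rpow_natCast, ← Real.rpow_mul hx.le, ← Real.rpow_neg_one]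
  norm_num

theorem M3 {A : ℤ} {K : Type} [Field K] [NumberField K] (h : QF A K) (hA : A ≠ 0)
    (g : K) (hg : g ≠ 0) (J : (FractionalIdeal (𝓞 K)⁰ K)ˣ)
    (hJ : FractionalIdeal.spanSingleton (𝓞 K)⁰ g = (J : FractionalIdeal (𝓞 K)⁰ K) ^ 3) :
    ∃ δ : K, δ ≠ 0 ∧ IsIntegral ℤ (g * δ ^ 3) ∧
      ∀ w : InfinitePlace K, (w (g * δ ^ 3)) ^ 4 ≤ 4096 * (|A| : ℝ) ^ 3 := by
  obtain ⟨-, hN⟩ := M3_norm g J hJ
  have hwg : ∀ w : InfinitePlace K, 0 < w g := fun w => InfinitePlace.pos_iff.mpr hg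
  choose t ht0 ht3 using fun w : InfinitePlace K => M3_root (hwg w)
  set N : ℝ := (FractionalIdeal.absNorm (J : FractionalIdeal (𝓞 K)⁰ K) : ℝ) with hNdef
  have hA0 : 0 < |(A : ℝ)| := abs_pos.mpr (by exact_mod_cast hA)
  have hN0 : 0 < N := by
    have h1 : 0 ≤ N := by
      rw [hNdef]
      exact_mod_cast FractionalIdeal.absNorm_nonneg _
    have h2 : 0 < N ^ 3 := by
      rw [hN]
      exact Finset.prod_pos fun w _ => pow_pos (hwg w) _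
    rcases h1.lt_or_eq with h3 | h3
    · exact h3
    · rw [← h3] at h2
      norm_num at h2
  set s : ℝ := √(4 * √|(A : ℝ)|) with hs
  have hs0 : 0 < s := Real.sqrt_pos.mpr (by positivity)
  have hs2 : s ^ 2 = 4 * √|(A : ℝ)| := Real.sq_sqrt (by positivity)
  have hs12 : s ^ 12 = 4096 * |(A : ℝ)| ^ 3 := by
    have h1 : √|(A : ℝ)| ^ 2 = |(A : ℝ)| := Real.sq_sqrt hA0.le
    calc s ^ 12 = (s ^ 2) ^ 6 := by ring
      _ = 4096 * (√|(A : ℝ)| ^ 2) ^ 3 := by rw [hs2]; ring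
      _ = _ := by rw [h1]
  have hT : ∏ w : InfinitePlace K, t w ^ w.mult = N⁻¹ := by
    have h1 : (∏ w : InfinitePlace K, t w ^ w.mult) ^ 3 = N⁻¹ ^ 3 := by
      rw [← Finset.prod_pow, inv_pow, hN, ← Finset.prod_inv_distrib]
      refine Finset.prod_congr rfl fun w _ => ?_
      rw [← pow_mul, mul_comm, pow_mul, ht3, inv_pow]
    exact (pow_left_inj₀ (Finset.prod_nonneg fun w _ => pow_nonneg (ht0 w).le _)
      (inv_nonneg.mpr hN0.le) (by norm_num)).mp h1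
  have hprod : ∏ w : InfinitePlace K, (s * t w) ^ w.mult = 4 * √|(A : ℝ)| * N⁻¹ := by
    simp_rw [mul_pow]
    rw [Finset.prod_mul_distrib, Finset.prod_pow_eq_pow_sum, InfinitePlace.sum_mult_eq, h.rank, hs2,
      hT]
  have hinv : (FractionalIdeal.absNorm ((J⁻¹ : (FractionalIdeal (𝓞 K)⁰ K)ˣ) :
      FractionalIdeal (𝓞 K)⁰ K) : ℝ) = N⁻¹ := by
    rw [Units.val_inv_eq_inv_val, map_inv₀, Rat.cast_inv]
  obtain ⟨δ, hδ, hδ0, hδw⟩ := M2 h hA J⁻¹ (fun w => s * t w) (fun w => mul_pos hs0 (ht0 w))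
    (by rw [hprod, hinv])
  refine ⟨δ, hδ0, ?_, ?_⟩
  · have h1 : g ∈ (J : FractionalIdeal (𝓞 K)⁰ K) ^ 3 := by
      rw [← hJ]
      exact FractionalIdeal.mem_spanSingleton_self _ g
    have h2 : δ * δ * δ ∈ ((J⁻¹ : (FractionalIdeal (𝓞 K)⁰ K)ˣ) : FractionalIdeal (𝓞 K)⁰ K) *
        ((J⁻¹ : (FractionalIdeal (𝓞 K)⁰ K)ˣ) : FractionalIdeal (𝓞 K)⁰ K) *
        ((J⁻¹ : (FractionalIdeal (𝓞 K)⁰ K)ˣ) : FractionalIdeal (𝓞 K)⁰ K) :=
      FractionalIdeal.mul_mem_mul (FractionalIdeal.mul_mem_mul hδ hδ) hδ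
    have h3 := FractionalIdeal.mul_mem_mul h1 h2
    have h4 : (J : FractionalIdeal (𝓞 K)⁰ K) ^ 3 *
        (((J⁻¹ : (FractionalIdeal (𝓞 K)⁰ K)ˣ) : FractionalIdeal (𝓞 K)⁰ K) *
        ((J⁻¹ : (FractionalIdeal (𝓞 K)⁰ K)ˣ) : FractionalIdeal (𝓞 K)⁰ K) *
        ((J⁻¹ : (FractionalIdeal (𝓞 K)⁰ K)ˣ) : FractionalIdeal (𝓞 K)⁰ K)) = 1 := by
      have h5 : J ^ 3 * (J⁻¹ * J⁻¹ * J⁻¹) = 1 := by group
      have h6 := congrArg (fun u : (FractionalIdeal (𝓞 K)⁰ K)ˣ =>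
        (u : FractionalIdeal (𝓞 K)⁰ K)) h5
      simpa only [Units.val_mul, Units.val_pow_eq_pow_val, Units.val_one] using h6
    rw [h4, FractionalIdeal.mem_one_iff] at h3
    obtain ⟨x, hx⟩ := h3
    have h7 : g * δ ^ 3 = algebraMap (𝓞 K) K x := by
      rw [hx]
      ring
    rw [h7]
    exact x.2
  · intro w
    have h1 : w (g * δ ^ 3) ≤ s ^ 3 := by
      rw [map_mul, map_pow]
      calc w g * w δ ^ 3 ≤ w g * (s * t w) ^ 3 :=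
            mul_le_mul_of_nonneg_left (pow_le_pow_left₀ (apply_nonneg w δ) (hδw w).le 3)
              (hwg w).le
        _ = s ^ 3 * (w g * t w ^ 3) := by ring
        _ = s ^ 3 := by rw [ht3, mul_inv_cancel₀ (hwg w).ne', mul_one]
    calc (w (g * δ ^ 3)) ^ 4 ≤ (s ^ 3) ^ 4 := pow_le_pow_left₀ (apply_nonneg w _) h1 4
      _ = s ^ 12 := by ring
      _ = _ := hs12

end RC91
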