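import Pool.Agent.LibRC91.M3
import Pool.Agent.LibRC91.M4
import Pool.Agent.LibRC91.V2

/-!
# [RC91 M5] the norm is a cube
PLAN. `M5_cube`: V2 gives `J` with `spanSingleton z = J^3`; M3_norm: `absNorm J ^ 3 = |norm z|` in ℚ; M4_norm: `norm z = z conj z`,
K2_norm: it is an integer `n`. `a = ± absNorm J` (sign of `n`) is a rational with `a^3 = n`: integral over ℤ, so an integer.
-/
set_option autoImplicit false
open NumberField nonZeroDivisors IsDedekindDomain
namespace RC91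

theorem M5_rat (b : ℚ) (n : ℤ) (h : b ^ 3 = n) : ∃ m : ℤ, b = m := by
  have h1 : IsIntegral ℤ b := by
    refine IsIntegral.of_pow (n := 3) (by norm_num) ?_
    rw [h]
    exact isIntegral_algebraMap (R := ℤ) (A := ℚ) (x := n)
  obtain ⟨m, hm⟩ := IsIntegrallyClosed.isIntegral_iff.1 h1
  exact ⟨m, by rw [← hm]; simp⟩

theorem M5_cube {A : ℤ} {K : Type} [Field K] [NumberField K] (h : QF A K) (z : K) (hz : z ≠ 0)
    (hi : IsIntegral ℤ z) (hv : ∀ v : HeightOneSpectrum (𝓞 K), (3 : ℤ) ∣ vl v z) :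
    ∃ a : ℤ, a ≠ 0 ∧ z * h.conj z = (a : K) ^ 3 := by
  obtain ⟨J, hJ⟩ := V2 z hz hv
  have h1 := (M3_norm z J hJ).1
  obtain ⟨n, hn⟩ := K2_norm h z hi
  have h2 : Algebra.norm ℚ z = (n : ℚ) := by
    have h3 := M4_norm h z
    rw [hn] at h3
    exact_mod_cast h3
  rw [h2] at h1
  have hn0 : n ≠ 0 := by
    rintro rfl
    rw [Int.cast_zero] at hn
    rcases mul_eq_zero.1 hn with h3 | h3
    · exact hz h3
    · exact hz ((map_eq_zero h.conj).1 h3)
  have key : ∀ b : ℚ, b ^ 3 = (n : ℚ) → ∃ a : ℤ, a ≠ 0 ∧ z * h.conj z = (a : K) ^ 3 := by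
    intro b hb
    obtain ⟨m, rfl⟩ := M5_rat b n hb
    have h4 : m ^ 3 = n := by exact_mod_cast hb
    refine ⟨m, ?_, ?_⟩
    · rintro rfl
      exact hn0 (by rw [← h4]; norm_num)
    · rw [hn, ← h4]
      push_cast
      rfl
  rcases le_total 0 n with h3 | h3
  · refine key _ (h1.trans ?_)
    rw [abs_of_nonneg (by exact_mod_cast h3)]
  · refine key (-FractionalIdeal.absNorm (J : FractionalIdeal (𝓞 K)⁰ K)) ?_
    rw [Odd.neg_pow (by decide), h1, abs_of_nonpos (by exact_mod_cast h3), neg_neg]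

end RC91
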