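import Pool.Agent.LibRC91.Defs

/-!
# [RC91 Q0] integers of an interval, pairwise congruent after multiplication by four
PLAN: finite: subset of the integers of `[⌈X⌉, ⌊Y⌋]`. If `S` is empty: `0 ≤ 4 (Y-X)/M + 1`. Else fix `u0` the
smallest element of `S` (or any; with the smallest one the count is direct): `u ↦ (4 (u - u0)) / M` is injective on `S`
with values in the natural numbers `0, ..., ⌊4 (Y - X)/M⌋`, so `S.ncard ≤ ⌊4 (Y - X) / M⌋ + 1`.
-/
set_option autoImplicit false
namespace RC91

theorem Q0 (M : ℕ) (hM : 0 < M) (X Y : ℝ) (hXY : X ≤ Y) (S : Set ℤ)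
    (hS : ∀ u ∈ S, X ≤ (u : ℝ) ∧ (u : ℝ) ≤ Y)
    (hc : ∀ u ∈ S, ∀ u' ∈ S, (M : ℤ) ∣ 4 * (u - u')) :
    S.Finite ∧ (S.ncard : ℝ) ≤ 4 * (Y - X) / (M : ℝ) + 1 := by
  classical
  have hMR : (0 : ℝ) < M := by exact_mod_cast hM
  have hMZ : (0 : ℤ) < M := by exact_mod_cast hM
  have hfin : S.Finite := by
    refine (Set.finite_Icc ⌈X⌉ ⌊Y⌋).subset ?_
    intro u hu
    exact ⟨Int.ceil_le.mpr (hS u hu).1, Int.le_floor.mpr (hS u hu).2⟩
  refine ⟨hfin, ?_⟩
  have hnn : 0 ≤ 4 * (Y - X) / (M : ℝ) := by
    apply div_nonneg _ hMR.le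
    linarith
  rcases S.eq_empty_or_nonempty with h0 | hne
  · rw [h0, Set.ncard_empty]
    push_cast
    linarith
  · obtain ⟨u0, hu0, hmin⟩ := hfin.exists_minimalFor id S hne
    have hmin' : ∀ u ∈ S, u0 ≤ u := by
      intro u hu
      rcases le_total u0 u with h | h
      · exact h
      · exact hmin hu h
    have hcard : S.ncard ≤ (Finset.range (⌊4 * (Y - X) / (M : ℝ)⌋₊ + 1)).card := by
      rw [Set.ncard_eq_toFinset_card S hfin]
      refine Finset.card_le_card_of_injOn (fun u => ((4 * (u - u0)) / (M : ℤ)).toNat) ?_ ?_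
      · intro u hu
        have hu' : u ∈ S := by simpa using hu
        have h1 := hmin' u hu'
        obtain ⟨q, hq⟩ := hc u hu' u0 hu0
        have hq0 : 0 ≤ q := by
          by_contra hlt
          push Not at hlt
          have : (M : ℤ) * q < 0 := mul_neg_of_pos_of_neg hMZ hlt
          omega
        have h2 : (4 * (u - u0)) / (M : ℤ) = q := by
          rw [hq]
          exact Int.mul_ediv_cancel_left q hMZ.ne'
        simp only [Finset.coe_range, Set.mem_Iio]
        rw [h2, Nat.lt_succ_iff]
        apply Nat.le_floor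
        have h3 : ((q.toNat : ℕ) : ℝ) = (q : ℝ) := by
          have : ((q.toNat : ℕ) : ℤ) = q := Int.toNat_of_nonneg hq0
          exact_mod_cast this
        rw [h3, le_div_iff₀ hMR]
        have h4 : (4 : ℝ) * ((u : ℝ) - (u0 : ℝ)) = (M : ℝ) * (q : ℝ) := by exact_mod_cast hq
        have h5 := (hS u hu').2
        have h6 := (hS u0 hu0).1
        nlinarith
      · intro u hu u' hu' h
        have hu1 : u ∈ S := by simpa using hu
        have hu1' : u' ∈ S := by simpa using hu'
        obtain ⟨q, hq⟩ := hc u hu1 u0 hu0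
        obtain ⟨q', hq'⟩ := hc u' hu1' u0 hu0
        have g1 := hmin' u hu1
        have g1' := hmin' u' hu1'
        have hq0 : 0 ≤ q := by
          by_contra hlt
          push Not at hlt
          have : (M : ℤ) * q < 0 := mul_neg_of_pos_of_neg hMZ hlt
          omega
        have hq0' : 0 ≤ q' := by
          by_contra hlt
          push Not at hlt
          have : (M : ℤ) * q' < 0 := mul_neg_of_pos_of_neg hMZ hlt
          omega
        have h2 : (4 * (u - u0)) / (M : ℤ) = q := by
          rw [hq]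
          exact Int.mul_ediv_cancel_left q hMZ.ne'
        have h2' : (4 * (u' - u0)) / (M : ℤ) = q' := by
          rw [hq']
          exact Int.mul_ediv_cancel_left q' hMZ.ne'
        have h3 : q.toNat = q'.toNat := by
          have h' : ((4 * (u - u0)) / (M : ℤ)).toNat = ((4 * (u' - u0)) / (M : ℤ)).toNat := h
          rwa [h2, h2'] at h'
        have h4 : q = q' := by omega
        rw [h4] at hq
        omega
    rw [Finset.card_range] at hcard
    have h1 : (S.ncard : ℝ) ≤ (⌊4 * (Y - X) / (M : ℝ)⌋₊ : ℝ) + 1 := by exact_mod_cast hcard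
    have h2 := Nat.floor_le hnn
    linarith

end RC91
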