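import Pool.Agent.LibRC91.Defs

/-!
# [RC91 Q2] the `u` with `|u^2 - 4 a^3| ≤ T v^2` lie in two short intervals
PLAN: `u^2 ∈ [P, Q]`, `P = max 0 (4a^3 - T v^2)`, `Q = 4a^3 + T v^2`. If `Q < 0` there is no `u`: take
`[0,0]` twice. Else `|u| ∈ [√P, √Q]`, take `[√P, √Q]` and `[-√Q, -√P]`. Length `ℓ = √Q - √P`:
`ℓ ≤ √(Q - P) ≤ √(2 T) v`. If `a > 0`: `ℓ = (Q-P)/(√Q+√P) ≤ 2 T v^2/√(4a^3) = T v^2 / a^(3/2)`; so
`ℓ^2 ≤ √2 T^(3/2) v^3 a^(-3/2) ≤ 4 T^(3/2) v^3 a^(-3/2)`. If `a < 0`: `Q ≥ 0` gives `4|a|^3 ≤ T v^2`,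
`P = 0`, `ℓ ≤ √T v` and `|a|^(3/4) ≤ T^(1/4) v^(1/2)`: `T^(3/4) v^(3/2) |a|^(-3/4) ≥ T^(1/2) v`.
-/
set_option autoImplicit false
namespace RC91

/-- The elementary estimate. -/
private theorem Q2_est {l r b : ℝ} (hl : 0 ≤ l) (hr : 0 ≤ r) (hb : 0 ≤ b)
    (h1 : l ^ 2 ≤ 2 * r ^ 4) (h2 : l * b ^ 6 ≤ r ^ 4) : l * b ^ 3 ≤ 2 * r ^ 3 := by
  have h3 : l ≤ 2 * r ^ 2 := by
    refine le_of_sq_le_sq ?_ (by positivity)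
    nlinarith [sq_nonneg (r ^ 2)]
  refine le_of_sq_le_sq ?_ (by positivity)
  have h4 : l * (l * b ^ 6) ≤ (2 * r ^ 2) * r ^ 4 :=
    mul_le_mul h3 h2 (by positivity) (by positivity)
  nlinarith [sq_nonneg (r ^ 3)]

private theorem Q2_sqrt {P Q : ℝ} (hP : 0 ≤ P) (hPQ : P ≤ Q) :
    (√Q - √P) ^ 2 ≤ Q - P ∧ (√Q - √P) * √Q ≤ Q - P := by
  have hQ : 0 ≤ Q := hP.trans hPQ
  have h1 : √P ≤ √Q := Real.sqrt_le_sqrt hPQ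
  have h2 := Real.sqrt_nonneg P
  have h3 := Real.sq_sqrt hP
  have h4 := Real.sq_sqrt hQ
  constructor <;> nlinarith

private theorem Q2_real {A r b : ℝ} (hr : 0 ≤ r) (hb : 0 < b) (hA : A = b ^ 12 ∨ A = -b ^ 12) :
    ∃ X Y : ℝ, 0 ≤ X ∧ X ≤ Y ∧ (Y - X) * b ^ 3 ≤ 2 * r ^ 3 ∧
      ∀ u : ℝ, |u ^ 2 - 4 * A| ≤ r ^ 4 → X ≤ |u| ∧ |u| ≤ Y := by
  have hr4 : 0 ≤ r ^ 4 := by positivity
  by_cases hQ : 4 * A + r ^ 4 < 0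
  · refine ⟨0, 0, le_rfl, le_rfl, by simpa using (by positivity : (0 : ℝ) ≤ 2 * r ^ 3),
      fun u hu => ?_⟩
    exfalso
    have h1 := (abs_le.mp hu).2
    nlinarith [sq_nonneg u]
  rw [not_lt] at hQ
  have hP0 : 0 ≤ max 0 (4 * A - r ^ 4) := le_max_left _ _
  have hPQ : max 0 (4 * A - r ^ 4) ≤ 4 * A + r ^ 4 := max_le hQ (by linarith)
  obtain ⟨h1, h2⟩ := Q2_sqrt hP0 hPQ
  refine ⟨√(max 0 (4 * A - r ^ 4)), √(4 * A + r ^ 4), Real.sqrt_nonneg _,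
    Real.sqrt_le_sqrt hPQ, ?_, fun u hu => ?_⟩
  · have hl : 0 ≤ √(4 * A + r ^ 4) - √(max 0 (4 * A - r ^ 4)) :=
      sub_nonneg.mpr (Real.sqrt_le_sqrt hPQ)
    have h3 : 4 * A - r ^ 4 ≤ max 0 (4 * A - r ^ 4) := le_max_right _ _
    rcases hA with hA | hA
    · refine Q2_est hl hr hb.le (by linarith) ?_
      have h4 : 2 * b ^ 6 ≤ √(4 * A + r ^ 4) := by
        refine Real.le_sqrt_of_sq_le ?_
        rw [hA]
        nlinarith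
      have h5 : (√(4 * A + r ^ 4) - √(max 0 (4 * A - r ^ 4))) * (2 * b ^ 6) ≤ 2 * r ^ 4 :=
        (mul_le_mul_of_nonneg_left h4 hl).trans (h2.trans (by linarith))
      linarith
    · have h4 : √(4 * A + r ^ 4) ≤ r ^ 2 := by
        rw [Real.sqrt_le_left (by positivity)]
        rw [hA]
        have : 0 ≤ b ^ 12 := by positivity
        nlinarith
      have h5 : b ^ 3 ≤ r := by
        refine le_of_pow_le_pow_left₀ (n := 4) (by norm_num) hr ?_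
        rw [hA] at hQ
        have : 0 ≤ b ^ 12 := by positivity
        nlinarith
      have h6 : √(4 * A + r ^ 4) - √(max 0 (4 * A - r ^ 4)) ≤ r ^ 2 := by
        linarith [Real.sqrt_nonneg (max 0 (4 * A - r ^ 4))]
      have h7 := mul_le_mul h6 h5 (by positivity) (by positivity)
      have h8 : 0 ≤ r ^ 3 := by positivity
      nlinarith
  · obtain ⟨h3, h4⟩ := abs_le.mp hu
    constructor
    · rw [Real.sqrt_le_left (abs_nonneg u), sq_abs]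
      exact max_le (sq_nonneg u) (by linarith)
    · refine Real.le_sqrt_of_sq_le ?_
      rw [sq_abs]
      linarith

theorem Q2 (T v : ℕ) (hT : 1 ≤ T) (hv : 0 < v) (a : ℤ) (ha : a ≠ 0) :
    ∃ X Y : ℝ, X ≤ Y ∧
      Y - X ≤ 2 * (T : ℝ) ^ (3 / 4 : ℝ) * (v : ℝ) ^ (3 / 2 : ℝ) * (|a| : ℝ) ^ (-(3 / 4) : ℝ) ∧
      ∀ u : ℤ, |u ^ 2 - 4 * a ^ 3| ≤ (T : ℤ) * (v : ℤ) ^ 2 →
        (X ≤ (u : ℝ) ∧ (u : ℝ) ≤ Y) ∨ (-Y ≤ (u : ℝ) ∧ (u : ℝ) ≤ -X) := by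
  have hv' : (0 : ℝ) < (v : ℝ) := by exact_mod_cast hv
  have hT' : (0 : ℝ) < (T : ℝ) := by exact_mod_cast hT
  have ha' : (0 : ℝ) < |(a : ℝ)| := abs_pos.mpr (by exact_mod_cast ha)
  have hb : 0 < |(a : ℝ)| ^ (1 / 4 : ℝ) := Real.rpow_pos_of_pos ha' _
  have hr : 0 < (T : ℝ) ^ (1 / 4 : ℝ) * (v : ℝ) ^ (1 / 2 : ℝ) := by positivity
  have hb12 : (|(a : ℝ)| ^ (1 / 4 : ℝ)) ^ 12 = |(a : ℝ)| ^ 3 := by
    rw [← Real.rpow_natCast, ← Real.rpow_mul ha'.le, ← Real.rpow_natCast]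
    norm_num
  have hA : (a : ℝ) ^ 3 = (|(a : ℝ)| ^ (1 / 4 : ℝ)) ^ 12 ∨
      (a : ℝ) ^ 3 = -(|(a : ℝ)| ^ (1 / 4 : ℝ)) ^ 12 := by
    rw [hb12]
    rcases abs_cases (a : ℝ) with h | h
    · left
      rw [h.1]
    · right
      rw [h.1]
      ring
  have hr4 : ((T : ℝ) ^ (1 / 4 : ℝ) * (v : ℝ) ^ (1 / 2 : ℝ)) ^ 4 = (T : ℝ) * (v : ℝ) ^ 2 := by
    rw [mul_pow]
    congr 1
    · rw [← Real.rpow_natCast, ← Real.rpow_mul hT'.le]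
      norm_num
    · rw [← Real.rpow_natCast, ← Real.rpow_mul hv'.le, ← Real.rpow_natCast]
      norm_num
  have hr3 : ((T : ℝ) ^ (1 / 4 : ℝ) * (v : ℝ) ^ (1 / 2 : ℝ)) ^ 3 =
      (T : ℝ) ^ (3 / 4 : ℝ) * (v : ℝ) ^ (3 / 2 : ℝ) := by
    rw [mul_pow]
    congr 1
    · rw [← Real.rpow_natCast, ← Real.rpow_mul hT'.le]
      norm_num
    · rw [← Real.rpow_natCast, ← Real.rpow_mul hv'.le]
      norm_num
  have hb3 : |(a : ℝ)| ^ (-(3 / 4) : ℝ) * (|(a : ℝ)| ^ (1 / 4 : ℝ)) ^ 3 = 1 := by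
    rw [← Real.rpow_natCast, ← Real.rpow_mul ha'.le, ← Real.rpow_add ha']
    norm_num
  obtain ⟨X, Y, hX, hXY, hl, hu⟩ := Q2_real hr.le hb hA
  refine ⟨X, Y, hXY, ?_, fun u hu' => ?_⟩
  · rw [hr3] at hl
    refine le_of_mul_le_mul_right ?_ (pow_pos hb 3)
    refine hl.trans (le_of_eq ?_)
    rw [mul_assoc _ (|(a : ℝ)| ^ (-(3 / 4) : ℝ)), hb3]
    ring
  · have h1 : |(u : ℝ) ^ 2 - 4 * (a : ℝ) ^ 3| ≤
        ((T : ℝ) ^ (1 / 4 : ℝ) * (v : ℝ) ^ (1 / 2 : ℝ)) ^ 4 := by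
      rw [hr4]
      exact_mod_cast hu'
    obtain ⟨h2, h3⟩ := hu u h1
    rcases abs_cases (u : ℝ) with h | h
    · left
      rw [h.1] at h2 h3
      exact ⟨h2, h3⟩
    · right
      rw [h.1] at h2 h3
      constructor <;> linarith

end RC91
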