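import Pool.Agent.LibRC91.QC
import Pool.Agent.LibRC91.Q2

/-!
# [RC91 Q3] number of `u` for given `v`, `a`
PLAN: Q2 gives two intervals `[X, Y]` and `[-Y, -X]` of length `ℓ`, QC on each:
`2 * 2^ω * (4 ℓ / v^2 + 1)` with `4 ℓ / v^2 ≤ 8 T^(3/4) v^(-1/2) |a|^(-3/4)` (`Real.rpow_natCast`, `Real.rpow_sub`:
`v^(3/2) / v^2 = v^(-1/2)`).
-/
set_option autoImplicit false
namespace RC91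

theorem Q3 (T v : ℕ) (hT : 1 ≤ T) (hv : 0 < v) (a : ℤ) (ha : a ≠ 0) :
    {u : ℤ | |u ^ 2 - 4 * a ^ 3| ≤ (T : ℤ) * (v : ℤ) ^ 2 ∧ (v : ℤ) ^ 2 ∣ u ^ 2 - 4 * a ^ 3 ∧
        Prm u v a}.Finite ∧
    ({u : ℤ | |u ^ 2 - 4 * a ^ 3| ≤ (T : ℤ) * (v : ℤ) ^ 2 ∧
        (v : ℤ) ^ 2 ∣ u ^ 2 - 4 * a ^ 3 ∧ Prm u v a}.ncard : ℝ) ≤
      2 * (2 : ℝ) ^ v.primeFactors.card *
        (8 * (T : ℝ) ^ (3 / 4 : ℝ) * (v : ℝ) ^ (-(1 / 2) : ℝ) * (|a| : ℝ) ^ (-(3 / 4) : ℝ)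
          + 1) := by
  obtain ⟨X, Y, hXY, hlen, hu⟩ := Q2 T v hT hv a ha
  obtain ⟨hf1, hn1⟩ := QC v hv a X Y hXY
  obtain ⟨hf2, hn2⟩ := QC v hv a (-Y) (-X) (by linarith)
  have hvR : (0 : ℝ) < v := by exact_mod_cast hv
  have hsub : {u : ℤ | |u ^ 2 - 4 * a ^ 3| ≤ (T : ℤ) * (v : ℤ) ^ 2 ∧
      (v : ℤ) ^ 2 ∣ u ^ 2 - 4 * a ^ 3 ∧ Prm u v a} ⊆
      {u : ℤ | X ≤ (u : ℝ) ∧ (u : ℝ) ≤ Y ∧ (v : ℤ) ^ 2 ∣ u ^ 2 - 4 * a ^ 3 ∧ Prm u v a} ∪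
      {u : ℤ | -Y ≤ (u : ℝ) ∧ (u : ℝ) ≤ -X ∧ (v : ℤ) ^ 2 ∣ u ^ 2 - 4 * a ^ 3 ∧ Prm u v a} := by
    rintro u ⟨h1, h2, h3⟩
    rcases hu u h1 with h | h
    · exact Or.inl ⟨h.1, h.2, h2, h3⟩
    · exact Or.inr ⟨h.1, h.2, h2, h3⟩
  refine ⟨(hf1.union hf2).subset hsub, ?_⟩
  have h1 := Set.ncard_le_ncard hsub (hf1.union hf2)
  have h2 := h1.trans (Set.ncard_union_le _ _)
  have h3 : ({u : ℤ | |u ^ 2 - 4 * a ^ 3| ≤ (T : ℤ) * (v : ℤ) ^ 2 ∧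
        (v : ℤ) ^ 2 ∣ u ^ 2 - 4 * a ^ 3 ∧ Prm u v a}.ncard : ℝ) ≤
      ({u : ℤ | X ≤ (u : ℝ) ∧ (u : ℝ) ≤ Y ∧ (v : ℤ) ^ 2 ∣ u ^ 2 - 4 * a ^ 3 ∧
        Prm u v a}.ncard : ℝ) +
      ({u : ℤ | -Y ≤ (u : ℝ) ∧ (u : ℝ) ≤ -X ∧ (v : ℤ) ^ 2 ∣ u ^ 2 - 4 * a ^ 3 ∧
        Prm u v a}.ncard : ℝ) := by
    exact_mod_cast h2
  have h4 : (v : ℝ) ^ (3 / 2 : ℝ) / (v : ℝ) ^ 2 = (v : ℝ) ^ (-(1 / 2) : ℝ) := by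
    rw [← Real.rpow_natCast (v : ℝ) 2, ← Real.rpow_sub hvR]
    norm_num
  have h5 : 4 * (Y - X) / (v : ℝ) ^ 2 ≤
      8 * (T : ℝ) ^ (3 / 4 : ℝ) * (v : ℝ) ^ (-(1 / 2) : ℝ) * (|a| : ℝ) ^ (-(3 / 4) : ℝ) := by
    rw [← h4]
    have h6 : (0 : ℝ) < (v : ℝ) ^ 2 := by positivity
    rw [div_le_iff₀ h6]
    have h7 : 8 * (T : ℝ) ^ (3 / 4 : ℝ) * ((v : ℝ) ^ (3 / 2 : ℝ) / (v : ℝ) ^ 2) *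
        (|a| : ℝ) ^ (-(3 / 4) : ℝ) * (v : ℝ) ^ 2 =
        4 * (2 * (T : ℝ) ^ (3 / 4 : ℝ) * (v : ℝ) ^ (3 / 2 : ℝ) *
          (|a| : ℝ) ^ (-(3 / 4) : ℝ)) := by
      field_simp
      ring
    rw [h7]
    linarith
  have hpow : (0 : ℝ) < (2 : ℝ) ^ v.primeFactors.card := by positivity
  have h8 : 4 * (-X - -Y) / (v : ℝ) ^ 2 = 4 * (Y - X) / (v : ℝ) ^ 2 := by
    congr 1
    ring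
  rw [h8] at hn2
  have h9 := mul_le_mul_of_nonneg_left h5 hpow.le
  calc _ ≤ _ := h3
    _ ≤ 2 * (2 : ℝ) ^ v.primeFactors.card * (4 * (Y - X) / (v : ℝ) ^ 2 + 1) := by linarith
    _ ≤ _ := by
      have h10 : (0 : ℝ) ≤ 2 * (2 : ℝ) ^ v.primeFactors.card := by positivity
      apply mul_le_mul_of_nonneg_left _ h10
      linarith

end RC91
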