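import Pool.Agent.LibRC91.Defs

/-!
# [RC91 QT2] two elementary sums
PLAN: QT2_a by induction: with `s = (n+1)^(1/4)`, `t = n^(1/4)`: `1 = s^4 - t^4 = (s - t)(s^3 + s^2 t + s t^2 + t^3)
≤ 4 (s - t) s^3`, so `(n+1)^(-3/4) = s^(-3) ≤ 4 (s - t)`.
QT2_b: `Finset.Icc (-V) V` without `0` = the positive part and the negative part, each in bijection with `Icc 1 V` by
`Int.natAbs` (induction on `V` is easiest: `Icc (-(V+1)) (V+1) = Icc (-V) V ∪ {V+1, -(V+1)}`).
-/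
set_option autoImplicit false
namespace RC91

theorem QT2_a (n : ℕ) : ∑ a ∈ Finset.Icc 1 n, (a : ℝ) ^ (-(3 / 4) : ℝ) ≤ 4 * (n : ℝ) ^ (1 / 4 : ℝ) := by
  induction n with
  | zero => simp
  | succ n ih =>
    rw [Finset.sum_Icc_succ_top (by omega)]
    have hn0 : (0 : ℝ) ≤ n := Nat.cast_nonneg n
    have hn1 : (0 : ℝ) < ((n + 1 : ℕ) : ℝ) := by positivity
    set s : ℝ := ((n + 1 : ℕ) : ℝ) ^ (1 / 4 : ℝ) with hs
    set t : ℝ := (n : ℝ) ^ (1 / 4 : ℝ) with ht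
    have hs0 : 0 < s := Real.rpow_pos_of_pos hn1 _
    have ht0 : 0 ≤ t := Real.rpow_nonneg hn0 _
    have hts : t ≤ s := by
      apply Real.rpow_le_rpow hn0 _ (by norm_num)
      push_cast; linarith
    have hs4 : s ^ 4 = ((n + 1 : ℕ) : ℝ) := by
      rw [hs, ← Real.rpow_natCast, ← Real.rpow_mul hn1.le]; norm_num
    have ht4 : t ^ 4 = (n : ℝ) := by
      rw [ht, ← Real.rpow_natCast, ← Real.rpow_mul hn0]; norm_num
    have hs3 : ((n + 1 : ℕ) : ℝ) ^ (-(3 / 4) : ℝ) = (s ^ 3)⁻¹ := by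
      rw [Real.rpow_neg hn1.le, hs, ← Real.rpow_natCast, ← Real.rpow_mul hn1.le]; norm_num
    have h1 : s ^ 4 - t ^ 4 = 1 := by rw [hs4, ht4]; push_cast; ring
    have h2 : 1 ≤ 4 * (s - t) * s ^ 3 := by
      have e : s ^ 4 - t ^ 4 = (s - t) * (s ^ 3 + s ^ 2 * t + s * t ^ 2 + t ^ 3) := by ring
      have hst : 0 ≤ s - t := by linarith
      have a1 : s ^ 2 * t ≤ s ^ 3 := by nlinarith [sq_nonneg s]
      have a2 : s * t ^ 2 ≤ s ^ 3 := by nlinarith [mul_nonneg ht0 hst, mul_nonneg hs0.le hst]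
      have a3 : t ^ 3 ≤ s ^ 3 := by gcongr
      have : (s - t) * (s ^ 3 + s ^ 2 * t + s * t ^ 2 + t ^ 3) ≤ (s - t) * (4 * s ^ 3) := by
        apply mul_le_mul_of_nonneg_left _ hst
        linarith
      linarith
    have h3 : (s ^ 3)⁻¹ ≤ 4 * (s - t) := by
      rw [inv_le_iff_one_le_mul₀ (by positivity)]
      linarith
    rw [hs3]
    linarith

private theorem QT2_set (V : ℕ) :
    (Finset.Icc (-((V + 1 : ℕ) : ℤ)) ((V + 1 : ℕ) : ℤ)).erase 0 =
      insert ((V + 1 : ℕ) : ℤ) (insert (-((V + 1 : ℕ) : ℤ))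
        ((Finset.Icc (-(V : ℤ)) (V : ℤ)).erase 0)) := by
  ext z
  simp only [Finset.mem_erase, Finset.mem_Icc, Finset.mem_insert]
  push_cast
  omega

theorem QT2_b (V : ℕ) (f : ℕ → ℝ) :
    ∑ z ∈ (Finset.Icc (-(V : ℤ)) (V : ℤ)).erase 0, f z.natAbs = 2 * ∑ n ∈ Finset.Icc 1 V, f n := by
  induction V with
  | zero => simp
  | succ V ih =>
    rw [QT2_set, Finset.sum_insert, Finset.sum_insert, ih, Finset.sum_Icc_succ_top (by omega)]
    · have e1 : (((V + 1 : ℕ) : ℤ)).natAbs = V + 1 := Int.natAbs_natCast _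
      have e2 : (-((V + 1 : ℕ) : ℤ)).natAbs = V + 1 := by rw [Int.natAbs_neg]; exact e1
      rw [e1, e2]; ring
    · simp only [Finset.mem_erase, Finset.mem_Icc, not_and, not_le]
      intro _ h
      push_cast at h ⊢
      omega
    · simp only [Finset.mem_insert, Finset.mem_erase, Finset.mem_Icc, not_or, not_and, not_le]
      push_cast
      omega

end RC91
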