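import Pool.Agent.LibRC91.QT1
import Pool.Agent.LibRC91.QT2

/-!
# [RC91 Q6a] the double sum over `v` and `a`
PLAN: the sum is `16 T^(3/4) (∑_v 2^ω v^(-1/2)) (∑_a a^(-3/4)) + 2 Y ∑_v 2^ω`
`≤ 16 T^(3/4) * 2 V^(1/2) (1+log V) * 4 Y^(1/4) + 2 Y V (1+log V)` (QT1_half, QT2_a, QT1_sum).
`V^(1/2) ≤ 4 T^(1/8)`, `Y^(1/4) ≤ 2 T^(1/8)`, `Y V ≤ 64 T^(3/4) ≤ 64 T`, `1 + log V ≤ 1 + log 16 + (1/4) log T ≤
4 (1 + log T)` (`log 16 = 4 log 2 ≤ 2.8`). Total `≤ (1024 + 128) * 4 * T (1 + log T) = 4608 T (1+log T)`.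
To avoid rpow computations put `t = T^(1/8)` (`t ≥ 1`, `t^8 = T`), then `T^(3/4) = t^6`, `V ≤ 16 t^2`, `Y ≤ 4 t^4`.
-/
set_option autoImplicit false
namespace RC91

theorem Q6a (T V Y : ℕ) (hT : 1 ≤ T) (hV : 1 ≤ V) (hY : 1 ≤ Y)
    (hV2 : (V : ℝ) ≤ 16 * (T : ℝ) ^ (1 / 4 : ℝ)) (hY2 : (Y : ℝ) ≤ 4 * (T : ℝ) ^ (1 / 2 : ℝ)) :
    ∑ v ∈ Finset.Icc 1 V, ∑ a ∈ Finset.Icc 1 Y, 2 * (2 : ℝ) ^ v.primeFactors.card *
        (8 * (T : ℝ) ^ (3 / 4 : ℝ) * (v : ℝ) ^ (-(1 / 2) : ℝ) * (a : ℝ) ^ (-(3 / 4) : ℝ) + 1) ≤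
      5000 * (T : ℝ) * (1 + Real.log T) := by
  have hT1 : (1 : ℝ) ≤ T := by exact_mod_cast hT
  have hV1 : (1 : ℝ) ≤ V := by exact_mod_cast hV
  have hY1 : (1 : ℝ) ≤ Y := by exact_mod_cast hY
  have hT0 : (0 : ℝ) ≤ T := by linarith
  obtain ⟨t, ht1, htT⟩ : ∃ t : ℝ, 1 ≤ t ∧ t = (T : ℝ) ^ (1 / 8 : ℝ) :=
    ⟨_, Real.one_le_rpow hT1 (by norm_num), rfl⟩
  have ht0 : 0 ≤ t := by linarith
  have ht8 : (T : ℝ) = t ^ 8 := by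
    rw [htT, ← Real.rpow_natCast, ← Real.rpow_mul hT0]
    norm_num
  have e34 : (T : ℝ) ^ (3 / 4 : ℝ) = t ^ 6 := by
    rw [htT, ← Real.rpow_natCast, ← Real.rpow_mul hT0]
    norm_num
  have e14 : (T : ℝ) ^ (1 / 4 : ℝ) = t ^ 2 := by
    rw [htT, ← Real.rpow_natCast, ← Real.rpow_mul hT0]
    norm_num
  have e12 : (T : ℝ) ^ (1 / 2 : ℝ) = t ^ 4 := by
    rw [htT, ← Real.rpow_natCast, ← Real.rpow_mul hT0]
    norm_num
  rw [e14] at hV2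
  rw [e12] at hY2
  have hVh : (V : ℝ) ^ (1 / 2 : ℝ) ≤ 4 * t := by
    calc (V : ℝ) ^ (1 / 2 : ℝ) ≤ ((4 * t) ^ 2) ^ (1 / 2 : ℝ) :=
          Real.rpow_le_rpow (by linarith) (by nlinarith) (by norm_num)
      _ = 4 * t := by
          rw [← Real.rpow_natCast, ← Real.rpow_mul (by linarith)]
          norm_num
  have hYq : (Y : ℝ) ^ (1 / 4 : ℝ) ≤ 2 * t := by
    calc (Y : ℝ) ^ (1 / 4 : ℝ) ≤ ((2 * t) ^ 4) ^ (1 / 4 : ℝ) :=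
          Real.rpow_le_rpow (by linarith) (by nlinarith [pow_nonneg ht0 4]) (by norm_num)
      _ = 2 * t := by
          rw [← Real.rpow_natCast, ← Real.rpow_mul (by linarith)]
          norm_num
  have hlT : 0 ≤ Real.log T := Real.log_nonneg hT1
  have hlV0 : 0 ≤ Real.log V := Real.log_nonneg hV1
  have hlog : 1 + Real.log V ≤ 4 * (1 + Real.log T) := by
    have h1 : Real.log V ≤ Real.log (16 * t ^ 2) := Real.log_le_log (by linarith) hV2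
    rw [Real.log_mul (by norm_num) (by positivity), show (16 : ℝ) = 2 ^ 4 by norm_num,
      Real.log_pow, Real.log_pow] at h1
    have h2 : Real.log T = 8 * Real.log t := by
      rw [ht8, Real.log_pow]
      norm_num
    have h3 := Real.log_two_lt_d9
    push_cast at h1
    linarith
  have hS1 := QT1_half V hV
  have hS2 := QT2_a Y
  have hS3 := QT1_sum V hV
  have hS10 : 0 ≤ ∑ v ∈ Finset.Icc 1 V, (2 : ℝ) ^ v.primeFactors.card * (v : ℝ) ^ (-(1 / 2) : ℝ) :=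
    Finset.sum_nonneg fun v _ => by positivity
  have hS20 : 0 ≤ ∑ a ∈ Finset.Icc 1 Y, (a : ℝ) ^ (-(3 / 4) : ℝ) :=
    Finset.sum_nonneg fun v _ => by positivity
  have hS30 : 0 ≤ ∑ v ∈ Finset.Icc 1 V, (2 : ℝ) ^ v.primeFactors.card :=
    Finset.sum_nonneg fun v _ => by positivity
  have hsplit : ∑ v ∈ Finset.Icc 1 V, ∑ a ∈ Finset.Icc 1 Y, 2 * (2 : ℝ) ^ v.primeFactors.card *
        (8 * (T : ℝ) ^ (3 / 4 : ℝ) * (v : ℝ) ^ (-(1 / 2) : ℝ) * (a : ℝ) ^ (-(3 / 4) : ℝ) + 1) =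
      16 * t ^ 6 * ((∑ v ∈ Finset.Icc 1 V, (2 : ℝ) ^ v.primeFactors.card *
        (v : ℝ) ^ (-(1 / 2) : ℝ)) * (∑ a ∈ Finset.Icc 1 Y, (a : ℝ) ^ (-(3 / 4) : ℝ))) +
      2 * Y * ∑ v ∈ Finset.Icc 1 V, (2 : ℝ) ^ v.primeFactors.card := by
    rw [e34, Finset.sum_mul_sum, Finset.mul_sum, Finset.mul_sum, ← Finset.sum_add_distrib]
    refine Finset.sum_congr rfl fun v _ => ?_
    rw [Finset.mul_sum]
    have h1 : 2 * (Y : ℝ) * (2 : ℝ) ^ v.primeFactors.card =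
        ∑ a ∈ Finset.Icc 1 Y, 2 * (2 : ℝ) ^ v.primeFactors.card := by
      rw [Finset.sum_const, Nat.card_Icc, Nat.add_sub_cancel, nsmul_eq_mul]
      ring
    rw [h1, ← Finset.sum_add_distrib]
    refine Finset.sum_congr rfl fun a _ => ?_
    ring
  rw [hsplit]
  have h12 : (∑ v ∈ Finset.Icc 1 V, (2 : ℝ) ^ v.primeFactors.card *
        (v : ℝ) ^ (-(1 / 2) : ℝ)) * (∑ a ∈ Finset.Icc 1 Y, (a : ℝ) ^ (-(3 / 4) : ℝ)) ≤
      (2 * (4 * t) * (1 + Real.log V)) * (4 * (2 * t)) := by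
    have h1 : ∑ v ∈ Finset.Icc 1 V, (2 : ℝ) ^ v.primeFactors.card * (v : ℝ) ^ (-(1 / 2) : ℝ) ≤
        2 * (4 * t) * (1 + Real.log V) := hS1.trans (by gcongr)
    have h2 : ∑ a ∈ Finset.Icc 1 Y, (a : ℝ) ^ (-(3 / 4) : ℝ) ≤ 4 * (2 * t) :=
      hS2.trans (by gcongr)
    exact mul_le_mul h1 h2 hS20 (by positivity)
  have ht6 : t ^ 6 ≤ t ^ 8 := pow_le_pow_right₀ ht1 (by norm_num)
  calc 16 * t ^ 6 * ((∑ v ∈ Finset.Icc 1 V, (2 : ℝ) ^ v.primeFactors.card *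
        (v : ℝ) ^ (-(1 / 2) : ℝ)) * (∑ a ∈ Finset.Icc 1 Y, (a : ℝ) ^ (-(3 / 4) : ℝ))) +
      2 * Y * ∑ v ∈ Finset.Icc 1 V, (2 : ℝ) ^ v.primeFactors.card
      ≤ 16 * t ^ 6 * ((2 * (4 * t) * (1 + Real.log V)) * (4 * (2 * t))) +
        2 * (4 * t ^ 4) * ((16 * t ^ 2) * (1 + Real.log V)) := by
        have h3 : ∑ v ∈ Finset.Icc 1 V, (2 : ℝ) ^ v.primeFactors.card ≤
          (16 * t ^ 2) * (1 + Real.log V) := hS3.trans (by gcongr)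
        exact add_le_add (mul_le_mul_of_nonneg_left h12 (by positivity))
          (mul_le_mul (mul_le_mul_of_nonneg_left hY2 (by norm_num)) h3 hS30 (by positivity))
    _ = (1024 * t ^ 8 + 128 * t ^ 6) * (1 + Real.log V) := by ring
    _ ≤ (1024 * t ^ 8 + 128 * t ^ 8) * (4 * (1 + Real.log T)) := by gcongr
    _ = 4608 * t ^ 8 * (1 + Real.log T) := by ring
    _ ≤ 5000 * (T : ℝ) * (1 + Real.log T) := by
        have h9 : 0 ≤ (T : ℝ) * (1 + Real.log T) := mul_nonneg hT0 (by linarith)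
        rw [← ht8]
        linarith

end RC91
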