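import Pool.Agent.LibRC91.Q3
import Pool.Agent.LibRC91.Q6a

/-!
# [RC91 Q6] the count of `QS T`
PLAN: `V = ⌊16 T^(1/4)⌋₊`, `Y = ⌊4 T^(1/2)⌋₊` (both ≥ 1). For `(u,v,a) ∈ QS T`: `|v| ≤ V` (from `v^4 ≤ 65536 T`),
`|a| ≤ Y` (from `a^2 ≤ 16 T`). Let `P = ((Icc (-V) V).erase 0) ×ˢ ((Icc (-Y) Y).erase 0)` in `ℤ × ℤ` and for
`(v,a) ∈ P` let `F v a = {u | |u^2-4a^3| ≤ T v.natAbs^2 ∧ v.natAbs^2 ∣ u^2-4a^3 ∧ Prm u v.natAbs a}` (the set of Q3 for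
`v.natAbs`; `Prm u v a ↔ Prm u v.natAbs a` since only divisibilities of `v` occur). Then
`QS T ⊆ ⋃_{(v,a) ∈ P} (fun u => (u, v, a)) '' F v a`, finite, and its ncard is at most
`∑_{(v,a) ∈ P} (F v a).ncard ≤ ∑_{v} ∑_{a} B |v| |a|` (Q3), which is `4 ∑_{v ≤ V} ∑_{a ≤ Y} B v a` (QT2_b twice),
and Q6a finishes: `C = 20000`.
-/
set_option autoImplicit false
namespace RC91

theorem Q6_prm (u v a : ℤ) : Prm u v a ↔ Prm u (v.natAbs : ℤ) a := by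
  unfold Prm
  simp only [Int.dvd_natAbs]

/-- fibre -/
private def Q6_F (T : ℕ) (p : ℤ × ℤ) : Set ℤ :=
  {u : ℤ | |u ^ 2 - 4 * p.2 ^ 3| ≤ (T : ℤ) * ((p.1.natAbs : ℕ) : ℤ) ^ 2 ∧
    ((p.1.natAbs : ℕ) : ℤ) ^ 2 ∣ u ^ 2 - 4 * p.2 ^ 3 ∧ Prm u ((p.1.natAbs : ℕ) : ℤ) p.2}

/-- bound -/
private noncomputable def Q6_B (T : ℕ) (v a : ℕ) : ℝ :=
  2 * (2 : ℝ) ^ v.primeFactors.card *
    (8 * (T : ℝ) ^ (3 / 4 : ℝ) * (v : ℝ) ^ (-(1 / 2) : ℝ) * (a : ℝ) ^ (-(3 / 4) : ℝ) + 1)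

private theorem Q6_F_le (T : ℕ) (hT : 1 ≤ T) (p : ℤ × ℤ) (h1 : p.1 ≠ 0) (h2 : p.2 ≠ 0) :
    (Q6_F T p).Finite ∧ ((Q6_F T p).ncard : ℝ) ≤ Q6_B T p.1.natAbs p.2.natAbs := by
  have h := Q3 T p.1.natAbs hT (Int.natAbs_pos.2 h1) p.2 h2
  have hc : ((p.2.natAbs : ℕ) : ℝ) = |(p.2 : ℝ)| := by
    rw [Nat.cast_natAbs, Int.cast_abs]
  unfold Q6_F Q6_B
  rw [hc]
  exact h

private theorem Q6_v (T : ℕ) (v : ℤ) (h : v ^ 4 ≤ 65536 * T) :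
    |v| ≤ (⌊16 * (T : ℝ) ^ (1 / 4 : ℝ)⌋₊ : ℤ) := by
  have hT0 : (0 : ℝ) ≤ T := Nat.cast_nonneg T
  have h1 : (|(v : ℝ)|) ≤ 16 * (T : ℝ) ^ (1 / 4 : ℝ) := by
    have h2 : (|(v : ℝ)|) ^ 4 ≤ (16 * (T : ℝ) ^ (1 / 4 : ℝ)) ^ 4 := by
      rw [mul_pow, ← Real.rpow_natCast ((T : ℝ) ^ (1 / 4 : ℝ)) 4, ← Real.rpow_mul hT0]
      norm_num
      rw [show (|(v : ℝ)|) ^ 4 = (v : ℝ) ^ 4 from by
        rw [show (4 : ℕ) = 2 * 2 from rfl, pow_mul, sq_abs, ← pow_mul]]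
      exact_mod_cast h
    exact le_of_pow_le_pow_left₀ (by norm_num) (by positivity) h2
  have h3 : ((v.natAbs : ℕ) : ℝ) ≤ 16 * (T : ℝ) ^ (1 / 4 : ℝ) := by
    rw [Nat.cast_natAbs, Int.cast_abs]; exact h1
  have h4 := Nat.le_floor h3
  rw [Int.abs_eq_natAbs]
  exact_mod_cast h4

private theorem Q6_a (T : ℕ) (a : ℤ) (h : a ^ 2 ≤ 16 * T) :
    |a| ≤ (⌊4 * (T : ℝ) ^ (1 / 2 : ℝ)⌋₊ : ℤ) := by
  have hT0 : (0 : ℝ) ≤ T := Nat.cast_nonneg T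
  have h1 : (|(a : ℝ)|) ≤ 4 * (T : ℝ) ^ (1 / 2 : ℝ) := by
    have h2 : (|(a : ℝ)|) ^ 2 ≤ (4 * (T : ℝ) ^ (1 / 2 : ℝ)) ^ 2 := by
      rw [mul_pow, ← Real.rpow_natCast ((T : ℝ) ^ (1 / 2 : ℝ)) 2, ← Real.rpow_mul hT0, sq_abs]
      norm_num
      exact_mod_cast h
    exact le_of_pow_le_pow_left₀ (by norm_num) (by positivity) h2
  have h3 : ((a.natAbs : ℕ) : ℝ) ≤ 4 * (T : ℝ) ^ (1 / 2 : ℝ) := by
    rw [Nat.cast_natAbs, Int.cast_abs]; exact h1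
  have h4 := Nat.le_floor h3
  rw [Int.abs_eq_natAbs]
  exact_mod_cast h4

theorem Q6 (T : ℕ) (hT : 1 ≤ T) :
    (QS T).Finite ∧ ((QS T).ncard : ℝ) ≤ 20000 * (T : ℝ) * (1 + Real.log T) := by
  classical
  set V : ℕ := ⌊16 * (T : ℝ) ^ (1 / 4 : ℝ)⌋₊ with hV
  set Y : ℕ := ⌊4 * (T : ℝ) ^ (1 / 2 : ℝ)⌋₊ with hY
  have hT1 : (1 : ℝ) ≤ T := by exact_mod_cast hT
  have hV1 : 1 ≤ V := by
    rw [hV]; apply Nat.le_floor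
    have : (1 : ℝ) ≤ (T : ℝ) ^ (1 / 4 : ℝ) := Real.one_le_rpow hT1 (by norm_num)
    push_cast; linarith
  have hY1 : 1 ≤ Y := by
    rw [hY]; apply Nat.le_floor
    have : (1 : ℝ) ≤ (T : ℝ) ^ (1 / 2 : ℝ) := Real.one_le_rpow hT1 (by norm_num)
    push_cast; linarith
  have hV2 : (V : ℝ) ≤ 16 * (T : ℝ) ^ (1 / 4 : ℝ) := Nat.floor_le (by positivity)
  have hY2 : (Y : ℝ) ≤ 4 * (T : ℝ) ^ (1 / 2 : ℝ) := Nat.floor_le (by positivity)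
  let P : Finset (ℤ × ℤ) :=
    ((Finset.Icc (-(V : ℤ)) (V : ℤ)).erase 0) ×ˢ ((Finset.Icc (-(Y : ℤ)) (Y : ℤ)).erase 0)
  let G : ℤ × ℤ → Set (ℤ × ℤ × ℤ) := fun p => (fun u : ℤ => (u, p.1, p.2)) '' Q6_F T p
  have hsub : QS T ⊆ ⋃ p ∈ P, G p := by
    rintro ⟨u, v, a⟩ ⟨h1, h2, h3, h4, h5, h6, h7⟩
    simp only at h1 h2 h3 h4 h5 h6 h7
    have hv := Q6_v T v h5
    have ha := Q6_a T a h6
    rw [abs_le] at hv ha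
    simp only [Set.mem_iUnion]
    refine ⟨(v, a), ?_, ?_⟩
    · simp only [P, Finset.mem_product, Finset.mem_erase, Finset.mem_Icc]
      exact ⟨⟨h1, hv⟩, ⟨h2, ha⟩⟩
    · refine ⟨u, ⟨?_, ?_, ?_⟩, rfl⟩
      · simpa only [Int.natCast_natAbs, sq_abs] using h4
      · simpa only [Int.natCast_natAbs, sq_abs] using h3
      · exact (Q6_prm u v a).1 h7
  have hne : ∀ p ∈ P, p.1 ≠ 0 ∧ p.2 ≠ 0 := by
    intro p hp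
    simp only [P, Finset.mem_product, Finset.mem_erase, Finset.mem_Icc] at hp
    exact ⟨hp.1.1, hp.2.1⟩
  have hfin : (⋃ p ∈ P, G p).Finite :=
    P.finite_toSet.biUnion fun p hp =>
      ((Q6_F_le T hT p (hne p hp).1 (hne p hp).2).1.image _)
  refine ⟨hfin.subset hsub, ?_⟩
  have hlog : 0 ≤ Real.log T := Real.log_nonneg hT1
  calc ((QS T).ncard : ℝ) ≤ ((⋃ p ∈ P, G p).ncard : ℝ) := by
        exact_mod_cast Set.ncard_le_ncard hsub hfin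
    _ ≤ ((∑ p ∈ P, (G p).ncard : ℕ) : ℝ) := by
        exact_mod_cast Finset.set_ncard_biUnion_le P G
    _ = ∑ p ∈ P, ((G p).ncard : ℝ) := by push_cast; rfl
    _ ≤ ∑ p ∈ P, Q6_B T p.1.natAbs p.2.natAbs := by
        refine Finset.sum_le_sum fun p hp => ?_
        obtain ⟨hf, hle⟩ := Q6_F_le T hT p (hne p hp).1 (hne p hp).2
        refine le_trans ?_ hle
        exact_mod_cast Set.ncard_image_le hf
    _ = ∑ v ∈ (Finset.Icc (-(V : ℤ)) (V : ℤ)).erase 0,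
          ∑ a ∈ (Finset.Icc (-(Y : ℤ)) (Y : ℤ)).erase 0, Q6_B T v.natAbs a.natAbs := by
        rw [Finset.sum_product]
    _ = ∑ v ∈ (Finset.Icc (-(V : ℤ)) (V : ℤ)).erase 0,
          (fun n : ℕ => 2 * ∑ a ∈ Finset.Icc 1 Y, Q6_B T n a) v.natAbs := by
        refine Finset.sum_congr rfl fun v _ => ?_
        exact QT2_b Y (fun a => Q6_B T v.natAbs a)
    _ = 2 * ∑ n ∈ Finset.Icc 1 V, (2 * ∑ a ∈ Finset.Icc 1 Y, Q6_B T n a) :=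
        QT2_b V (fun n : ℕ => 2 * ∑ a ∈ Finset.Icc 1 Y, Q6_B T n a)
    _ = 4 * ∑ n ∈ Finset.Icc 1 V, ∑ a ∈ Finset.Icc 1 Y, Q6_B T n a := by
        rw [← Finset.mul_sum]; ring
    _ ≤ 4 * (5000 * (T : ℝ) * (1 + Real.log T)) := by
        have := Q6a T V Y hT hV1 hY1 hV2 hY2
        unfold Q6_B
        linarith
    _ = 20000 * (T : ℝ) * (1 + Real.log T) := by ring

end RC91
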