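import Pool.Agent.LibRC91.QP
import Pool.Agent.LibRC91.Q0

/-!
# [RC91 QC] primitive square roots of `4 a^3` modulo `v^2` in an interval
PLAN: call the set `F`. Finite: subset of the integers in `[⌈X⌉, ⌊Y⌋]`. Empty: clear. Else fix `u1 ∈ F`.
For `u ∈ F` let `D u = v.primeFactors.filter (fun p => ((p^(2 * v.factorization p) : ℕ) : ℤ) ∣ 4 * (u - u1))`.
If `u, u' ∈ F`, `D u = D u'`, then `((v^2 : ℕ) : ℤ) ∣ 4 * (u - u')`: by `Nat.dvd_iff_prime_pow_dvd_dvd` (or
`Nat.factorization_prod_pow_eq_self` and coprime powers) it is enough to have `p^(2 * v.factorization p) ∣ 4 (u - u')`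
for `p ∣ v`: if `p ∈ D u`, subtract; if not, QP gives `∣ 4(u + u1)` and `∣ 4(u' + u1)`, subtract.
`F = ⋃_{E ∈ v.primeFactors.powerset} {u ∈ F | D u = E}`, each piece by Q0 with `M = v^2`, and the number of `E` is
`2 ^ v.primeFactors.card` (`Set.ncard` of a finite union ≤ sum: `Finset.set_ncard_biUnion_le` or go through
`Set.Finite.toFinset` and `Finset.card_eq_sum_card_fiberwise`).
-/
set_option autoImplicit false
namespace RC91

/-- divisibility by a square, prime by prime -/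
private theorem QC_dvd (v : ℕ) (hv : 0 < v) (n : ℤ)
    (h : ∀ p : ℕ, p.Prime → ((p ^ (2 * v.factorization p) : ℕ) : ℤ) ∣ n) :
    ((v ^ 2 : ℕ) : ℤ) ∣ n := by
  rw [Int.natCast_dvd]
  rw [Nat.dvd_iff_prime_pow_dvd_dvd]
  intro p k hp hk
  have hv2 : v ^ 2 ≠ 0 := pow_ne_zero _ hv.ne'
  have h1 : k ≤ (v ^ 2).factorization p := (hp.pow_dvd_iff_le_factorization hv2).mp hk
  have h2 : (v ^ 2).factorization p = 2 * v.factorization p := by
    rw [Nat.factorization_pow]; simp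
  rw [h2] at h1
  have h3 := h p hp
  rw [Int.natCast_dvd] at h3
  exact (pow_dvd_pow p h1).trans h3

theorem QC (v : ℕ) (hv : 0 < v) (a : ℤ) (X Y : ℝ) (hXY : X ≤ Y) :
    {u : ℤ | X ≤ (u : ℝ) ∧ (u : ℝ) ≤ Y ∧ (v : ℤ) ^ 2 ∣ u ^ 2 - 4 * a ^ 3 ∧ Prm u v a}.Finite ∧
    ({u : ℤ | X ≤ (u : ℝ) ∧ (u : ℝ) ≤ Y ∧ (v : ℤ) ^ 2 ∣ u ^ 2 - 4 * a ^ 3 ∧
        Prm u v a}.ncard : ℝ) ≤
      (2 : ℝ) ^ v.primeFactors.card * (4 * (Y - X) / (v : ℝ) ^ 2 + 1) := by
  classical
  set F : Set ℤ := {u : ℤ | X ≤ (u : ℝ) ∧ (u : ℝ) ≤ Y ∧ (v : ℤ) ^ 2 ∣ u ^ 2 - 4 * a ^ 3 ∧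
    Prm u v a} with hF
  have hfin : F.Finite := by
    apply (Set.finite_Icc (⌈X⌉ : ℤ) (⌊Y⌋ : ℤ)).subset
    intro u hu
    exact ⟨Int.ceil_le.mpr hu.1, Int.le_floor.mpr hu.2.1⟩
  refine ⟨hfin, ?_⟩
  have hvR : (0 : ℝ) < (v : ℝ) := by exact_mod_cast hv
  have hB : (0 : ℝ) ≤ 4 * (Y - X) / (v : ℝ) ^ 2 + 1 := by
    have : 0 ≤ Y - X := by linarith
    positivity
  rcases Set.eq_empty_or_nonempty F with he | ⟨u1, hu1⟩
  · rw [he, Set.ncard_empty]
    push_cast
    positivity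
  set D : ℤ → Finset ℕ := fun u =>
    v.primeFactors.filter (fun p => ((p ^ (2 * v.factorization p) : ℕ) : ℤ) ∣ 4 * (u - u1)) with hD
  -- congruence of the elements of one piece
  have hcong : ∀ u ∈ F, ∀ u' ∈ F, D u = D u' → ((v ^ 2 : ℕ) : ℤ) ∣ 4 * (u - u') := by
    intro u hu u' hu' hDD
    apply QC_dvd v hv
    intro p hp
    by_cases hpv : p ∈ v.primeFactors
    · by_cases hpD : ((p ^ (2 * v.factorization p) : ℕ) : ℤ) ∣ 4 * (u - u1)
      · have h1 : p ∈ D u := Finset.mem_filter.mpr ⟨hpv, hpD⟩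
        rw [hDD] at h1
        have h2 := (Finset.mem_filter.mp h1).2
        have h3 := dvd_sub hpD h2
        have h4 : 4 * (u - u1) - 4 * (u' - u1) = 4 * (u - u') := by ring
        rwa [h4] at h3
      · have hpD' : ¬ ((p ^ (2 * v.factorization p) : ℕ) : ℤ) ∣ 4 * (u' - u1) := by
          intro h2
          have h1 : p ∈ D u' := Finset.mem_filter.mpr ⟨hpv, h2⟩
          rw [← hDD] at h1
          exact hpD (Finset.mem_filter.mp h1).2
        have h3 := (QP v hv u u1 a hu.2.2.1 hu1.2.2.1 hu.2.2.2 hu1.2.2.2 p hp).resolve_left hpD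
        have h4 := (QP v hv u' u1 a hu'.2.2.1 hu1.2.2.1 hu'.2.2.2 hu1.2.2.2 p hp).resolve_left hpD'
        have h5 := dvd_sub h3 h4
        have h6 : 4 * (u + u1) - 4 * (u' + u1) = 4 * (u - u') := by ring
        rwa [h6] at h5
    · have h1 : v.factorization p = 0 := by
        rw [← Nat.support_factorization] at hpv
        exact Finsupp.notMem_support_iff.mp hpv
      rw [h1]; simp
  rw [Set.ncard_eq_toFinset_card F hfin]
  have hmaps : ∀ u ∈ hfin.toFinset, D u ∈ v.primeFactors.powerset := by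
    intro u _
    rw [Finset.mem_powerset]
    exact Finset.filter_subset _ _
  rw [Finset.card_eq_sum_card_fiberwise hmaps]
  push_cast
  calc ∑ E ∈ v.primeFactors.powerset, (((hfin.toFinset).filter (fun u => D u = E)).card : ℝ)
      ≤ ∑ _E ∈ v.primeFactors.powerset, (4 * (Y - X) / (v : ℝ) ^ 2 + 1) := by
        apply Finset.sum_le_sum
        intro E _
        have h0 := (Q0 (v ^ 2) (pow_pos hv 2) X Y hXY
          (((hfin.toFinset).filter (fun u => D u = E) : Finset ℤ) : Set ℤ) ?_ ?_).2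
        · rw [Set.ncard_coe_finset] at h0
          push_cast at h0
          exact h0
        · intro u hu
          have h1 : u ∈ F := by
            have := (Finset.mem_filter.mp (Finset.mem_coe.mp hu)).1
            exact hfin.mem_toFinset.mp this
          exact ⟨h1.1, h1.2.1⟩
        · intro u hu u' hu'
          obtain ⟨h1, h2⟩ := Finset.mem_filter.mp (Finset.mem_coe.mp hu)
          obtain ⟨h3, h4⟩ := Finset.mem_filter.mp (Finset.mem_coe.mp hu')
          exact hcong u (hfin.mem_toFinset.mp h1) u' (hfin.mem_toFinset.mp h3) (h2.trans h4.symm)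
    _ = (2 : ℝ) ^ v.primeFactors.card * (4 * (Y - X) / (v : ℝ) ^ 2 + 1) := by
        rw [Finset.sum_const, Finset.card_powerset, nsmul_eq_mul]
        push_cast
        ring

end RC91
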