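import Pool.Agent.LibRC91.Defs

/-!
# [RC91 QM] moments of the divisor function, cheap bounds
PLAN: `QM_mul`: `(d*e).divisors = d.divisors * e.divisors` (`Nat.divisors_mul`), `Finset.card_mul_le`.
`QM_gen`: `τ(v) = ∑_{(d,e) ∈ divisorsAntidiagonal v} 1` (`Nat.card_divisorsAntidiagonal`... or
`Nat.sum_div_divisors`), `f v = f (d e) ≤ f d f e`; the pairs `(d, e)` with `d e = v ≤ N` for all `v` together are
distinct pairs of `Icc 1 N ×ˢ Icc 1 N`, and `f ≥ 0`: so the sum is `≤ ∑_d ∑_e f d f e`.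
`QM_one`: induction on `k` with `f v = τ(v)^k / v` (`QM_mul`); `k = 0`: `harmonic_le_one_add_log`.
`QM_two`: the same with `f v = τ(v)^k / v^2`; `k = 0`: `∑_{v ≤ N} 1/v^2 ≤ 2` (induction: `≤ 2 - 1/N` for `N ≥ 1`).
-/
set_option autoImplicit false
namespace RC91

theorem QM_mul (d e : ℕ) : (d * e).divisors.card ≤ d.divisors.card * e.divisors.card := by
  rw [Nat.divisors_mul]
  exact Finset.card_mul_le

theorem QM_gen (f : ℕ → ℝ) (h0 : ∀ n, 0 ≤ f n)
    (hf : ∀ d e : ℕ, 0 < d → 0 < e → f (d * e) ≤ f d * f e) (N : ℕ) :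
    ∑ v ∈ Finset.Icc 1 N, f v * (v.divisors.card : ℝ) ≤ (∑ v ∈ Finset.Icc 1 N, f v) ^ 2 := by
  classical
  have h1 : ∀ v ∈ Finset.Icc 1 N, f v * (v.divisors.card : ℝ) ≤
      ∑ x ∈ v.divisorsAntidiagonal, f x.1 * f x.2 := by
    intro v hv
    have hcard : v.divisorsAntidiagonal.card = v.divisors.card := by
      rw [← Nat.map_div_right_divisors, Finset.card_map]
    rw [← hcard, mul_comm, ← nsmul_eq_mul]
    refine Finset.card_nsmul_le_sum _ _ _ fun x hx => ?_
    obtain ⟨hx1, hx2⟩ := Nat.mem_divisorsAntidiagonal.1 hx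
    rw [← hx1]
    refine hf _ _ (Nat.pos_of_ne_zero ?_) (Nat.pos_of_ne_zero ?_)
    · rintro h
      rw [h, zero_mul] at hx1
      exact hx2 hx1.symm
    · rintro h
      rw [h, mul_zero] at hx1
      exact hx2 hx1.symm
  have hdis : ∀ a ∈ Finset.Icc 1 N, ∀ b ∈ Finset.Icc 1 N, a ≠ b →
      Disjoint a.divisorsAntidiagonal b.divisorsAntidiagonal := by
    intro a _ b _ hab
    rw [Finset.disjoint_left]
    intro x hxa hxb
    exact hab ((Nat.mem_divisorsAntidiagonal.1 hxa).1.symm.trans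
      (Nat.mem_divisorsAntidiagonal.1 hxb).1)
  calc ∑ v ∈ Finset.Icc 1 N, f v * (v.divisors.card : ℝ)
      ≤ ∑ v ∈ Finset.Icc 1 N, ∑ x ∈ v.divisorsAntidiagonal, f x.1 * f x.2 :=
        Finset.sum_le_sum h1
    _ = ∑ x ∈ (Finset.Icc 1 N).biUnion Nat.divisorsAntidiagonal, f x.1 * f x.2 :=
        (Finset.sum_biUnion hdis).symm
    _ ≤ ∑ x ∈ Finset.Icc 1 N ×ˢ Finset.Icc 1 N, f x.1 * f x.2 := by
        refine Finset.sum_le_sum_of_subset_of_nonneg ?_ fun x _ _ => mul_nonneg (h0 _) (h0 _)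
        intro x hx
        obtain ⟨v, hv, hxv⟩ := Finset.mem_biUnion.1 hx
        obtain ⟨hx1, hx2⟩ := Nat.mem_divisorsAntidiagonal.1 hxv
        obtain ⟨hv1, hv2⟩ := Finset.mem_Icc.1 hv
        have hp : 0 < x.1 * x.2 := by omega
        have hp1 : 0 < x.1 := Nat.pos_of_mul_pos_right hp
        have hp2 : 0 < x.2 := Nat.pos_of_mul_pos_left hp
        refine Finset.mem_product.2 ⟨Finset.mem_Icc.2 ⟨hp1, ?_⟩, Finset.mem_Icc.2 ⟨hp2, ?_⟩⟩
        · exact (Nat.le_mul_of_pos_right _ hp2).trans (hx1.le.trans hv2)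
        · exact (Nat.le_mul_of_pos_left _ hp1).trans (hx1.le.trans hv2)
    _ = (∑ v ∈ Finset.Icc 1 N, f v) ^ 2 := by
        rw [sq, Finset.sum_mul_sum, Finset.sum_product]

theorem QM_one (k N : ℕ) (hN : 1 ≤ N) :
    ∑ v ∈ Finset.Icc 1 N, ((v.divisors.card : ℝ)) ^ k / (v : ℝ) ≤ (1 + Real.log N) ^ (2 ^ k) := by
  induction k with
  | zero =>
    have h1 := harmonic_le_one_add_log N
    rw [harmonic_eq_sum_Icc] at h1
    push_cast at h1
    simpa using h1
  | succ k ih =>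
    have h1 := QM_gen (fun v => ((v.divisors.card : ℝ)) ^ k / (v : ℝ)) (fun n => by positivity)
      (fun d e hd he => by
        have hd' : (0 : ℝ) < d := by exact_mod_cast hd
        have he' : (0 : ℝ) < e := by exact_mod_cast he
        have h2 : (((d * e).divisors.card : ℕ) : ℝ) ≤ (d.divisors.card : ℝ) * e.divisors.card := by
          exact_mod_cast QM_mul d e
        calc (((d * e).divisors.card : ℕ) : ℝ) ^ k / ((d * e : ℕ) : ℝ)
            ≤ ((d.divisors.card : ℝ) * e.divisors.card) ^ k / ((d * e : ℕ) : ℝ) := by gcongr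
          _ = (d.divisors.card : ℝ) ^ k / d * ((e.divisors.card : ℝ) ^ k / e) := by
            push_cast
            rw [mul_pow]
            field_simp) N
    have hpos : (0 : ℝ) ≤ ∑ v ∈ Finset.Icc 1 N, ((v.divisors.card : ℝ)) ^ k / (v : ℝ) :=
      Finset.sum_nonneg fun v _ => by positivity
    calc ∑ v ∈ Finset.Icc 1 N, ((v.divisors.card : ℝ)) ^ (k + 1) / (v : ℝ)
        = ∑ v ∈ Finset.Icc 1 N, ((v.divisors.card : ℝ)) ^ k / (v : ℝ) * (v.divisors.card : ℝ) := by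
          refine Finset.sum_congr rfl fun v _ => ?_
          ring
      _ ≤ (∑ v ∈ Finset.Icc 1 N, ((v.divisors.card : ℝ)) ^ k / (v : ℝ)) ^ 2 := h1
      _ ≤ ((1 + Real.log N) ^ (2 ^ k)) ^ 2 := by gcongr
      _ = (1 + Real.log N) ^ (2 ^ (k + 1)) := by
          rw [← pow_mul, pow_succ]

theorem QM_two_aux (N : ℕ) (hN : 1 ≤ N) :
    ∑ v ∈ Finset.Icc 1 N, (1 : ℝ) / (v : ℝ) ^ 2 ≤ 2 - 1 / N := by
  induction N, hN using Nat.le_induction with
  | base => norm_num
  | succ n hn ih =>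
    rw [Finset.sum_Icc_succ_top (by omega)]
    have hn' : (0 : ℝ) < n := by exact_mod_cast hn
    have h1 : (1 : ℝ) / ((n + 1 : ℕ) : ℝ) ^ 2 ≤ 1 / n - 1 / ((n + 1 : ℕ) : ℝ) := by
      push_cast
      rw [div_sub_div _ _ hn'.ne' (by positivity), div_le_div_iff₀ (by positivity) (by positivity)]
      nlinarith
    linarith

theorem QM_two (k N : ℕ) :
    ∑ v ∈ Finset.Icc 1 N, ((v.divisors.card : ℝ)) ^ k / (v : ℝ) ^ 2 ≤ 2 ^ (2 ^ k) := by
  induction k with
  | zero =>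
    rcases Nat.eq_zero_or_pos N with rfl | hN
    · simp
    · have h1 := QM_two_aux N hN
      have h2 : (0 : ℝ) ≤ 1 / N := by positivity
      simp only [pow_zero, pow_one]
      linarith
  | succ k ih =>
    have h1 := QM_gen (fun v => ((v.divisors.card : ℝ)) ^ k / (v : ℝ) ^ 2) (fun n => by positivity)
      (fun d e hd he => by
        have hd' : (0 : ℝ) < d := by exact_mod_cast hd
        have he' : (0 : ℝ) < e := by exact_mod_cast he
        have h2 : (((d * e).divisors.card : ℕ) : ℝ) ≤ (d.divisors.card : ℝ) * e.divisors.card := by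
          exact_mod_cast QM_mul d e
        calc (((d * e).divisors.card : ℕ) : ℝ) ^ k / ((d * e : ℕ) : ℝ) ^ 2
            ≤ ((d.divisors.card : ℝ) * e.divisors.card) ^ k / ((d * e : ℕ) : ℝ) ^ 2 := by gcongr
          _ = (d.divisors.card : ℝ) ^ k / (d : ℝ) ^ 2 * ((e.divisors.card : ℝ) ^ k / (e : ℝ) ^ 2) := by
            push_cast
            rw [mul_pow, mul_pow]
            field_simp) N
    have hpos : (0 : ℝ) ≤ ∑ v ∈ Finset.Icc 1 N, ((v.divisors.card : ℝ)) ^ k / (v : ℝ) ^ 2 :=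
      Finset.sum_nonneg fun v _ => by positivity
    calc ∑ v ∈ Finset.Icc 1 N, ((v.divisors.card : ℝ)) ^ (k + 1) / (v : ℝ) ^ 2
        = ∑ v ∈ Finset.Icc 1 N, ((v.divisors.card : ℝ)) ^ k / (v : ℝ) ^ 2 *
            (v.divisors.card : ℝ) := by
          refine Finset.sum_congr rfl fun v _ => ?_
          ring
      _ ≤ (∑ v ∈ Finset.Icc 1 N, ((v.divisors.card : ℝ)) ^ k / (v : ℝ) ^ 2) ^ 2 := h1
      _ ≤ ((2 : ℝ) ^ (2 ^ k)) ^ 2 := by gcongr
      _ = 2 ^ (2 ^ (k + 1)) := by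
          rw [← pow_mul, pow_succ]

end RC91
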