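import Pool.Agent.LibRC91.Defs

/-!
# [RC91 QP] the prime lemma: two primitive square roots of `4a^3` modulo `v^2` agree up to sign at each prime
PLAN: `i = v.factorization p`; `i = 0`: trivial (`p ^ 0 = 1`). So `p ∣ v`; put `w = v^2`. Case split.
(A) `p` odd, `p ∤ a`: `p ∤ u` (else `p ∣ 4a^3`), `p^(2i) ∣ v^2 ∣ u^2 - u1^2 = (u - u1)(u + u1)`; `p` does not divide
both factors (else `p ∣ 2u`), so `p^(2i)` divides one of them (`IsCoprime`/`Prime.pow_dvd_of_dvd_mul_left`,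
`Int.Prime...`, `(Nat.prime_iff_prime_int.1 hp).pow_dvd_of_dvd_mul_left`).
(B) `p` odd, `p ∣ a`: Prm gives `¬ p^2 ∣ v` so `i = 1`, and `p^2 ∣ u`, `p^2 ∣ u1`: left alternative.
(C) `p = 2`, `a` odd: `i = 1`: `2^2 ∣ 4(u - u1)`. `i ≥ 2`: `4 ∣ u^2` so `u = 2w`, `u1 = 2w1`, and
`2^(2i-2) ∣ w^2 - a^3`, `2^(2i-2) ∣ w1^2 - a^3` with `2i-2 ≥ 2`: `w`, `w1` odd; `2^(2i-2) ∣ (w - w1)(w + w1)`.
`w - w1`, `w + w1` are even with sum `2w ≡ 2 mod 4`: exactly one is divisible by `4`, the other is `2 * odd`; so the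
first is divisible by `2^(2i-3)`; `4(u ∓ u1) = 8 (w ∓ w1)` is divisible by `2^(2i)`.
(D) `p = 2`, `a` even: Prm gives `i ≤ 2`. `i = 1` trivial; `i = 2`: `16 ∣ u^2 - 4a^3`, `16 ∣ 4 a^3`, so `16 ∣ u^2`,
`4 ∣ u`; likewise `4 ∣ u1`; `16 ∣ 4(u - u1)`.
-/
set_option autoImplicit false
namespace RC91

/-- the prime 2, `a` odd, exponent at least two -/
private theorem QP_two (j : ℕ) (u u1 a : ℤ) (h : (2 : ℤ) ^ (2 * (j + 2)) ∣ u ^ 2 - 4 * a ^ 3)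
    (h1 : (2 : ℤ) ^ (2 * (j + 2)) ∣ u1 ^ 2 - 4 * a ^ 3) (ha : ¬ (2 : ℤ) ∣ a) :
    (2 : ℤ) ^ (2 * (j + 2)) ∣ 4 * (u - u1) ∨ (2 : ℤ) ^ (2 * (j + 2)) ∣ 4 * (u + u1) := by
  have h2p : Prime (2 : ℤ) := Int.prime_two
  have hpow : (2 : ℤ) ^ (2 * (j + 2)) = 4 * (4 * 2 ^ (2 * j)) := by ring
  -- `u` is even
  have hev : ∀ z : ℤ, (2 : ℤ) ^ (2 * (j + 2)) ∣ z ^ 2 - 4 * a ^ 3 → ∃ w : ℤ, z = 2 * w ∧
      4 * 2 ^ (2 * j) ∣ w ^ 2 - a ^ 3 ∧ ¬ (2 : ℤ) ∣ w := by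
    intro z hz
    have hz2 : (2 : ℤ) ∣ z ^ 2 - 4 * a ^ 3 :=
      (Dvd.intro _ (by rw [hpow]; ring : (2 : ℤ) * (2 * (4 * 2 ^ (2 * j))) =
        (2 : ℤ) ^ (2 * (j + 2)))).trans hz
    have hz3 : (2 : ℤ) ∣ z := by
      have h4 : (2 : ℤ) ∣ 4 * a ^ 3 := ⟨2 * a ^ 3, by ring⟩
      have h5 : (2 : ℤ) ∣ z ^ 2 := by
        have := dvd_add hz2 h4
        simpa using this
      exact h2p.dvd_of_dvd_pow h5
    obtain ⟨w, hw⟩ := hz3
    have hw2 : (4 : ℤ) * 2 ^ (2 * j) ∣ w ^ 2 - a ^ 3 := by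
      rw [hpow, hw] at hz
      have h6 : (2 * w) ^ 2 - 4 * a ^ 3 = 4 * (w ^ 2 - a ^ 3) := by ring
      rw [h6] at hz
      exact Int.dvd_of_mul_dvd_mul_left (by norm_num) hz
    refine ⟨w, hw, hw2, ?_⟩
    intro h7
    have h8 : (2 : ℤ) ∣ w ^ 2 - a ^ 3 := (Dvd.intro _ (by ring : (2 : ℤ) * (2 * 2 ^ (2 * j)) =
      4 * 2 ^ (2 * j))).trans hw2
    have h9 : (2 : ℤ) ∣ w ^ 2 := dvd_pow h7 (by norm_num)
    have h10 : (2 : ℤ) ∣ a ^ 3 := by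
      have := dvd_sub h9 h8
      simpa using this
    exact ha (h2p.dvd_of_dvd_pow h10)
  obtain ⟨w, rfl, hw, hwo⟩ := hev u h
  obtain ⟨w1, rfl, hw1, hw1o⟩ := hev u1 h1
  have hs : ∃ s : ℤ, w - w1 = 2 * s := ⟨(w - w1) / 2, by omega⟩
  have ht : ∃ t : ℤ, w + w1 = 2 * t := ⟨(w + w1) / 2, by omega⟩
  obtain ⟨s, hs⟩ := hs
  obtain ⟨t, ht⟩ := ht
  have hst : (4 : ℤ) * 2 ^ (2 * j) ∣ 4 * (s * t) := by
    have h3 := dvd_sub hw hw1
    have h4 : (w ^ 2 - a ^ 3) - (w1 ^ 2 - a ^ 3) = 4 * (s * t) := by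
      have h5 : (w ^ 2 - a ^ 3) - (w1 ^ 2 - a ^ 3) = (w - w1) * (w + w1) := by ring
      rw [h5, hs, ht]; ring
    rwa [h4] at h3
  have hst2 : (2 : ℤ) ^ (2 * j) ∣ s * t := Int.dvd_of_mul_dvd_mul_left (by norm_num) hst
  by_cases hso : (2 : ℤ) ∣ s
  · have hto : ¬ (2 : ℤ) ∣ t := by omega
    left
    have h6 : (2 : ℤ) ^ (2 * j) ∣ s := by
      rw [mul_comm s t] at hst2
      exact h2p.pow_dvd_of_dvd_mul_left _ hto hst2
    obtain ⟨r, hr⟩ := h6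
    refine ⟨r, ?_⟩
    have h7 : (4 : ℤ) * (2 * w - 2 * w1) = 8 * (w - w1) := by ring
    rw [h7, hs, hr, hpow]; ring
  · right
    have h6 : (2 : ℤ) ^ (2 * j) ∣ t := h2p.pow_dvd_of_dvd_mul_left _ hso hst2
    obtain ⟨r, hr⟩ := h6
    refine ⟨r, ?_⟩
    have h7 : (4 : ℤ) * (2 * w + 2 * w1) = 8 * (w + w1) := by ring
    rw [h7, ht, hr, hpow]; ring

theorem QP (v : ℕ) (hv : 0 < v) (u u1 a : ℤ) (h : (v : ℤ) ^ 2 ∣ u ^ 2 - 4 * a ^ 3)
    (h1 : (v : ℤ) ^ 2 ∣ u1 ^ 2 - 4 * a ^ 3) (hP : Prm u v a) (hP1 : Prm u1 v a)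
    (p : ℕ) (hp : p.Prime) :
    ((p ^ (2 * v.factorization p) : ℕ) : ℤ) ∣ 4 * (u - u1) ∨
    ((p ^ (2 * v.factorization p) : ℕ) : ℤ) ∣ 4 * (u + u1) := by
  have hpZ : Prime (p : ℤ) := Nat.prime_iff_prime_int.mp hp
  obtain ⟨i, hi⟩ : ∃ i, i = v.factorization p := ⟨_, rfl⟩
  rw [← hi]
  have hpiv : (p : ℤ) ^ i ∣ (v : ℤ) := by
    have h2 : p ^ i ∣ v := by rw [hi]; exact Nat.ordProj_dvd v p
    exact_mod_cast h2
  have hpiv2 : (p : ℤ) ^ (2 * i) ∣ (v : ℤ) ^ 2 := by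
    have h3 := pow_dvd_pow_of_dvd hpiv 2
    rwa [← pow_mul, mul_comm i 2] at h3
  have hu := hpiv2.trans h
  have hu1 := hpiv2.trans h1
  push_cast
  rcases Nat.eq_zero_or_pos i with hi0 | hipos
  · left
    rw [hi0]; simp
  have hpv : (p : ℤ) ∣ (v : ℤ) := (dvd_pow_self _ hipos.ne').trans hpiv
  by_cases hp2 : p = 2
  · subst hp2
    push_cast at hu hu1 hpiv ⊢
    rcases Nat.lt_or_ge i 2 with hi2 | hi2
    · have hi1 : i = 1 := by omega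
      left
      rw [hi1]
      exact ⟨u - u1, by norm_num⟩
    · by_cases ha : (2 : ℤ) ∣ a
      · have h8 := hP.2 ha
        have hi3 : i = 2 := by
          by_contra hne
          have h9 : 3 ≤ i := by omega
          apply h8
          have h10 : (2 : ℤ) ^ 3 ∣ (2 : ℤ) ^ i := pow_dvd_pow _ h9
          have h11 := h10.trans hpiv
          norm_num at h11
          exact h11
        left
        rw [hi3] at hu hu1 ⊢
        have hev : ∀ z : ℤ, (2 : ℤ) ^ (2 * 2) ∣ z ^ 2 - 4 * a ^ 3 → (4 : ℤ) ∣ z := by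
          intro z hz
          obtain ⟨b, hb⟩ := ha
          have h12 : (2 : ℤ) ^ (2 * 2) ∣ 4 * a ^ 3 := ⟨2 * b ^ 3, by rw [hb]; ring⟩
          have h13 : (4 : ℤ) ^ 2 ∣ z ^ 2 := by
            have h14 := dvd_add hz h12
            have h15 : z ^ 2 - 4 * a ^ 3 + 4 * a ^ 3 = z ^ 2 := by ring
            rw [h15] at h14
            have h16 : (2 : ℤ) ^ (2 * 2) = 4 ^ 2 := by norm_num
            rwa [h16] at h14
          exact (Int.pow_dvd_pow_iff (by norm_num)).mp h13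
        obtain ⟨r, hr⟩ := hev u hu
        obtain ⟨r1, hr1⟩ := hev u1 hu1
        exact ⟨r - r1, by rw [hr, hr1]; ring⟩
      · obtain ⟨j, rfl⟩ : ∃ j, i = j + 2 := ⟨i - 2, by omega⟩
        exact QP_two j u u1 a hu hu1 ha
  · by_cases ha : (p : ℤ) ∣ a
    · obtain ⟨hnv, hpu⟩ := hP.1 p hp hp2 ha hpv
      obtain ⟨_, hpu1⟩ := hP1.1 p hp hp2 ha hpv
      have hi1 : i = 1 := by
        by_contra hne
        apply hnv
        have h9 : 2 ≤ i := by omega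
        exact (pow_dvd_pow _ h9).trans hpiv
      left
      rw [hi1]
      have h10 : (p : ℤ) ^ (2 * 1) ∣ u - u1 := by
        rw [mul_one]; exact dvd_sub hpu hpu1
      exact Dvd.dvd.mul_left h10 4
    · have hpn2 : ¬ (p : ℤ) ∣ 2 := by
        intro h2
        have h3 : p ∣ 2 := by exact_mod_cast h2
        exact hp2 ((Nat.prime_dvd_prime_iff_eq hp Nat.prime_two).mp h3)
      have hp4 : ¬ (p : ℤ) ∣ 4 := by
        intro h2
        have h3 : (4 : ℤ) = 2 ^ 2 := by norm_num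
        rw [h3] at h2
        exact hpn2 (hpZ.dvd_of_dvd_pow h2)
      have hpu : ¬ (p : ℤ) ∣ u := by
        intro h2
        have h3 : (p : ℤ) ∣ u ^ 2 := dvd_pow h2 (by norm_num)
        have h4 : (p : ℤ) ∣ u ^ 2 - 4 * a ^ 3 := (dvd_pow_self _ (by omega)).trans hu
        have h5 : (p : ℤ) ∣ 4 * a ^ 3 := by
          have := dvd_sub h3 h4
          simpa using this
        rcases hpZ.dvd_or_dvd h5 with h6 | h6
        · exact hp4 h6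
        · exact ha (hpZ.dvd_of_dvd_pow h6)
      have hprod : (p : ℤ) ^ (2 * i) ∣ (u - u1) * (u + u1) := by
        have h3 := dvd_sub hu hu1
        have h4 : u ^ 2 - 4 * a ^ 3 - (u1 ^ 2 - 4 * a ^ 3) = (u - u1) * (u + u1) := by ring
        rwa [h4] at h3
      by_cases hd : (p : ℤ) ∣ u - u1
      · have hd2 : ¬ (p : ℤ) ∣ u + u1 := by
          intro h5
          have h6 := dvd_add hd h5
          have h7 : u - u1 + (u + u1) = 2 * u := by ring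
          rw [h7] at h6
          rcases hpZ.dvd_or_dvd h6 with h8 | h8
          · exact hpn2 h8
          · exact hpu h8
        left
        rw [mul_comm (u - u1) (u + u1)] at hprod
        exact Dvd.dvd.mul_left (hpZ.pow_dvd_of_dvd_mul_left _ hd2 hprod) 4
      · right
        exact Dvd.dvd.mul_left (hpZ.pow_dvd_of_dvd_mul_left _ hd hprod) 4

end RC91
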