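import Pool.Agent.LibRC91.Defs

/-!
# [RC91 QT1] sums of `2^ω(v)`
PLAN: `2^ω(v) ≤ τ(v)` (the subsets of `primeFactors v` give `2^ω` divisors; or `Nat.card_divisors`:
`τ(v) = ∏ (v_p + 1) ≥ ∏ 2`, `Finset.pow_card_le_prod`).
First: `∑_{v ≤ V} τ(v) = ∑_{d ≤ V} ⌊V/d⌋` (`ArithmeticFunction.sum_Ioc_sigma0_eq_sum_div`,
`ArithmeticFunction.sigma_zero_apply`) `≤ V ∑ 1/d ≤ V (1 + log V)` (`harmonic_le_one_add_log`).
Second: `τ(v) v^(-1/2) = ∑_{(d,e), d e = v} d^(-1/2) e^(-1/2)`, so the sum is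
`∑_{d ≤ V} d^(-1/2) ∑_{e ≤ V/d} e^(-1/2) ≤ ∑_d d^(-1/2) 2 (V/d)^(1/2) = 2 V^(1/2) ∑_d 1/d`
(`ArithmeticFunction.sum_Ioc_mul_eq_sum_sum` with the real valued arithmetic function `n ↦ n^(-1/2)`, `n ≠ 0`,
or `Nat.divisorsAntidiagonal` directly); `∑_{e ≤ n} e^(-1/2) ≤ 2 n^(1/2)` is QT1_a (induction:
`2 √(n+1) - 2 √n = 2/(√(n+1) + √n) ≥ 1/√(n+1)`).
-/
set_option autoImplicit false
namespace RC91

theorem QT1_tau (v : ℕ) (hv : 0 < v) : 2 ^ v.primeFactors.card ≤ v.divisors.card := by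
  rw [Nat.card_divisors hv.ne']
  apply Finset.pow_card_le_prod
  intro p hp
  have h1 := (Nat.prime_of_mem_primeFactors hp).factorization_pos_of_dvd hv.ne'
    (Nat.dvd_of_mem_primeFactors hp)
  omega

private theorem QT1_ex (V : ℕ) (F : ℕ → ℕ → ℝ) :
    ∑ v ∈ Finset.Icc 1 V, ∑ x ∈ v.divisorsAntidiagonal, F x.1 x.2 =
      ∑ d ∈ Finset.Icc 1 V, ∑ e ∈ Finset.Icc 1 (V / d), F d e := by
  set s : Finset (ℕ × ℕ) := ((Finset.Icc 1 V) ×ˢ (Finset.Icc 1 V)).filter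
    (fun x => x.1 * x.2 ≤ V) with hs
  have h1 : ∑ v ∈ Finset.Icc 1 V, ∑ x ∈ v.divisorsAntidiagonal, F x.1 x.2 =
      ∑ x ∈ s, F x.1 x.2 := by
    rw [← Finset.sum_fiberwise_of_maps_to (s := s) (t := Finset.Icc 1 V) (g := fun x => x.1 * x.2)
      (fun x hx => by
        rw [hs, Finset.mem_filter, Finset.mem_product, Finset.mem_Icc, Finset.mem_Icc] at hx
        rw [Finset.mem_Icc]
        exact ⟨Nat.mul_pos hx.1.1.1 hx.1.2.1, hx.2⟩)]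
    apply Finset.sum_congr rfl
    intro v hv
    rw [Finset.mem_Icc] at hv
    apply Finset.sum_congr _ (fun _ _ => rfl)
    ext ⟨a, b⟩
    rw [Nat.mem_divisorsAntidiagonal, Finset.mem_filter, hs, Finset.mem_filter, Finset.mem_product,
      Finset.mem_Icc, Finset.mem_Icc]
    constructor
    · rintro ⟨h1, h2⟩
      have ha : 0 < a := Nat.pos_of_ne_zero (by rintro rfl; simp at h1; omega)
      have hb : 0 < b := Nat.pos_of_ne_zero (by rintro rfl; simp at h1; omega)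
      have h3 : a ≤ a * b := Nat.le_mul_of_pos_right a hb
      have h4 : b ≤ a * b := Nat.le_mul_of_pos_left b ha
      simp only at h1 ⊢
      exact ⟨⟨⟨⟨ha, by omega⟩, ⟨hb, by omega⟩⟩, by omega⟩, h1⟩
    · rintro ⟨-, h2⟩
      exact ⟨h2, by omega⟩
  rw [h1, hs, Finset.sum_filter, Finset.sum_product]
  apply Finset.sum_congr rfl
  intro d hd
  rw [Finset.mem_Icc] at hd
  rw [← Finset.sum_filter]
  apply Finset.sum_congr _ (fun _ _ => rfl)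
  ext e
  rw [Finset.mem_filter, Finset.mem_Icc, Finset.mem_Icc, Nat.le_div_iff_mul_le hd.1]
  simp only
  constructor
  · rintro ⟨h2, h3⟩
    exact ⟨h2.1, by rw [mul_comm]; exact h3⟩
  · rintro ⟨h2, h3⟩
    have h4 : e ≤ e * d := Nat.le_mul_of_pos_right e hd.1
    exact ⟨⟨h2, by omega⟩, by rw [mul_comm]; exact h3⟩

private theorem QT1_harm (V : ℕ) :
    ∑ d ∈ Finset.Icc 1 V, ((d : ℝ))⁻¹ ≤ 1 + Real.log V := by
  have h1 := harmonic_le_one_add_log V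
  rw [harmonic_eq_sum_Icc] at h1
  push_cast at h1
  exact h1

theorem QT1_sum (V : ℕ) (hV : 1 ≤ V) :
    ∑ v ∈ Finset.Icc 1 V, (2 : ℝ) ^ v.primeFactors.card ≤ V * (1 + Real.log V) := by
  have h1 : ∑ v ∈ Finset.Icc 1 V, (2 : ℝ) ^ v.primeFactors.card ≤
      ∑ v ∈ Finset.Icc 1 V, ∑ _x ∈ v.divisorsAntidiagonal, (1 : ℝ) := by
    apply Finset.sum_le_sum
    intro v hv
    rw [Finset.mem_Icc] at hv
    rw [Finset.sum_const, nsmul_eq_mul, mul_one, ← Nat.map_div_right_divisors, Finset.card_map]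
    exact_mod_cast QT1_tau v hv.1
  refine h1.trans ?_
  rw [QT1_ex V (fun _ _ => 1)]
  calc ∑ d ∈ Finset.Icc 1 V, ∑ _e ∈ Finset.Icc 1 (V / d), (1 : ℝ)
      ≤ ∑ d ∈ Finset.Icc 1 V, (V : ℝ) * ((d : ℝ))⁻¹ := by
        apply Finset.sum_le_sum
        intro d hd
        rw [Finset.sum_const, nsmul_eq_mul, mul_one, Nat.card_Icc, Nat.add_sub_cancel,
          ← div_eq_mul_inv]
        exact Nat.cast_div_le
    _ = V * ∑ d ∈ Finset.Icc 1 V, ((d : ℝ))⁻¹ := by rw [Finset.mul_sum]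
    _ ≤ V * (1 + Real.log V) := mul_le_mul_of_nonneg_left (QT1_harm V) (Nat.cast_nonneg V)

private theorem QT1_rp (e : ℕ) : (e : ℝ) ^ (-(1 / 2) : ℝ) = (√(e : ℝ))⁻¹ := by
  rw [Real.rpow_neg (Nat.cast_nonneg e), Real.sqrt_eq_rpow]

theorem QT1_a (n : ℕ) : ∑ e ∈ Finset.Icc 1 n, (e : ℝ) ^ (-(1 / 2) : ℝ) ≤ 2 * (n : ℝ) ^ (1 / 2 : ℝ) := by
  rw [← Real.sqrt_eq_rpow]
  induction n with
  | zero => simp
  | succ n ih =>
    rw [Finset.sum_Icc_succ_top (by omega)]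
    have h1 : ((n + 1 : ℕ) : ℝ) ^ (-(1 / 2) : ℝ) ≤ 2 * √((n + 1 : ℕ) : ℝ) - 2 * √(n : ℝ) := by
      rw [QT1_rp]
      have hs : √(n : ℝ) ^ 2 = n := Real.sq_sqrt (Nat.cast_nonneg n)
      have ht : √((n + 1 : ℕ) : ℝ) ^ 2 = n + 1 := by
        rw [Real.sq_sqrt (Nat.cast_nonneg _)]
        push_cast
        ring
      have hs0 : 0 ≤ √(n : ℝ) := Real.sqrt_nonneg _
      have ht0 : 0 < √((n + 1 : ℕ) : ℝ) := by
        apply Real.sqrt_pos.2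
        positivity
      set s := √(n : ℝ)
      set t := √((n + 1 : ℕ) : ℝ)
      rw [inv_le_iff_one_le_mul₀ ht0]
      have h2 : s ≤ t := by
        by_contra hc
        push Not at hc
        nlinarith
      nlinarith [sq_nonneg (t - s)]
    linarith

theorem QT1_half (V : ℕ) (hV : 1 ≤ V) :
    ∑ v ∈ Finset.Icc 1 V, (2 : ℝ) ^ v.primeFactors.card * (v : ℝ) ^ (-(1 / 2) : ℝ) ≤
      2 * (V : ℝ) ^ (1 / 2 : ℝ) * (1 + Real.log V) := by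
  have h1 : ∑ v ∈ Finset.Icc 1 V, (2 : ℝ) ^ v.primeFactors.card * (v : ℝ) ^ (-(1 / 2) : ℝ) ≤
      ∑ v ∈ Finset.Icc 1 V, ∑ x ∈ v.divisorsAntidiagonal,
        (x.1 : ℝ) ^ (-(1 / 2) : ℝ) * (x.2 : ℝ) ^ (-(1 / 2) : ℝ) := by
    apply Finset.sum_le_sum
    intro v hv
    rw [Finset.mem_Icc] at hv
    have h2 : ∑ x ∈ v.divisorsAntidiagonal,
        (x.1 : ℝ) ^ (-(1 / 2) : ℝ) * (x.2 : ℝ) ^ (-(1 / 2) : ℝ) =
        ∑ _x ∈ v.divisorsAntidiagonal, (v : ℝ) ^ (-(1 / 2) : ℝ) := by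
      apply Finset.sum_congr rfl
      intro x hx
      rw [Nat.mem_divisorsAntidiagonal] at hx
      rw [← Real.mul_rpow (Nat.cast_nonneg _) (Nat.cast_nonneg _), ← Nat.cast_mul, hx.1]
    rw [h2, Finset.sum_const, nsmul_eq_mul, ← Nat.map_div_right_divisors, Finset.card_map]
    apply mul_le_mul_of_nonneg_right _ (Real.rpow_nonneg (Nat.cast_nonneg v) _)
    exact_mod_cast QT1_tau v hv.1
  refine h1.trans ?_
  rw [QT1_ex V (fun d e => (d : ℝ) ^ (-(1 / 2) : ℝ) * (e : ℝ) ^ (-(1 / 2) : ℝ))]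
  calc ∑ d ∈ Finset.Icc 1 V, ∑ e ∈ Finset.Icc 1 (V / d),
        (d : ℝ) ^ (-(1 / 2) : ℝ) * (e : ℝ) ^ (-(1 / 2) : ℝ)
      ≤ ∑ d ∈ Finset.Icc 1 V, 2 * (V : ℝ) ^ (1 / 2 : ℝ) * ((d : ℝ))⁻¹ := by
        apply Finset.sum_le_sum
        intro d hd
        rw [Finset.mem_Icc] at hd
        have hd0 : (0 : ℝ) < d := by exact_mod_cast hd.1
        rw [← Finset.mul_sum]
        have h2 := QT1_a (V / d)
        have h3 : ((V / d : ℕ) : ℝ) ^ (1 / 2 : ℝ) ≤ ((V : ℝ) / d) ^ (1 / 2 : ℝ) :=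
          Real.rpow_le_rpow (Nat.cast_nonneg _) Nat.cast_div_le (by norm_num)
        have h4 : ((V : ℝ) / d) ^ (1 / 2 : ℝ) = (V : ℝ) ^ (1 / 2 : ℝ) * (d : ℝ) ^ (-(1 / 2) : ℝ) := by
          rw [Real.div_rpow (Nat.cast_nonneg _) hd0.le, Real.rpow_neg hd0.le, div_eq_mul_inv]
        have h5 : (d : ℝ) ^ (-(1 / 2) : ℝ) * (d : ℝ) ^ (-(1 / 2) : ℝ) = ((d : ℝ))⁻¹ := by
          rw [← Real.rpow_add hd0, ← Real.rpow_neg_one]
          norm_num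
        have h6 : (0 : ℝ) ≤ (d : ℝ) ^ (-(1 / 2) : ℝ) := Real.rpow_nonneg hd0.le _
        calc (d : ℝ) ^ (-(1 / 2) : ℝ) * ∑ e ∈ Finset.Icc 1 (V / d), (e : ℝ) ^ (-(1 / 2) : ℝ)
            ≤ (d : ℝ) ^ (-(1 / 2) : ℝ) * (2 * ((V : ℝ) ^ (1 / 2 : ℝ) * (d : ℝ) ^ (-(1 / 2) : ℝ))) := by
              apply mul_le_mul_of_nonneg_left _ h6
              rw [← h4]
              linarith
          _ = 2 * (V : ℝ) ^ (1 / 2 : ℝ) * ((d : ℝ) ^ (-(1 / 2) : ℝ) * (d : ℝ) ^ (-(1 / 2) : ℝ)) := by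
              ring
          _ = _ := by rw [h5]
    _ = 2 * (V : ℝ) ^ (1 / 2 : ℝ) * ∑ d ∈ Finset.Icc 1 V, ((d : ℝ))⁻¹ := by rw [Finset.mul_sum]
    _ ≤ 2 * (V : ℝ) ^ (1 / 2 : ℝ) * (1 + Real.log V) :=
        mul_le_mul_of_nonneg_left (QT1_harm V) (by positivity)

end RC91
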