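import Pool.Agent.LibRC91.QM

/-!
# [RC91 U0] the five fold divisor function
`T5 n` = number of `(a1, ..., a5)` with product `n`.
PLAN: `T5_mul`: `(ζ ^ 5)` is multiplicative (`ArithmeticFunction.IsMultiplicative.pow` if present, else
`IsMultiplicative.mul` four times, `isMultiplicative_zeta`).
`T5_sqf`: for a prime `p`: `(ζ ^ k) p = k` (induction: `(ζ^(k+1)) p = (ζ^k) 1 * ζ p + (ζ^k) p * ζ 1 = 1 + k`,
`Nat.Prime.divisorsAntidiagonal` or `Nat.Prime.sum_divisors`), then
`IsMultiplicative.map_prod_of_subset_primeFactors` / `map_prod_of_prime` with `∏ p ∈ n.primeFactors, p = n`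
(`Nat.prod_primeFactors_of_squarefree`).
`T5_le`: `(ζ^(k+1)) n = ∑_{d ∣ n} (ζ^k) d ≤ τ(n) * max ≤ τ(n)^k` by induction (for `d ∣ n`: `τ(d) ≤ τ(n)`,
`Nat.divisors_subset_of_dvd`); `ζ^2 = τ` or start from `k = 0`: `(ζ^1) n ≤ 1 = τ(n)^0`.
-/
set_option autoImplicit false
namespace RC91

/-- number of ordered factorizations in five factors -/
noncomputable def T5 (n : ℕ) : ℕ := (ArithmeticFunction.zeta ^ 5 : ArithmeticFunction ℕ) n

/-- powerful: each prime divisor divides twice -/
def Pw (n : ℕ) : Prop := ∀ p : ℕ, p.Prime → p ∣ n → p ^ 2 ∣ n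

open Classical in
/-- `∑_{s ≤ R square free} 5^ω(s)` -/
noncomputable def S5 (R : ℕ) : ℝ :=
  ∑ s ∈ (Finset.Icc 1 R).filter Squarefree, (5 : ℝ) ^ s.primeFactors.card

theorem T5_mul (m n : ℕ) (h : m.Coprime n) : T5 (m * n) = T5 m * T5 n :=
  (ArithmeticFunction.isMultiplicative_zeta.pow (k := 5)).map_mul_of_coprime h

theorem zeta_pow_prime (k : ℕ) (p : ℕ) (hp : p.Prime) :
    (ArithmeticFunction.zeta ^ k : ArithmeticFunction ℕ) p = k := by
  induction k with
  | zero =>
    rw [pow_zero, ArithmeticFunction.one_apply_ne hp.one_lt.ne']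
  | succ k ih =>
    rw [pow_succ, ArithmeticFunction.mul_zeta_apply, Nat.Prime.sum_divisors hp, ih,
      (ArithmeticFunction.isMultiplicative_zeta.pow (k := k)).map_one]

theorem T5_sqf (n : ℕ) (h : Squarefree n) : T5 n = 5 ^ n.primeFactors.card := by
  have h1 := (ArithmeticFunction.isMultiplicative_zeta.pow (k := 5)).map_prod_of_subset_primeFactors
    n n.primeFactors subset_rfl
  rw [Nat.prod_primeFactors_of_squarefree h] at h1
  rw [T5, h1, Finset.prod_congr rfl fun p hp => zeta_pow_prime 5 p (Nat.prime_of_mem_primeFactors hp),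
    Finset.prod_const]

theorem zeta_pow_le (k : ℕ) (n : ℕ) :
    (ArithmeticFunction.zeta ^ (k + 1) : ArithmeticFunction ℕ) n ≤ n.divisors.card ^ k := by
  induction k generalizing n with
  | zero =>
    rw [zero_add, pow_one, pow_zero, ArithmeticFunction.zeta_apply]
    split_ifs <;> omega
  | succ k ih =>
    rw [pow_succ, ArithmeticFunction.mul_zeta_apply]
    calc ∑ i ∈ n.divisors, (ArithmeticFunction.zeta ^ (k + 1) : ArithmeticFunction ℕ) i
        ≤ ∑ _i ∈ n.divisors, n.divisors.card ^ k := by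
          refine Finset.sum_le_sum fun i hi => (ih i).trans ?_
          obtain ⟨hd, hn⟩ := Nat.mem_divisors.1 hi
          exact Nat.pow_le_pow_left (Finset.card_le_card (Nat.divisors_subset_of_dvd hn hd)) _
      _ = n.divisors.card ^ (k + 1) := by
          rw [Finset.sum_const, smul_eq_mul, pow_succ, mul_comm]

theorem T5_le (n : ℕ) : T5 n ≤ n.divisors.card ^ 4 := zeta_pow_le 4 n

end RC91
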