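import Pool.Agent.LibRC91.U0

/-!
# [RC91 U1] the summatory function of the five fold divisor function, lower bound
PLAN: with `y = ⌊R^(1/4)⌋₊` (so `y ≥ 1`, `y^4 ≤ R`). `∑_{n ≤ R} T5 n = ∑_{m ≤ R} (ζ^4) m * (R / m)`
(`ArithmeticFunction.sum_Ioc_mul_zeta_eq_sum` with `f = ζ^4`; `Ioc 0 R = Icc 1 R`). For `1 ≤ m ≤ R`:
`((R / m : ℕ) : ℝ) ≥ R / (2 m)`. So it is `≥ (R/2) ∑_{m ≤ R} (ζ^4)(m)/m`. And
`∑_{m ≤ y^4} (ζ^4)(m)/m ≥ (∑_{a ≤ y} 1/a)^4`: general step `U1_step`: for nonnegative arithmetic `f, g` (real valued)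
`(∑_{a ≤ x} f a/a) (∑_{b ≤ z} g b/b) ≤ ∑_{n ≤ x z} (f * g)(n)/n` (the pairs `(a, b)` with `a ≤ x`, `b ≤ z` are part of
the pairs with product `n ≤ x z`); apply it with `f = ζ^k`, `g = ζ`, `x = y^k`, `z = y`, `k = 1, 2, 3`.
Finally `∑_{a ≤ y} 1/a ≥ log (R^(1/4)) = (log R)/4` (`log_le_harmonic_floor`).
-/
set_option autoImplicit false
namespace RC91

open ArithmeticFunction in
theorem U1_step (f g : ArithmeticFunction ℝ) (hf : ∀ n, 0 ≤ f n) (hg : ∀ n, 0 ≤ g n) (x z : ℕ) :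
    (∑ a ∈ Finset.Icc 1 x, f a / (a : ℝ)) * (∑ b ∈ Finset.Icc 1 z, g b / (b : ℝ)) ≤
      ∑ n ∈ Finset.Icc 1 (x * z), (f * g) n / (n : ℝ) := by
  classical
  rw [Finset.sum_mul_sum, ← Finset.sum_product']
  have hmaps : ∀ p ∈ Finset.Icc 1 x ×ˢ Finset.Icc 1 z, p.1 * p.2 ∈ Finset.Icc 1 (x * z) := by
    intro p hp
    rw [Finset.mem_product, Finset.mem_Icc, Finset.mem_Icc] at hp
    rw [Finset.mem_Icc]
    exact ⟨Nat.mul_pos hp.1.1 hp.2.1, Nat.mul_le_mul hp.1.2 hp.2.2⟩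
  rw [← Finset.sum_fiberwise_of_maps_to hmaps]
  refine Finset.sum_le_sum fun n hn => ?_
  rw [Finset.mem_Icc] at hn
  rw [ArithmeticFunction.mul_apply, Finset.sum_div]
  have h1 : ∑ p ∈ (Finset.Icc 1 x ×ˢ Finset.Icc 1 z).filter (fun p => p.1 * p.2 = n),
      f p.1 / (p.1 : ℝ) * (g p.2 / (p.2 : ℝ)) =
      ∑ p ∈ (Finset.Icc 1 x ×ˢ Finset.Icc 1 z).filter (fun p => p.1 * p.2 = n),
        f p.1 * g p.2 / (n : ℝ) := by
    refine Finset.sum_congr rfl fun p hp => ?_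
    rw [Finset.mem_filter] at hp
    rw [← hp.2, Nat.cast_mul, div_mul_div_comm]
  rw [h1]
  refine Finset.sum_le_sum_of_subset_of_nonneg ?_ fun p _ _ => ?_
  · intro p hp
    rw [Finset.mem_filter] at hp
    rw [Nat.mem_divisorsAntidiagonal]
    exact ⟨hp.2, by omega⟩
  · exact div_nonneg (mul_nonneg (hf _) (hg _)) (Nat.cast_nonneg n)

private theorem U1_cast (k n : ℕ) : (((ArithmeticFunction.zeta : ArithmeticFunction ℕ) :
    ArithmeticFunction ℝ) ^ k) n = (((ArithmeticFunction.zeta ^ k : ArithmeticFunction ℕ) n : ℕ) : ℝ) := by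
  induction k generalizing n with
  | zero =>
    rw [pow_zero, pow_zero, ArithmeticFunction.one_apply, ArithmeticFunction.one_apply]
    split_ifs <;> simp
  | succ k ih =>
    rw [pow_succ, pow_succ, ArithmeticFunction.mul_apply, ArithmeticFunction.mul_apply, Nat.cast_sum]
    refine Finset.sum_congr rfl fun p _ => ?_
    rw [ih, Nat.cast_mul, ArithmeticFunction.natCoe_apply]

private theorem U1_pow (y k : ℕ) : (∑ a ∈ Finset.Icc 1 y, (1 : ℝ) / (a : ℝ)) ^ k ≤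
    ∑ n ∈ Finset.Icc 1 (y ^ k), (((ArithmeticFunction.zeta : ArithmeticFunction ℕ) :
      ArithmeticFunction ℝ) ^ k) n / (n : ℝ) := by
  induction k with
  | zero =>
    rw [pow_zero, pow_zero, pow_zero, Finset.Icc_self, Finset.sum_singleton]
    simp
  | succ k ih =>
    have h0 : 0 ≤ ∑ a ∈ Finset.Icc 1 y, (1 : ℝ) / (a : ℝ) :=
      Finset.sum_nonneg fun a _ => by positivity
    have h1 : ∑ a ∈ Finset.Icc 1 y, (1 : ℝ) / (a : ℝ) =
        ∑ a ∈ Finset.Icc 1 y, ((ArithmeticFunction.zeta : ArithmeticFunction ℕ) :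
          ArithmeticFunction ℝ) a / (a : ℝ) := by
      refine Finset.sum_congr rfl fun a ha => ?_
      rw [Finset.mem_Icc] at ha
      rw [ArithmeticFunction.natCoe_apply, ArithmeticFunction.zeta_apply,
        if_neg (by omega), Nat.cast_one]
    have h2 := U1_step (((ArithmeticFunction.zeta : ArithmeticFunction ℕ) :
      ArithmeticFunction ℝ) ^ k) ((ArithmeticFunction.zeta : ArithmeticFunction ℕ) :
      ArithmeticFunction ℝ) (fun n => by rw [U1_cast]; positivity)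
      (fun n => by rw [ArithmeticFunction.natCoe_apply]; positivity) (y ^ k) y
    rw [pow_succ, pow_succ, pow_succ]
    refine le_trans ?_ h2
    rw [← h1]
    exact mul_le_mul_of_nonneg_right ih h0

theorem U1 (R : ℕ) (hR : 1 ≤ R) :
    (R : ℝ) / 2 * (Real.log R / 4) ^ 4 ≤ ∑ n ∈ Finset.Icc 1 R, (T5 n : ℝ) := by
  have hR1 : (1 : ℝ) ≤ R := by exact_mod_cast hR
  have hR0 : (0 : ℝ) < R := by linarith
  have e1 : ∑ n ∈ Finset.Icc 1 R, (T5 n : ℝ) =
      ∑ n ∈ Finset.Icc 1 R, (((ArithmeticFunction.zeta : ArithmeticFunction ℕ) :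
        ArithmeticFunction ℝ) ^ 4) n * ((R / n : ℕ) : ℝ) := by
    have h := ArithmeticFunction.sum_Ioc_mul_zeta_eq_sum
      (((ArithmeticFunction.zeta : ArithmeticFunction ℕ) : ArithmeticFunction ℝ) ^ 4) R
    have hI : Finset.Ioc 0 R = Finset.Icc 1 R := by
      ext m
      rw [Finset.mem_Ioc, Finset.mem_Icc]
      omega
    rw [hI] at h
    rw [← h]
    refine Finset.sum_congr rfl fun n _ => ?_
    rw [← pow_succ, U1_cast]
    rfl
  have hy0 : (0 : ℝ) ≤ (R : ℝ) ^ ((1 : ℝ) / 4) := by positivity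
  obtain ⟨y, hy⟩ : ∃ y, y = ⌊(R : ℝ) ^ ((1 : ℝ) / 4)⌋₊ := ⟨_, rfl⟩
  have hy4 : y ^ 4 ≤ R := by
    have h1 : (y : ℝ) ≤ (R : ℝ) ^ ((1 : ℝ) / 4) := by
      rw [hy]
      exact Nat.floor_le hy0
    have h2 : ((y : ℝ)) ^ 4 ≤ ((R : ℝ) ^ ((1 : ℝ) / 4)) ^ 4 :=
      pow_le_pow_left₀ (Nat.cast_nonneg y) h1 4
    rw [← Real.rpow_natCast ((R : ℝ) ^ ((1 : ℝ) / 4)) 4, ← Real.rpow_mul hR0.le] at h2
    norm_num at h2
    exact_mod_cast h2
  have hlog : Real.log R / 4 ≤ ∑ a ∈ Finset.Icc 1 y, (1 : ℝ) / (a : ℝ) := by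
    have h1 := log_le_harmonic_floor ((R : ℝ) ^ ((1 : ℝ) / 4)) hy0
    rw [Real.log_rpow hR0, ← hy, harmonic_eq_sum_Icc] at h1
    push_cast at h1
    calc Real.log R / 4 = 1 / 4 * Real.log R := by ring
      _ ≤ _ := h1
      _ = _ := Finset.sum_congr rfl fun a _ => by rw [one_div]
  have hlog0 : 0 ≤ Real.log R / 4 := div_nonneg (Real.log_nonneg hR1) (by norm_num)
  have h4 : (Real.log R / 4) ^ 4 ≤ ∑ n ∈ Finset.Icc 1 R,
      (((ArithmeticFunction.zeta : ArithmeticFunction ℕ) : ArithmeticFunction ℝ) ^ 4) n /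
        (n : ℝ) := by
    refine (pow_le_pow_left₀ hlog0 hlog 4).trans ((U1_pow y 4).trans ?_)
    refine Finset.sum_le_sum_of_subset_of_nonneg (Finset.Icc_subset_Icc_right hy4)
      fun n _ _ => div_nonneg (by rw [U1_cast]; positivity) (Nat.cast_nonneg n)
  rw [e1]
  calc (R : ℝ) / 2 * (Real.log R / 4) ^ 4 ≤ (R : ℝ) / 2 * ∑ n ∈ Finset.Icc 1 R,
      (((ArithmeticFunction.zeta : ArithmeticFunction ℕ) : ArithmeticFunction ℝ) ^ 4) n /
        (n : ℝ) := mul_le_mul_of_nonneg_left h4 (by positivity)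
    _ ≤ _ := by
      rw [Finset.mul_sum]
      refine Finset.sum_le_sum fun n hn => ?_
      rw [Finset.mem_Icc] at hn
      have hn0 : (0 : ℝ) < n := by exact_mod_cast hn.1
      have hq : (R : ℝ) / (2 * n) ≤ ((R / n : ℕ) : ℝ) := by
        have h1 : 1 ≤ R / n := Nat.div_pos hn.2 hn.1
        have h2 : R < n * (R / n) + n := by
          have := Nat.div_add_mod R n
          have := Nat.mod_lt R hn.1
          omega
        have h3 : R ≤ 2 * n * (R / n) := by nlinarith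
        rw [div_le_iff₀ (by positivity)]
        have h5 : (R : ℝ) ≤ 2 * n * ((R / n : ℕ) : ℝ) := by exact_mod_cast h3
        linarith
      have hz : 0 ≤ (((ArithmeticFunction.zeta : ArithmeticFunction ℕ) :
          ArithmeticFunction ℝ) ^ 4) n := by
        rw [U1_cast]
        positivity
      calc (R : ℝ) / 2 * ((((ArithmeticFunction.zeta : ArithmeticFunction ℕ) :
          ArithmeticFunction ℝ) ^ 4) n / (n : ℝ)) =
          (((ArithmeticFunction.zeta : ArithmeticFunction ℕ) :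
          ArithmeticFunction ℝ) ^ 4) n * ((R : ℝ) / (2 * n)) := by
            field_simp
        _ ≤ _ := mul_le_mul_of_nonneg_left hq hz

end RC91
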