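import Pool.Agent.LibRC91.Defs

/-!
# [RC91 V1] elementary properties of the valuation `vl`
`vl v a = FractionalIdeal.count K v (spanSingleton a)`. Mathlib file
`Mathlib/RingTheory/DedekindDomain/Factorization.lean`: `count_mul`, `count_pow`, `count_inv`, `count_zero`,
`count_one`, `count_coe_nonneg`, `count_mono` (`I ≤ J → count J ≤ count I`), `count_coe`.
PLAN: `spanSingleton (a*b) = spanSingleton a * spanSingleton b`; `V1_int`: `a` comes from `𝓞 K`, so
`spanSingleton a` is the coercion of the ideal `span {a}`; `V1_add`: `spanSingleton (a+b) ≤ spanSingleton a ⊔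
spanSingleton b`, the count of a sup of two fractional ideals is the min of the counts (multiply by a common
denominator and use `Ideal` factorisations, e.g. `multiplicity_sup`; or go through the valuation
`v.valuation K`: `v.valuation K a = exp (- vl v a)` and its ultrametric inequality);
`V1_mem`: for an integer `n ≠ 0`, `(n : 𝓞 K) ∈ v.asIdeal ↔ 0 < vl v n` (`v.asIdeal ∣ span {n}`);
`V1_nat`: write `n = p^k * n'` with `p ∤ n'` (then `n' ∉ v`: otherwise `1 = a p + b n' ∈ v`).
-/
set_option autoImplicit false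
open NumberField nonZeroDivisors IsDedekindDomain
namespace RC91

variable {K : Type} [Field K] [NumberField K] (v : HeightOneSpectrum (𝓞 K))

theorem V1_mul (a b : K) (ha : a ≠ 0) (hb : b ≠ 0) : vl v (a * b) = vl v a + vl v b := by
  unfold vl
  rw [← FractionalIdeal.spanSingleton_mul_spanSingleton]
  exact FractionalIdeal.count_mul K v (FractionalIdeal.spanSingleton_ne_zero_iff.mpr ha)
    (FractionalIdeal.spanSingleton_ne_zero_iff.mpr hb)

theorem V1_one : vl v (1 : K) = 0 := by
  unfold vl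
  rw [FractionalIdeal.spanSingleton_one]
  exact FractionalIdeal.count_one K v

theorem V1_pow (a : K) (n : ℕ) : vl v (a ^ n) = n * vl v a := by
  unfold vl
  rw [← FractionalIdeal.spanSingleton_pow]
  exact FractionalIdeal.count_pow K v n _

theorem V1_neg (a : K) : vl v (-a) = vl v a := by
  by_cases ha : a = 0
  · rw [ha, neg_zero]
  · have h1 := V1_mul v (-1) (-1) (neg_ne_zero.mpr one_ne_zero) (neg_ne_zero.mpr one_ne_zero)
    rw [neg_mul_neg, one_mul, V1_one] at h1
    have h2 := V1_mul v (-1) a (neg_ne_zero.mpr one_ne_zero) ha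
    rw [neg_one_mul] at h2
    omega

theorem V1_int (a : K) (ha : IsIntegral ℤ a) : 0 ≤ vl v a := by
  obtain ⟨b, rfl⟩ : ∃ b : 𝓞 K, algebraMap (𝓞 K) K b = a := ⟨⟨a, ha⟩, rfl⟩
  unfold vl
  rw [← FractionalIdeal.coeIdeal_span_singleton b]
  exact FractionalIdeal.count_coe_nonneg K v _

private theorem V1_val_int (r : 𝓞 K) (hr : r ≠ 0) :
    v.valuation K (algebraMap (𝓞 K) K r) = WithZero.exp (-(vl v (algebraMap (𝓞 K) K r))) := by
  rw [HeightOneSpectrum.valuation_of_algebraMap, HeightOneSpectrum.intValuation_if_neg v hr]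
  unfold vl
  have hs : Ideal.span {r} ≠ 0 := by
    intro h
    exact hr (Ideal.span_singleton_eq_bot.mp h)
  rw [← FractionalIdeal.coeIdeal_span_singleton r, FractionalIdeal.count_coe K v hs]

private theorem V1_val (a : K) (ha : a ≠ 0) :
    v.valuation K a = WithZero.exp (-(vl v a)) := by
  obtain ⟨n, d, hd, hnd⟩ := IsFractionRing.div_surjective (A := 𝓞 K) a
  have hd0 : d ≠ 0 := nonZeroDivisors.ne_zero hd
  have hd1 : algebraMap (𝓞 K) K d ≠ 0 := by
    rwa [Ne, FaithfulSMul.algebraMap_eq_zero_iff]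
  have hn0 : n ≠ 0 := by
    rintro rfl
    apply ha
    rw [← hnd, map_zero, zero_div]
  have h1 : a * algebraMap (𝓞 K) K d = algebraMap (𝓞 K) K n := by
    rw [← hnd]
    field_simp
  have h2 := V1_mul v a _ ha hd1
  rw [h1] at h2
  have h3 := congrArg (v.valuation K) h1
  rw [map_mul, V1_val_int v d hd0, V1_val_int v n hn0, h2] at h3
  have h4 : WithZero.exp (-(vl v (algebraMap (𝓞 K) K d))) ≠ 0 := WithZero.exp_ne_zero
  have h5 : WithZero.exp (-(vl v a + vl v (algebraMap (𝓞 K) K d))) =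
      WithZero.exp (-(vl v a)) * WithZero.exp (-(vl v (algebraMap (𝓞 K) K d))) := by
    rw [← WithZero.exp_add]
    congr 1
    ring
  rw [h5] at h3
  exact mul_right_cancel₀ h4 h3

theorem V1_add (a b : K) (ha : a ≠ 0) (hb : b ≠ 0) (hab : a + b ≠ 0) :
    min (vl v a) (vl v b) ≤ vl v (a + b) := by
  have h1 := Valuation.map_add (v.valuation K) a b
  rw [V1_val v a ha, V1_val v b hb, V1_val v _ hab, le_max_iff, WithZero.exp_le_exp,
    WithZero.exp_le_exp] at h1
  omega

theorem V1_mem (n : ℤ) (hn : n ≠ 0) : ((n : 𝓞 K) ∈ v.asIdeal ↔ 0 < vl v (n : K)) := by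
  have hn' : (n : K) ≠ 0 := by exact_mod_cast hn
  have e : algebraMap (𝓞 K) K (n : 𝓞 K) = (n : K) := map_intCast _ n
  have h1 := HeightOneSpectrum.valuation_lt_one_iff_mem (K := K) v (n : 𝓞 K)
  change v.valuation K (algebraMap (𝓞 K) K (n : 𝓞 K)) < 1 ↔ _ at h1
  rw [e, V1_val v _ hn', ← WithZero.exp_zero, WithZero.exp_lt_exp] at h1
  rw [← h1]
  omega

/-- every prime of `K` lies over exactly one rational prime -/
theorem V1_char : ∃ p : ℕ, p.Prime ∧ ∀ n : ℤ, ((n : 𝓞 K) ∈ v.asIdeal ↔ (p : ℤ) ∣ n) := by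
  set J : Ideal ℤ := v.asIdeal.comap (algebraMap ℤ (𝓞 K)) with hJ
  have hJp : J.IsPrime := Ideal.IsPrime.comap _ (hK := v.isPrime)
  have hm : ∀ n : ℤ, (n : 𝓞 K) ∈ v.asIdeal ↔ n ∈ J := by
    intro n
    rw [hJ, Ideal.mem_comap]
    rfl
  have hJ0 : J ≠ ⊥ := by
    intro h0
    have h1 : ((Ideal.absNorm v.asIdeal : ℤ) : 𝓞 K) ∈ v.asIdeal := by
      have := Ideal.absNorm_mem v.asIdeal
      exact_mod_cast this
    rw [hm, h0, Ideal.mem_bot] at h1
    have h2 : Ideal.absNorm v.asIdeal = 0 := by exact_mod_cast h1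
    exact v.ne_bot (Ideal.absNorm_eq_zero_iff.mp h2)
  have hpr := Submodule.IsPrincipal.prime_generator_of_isPrime J hJ0
  refine ⟨(Submodule.IsPrincipal.generator J).natAbs, Int.prime_iff_natAbs_prime.mp hpr,
    fun n => ?_⟩
  rw [hm, Int.natAbs_dvd, ← Submodule.IsPrincipal.mem_iff_generator_dvd]

theorem V1_nat (p : ℕ) (hp : p.Prime) (hv : (p : 𝓞 K) ∈ v.asIdeal) (n : ℤ) (hn : n ≠ 0) :
    vl v (n : K) = vl v (p : K) * (padicValInt p n : ℤ) := by
  have := Fact.mk hp
  obtain ⟨m, hm⟩ := pow_padicValNat_dvd (p := p) (n := n.natAbs)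
  have hn0 : n.natAbs ≠ 0 := Int.natAbs_ne_zero.mpr hn
  have hpm : ¬ p ∣ m := by
    rintro ⟨c, hc⟩
    apply pow_succ_padicValNat_not_dvd (p := p) hn0
    refine ⟨c, ?_⟩
    rw [pow_succ, mul_assoc, ← hc]
    exact hm
  have hm0 : m ≠ 0 := fun h => hpm (h ▸ dvd_zero p)
  have hmK : (m : K) ≠ 0 := by exact_mod_cast hm0
  have hpK : (p : K) ≠ 0 := by exact_mod_cast hp.ne_zero
  have hvm : vl v (m : K) = 0 := by
    have h1 : 0 ≤ vl v (m : K) := V1_int v _ (by
      have := isIntegral_algebraMap (R := ℤ) (A := K) (x := (m : ℤ))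
      simpa using this)
    have h2 : ¬ 0 < vl v (m : K) := by
      intro h3
      have h4 : ((m : ℤ) : 𝓞 K) ∈ v.asIdeal := by
        rw [V1_mem v (m : ℤ) (by exact_mod_cast hm0)]
        simpa using h3
      have h5 : IsCoprime (p : ℤ) (m : ℤ) := by
        rw [Nat.isCoprime_iff_coprime]
        exact (Nat.Prime.coprime_iff_not_dvd hp).mpr hpm
      obtain ⟨a, b, hab⟩ := h5
      apply v.isPrime.ne_top
      rw [Ideal.eq_top_iff_one]
      have h6 : (1 : 𝓞 K) = (a : 𝓞 K) * (p : 𝓞 K) + (b : 𝓞 K) * ((m : ℤ) : 𝓞 K) := by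
        have := congrArg (fun z : ℤ => (z : 𝓞 K)) hab
        push_cast at this
        push_cast
        exact this.symm
      rw [h6]
      exact v.asIdeal.add_mem (v.asIdeal.mul_mem_left _ hv) (v.asIdeal.mul_mem_left _ h4)
    omega
  have habs : vl v (n : K) = vl v ((n.natAbs : ℤ) : K) := by
    rcases Int.natAbs_eq n with h | h
    · rw [← h]
    · have h7 : (n : K) = -(((n.natAbs : ℤ)) : K) := by
        have := congrArg (fun z : ℤ => (z : K)) h
        push_cast at this
        push_cast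
        exact this
      rw [h7, V1_neg]
  rw [habs]
  have h8 : ((n.natAbs : ℤ) : K) = (p : K) ^ (padicValNat p n.natAbs) * (m : K) := by
    have := congrArg (fun z : ℕ => (z : K)) hm
    simp only [Nat.cast_mul, Nat.cast_pow] at this
    rw [Int.cast_natCast]
    exact this
  rw [h8, V1_mul v _ _ (pow_ne_zero _ hpK) hmK, V1_pow, hvm, add_zero]
  unfold padicValInt
  ring

end RC91
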